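import Pool.Agent.W756.LC3

/-!
# MP_2cd50e_an, part B: the local contraction property
-/

set_option autoImplicit false

namespace Pool.Agent.W756.LC

theorem complex_ineq {L : ℝ} (hL : 5000 ≤ L) (s : ℝ) (p q w : ℂ) :
    (s + 1) * ‖p‖ ^ 2 + (s + 2) * ‖q + (((s + 1) * (19 / 10) : ℝ) : ℂ) * p‖ ^ 2
      + (s + 3) * ‖w + (((s + 2) * (19 / 10) : ℝ) : ℂ) * q
        + (((s + 1) * (74 / 25 + s / 2 * (361 / 100)) : ℝ) : ℂ) * p‖ ^ 2
      ≤ (s + 1) * (Real.exp (2 * L * (s + 1)) * ‖p‖ ^ 2)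
        + (s + 2) * (Real.exp (2 * L * (s + 2)) * ‖q‖ ^ 2)
        + (s + 3) * (Real.exp (2 * L * (s + 3)) * ‖w‖ ^ 2) := by
  have h1 := real_ineq hL s p.re q.re w.re
  have h2 := real_ineq hL s p.im q.im w.im
  simp only [← Complex.normSq_eq_norm_sq, Complex.normSq_apply, Complex.add_re, Complex.add_im,
    Complex.re_ofReal_mul, Complex.im_ofReal_mul]
  nlinarith [h1, h2]

theorem local_contraction {β : ℝ} (hβ : 0 < β) (hβ1 : β ≤ Real.exp (-5000)) (b : ℕ → ℂ)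
    (h1 : b 1 = (β : ℂ)) (h2 : b 2 = ((19 / 10 * β : ℝ) : ℂ)) (h3 : b 3 = ((74 / 25 * β : ℝ) : ℂ))
    (ν : ℝ) (a : ℕ → ℂ) :
    ∑ m ∈ Finset.Icc 1 (3 : ℕ), (ν + (m : ℝ)) *
          ‖∑ n ∈ Finset.Icc 1 m, a n * ((((b 1).re ^ (ν + (n : ℝ)) : ℝ)) : ℂ) *
            ∑ j ∈ Finset.range (m - n + 1),
              (∏ i ∈ Finset.range j, ((((ν + (n : ℝ)) : ℝ) : ℂ) - (i : ℂ))) / ((j.factorial : ℕ) : ℂ) *
              ((∑ k ∈ Finset.Ico 1 (3 : ℕ), Polynomial.C (b (k + 1) / b 1) * Polynomial.X ^ k) ^ j).coeff (m - n)‖ ^ 2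
        ≤ ∑ n ∈ Finset.Icc 1 (3 : ℕ), (ν + (n : ℝ)) * ‖a n‖ ^ 2 := by
  have hβ' : (β : ℂ) ≠ 0 := by exact_mod_cast hβ.ne'
  have c1 : b 2 / b 1 = 19 / 10 := by rw [h1, h2]; push_cast; field_simp
  have c2 : b 3 / b 1 = 74 / 25 := by rw [h1, h3]; push_cast; field_simp
  have hre : (b 1).re = β := by rw [h1, Complex.ofReal_re]
  obtain ⟨L, hLdef⟩ : ∃ L : ℝ, L = -Real.log β := ⟨_, rfl⟩
  have hL : 5000 ≤ L := by
    have : Real.log β ≤ -5000 := by
      rw [← Real.log_exp (-5000)]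
      exact Real.log_le_log hβ hβ1
    linarith
  have hpow : ∀ d : ℝ, (β ^ d) ^ 2 * Real.exp (2 * L * d) = 1 := by
    intro d
    rw [Real.rpow_def_of_pos hβ, ← Real.exp_nat_mul, ← Real.exp_add, hLdef]
    rw [show ((2 : ℕ) : ℝ) * (Real.log β * d) + 2 * -Real.log β * d = 0 by push_cast; ring,
      Real.exp_zero]
  set P : Polynomial ℂ := ∑ k ∈ Finset.Ico 1 (3 : ℕ), Polynomial.C (b (k + 1) / b 1) * Polynomial.X ^ k
    with hP
  have hP1 : P = Polynomial.C (19 / 10) * Polynomial.X + Polynomial.C (74 / 25) * Polynomial.X ^ 2 := by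
    rw [hP, Finset.sum_Ico_succ_top (by norm_num), Finset.sum_Ico_succ_top (by norm_num)]
    simp only [Finset.Ico_self, Finset.sum_empty, zero_add, pow_one]
    rw [show (1 + 1 : ℕ) = 2 by rfl, show (2 + 1 : ℕ) = 3 by rfl, c1, c2]
  have k00 : (P ^ 0).coeff 0 = 1 := by simp
  have k01 : (P ^ 0).coeff 1 = 0 := by simp [Polynomial.coeff_one]
  have k02 : (P ^ 0).coeff 2 = 0 := by simp [Polynomial.coeff_one]
  have k11 : (P ^ 1).coeff 1 = 19 / 10 := by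
    rw [hP1]
    simp [Polynomial.coeff_X_pow]
  have k12 : (P ^ 1).coeff 2 = 74 / 25 := by
    rw [hP1]
    simp [Polynomial.coeff_X_pow]
  have k22 : (P ^ 2).coeff 2 = 361 / 100 := by
    have e : P ^ 2 = Polynomial.C (361 / 100) * Polynomial.X ^ 2
        + Polynomial.C (2 * (19 / 10) * (74 / 25)) * Polynomial.X ^ 3
        + Polynomial.C ((74 / 25) ^ 2) * Polynomial.X ^ 4 := by
      rw [hP1]
      have : (Polynomial.C (361 / 100 : ℂ)) = Polynomial.C (19 / 10) ^ 2 := by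
        rw [← Polynomial.C_pow]; norm_num
      rw [this]
      simp only [Polynomial.C_mul, Polynomial.C_pow, map_ofNat]
      ring
    rw [e]
    simp only [Polynomial.coeff_add, Polynomial.coeff_C_mul, Polynomial.coeff_X_pow]
    norm_num
  rw [hre]
  simp only [Finset.sum_Icc_succ_top (show 1 ≤ 2 + 1 by norm_num),
    Finset.sum_Icc_succ_top (show 1 ≤ 1 + 1 by norm_num), Finset.Icc_self, Finset.sum_singleton,
    Nat.sub_self, zero_add, Finset.sum_range_one, Finset.prod_range_zero, Nat.factorial_zero,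
    Nat.cast_one, k00, div_one, mul_one]
  norm_num [Finset.sum_range_succ, Finset.prod_range_succ, k22]
  rw [pow_one] at k11 k12
  rw [pow_zero] at k01 k02
  rw [k11, k12, k01, k02]
  have hE : ∀ (n : ℕ) (d : ℝ), Real.exp (2 * L * d) * ‖a n * ((β ^ d : ℝ) : ℂ)‖ ^ 2 = ‖a n‖ ^ 2 := by
    intro n d
    rw [norm_mul, mul_pow, Complex.norm_real, Real.norm_eq_abs, sq_abs]
    linear_combination ‖a n‖ ^ 2 * hpow d
  have key := complex_ineq hL ν (a 1 * ((β ^ (ν + 1) : ℝ) : ℂ)) (a 2 * ((β ^ (ν + 2) : ℝ) : ℂ))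
    (a 3 * ((β ^ (ν + 3) : ℝ) : ℂ))
  rw [hE, hE, hE] at key
  refine le_trans (le_of_eq ?_) key
  have n1 : ‖a 1‖ * |β ^ (ν + 1)| = ‖a 1 * ((β ^ (ν + 1) : ℝ) : ℂ)‖ := by
    rw [norm_mul, Complex.norm_real, Real.norm_eq_abs]
  rw [n1]
  congr 4
  · congr 1
    push_cast
    ring
  · push_cast
    ring

end Pool.Agent.W756.LC
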