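import Mathlib

set_option autoImplicit false
open MeasureTheory Filter Topology Metric Set
open scoped ENNReal

namespace Pool.Agent.W756.RK

/-- the plane -/
abbrev E := EuclideanSpace ℝ (Fin 2)

/-- coordinates as a measurable equivalence -/
noncomputable def eqv : E ≃ᵐ ℝ × ℝ :=
  (MeasurableEquiv.toLp 2 (Fin 2 → ℝ)).symm.trans MeasurableEquiv.finTwoArrow

lemma eqv_apply (y : E) : eqv y = (y 0, y 1) := rfl

lemma eqv_mp : MeasurePreserving (eqv : E → ℝ × ℝ) volume volume := by
  have h1 := EuclideanSpace.volume_preserving_symm_measurableEquiv_toLp (Fin 2)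
  have h2 := volume_preserving_finTwoArrow ℝ
  exact h2.comp h1

/-- weighted measure in the coordinates `(u, s)`, `s` the slope -/
noncomputable def mu' : Measure (ℝ × ℝ) :=
  (volume : Measure (ℝ × ℝ)).withDensity (fun p => ENNReal.ofReal |p.1|)

/-- the slope parametrisation -/
noncomputable def Psi (p : ℝ × ℝ) : E := eqv.symm (p.1, p.1 * p.2)

lemma Psi_zero (p : ℝ × ℝ) : (Psi p) 0 = p.1 := by
  have : eqv (Psi p) = (p.1, p.1 * p.2) := by simp [Psi]
  rw [eqv_apply] at this
  exact (Prod.ext_iff.mp this).1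

lemma Psi_one (p : ℝ × ℝ) : (Psi p) 1 = p.1 * p.2 := by
  have : eqv (Psi p) = (p.1, p.1 * p.2) := by simp [Psi]
  rw [eqv_apply] at this
  exact (Prod.ext_iff.mp this).2

lemma Psi_meas : Measurable Psi := by
  unfold Psi
  exact eqv.symm.measurable.comp (by fun_prop)

lemma shear_map : Measure.map (fun p : ℝ × ℝ => (p.1, p.1 * p.2)) mu' = volume := by
  have hm : Measurable (fun p : ℝ × ℝ => (p.1, p.1 * p.2)) := by fun_prop
  ext A hA
  rw [Measure.map_apply hm hA, mu', withDensity_apply _ (hm hA), ← lintegral_indicator (hm hA)]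
  rw [Measure.volume_eq_prod, lintegral_prod _ (by
    apply Measurable.aemeasurable
    apply Measurable.indicator _ (hm hA)
    fun_prop)]
  rw [Measure.prod_apply hA]
  have h0 : ∀ᵐ u : ℝ, u ≠ 0 := by
    simp [ae_iff]
  apply lintegral_congr_ae
  filter_upwards [h0] with u hu
  have h1 : ∀ s : ℝ, ((fun p : ℝ × ℝ => (p.1, p.1 * p.2)) ⁻¹' A).indicator
      (fun p : ℝ × ℝ => ENNReal.ofReal |p.1|) (u, s) =
      ENNReal.ofReal |u| * ((fun s => u * s) ⁻¹' (Prod.mk u ⁻¹' A)).indicator 1 s := by
    intro s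
    by_cases hs : (u, u * s) ∈ A
    · rw [indicator_of_mem (by exact hs), indicator_of_mem (by exact hs)]; simp
    · rw [indicator_of_notMem (by exact hs), indicator_of_notMem (by exact hs)]; simp
  simp_rw [h1]
  have hmA : MeasurableSet (Prod.mk u ⁻¹' A) := measurable_prodMk_left hA
  have hmB : MeasurableSet ((fun s => u * s) ⁻¹' (Prod.mk u ⁻¹' A)) :=
    (measurable_const_mul u) hmA
  rw [lintegral_const_mul _ (Measurable.indicator measurable_one hmB),
    lintegral_indicator_one hmB, Real.volume_preimage_mul_left hu, ← mul_assoc,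
    ← ENNReal.ofReal_mul (abs_nonneg _), abs_inv, mul_inv_cancel₀ (abs_ne_zero.mpr hu)]
  simp

lemma Psi_map : Measure.map Psi mu' = (volume : Measure E) := by
  have h1 : Psi = eqv.symm ∘ (fun p : ℝ × ℝ => (p.1, p.1 * p.2)) := rfl
  rw [h1, ← Measure.map_map eqv.symm.measurable (by fun_prop), shear_map]
  exact (eqv_mp.symm eqv).map_eq

/-- integrability in slope coordinates -/
lemma integrable_iff {Φ : E → ℝ} (hΦ : AEStronglyMeasurable Φ volume) :
    Integrable Φ volume ↔ Integrable (fun p : ℝ × ℝ => |p.1| * Φ (Psi p)) volume := by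
  rw [← Psi_map] at hΦ ⊢
  rw [integrable_map_measure hΦ Psi_meas.aemeasurable, mu',
    integrable_withDensity_iff_integrable_smul' (by fun_prop) (by simp)]
  apply integrable_congr
  refine Eventually.of_forall fun p => ?_
  simp [ENNReal.toReal_ofReal (abs_nonneg _)]

lemma integral_eq {Φ : E → ℝ} (hΦ : AEStronglyMeasurable Φ volume) :
    ∫ y, Φ y = ∫ p : ℝ × ℝ, |p.1| * Φ (Psi p) := by
  rw [← Psi_map] at hΦ ⊢
  rw [integral_map Psi_meas.aemeasurable hΦ, mu',
    integral_withDensity_eq_integral_toReal_smul (by fun_prop) (by simp)]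
  congr 1
  ext p
  simp [ENNReal.toReal_ofReal (abs_nonneg _)]

/-- basic integrability -/
lemma basic_int {ω b : ℝ → ℝ} (hω : Integrable ω) (hωm : Measurable ω)
    (hb : Integrable (fun u => |u| * b u)) (hbm : Measurable b) :
    Integrable (fun y : E => ω (y 1 / y 0) * b (y 0)) volume := by
  have hm : Measurable (fun y : E => ω (y 1 / y 0) * b (y 0)) := by
    have h0 : Measurable (fun y : E => y 0) := by fun_prop
    have h1 : Measurable (fun y : E => y 1) := by fun_prop
    exact (hωm.comp (h1.div h0)).mul (hbm.comp h0)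
  rw [integrable_iff hm.aestronglyMeasurable]
  have h2 : Integrable (fun p : ℝ × ℝ => (|p.1| * b p.1) * ω p.2) volume := by
    rw [Measure.volume_eq_prod]
    exact Integrable.mul_prod hb hω
  refine h2.congr ?_
  have h0 : ∀ᵐ p : ℝ × ℝ, p.1 ≠ 0 := by
    have h3 : ∀ᵐ u : ℝ, u ≠ 0 := by simp [ae_iff]
    rw [Measure.volume_eq_prod]
    exact (Measure.quasiMeasurePreserving_fst (μ := (volume : Measure ℝ))
      (ν := (volume : Measure ℝ))).ae h3
  filter_upwards [h0] with p hp
  rw [Psi_zero, Psi_one, mul_div_cancel_left₀ _ hp]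
  ring

end Pool.Agent.W756.RK
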