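import Mathlib
import Pool.Agent.W756.RK1

set_option autoImplicit false
open MeasureTheory Filter Topology Metric Set
open scoped ENNReal

namespace Pool.Agent.W756.RK

/-- the kernel with angular profile `ω` (a function of the slope) -/
noncomputable def kk (ω : ℝ → ℝ) (y : E) : ℝ := ω (y 1 / y 0) * (y 0 * |y 0|)⁻¹

lemma kk_meas {ω : ℝ → ℝ} (hω : Measurable ω) : Measurable (kk ω) := by
  have h0 : Measurable (fun y : E => y 0) := by fun_prop
  have h1 : Measurable (fun y : E => y 1) := by fun_prop
  exact (hω.comp (h1.div h0)).mul ((h0.mul h0.abs).inv)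

lemma kk_neg (ω : ℝ → ℝ) (y : E) : kk ω (-y) = - kk ω y := by
  unfold kk
  simp only [PiLp.neg_apply, neg_div_neg_eq, abs_neg, neg_mul, inv_neg, mul_neg]

lemma kk_smul (ω : ℝ → ℝ) (y : E) {t : ℝ} (ht : 0 < t) :
    kk ω (t • y) = t ^ (-(2 : ℤ)) * kk ω y := by
  unfold kk
  simp only [PiLp.smul_apply, smul_eq_mul, mul_div_mul_left _ _ ht.ne']
  rw [abs_mul, abs_of_pos ht, show t * y 0 * (t * |y 0|) = t ^ 2 * (y 0 * |y 0|) by ring, mul_inv,
    zpow_neg]
  norm_cast
  ring

/-- the slope is in the unit interval where the kernel is nonzero -/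
lemma norm_bd {y : E} (h : y 1 / y 0 ∈ Icc (0 : ℝ) 1) (h0 : y 0 ≠ 0) : ‖y‖ ≤ 2 * |y 0| := by
  rw [EuclideanSpace.norm_eq, Fin.sum_univ_two]
  apply Real.sqrt_le_iff.mpr
  refine ⟨by positivity, ?_⟩
  simp only [Real.norm_eq_abs, sq_abs]
  have h1 : |y 1| ≤ |y 0| := by
    have h2 : y 1 = (y 1 / y 0) * y 0 := by field_simp
    rw [h2, abs_mul]
    have h3 : |y 1 / y 0| ≤ 1 := abs_le.mpr ⟨by linarith [h.1], h.2⟩
    nlinarith [abs_nonneg (y 0)]
  have h2 : (y 1) ^ 2 ≤ (y 0) ^ 2 := sq_le_sq.mpr h1
  rw [mul_pow, sq_abs]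
  nlinarith [sq_nonneg (y 0)]

lemma abs_le_norm (y : E) : |y 0| ≤ ‖y‖ := by
  have := PiLp.norm_apply_le y 0
  simpa using this

section
variable {ω : ℝ → ℝ} (hωm : Measurable ω) (hω0 : ∀ s, s ∉ Icc (0 : ℝ) 1 → ω s = 0)
include hωm hω0

lemma inv_int {a b : ℝ} (ha : 0 < a) (c : ℝ) :
    Integrable (fun u : ℝ => |u| * ((Icc a b).indicator (fun _ => c) |u|)) := by
  have h1 : Integrable (fun u : ℝ => (Icc (-b) b).indicator (fun _ => b * |c|) u) := by
    rw [integrable_indicator_iff measurableSet_Icc]
    exact integrableOn_const (by simp)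
  refine h1.mono' ?_ (Eventually.of_forall fun u => ?_)
  · apply Measurable.aestronglyMeasurable
    exact measurable_id.abs.mul ((measurable_const.indicator measurableSet_Icc).comp
      measurable_id.abs)
  · by_cases hu : |u| ∈ Icc a b
    · rw [indicator_of_mem hu, indicator_of_mem (show u ∈ Icc (-b) b from abs_le.mp hu.2),
        Real.norm_eq_abs, abs_mul, abs_abs]
      exact mul_le_mul_of_nonneg_right hu.2 (abs_nonneg _)
    · rw [indicator_of_notMem hu, mul_zero, norm_zero]
      apply indicator_nonneg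
      intro x hx
      have : 0 ≤ b := by have := hx.1.trans hx.2; linarith
      positivity

/-- integrability of the kernel on annuli -/
lemma kk_ann (hωi : Integrable ω) {a b : ℝ} (ha : 0 < a) :
    IntegrableOn (kk ω) {x : E | a ≤ ‖x‖ ∧ ‖x‖ ≤ b} volume := by
  have hms : MeasurableSet {x : E | a ≤ ‖x‖ ∧ ‖x‖ ≤ b} :=
    (measurableSet_le measurable_const measurable_norm).inter
      (measurableSet_le measurable_norm measurable_const)
  rw [← integrable_indicator_iff hms]
  have h1 := basic_int hωi.abs hωm.abs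
    (b := fun u => (Icc (a/2) b).indicator (fun _ => (a / 2) ^ (-2 : ℤ)) |u|)
    (inv_int hωm hω0 (by positivity) _)
    ((measurable_const.indicator measurableSet_Icc).comp measurable_id.abs)
  refine h1.mono' ((kk_meas hωm).indicator hms).aestronglyMeasurable
    (Eventually.of_forall fun y => ?_)
  by_cases hy : y ∈ {x : E | a ≤ ‖x‖ ∧ ‖x‖ ≤ b}
  · rw [indicator_of_mem hy]
    by_cases hs : y 1 / y 0 ∈ Icc (0 : ℝ) 1
    · by_cases h0 : y 0 = 0
      · unfold kk
        rw [h0]
        simp only [zero_mul, inv_zero, mul_zero, norm_zero]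
        apply mul_nonneg (abs_nonneg _)
        apply indicator_nonneg
        intro x _
        positivity
      · have h2 := norm_bd hs h0
        have h3 := abs_le_norm y
        have h4 : |y 0| ∈ Icc (a/2) b := ⟨by linarith [hy.1], h3.trans hy.2⟩
        unfold kk
        rw [indicator_of_mem h4, norm_mul, Real.norm_eq_abs]
        apply mul_le_mul_of_nonneg_left _ (abs_nonneg _)
        rw [norm_inv, norm_mul, Real.norm_eq_abs, Real.norm_eq_abs, abs_abs, zpow_neg]
        norm_cast
        apply inv_anti₀ (by positivity)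
        have := h4.1
        nlinarith
    · unfold kk
      rw [hω0 _ hs, zero_mul, norm_zero, abs_zero, zero_mul]
  · rw [indicator_of_notMem hy, norm_zero]
    apply mul_nonneg (abs_nonneg _)
    apply indicator_nonneg
    intro x _
    positivity

/-- integrability of the square of the kernel on annuli -/
lemma kk_sq_ann (hωi : Integrable (fun s => ω s ^ 2)) {a b : ℝ} (ha : 0 < a) :
    IntegrableOn (fun y => kk ω y ^ 2) {x : E | a ≤ ‖x‖ ∧ ‖x‖ ≤ b} volume := by
  have hms : MeasurableSet {x : E | a ≤ ‖x‖ ∧ ‖x‖ ≤ b} :=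
    (measurableSet_le measurable_const measurable_norm).inter
      (measurableSet_le measurable_norm measurable_const)
  rw [← integrable_indicator_iff hms]
  have h1 := basic_int hωi (hωm.pow_const 2)
    (b := fun u => (Icc (a/2) b).indicator (fun _ => (a / 2) ^ (-4 : ℤ)) |u|)
    (inv_int hωm hω0 (by positivity) _)
    ((measurable_const.indicator measurableSet_Icc).comp measurable_id.abs)
  refine h1.mono' (((kk_meas hωm).pow_const 2).indicator hms).aestronglyMeasurable
    (Eventually.of_forall fun y => ?_)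
  by_cases hy : y ∈ {x : E | a ≤ ‖x‖ ∧ ‖x‖ ≤ b}
  · rw [indicator_of_mem hy]
    by_cases hs : y 1 / y 0 ∈ Icc (0 : ℝ) 1
    · by_cases h0 : y 0 = 0
      · unfold kk
        rw [h0]
        simp only [zero_mul, inv_zero, mul_zero, norm_zero]
        rw [zero_pow two_ne_zero, norm_zero]
        apply mul_nonneg (sq_nonneg _)
        apply indicator_nonneg
        intro x _
        positivity
      · have h2 := norm_bd hs h0
        have h3 := abs_le_norm y
        have h4 : |y 0| ∈ Icc (a/2) b := ⟨by linarith [hy.1], h3.trans hy.2⟩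
        unfold kk
        rw [indicator_of_mem h4, mul_pow, norm_mul, Real.norm_of_nonneg (sq_nonneg _)]
        apply mul_le_mul_of_nonneg_left _ (sq_nonneg _)
        rw [Real.norm_of_nonneg (sq_nonneg _), inv_pow, mul_pow, sq_abs, zpow_neg]
        norm_cast
        apply inv_anti₀ (by positivity)
        have h5 := h4.1
        have h6 : (a / 2) ^ 2 ≤ (y 0) ^ 2 := by
          rw [← sq_abs (y 0)]
          exact pow_le_pow_left₀ (by positivity) h5 2
        calc (a / 2) ^ 4 = (a/2)^2 * (a/2)^2 := by ring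
          _ ≤ (y 0) ^ 2 * (y 0) ^ 2 := by gcongr
    · unfold kk
      rw [hω0 _ hs, zero_mul, zero_pow two_ne_zero, norm_zero, zero_mul]
  · rw [indicator_of_notMem hy, norm_zero]
    apply mul_nonneg (sq_nonneg _)
    apply indicator_nonneg
    intro x _
    positivity

/-- integrability of `|k(y)| |y|` near the origin -/
lemma kk_loc (hωi : Integrable ω) (b : ℝ) :
    Integrable ({x : E | ‖x‖ ≤ b}.indicator (fun y => kk ω y * ‖y‖)) volume := by
  have hms : MeasurableSet {x : E | ‖x‖ ≤ b} := measurableSet_le measurable_norm measurable_const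
  have hb : Integrable (fun u : ℝ => |u| * (|u|⁻¹ * (Iic b).indicator (fun _ => (2 : ℝ)) |u|)) := by
    have h1 : Integrable (fun u : ℝ => (Icc (-b) b).indicator (fun _ => (2 : ℝ)) u) := by
      rw [integrable_indicator_iff measurableSet_Icc]
      exact integrableOn_const (by simp)
    refine h1.congr ?_
    have h0 : ∀ᵐ u : ℝ, u ≠ 0 := by simp [ae_iff]
    filter_upwards [h0] with u hu
    rw [← mul_assoc, mul_inv_cancel₀ (abs_ne_zero.mpr hu), one_mul]
    by_cases h : |u| ≤ b
    · rw [indicator_of_mem (by exact abs_le.mp h), indicator_of_mem (by exact h)]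
    · rw [indicator_of_notMem (by rw [mem_Icc, ← abs_le]; exact h),
        indicator_of_notMem (by exact h)]
  have h1 := basic_int hωi.abs hωm.abs hb
    (by exact measurable_id.abs.inv.mul ((measurable_const.indicator measurableSet_Iic).comp
      measurable_id.abs))
  refine h1.mono' (((kk_meas hωm).mul measurable_norm).indicator hms).aestronglyMeasurable
    (Eventually.of_forall fun y => ?_)
  by_cases hy : ‖y‖ ≤ b
  · rw [indicator_of_mem (by exact hy)]
    by_cases hs : y 1 / y 0 ∈ Icc (0 : ℝ) 1
    · by_cases h0 : y 0 = 0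
      · unfold kk
        rw [h0]
        simp
      · have h2 := norm_bd hs h0
        have h3 := abs_le_norm y
        rw [indicator_of_mem (by exact h3.trans hy)]
        unfold kk
        rw [norm_mul, norm_mul, Real.norm_eq_abs, norm_norm, mul_assoc]
        apply mul_le_mul_of_nonneg_left _ (abs_nonneg _)
        rw [norm_inv, norm_mul, Real.norm_eq_abs, Real.norm_eq_abs, abs_abs, mul_inv, mul_assoc]
        apply mul_le_mul_of_nonneg_left _ (by positivity)
        rw [inv_mul_le_iff₀ (abs_pos.mpr h0)]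
        linarith
    · unfold kk
      rw [hω0 _ hs]
      simp
  · rw [indicator_of_notMem (by exact hy), norm_zero]
    apply mul_nonneg (abs_nonneg _)
    apply mul_nonneg (by positivity)
    apply indicator_nonneg
    intro x _
    norm_num

end

lemma int_odd {φ : E → ℝ} (hφ : ∀ y, φ (-y) = - φ y) : ∫ y, φ y = 0 := by
  have h1 : ∫ y, φ (-y) = ∫ y, φ y := integral_neg_eq_self φ volume
  simp_rw [hφ] at h1
  rw [integral_neg] at h1
  linarith

lemma kk_odd_ann (ω : ℝ → ℝ) (S : Set E) (hS : MeasurableSet S) (hsym : ∀ y, -y ∈ S ↔ y ∈ S) :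
    ∫ x in S, kk ω x = 0 := by
  rw [← integral_indicator hS]
  apply int_odd
  intro y
  by_cases hy : y ∈ S
  · rw [indicator_of_mem hy, indicator_of_mem ((hsym y).mpr hy), kk_neg]
  · rw [indicator_of_notMem hy, indicator_of_notMem (fun h => hy ((hsym y).mp h)), neg_zero]

end Pool.Agent.W756.RK
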