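import Mathlib
import Pool.Agent.W756.RK2

set_option autoImplicit false
open MeasureTheory Filter Topology Metric Set
open scoped ENNReal NNReal

namespace Pool.Agent.W756.RK

/-- admissible test functions -/
structure Adm (f : E → ℝ) : Prop where
  lip : ∃ L : ℝ≥0, LipschitzWith L f
  supp : HasCompactSupport f
  bdd : ∀ z, |f z| ≤ 1
  left : ∀ z : E, -3 < z 0 → f z = 0

lemma exists_rad {f : E → ℝ} (hf : HasCompactSupport f) : ∃ ρ : ℝ, 0 < ρ ∧ ∀ z, ρ < ‖z‖ → f z = 0 := by
  obtain ⟨ρ, hρ⟩ := hf.isCompact.isBounded.subset_closedBall 0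
  refine ⟨max ρ 1, by positivity, fun z hz => ?_⟩
  by_contra h
  have h1 := hρ (subset_tsupport f h)
  rw [mem_closedBall_zero_iff] at h1
  have := le_max_left ρ 1
  linarith

section
variable {ω : ℝ → ℝ} (hωm : Measurable ω) (hω0 : ∀ s, s ∉ Icc (0 : ℝ) 1 → ω s = 0)
  (hωi : Integrable ω)
include hωm hω0 hωi

lemma pv {f : E → ℝ} (hf : Adm f) (x : E) : ∃ l : ℝ,
    Tendsto (fun ε : ℝ => ∫ y in {y : E | ε < ‖y‖}, kk ω y * f (x - y)) (𝓝[>] 0) (𝓝 l) ∧
    (f x = 0 → l = ∫ y, kk ω y * f (x - y)) := by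
  obtain ⟨L, hL⟩ := hf.lip
  obtain ⟨ρ0, hρ0, hρ⟩ := exists_rad hf.supp
  set ρ := ρ0 + ‖x‖ with hρd
  have hz : ∀ y : E, ρ < ‖y‖ → f (x - y) = 0 := by
    intro y hy
    apply hρ
    have := norm_sub_norm_le y x
    rw [norm_sub_rev] at this
    linarith
  set B : Set E := {y : E | ‖y‖ ≤ ρ} with hB
  have hBm : MeasurableSet B := measurableSet_le measurable_norm measurable_const
  have hfc : Continuous f := hL.continuous
  set φ : E → ℝ := B.indicator (fun y => kk ω y * (f (x - y) - f x)) with hφ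
  have hφi : Integrable φ := by
    have h1 := (kk_loc hωm hω0 hωi ρ).norm.const_mul (L : ℝ)
    refine h1.mono' ?_ (Eventually.of_forall fun y => ?_)
    · apply Measurable.aestronglyMeasurable
      refine Measurable.indicator ?_ hBm
      exact (kk_meas hωm).mul ((hfc.comp (continuous_const.sub continuous_id)).measurable.sub
        measurable_const)
    · by_cases hy : y ∈ B
      · rw [hφ, indicator_of_mem hy, indicator_of_mem (by exact hy), norm_mul, norm_mul, norm_norm]
        have h2 := hL.dist_le_mul (x - y) x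
        rw [dist_eq_norm, dist_eq_norm, sub_sub_cancel_left, norm_neg] at h2
        calc ‖kk ω y‖ * ‖f (x - y) - f x‖ ≤ ‖kk ω y‖ * (L * ‖y‖) := by gcongr
          _ = L * (‖kk ω y‖ * ‖y‖) := by ring
      · rw [hφ, indicator_of_notMem hy, norm_zero]; positivity
  refine ⟨∫ y, φ y, ?_, ?_⟩
  · have key : ∀ ε : ℝ, 0 < ε → ∫ y in {y : E | ε < ‖y‖}, kk ω y * f (x - y) =
        ∫ y, {y : E | ε < ‖y‖}.indicator φ y := by
      intro ε hε
      have hεm : MeasurableSet {y : E | ε < ‖y‖} := measurableSet_lt measurable_const measurable_norm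
      rw [integral_indicator hεm]
      have h1 : IntegrableOn (kk ω) {y : E | ε ≤ ‖y‖ ∧ ‖y‖ ≤ ρ} := kk_ann hωm hω0 hωi hε
      have h2 : IntegrableOn (B.indicator (fun y => kk ω y * f x)) {y : E | ε < ‖y‖} := by
        rw [← integrable_indicator_iff hεm]
        have hm2 : MeasurableSet {y : E | ε ≤ ‖y‖ ∧ ‖y‖ ≤ ρ} :=
          (measurableSet_le measurable_const measurable_norm).inter
          (measurableSet_le measurable_norm measurable_const)
        rw [← integrable_indicator_iff hm2] at h1
        refine (h1.mul_const (f x)).norm.mono' ?_ (Eventually.of_forall fun y => ?_)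
        · apply Measurable.aestronglyMeasurable
          exact (((kk_meas hωm).mul_const _).indicator hBm).indicator hεm
        · by_cases hy1 : y ∈ {y : E | ε < ‖y‖}
          · by_cases hy2 : y ∈ B
            · have hy3 : ε < ‖y‖ := hy1
              have hy4 : y ∈ {y : E | ε ≤ ‖y‖ ∧ ‖y‖ ≤ ρ} := ⟨hy3.le, hy2⟩
              rw [indicator_of_mem hy1, indicator_of_mem hy2, indicator_of_mem hy4]
            · rw [indicator_of_mem hy1, indicator_of_notMem hy2, norm_zero]; positivity
          · rw [indicator_of_notMem hy1, norm_zero]; positivity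
      have h3 : ∀ y : E, kk ω y * f (x - y) = φ y + B.indicator (fun y => kk ω y * f x) y := by
        intro y
        by_cases hy : y ∈ B
        · rw [hφ, indicator_of_mem hy, indicator_of_mem hy]; ring
        · rw [hφ, indicator_of_notMem hy, indicator_of_notMem hy, hz y (not_le.mp hy)]; ring
      have h4 : ∫ y in {y : E | ε < ‖y‖}, B.indicator (fun y => kk ω y * f x) y = 0 := by
        have h5 : ∀ y : E, B.indicator (fun y => kk ω y * f x) y =
            B.indicator (kk ω) y * f x := by
          intro y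
          by_cases hy : y ∈ B
          · rw [indicator_of_mem hy, indicator_of_mem hy]
          · rw [indicator_of_notMem hy, indicator_of_notMem hy, zero_mul]
        simp_rw [h5]
        rw [integral_mul_const, setIntegral_indicator hBm, kk_odd_ann, zero_mul]
        · exact hεm.inter hBm
        · intro y; simp [hB]
      simp_rw [h3]
      rw [integral_add hφi.integrableOn h2, h4, add_zero]
    have h1 : Tendsto (fun ε : ℝ => ∫ y, {y : E | ε < ‖y‖}.indicator φ y) (𝓝[>] 0)
        (𝓝 (∫ y, φ y)) := by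
      apply tendsto_integral_filter_of_dominated_convergence (fun y => ‖φ y‖)
      · refine Eventually.of_forall fun ε => ?_
        exact hφi.aestronglyMeasurable.indicator (measurableSet_lt measurable_const measurable_norm)
      · refine Eventually.of_forall fun ε => Eventually.of_forall fun y => ?_
        exact norm_indicator_le_norm_self _ _
      · exact hφi.norm
      · have h0 : ∀ᵐ y : E, y ≠ 0 := by simp [ae_iff]
        filter_upwards [h0] with y hy
        have hy' : 0 < ‖y‖ := norm_pos_iff.mpr hy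
        apply tendsto_const_nhds.congr'
        have : ∀ᶠ ε : ℝ in 𝓝[>] 0, ε < ‖y‖ :=
          eventually_nhdsWithin_of_eventually_nhds (eventually_lt_nhds hy')
        filter_upwards [this] with ε hε
        rw [indicator_of_mem (by exact hε)]
    refine h1.congr' ?_
    filter_upwards [self_mem_nhdsWithin] with ε hε
    exact (key ε hε).symm
  · intro hfx
    congr 1
    ext y
    by_cases hy : y ∈ B
    · rw [hφ, indicator_of_mem hy, hfx, sub_zero]
    · rw [hφ, indicator_of_notMem hy, hz y (not_le.mp hy), mul_zero]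

/-- the averaged test function -/
noncomputable def hh (ψ f : E → ℝ) (y : E) : ℝ := ∫ x, ψ x * f (x - y)

/-- the profile functional -/
noncomputable def JJ (ψ f : E → ℝ) (s : ℝ) : ℝ := ∫ u : ℝ, u⁻¹ * hh ψ f (Psi (u, s))

end

/-- admissible averaging functions -/
structure Avg (ψ : E → ℝ) : Prop where
  meas : Measurable ψ
  bdd : ∀ x, |ψ x| ≤ 1
  supp : ∀ x, x ∉ ball (0 : E) 1 → ψ x = 0
  mean : ∫ x, ψ x = 0

lemma Avg.int {ψ : E → ℝ} (hψ : Avg ψ) : Integrable ψ := by
  have h1 : Integrable ((ball (0 : E) 1).indicator (fun _ => (1 : ℝ))) := by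
    rw [integrable_indicator_iff measurableSet_ball]
    exact integrableOn_const (measure_ball_lt_top.ne)
  refine h1.mono' hψ.meas.aestronglyMeasurable (Eventually.of_forall fun x => ?_)
  by_cases hx : x ∈ ball (0 : E) 1
  · rw [indicator_of_mem hx]; exact hψ.bdd x
  · rw [indicator_of_notMem hx, hψ.supp x hx, norm_zero]

lemma hh_meas {ψ f : E → ℝ} (hψ : Avg ψ) (hf : Adm f) : Measurable (hh ψ f) := by
  obtain ⟨L, hL⟩ := hf.lip
  have h1 : StronglyMeasurable (fun p : E × E => ψ p.2 * f (p.2 - p.1)) := by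
    apply Measurable.stronglyMeasurable
    exact (hψ.meas.comp measurable_snd).mul (hL.continuous.measurable.comp
      (measurable_snd.sub measurable_fst))
  exact (StronglyMeasurable.integral_prod_right (ν := (volume : Measure E)) h1).measurable

lemma hh_bdd {ψ f : E → ℝ} (hψ : Avg ψ) (hf : Adm f) (y : E) : |hh ψ f y| ≤ ∫ x, |ψ x| := by
  unfold hh
  rw [← Real.norm_eq_abs]
  refine (norm_integral_le_integral_norm _).trans ?_
  refine integral_mono_of_nonneg (Eventually.of_forall fun _ => norm_nonneg _) hψ.int.abs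
    (Eventually.of_forall fun x => ?_)
  simp only [Real.norm_eq_abs, abs_mul]
  exact mul_le_of_le_one_right (abs_nonneg _) (hf.bdd _)

lemma key_supp {ψ f : E → ℝ} (hψ : Avg ψ) (hf : Adm f) {ρ : ℝ} (hρ : ∀ z, ρ < ‖z‖ → f z = 0)
    (x y : E) (h : ψ x * f (x - y) ≠ 0) : 2 ≤ y 0 ∧ ‖y‖ ≤ ρ + 1 := by
  have h1 : x ∈ ball (0 : E) 1 := by
    by_contra hx
    exact h (by rw [hψ.supp x hx, zero_mul])
  have h2 : f (x - y) ≠ 0 := right_ne_zero_of_mul h
  rw [mem_ball_zero_iff] at h1
  constructor
  · by_contra hy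
    push Not at hy
    apply h2
    apply hf.left
    have h3 := abs_le_norm x
    have h4 := (abs_le.mp (h3.trans h1.le)).1
    show -3 < x 0 - y 0
    linarith
  · by_contra hy
    push Not at hy
    apply h2
    apply hρ
    have := norm_sub_norm_le y x
    rw [norm_sub_rev] at this
    linarith

lemma hh_supp {ψ f : E → ℝ} (hψ : Avg ψ) (hf : Adm f) {ρ : ℝ} (hρ : ∀ z, ρ < ‖z‖ → f z = 0)
    (y : E) (h : hh ψ f y ≠ 0) : 2 ≤ y 0 ∧ ‖y‖ ≤ ρ + 1 := by
  by_contra hcon
  apply h
  unfold hh
  rw [← integral_zero E ℝ (μ := volume)]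
  congr 1
  ext x
  by_contra h1
  exact hcon (key_supp hψ hf hρ x y h1)

section
variable {ω : ℝ → ℝ} (hωm : Measurable ω) (hω0 : ∀ s, s ∉ Icc (0 : ℝ) 1 → ω s = 0)
  (hωi : Integrable ω)
include hωm hω0 hωi

lemma pairing {ψ f : E → ℝ} (hψ : Avg ψ) (hf : Adm f) :
    ∫ x, ψ x * ∫ y, kk ω y * f (x - y) = ∫ s, ω s * JJ ψ f s := by
  obtain ⟨ρ, hρ0, hρ⟩ := exists_rad hf.supp
  obtain ⟨L, hL⟩ := hf.lip
  set A : Set E := {y : E | 1 ≤ ‖y‖ ∧ ‖y‖ ≤ ρ + 1} with hA
  have hAm : MeasurableSet A := (measurableSet_le measurable_const measurable_norm).inter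
      (measurableSet_le measurable_norm measurable_const)
  have hkA : Integrable (A.indicator (kk ω)) := by
    rw [integrable_indicator_iff hAm]
    exact kk_ann hωm hω0 hωi one_pos
  have hrep : ∀ x y : E, ψ x * (kk ω y * f (x - y)) = ψ x * A.indicator (kk ω) y * f (x - y) := by
    intro x y
    by_cases h : ψ x * f (x - y) = 0
    · rw [show ψ x * (kk ω y * f (x - y)) = (ψ x * f (x - y)) * kk ω y by ring,
        show ψ x * A.indicator (kk ω) y * f (x - y) = (ψ x * f (x - y)) * A.indicator (kk ω) y by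
          ring, h, zero_mul, zero_mul]
    · have h1 := key_supp hψ hf hρ x y h
      have h2 : y ∈ A := ⟨by
        have := abs_le_norm y
        have := le_abs_self (y 0)
        linarith, h1.2⟩
      rw [indicator_of_mem h2]; ring
  have hint : Integrable (fun p : E × E => ψ p.1 * A.indicator (kk ω) p.2 * f (p.1 - p.2))
      (volume.prod volume) := by
    refine (hψ.int.mul_prod hkA).mul_bdd (c := 1) ?_ (Eventually.of_forall fun p => ?_)
    · exact (hL.continuous.comp (continuous_fst.sub continuous_snd)).aestronglyMeasurable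
    · exact hf.bdd _
  have h1 : ∫ x, ψ x * ∫ y, kk ω y * f (x - y) =
      ∫ x, ∫ y, ψ x * A.indicator (kk ω) y * f (x - y) := by
    congr 1
    ext x
    rw [← integral_const_mul]
    congr 1
    ext y
    exact hrep x y
  have h2 : ∫ x, ∫ y, ψ x * A.indicator (kk ω) y * f (x - y) = ∫ y, kk ω y * hh ψ f y := by
    rw [integral_integral_swap hint]
    congr 1
    ext y
    unfold hh
    rw [← integral_const_mul]
    congr 1
    ext x
    rw [← hrep x y]; ring
  have hkh : Integrable (fun y => kk ω y * hh ψ f y) := by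
    have h3 : (fun y => kk ω y * hh ψ f y) = fun y => A.indicator (kk ω) y * hh ψ f y := by
      ext y
      by_cases h : hh ψ f y = 0
      · rw [h, mul_zero, mul_zero]
      · have h4 := hh_supp hψ hf hρ y h
        have h5 : y ∈ A := ⟨by
          have := abs_le_norm y
          have := le_abs_self (y 0)
          linarith, h4.2⟩
        rw [indicator_of_mem h5]
    rw [h3]
    exact hkA.mul_bdd (c := ∫ x, |ψ x|) (hh_meas hψ hf).aestronglyMeasurable
      (Eventually.of_forall fun y => hh_bdd hψ hf y)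
  rw [h1, h2]
  have hm : AEStronglyMeasurable (fun y => kk ω y * hh ψ f y) volume := hkh.aestronglyMeasurable
  have hI := (integrable_iff hm).mp hkh
  rw [integral_eq hm]
  have h0 : ∀ᵐ p : ℝ × ℝ, p.1 ≠ 0 := by
    have h3 : ∀ᵐ u : ℝ, u ≠ 0 := by simp [ae_iff]
    rw [Measure.volume_eq_prod]
    exact (Measure.quasiMeasurePreserving_fst (μ := (volume : Measure ℝ))
      (ν := (volume : Measure ℝ))).ae h3
  have hEq : (fun p : ℝ × ℝ => |p.1| * (kk ω (Psi p) * hh ψ f (Psi p))) =ᵐ[volume]
      fun p => ω p.2 * (p.1⁻¹ * hh ψ f (Psi p)) := by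
    filter_upwards [h0] with p hp
    unfold kk
    rw [Psi_zero, Psi_one, mul_div_cancel_left₀ _ hp, mul_inv]
    have : |p.1| * |p.1|⁻¹ = 1 := mul_inv_cancel₀ (abs_ne_zero.mpr hp)
    calc |p.1| * (ω p.2 * (p.1⁻¹ * |p.1|⁻¹) * hh ψ f (Psi p))
        = (|p.1| * |p.1|⁻¹) * (ω p.2 * (p.1⁻¹ * hh ψ f (Psi p))) := by ring
      _ = _ := by rw [this, one_mul]
  rw [integral_congr_ae hEq]
  have hI2 := hI.congr hEq
  rw [Measure.volume_eq_prod] at hI2 ⊢
  rw [integral_prod_symm _ hI2]
  congr 1
  ext s
  show ∫ (x : ℝ), ω s * (x⁻¹ * hh ψ f (Psi (x, s))) = ω s * JJ ψ f s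
  rw [integral_const_mul]
  rfl

end

end Pool.Agent.W756.RK
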