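import Mathlib
import Pool.Agent.W756.RK3

set_option autoImplicit false
open MeasureTheory Filter Topology Metric Set
open scoped ENNReal NNReal

namespace Pool.Agent.W756.RK

/-- the statement `L^∞ → BMO` for all kernels, in dimension two -/
def PosTwo : Prop :=
    ∀ (k : E → ℝ), Measurable k →
    (∀ x : E, x ≠ 0 → ∀ t : ℝ, 0 < t → k (t • x) = t ^ (-(2 : ℤ)) * k x) →
    IntegrableOn k {x : E | 1 ≤ ‖x‖ ∧ ‖x‖ ≤ 2} volume →
    (∫ x in {x : E | 1 ≤ ‖x‖ ∧ ‖x‖ ≤ 2}, k x) = 0 →
    IntegrableOn (fun x => |k x| * max 0 (Real.log |k x|)) {x : E | 1 ≤ ‖x‖ ∧ ‖x‖ ≤ 2} volume →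
    ∃ C : ℝ, ∀ (f : E → ℝ) (M : ℝ),
      Measurable f → HasCompactSupport f → (∀ x, |f x| ≤ M) →
      ∀ g : E → ℝ,
        (∀ᵐ x ∂(volume : Measure E),
          Tendsto (fun ε : ℝ => ∫ y in {y : E | ε < ‖y‖}, k y * f (x - y))
            (𝓝[>] 0) (𝓝 (g x))) →
        ∀ (c : E) (r : ℝ), 0 < r →
          IntegrableOn g (ball c r) volume ∧
          (⨍ x in ball c r, |g x - ⨍ y in ball c r, g y|) ≤ C * M

lemma JJ_bdd {ψ f : E → ℝ} (hψ : Avg ψ) (hf : Adm f) {ρ : ℝ} (hρ0 : 0 < ρ)
    (hρ : ∀ z, ρ < ‖z‖ → f z = 0) (s : ℝ) : ‖JJ ψ f s‖ ≤ (∫ x, |ψ x|) * (ρ + 1) := by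
  have hψ0 : 0 ≤ ∫ x, |ψ x| := integral_nonneg fun _ => abs_nonneg _
  have h1 : ∀ u : ℝ, ‖u⁻¹ * hh ψ f (Psi (u, s))‖ ≤
      (Icc 0 (ρ + 1)).indicator (fun _ => ∫ x, |ψ x|) u := by
    intro u
    by_cases h : hh ψ f (Psi (u, s)) = 0
    · rw [h, mul_zero, norm_zero]
      exact indicator_nonneg (fun _ _ => hψ0) _
    · obtain ⟨h2, h3⟩ := hh_supp hψ hf hρ _ h
      have h4 := abs_le_norm (Psi (u, s))
      rw [Psi_zero] at h2 h4
      simp only at h2 h4
      have h5 : u ≤ ρ + 1 := (le_abs_self u).trans (h4.trans h3)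
      rw [indicator_of_mem (show u ∈ Icc 0 (ρ + 1) from ⟨by linarith, h5⟩), norm_mul, norm_inv,
        Real.norm_eq_abs, Real.norm_eq_abs]
      have h6 := hh_bdd hψ hf (Psi (u, s))
      have h7 : |u|⁻¹ ≤ 1 := by
        rw [abs_of_pos (by linarith)]
        exact inv_le_one_of_one_le₀ (by linarith)
      calc |u|⁻¹ * |hh ψ f (Psi (u, s))| ≤ 1 * ∫ x, |ψ x| := by gcongr
        _ = _ := one_mul _
  unfold JJ
  calc ‖∫ u : ℝ, u⁻¹ * hh ψ f (Psi (u, s))‖ ≤ ∫ u : ℝ, ‖u⁻¹ * hh ψ f (Psi (u, s))‖ :=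
        norm_integral_le_integral_norm _
    _ ≤ ∫ u : ℝ, (Icc 0 (ρ + 1)).indicator (fun _ => ∫ x, |ψ x|) u := by
        apply integral_mono_of_nonneg (Eventually.of_forall fun _ => norm_nonneg _) _
          (Eventually.of_forall h1)
        rw [integrable_indicator_iff measurableSet_Icc]
        exact integrableOn_const (by simp)
    _ = _ := by
        rw [integral_indicator measurableSet_Icc, setIntegral_const, smul_eq_mul,
          Measure.real, Real.volume_Icc, ENNReal.toReal_ofReal (by linarith)]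
        ring

lemma JJ_meas {ψ f : E → ℝ} (hψ : Avg ψ) (hf : Adm f) : Measurable (JJ ψ f) := by
  have h1 : StronglyMeasurable (fun p : ℝ × ℝ => p.2⁻¹ * hh ψ f (Psi (p.2, p.1))) := by
    apply Measurable.stronglyMeasurable
    exact (measurable_snd.inv).mul ((hh_meas hψ hf).comp (Psi_meas.comp
      (measurable_snd.prodMk measurable_fst)))
  exact (StronglyMeasurable.integral_prod_right (ν := (volume : Measure ℝ)) h1).measurable

/-- the measure on slopes -/
noncomputable abbrev muI : Measure ℝ := volume.restrict (Icc (0 : ℝ) 1)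

lemma JJ_memLp {ψ f : E → ℝ} (hψ : Avg ψ) (hf : Adm f) : MemLp (JJ ψ f) 2 muI := by
  obtain ⟨ρ, hρ0, hρ⟩ := exists_rad hf.supp
  exact MemLp.of_bound (JJ_meas hψ hf).aestronglyMeasurable _
    (Eventually.of_forall fun s => JJ_bdd hψ hf hρ0 hρ s)

theorem uniform (H : PosTwo) {ψ : E → ℝ} (hψ : Avg ψ) :
    ∃ C : ℝ, ∀ f : E → ℝ, Adm f → ∫ s in Icc (0 : ℝ) 1, (JJ ψ f s) ^ 2 ≤ C := by
  have hpt : ∀ v : Lp ℝ 2 muI, ∃ C : ℝ, ∀ f : {f : E → ℝ // Adm f},
      ‖innerSL ℝ (MemLp.toLp (JJ ψ f.1) (JJ_memLp hψ f.2)) v‖ ≤ C := by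
    intro v
    set ω : ℝ → ℝ := (Icc (0 : ℝ) 1).indicator (v : ℝ → ℝ) with hω
    have hvm : Measurable (v : ℝ → ℝ) := (Lp.stronglyMeasurable v).measurable
    have hωm : Measurable ω := hvm.indicator measurableSet_Icc
    have hω0 : ∀ s, s ∉ Icc (0 : ℝ) 1 → ω s = 0 := fun s hs => indicator_of_notMem hs _
    have hv2 : MemLp (v : ℝ → ℝ) 2 muI := Lp.memLp v
    have hv1 : Integrable (v : ℝ → ℝ) muI := by
      have := hv2.mono_exponent (p := 1) (by norm_num)
      rwa [memLp_one_iff_integrable] at this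
    have hωi : Integrable ω := by
      rw [hω, integrable_indicator_iff measurableSet_Icc]; exact hv1
    have hω2 : Integrable (fun s => ω s ^ 2) := by
      have h1 : (fun s => ω s ^ 2) = (Icc (0 : ℝ) 1).indicator (fun s => (v : ℝ → ℝ) s ^ 2) := by
        ext s
        by_cases hs : s ∈ Icc (0 : ℝ) 1
        · rw [hω, indicator_of_mem hs, indicator_of_mem hs]
        · rw [hω, indicator_of_notMem hs, indicator_of_notMem hs]; simp
      rw [h1, integrable_indicator_iff measurableSet_Icc]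
      exact hv2.integrable_sq
    obtain ⟨C, hC⟩ := H (kk ω) (kk_meas hωm) (fun x _ t ht => kk_smul ω x ht)
      (kk_ann hωm hω0 hωi one_pos)
      (kk_odd_ann ω _ ((measurableSet_le measurable_const measurable_norm).inter
        (measurableSet_le measurable_norm measurable_const)) (fun y => by simp))
      (by
        refine Integrable.mono' (kk_sq_ann hωm hω0 hω2 (a := 1) (b := 2) one_pos) ?_
          (Eventually.of_forall fun y => ?_)
        · apply Measurable.aestronglyMeasurable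
          exact (kk_meas hωm).abs.mul (measurable_const.max
            (Real.measurable_log.comp (kk_meas hωm).abs))
        · rw [Real.norm_of_nonneg (by positivity), ← sq_abs (kk ω y), sq]
          apply mul_le_mul_of_nonneg_left _ (abs_nonneg _)
          apply max_le (abs_nonneg _)
          exact (Real.log_le_self (abs_nonneg _)))
    refine ⟨(volume (ball (0 : E) 1)).toReal * C, fun ⟨f, hf⟩ => ?_⟩
    choose g hg1 hg2 using fun x => pv hωm hω0 hωi hf x
    obtain ⟨L, hL⟩ := hf.lip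
    obtain ⟨hgi, hgo⟩ := hC f 1 hL.continuous.measurable hf.supp hf.bdd g
      (Eventually.of_forall hg1) 0 1 one_pos
    have e1 : innerSL ℝ (MemLp.toLp (JJ ψ f) (JJ_memLp hψ hf)) v = ∫ s, ω s * JJ ψ f s := by
      rw [innerSL_apply_apply, L2.inner_def]
      have h2 : ∀ᵐ s ∂muI, inner ℝ ((MemLp.toLp (JJ ψ f) (JJ_memLp hψ hf) : Lp ℝ 2 muI) s) (v s) =
          v s * JJ ψ f s := by
        filter_upwards [MemLp.coeFn_toLp (JJ_memLp hψ hf)] with s hs
        rw [hs]; simp
      rw [integral_congr_ae h2]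
      have h3 : ∀ s, ω s * JJ ψ f s = (Icc (0 : ℝ) 1).indicator
          (fun s => (v : ℝ → ℝ) s * JJ ψ f s) s := by
        intro s
        by_cases hs : s ∈ Icc (0 : ℝ) 1
        · rw [hω, indicator_of_mem hs, indicator_of_mem hs]
        · rw [hω, indicator_of_notMem hs, indicator_of_notMem hs, zero_mul]
      simp_rw [h3]
      rw [integral_indicator measurableSet_Icc]
    rw [e1, ← pairing hωm hω0 hωi hψ hf]
    have e2 : ∀ x, ψ x * ∫ y, kk ω y * f (x - y) = ψ x * g x := by
      intro x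
      by_cases hx : x ∈ ball (0 : E) 1
      · rw [hg2 x]
        apply hf.left
        rw [mem_ball_zero_iff] at hx
        have := (abs_le.mp ((abs_le_norm x).trans hx.le)).1
        linarith
      · rw [hψ.supp x hx, zero_mul, zero_mul]
    simp_rw [e2]
    set m := ⨍ y in ball (0 : E) 1, g y with hm
    have e3 : ∫ x, ψ x * g x = ∫ x in ball (0 : E) 1, ψ x * (g x - m) := by
      have h4 : ∫ x in ball (0 : E) 1, ψ x * (g x - m) =
          (∫ x in ball (0 : E) 1, ψ x * g x) - ∫ x in ball (0 : E) 1, ψ x * m := by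
        rw [← integral_sub]
        · congr 1; ext x; ring
        · exact hgi.bdd_mul (c := 1) hψ.meas.aestronglyMeasurable
            (Eventually.of_forall hψ.bdd)
        · exact (hψ.int.mul_const m).integrableOn
      rw [h4, integral_mul_const]
      have h5 : ∫ x in ball (0 : E) 1, ψ x = 0 := by
        rw [setIntegral_eq_integral_of_forall_compl_eq_zero (fun x hx => hψ.supp x hx), hψ.mean]
      rw [h5, zero_mul, sub_zero]
      rw [setIntegral_eq_integral_of_forall_compl_eq_zero]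
      intro x hx
      rw [hψ.supp x hx, zero_mul]
    rw [e3]
    have hvol : (volume (ball (0 : E) 1)).toReal ≠ 0 := by
      rw [ENNReal.toReal_ne_zero]
      exact ⟨(measure_ball_pos _ _ one_pos).ne', measure_ball_lt_top.ne⟩
    calc ‖∫ x in ball (0 : E) 1, ψ x * (g x - m)‖
        ≤ ∫ x in ball (0 : E) 1, ‖ψ x * (g x - m)‖ := norm_integral_le_integral_norm _
      _ ≤ ∫ x in ball (0 : E) 1, |g x - m| := by
          apply integral_mono_of_nonneg (Eventually.of_forall fun _ => norm_nonneg _)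
          · exact (hgi.sub (integrableOn_const measure_ball_lt_top.ne)).abs
          · refine Eventually.of_forall fun x => ?_
            simp only [norm_mul, Real.norm_eq_abs]
            exact mul_le_of_le_one_left (abs_nonneg _) (hψ.bdd x)
      _ = (volume (ball (0 : E) 1)).toReal * ⨍ x in ball (0 : E) 1, |g x - m| := by
          rw [setAverage_eq, smul_eq_mul, ← mul_assoc]
          rw [show (volume (ball (0 : E) 1)).toReal * (volume.real (ball (0 : E) 1))⁻¹ = 1 from
            mul_inv_cancel₀ hvol, one_mul]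
      _ ≤ (volume (ball (0 : E) 1)).toReal * C := by
          apply mul_le_mul_of_nonneg_left _ ENNReal.toReal_nonneg
          linarith
  obtain ⟨C', hC'⟩ := banach_steinhaus hpt
  refine ⟨C' ^ 2, fun f hf => ?_⟩
  have h1 := hC' ⟨f, hf⟩
  rw [innerSL_apply_norm] at h1
  have h2 : ‖MemLp.toLp (JJ ψ f) (JJ_memLp hψ hf)‖ ^ 2 = ∫ s in Icc (0 : ℝ) 1, (JJ ψ f s) ^ 2 := by
    rw [← real_inner_self_eq_norm_sq, L2.inner_def]
    apply integral_congr_ae
    filter_upwards [MemLp.coeFn_toLp (JJ_memLp hψ hf)] with s hs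
    rw [hs, real_inner_self_eq_norm_sq, Real.norm_eq_abs, sq_abs]
  rw [← h2]
  exact pow_le_pow_left₀ (norm_nonneg _) h1 2

end Pool.Agent.W756.RK
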