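import Mathlib
import Pool.Agent.W756.RK4

set_option autoImplicit false
open MeasureTheory Filter Topology Metric Set
open scoped ENNReal NNReal

namespace Pool.Agent.W756.RK

lemma hh_int {ψ f : E → ℝ} (hψ : Avg ψ) (hf : Adm f) (y : E) :
    Integrable (fun x => ψ x * f (x - y)) := by
  obtain ⟨L, hL⟩ := hf.lip
  exact hψ.int.mul_bdd (c := 1) (hL.continuous.comp
    (continuous_id.sub continuous_const)).aestronglyMeasurable
    (Eventually.of_forall fun x => hf.bdd _)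

lemma JJ_int {ψ f : E → ℝ} (hψ : Avg ψ) (hf : Adm f) (s : ℝ) :
    Integrable (fun u : ℝ => u⁻¹ * hh ψ f (Psi (u, s))) := by
  obtain ⟨ρ, hρ0, hρ⟩ := exists_rad hf.supp
  have hψ0 : 0 ≤ ∫ x, |ψ x| := integral_nonneg fun _ => abs_nonneg _
  have h0 : Integrable ((Icc (0 : ℝ) (ρ + 1)).indicator (fun _ => ∫ x, |ψ x|)) := by
    rw [integrable_indicator_iff measurableSet_Icc]
    exact integrableOn_const (by simp)
  refine h0.mono' ?_ (Eventually.of_forall fun u => ?_)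
  · apply Measurable.aestronglyMeasurable
    exact measurable_inv.mul ((hh_meas hψ hf).comp (Psi_meas.comp
      (measurable_id.prodMk measurable_const)))
  · by_cases h : hh ψ f (Psi (u, s)) = 0
    · rw [h, mul_zero, norm_zero]
      exact indicator_nonneg (fun _ _ => hψ0) _
    · obtain ⟨h2, h3⟩ := hh_supp hψ hf hρ _ h
      have h4 := abs_le_norm (Psi (u, s))
      rw [Psi_zero] at h2 h4
      simp only at h2 h4
      have h5 : u ≤ ρ + 1 := (le_abs_self u).trans (h4.trans h3)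
      rw [indicator_of_mem (show u ∈ Icc 0 (ρ + 1) from ⟨by linarith, h5⟩), norm_mul, norm_inv,
        Real.norm_eq_abs, Real.norm_eq_abs]
      have h6 := hh_bdd hψ hf (Psi (u, s))
      have h7 : |u|⁻¹ ≤ 1 := by
        rw [abs_of_pos (by linarith)]
        exact inv_le_one_of_one_le₀ (by linarith)
      calc |u|⁻¹ * |hh ψ f (Psi (u, s))| ≤ 1 * ∫ x, |ψ x| := by gcongr
        _ = _ := one_mul _

lemma JJ_add {ψ f F : E → ℝ} (hψ : Avg ψ) (hf : Adm f) (hF : Adm F) (s : ℝ) :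
    JJ ψ (fun z => f z + F z) s = JJ ψ f s + JJ ψ F s := by
  unfold JJ
  rw [← integral_add (JJ_int hψ hf s) (JJ_int hψ hF s)]
  congr 1
  ext u
  rw [← mul_add]
  congr 1
  unfold hh
  rw [← integral_add (hh_int hψ hf _) (hh_int hψ hF _)]
  congr 1
  ext x
  ring

lemma JJ_sub {ψ f F : E → ℝ} (hψ : Avg ψ) (hf : Adm f) (hF : Adm F) (s : ℝ) :
    JJ ψ (fun z => f z - F z) s = JJ ψ f s - JJ ψ F s := by
  unfold JJ
  rw [← integral_sub (JJ_int hψ hf s) (JJ_int hψ hF s)]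
  congr 1
  ext u
  rw [← mul_sub]
  congr 1
  unfold hh
  rw [← integral_sub (hh_int hψ hf _) (hh_int hψ hF _)]
  congr 1
  ext x
  ring

/-- the square norm of the profile functional -/
noncomputable def qq (ψ f : E → ℝ) : ℝ := ∫ s in Icc (0 : ℝ) 1, (JJ ψ f s) ^ 2

lemma adm_add {f F : E → ℝ} (hf : Adm f) (hF : Adm F) {ρ : ℝ} (hρ : ∀ z, ρ < ‖z‖ → f z = 0)
    (hFρ : ∀ z, ‖z‖ ≤ ρ → F z = 0) : Adm (fun z => f z + F z) := by
  obtain ⟨L, hL⟩ := hf.lip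
  obtain ⟨L', hL'⟩ := hF.lip
  refine ⟨⟨L + L', hL.add hL'⟩, hf.supp.add hF.supp, fun z => ?_, fun z hz => ?_⟩
  · by_cases h : ‖z‖ ≤ ρ
    · rw [hFρ z h, add_zero]; exact hf.bdd z
    · rw [hρ z (not_le.mp h), zero_add]; exact hF.bdd z
  · rw [hf.left z hz, hF.left z hz, add_zero]

lemma adm_sub {f F : E → ℝ} (hf : Adm f) (hF : Adm F) {ρ : ℝ} (hρ : ∀ z, ρ < ‖z‖ → f z = 0)
    (hFρ : ∀ z, ‖z‖ ≤ ρ → F z = 0) : Adm (fun z => f z - F z) := by
  obtain ⟨L, hL⟩ := hf.lip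
  obtain ⟨L', hL'⟩ := hF.lip
  refine ⟨⟨L + L', hL.sub hL'⟩, hf.supp.sub hF.supp, fun z => ?_, fun z hz => ?_⟩
  · by_cases h : ‖z‖ ≤ ρ
    · rw [hFρ z h, sub_zero]; exact hf.bdd z
    · rw [hρ z (not_le.mp h), zero_sub, abs_neg]; exact hF.bdd z
  · rw [hf.left z hz, hF.left z hz, sub_zero]

lemma signs {ψ f F : E → ℝ} (hψ : Avg ψ) (hf : Adm f) (hF : Adm F) {ρ : ℝ}
    (hρ : ∀ z, ρ < ‖z‖ → f z = 0) (hFρ : ∀ z, ‖z‖ ≤ ρ → F z = 0) :
    ∃ f', Adm f' ∧ qq ψ f + qq ψ F ≤ qq ψ f' := by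
  have ha := (JJ_memLp hψ hf).integrable_sq
  have hb := (JJ_memLp hψ hF).integrable_sq
  have hc := (JJ_memLp hψ (adm_add hf hF hρ hFρ)).integrable_sq
  have hd := (JJ_memLp hψ (adm_sub hf hF hρ hFρ)).integrable_sq
  have h1 : qq ψ (fun z => f z + F z) + qq ψ (fun z => f z - F z) =
      2 * (qq ψ f + qq ψ F) := by
    unfold qq
    rw [← integral_add hc hd, ← integral_add ha hb, ← integral_const_mul]
    congr 1
    ext s
    rw [JJ_add hψ hf hF, JJ_sub hψ hf hF]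
    ring
  by_cases h2 : qq ψ f + qq ψ F ≤ qq ψ (fun z => f z + F z)
  · exact ⟨_, adm_add hf hF hρ hFρ, h2⟩
  · refine ⟨_, adm_sub hf hF hρ hFρ, ?_⟩
    push Not at h2
    linarith

lemma adm_zero : Adm (fun _ => (0 : ℝ)) := by
  refine ⟨⟨0, LipschitzWith.const 0⟩, HasCompactSupport.zero, fun z => by simp, fun _ _ => rfl⟩

theorem contra {ψ : E → ℝ} (hψ : Avg ψ) {κ : ℝ} (hκ : 0 < κ)
    (hstep : ∀ ρ : ℝ, ∃ F, Adm F ∧ (∀ z, ‖z‖ ≤ ρ → F z = 0) ∧ κ ≤ qq ψ F) (H : PosTwo) : False := by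
  obtain ⟨C, hC⟩ := uniform H hψ
  have h1 : ∀ N : ℕ, ∃ f, Adm f ∧ N * κ ≤ qq ψ f := by
    intro N
    induction N with
    | zero =>
      refine ⟨_, adm_zero, ?_⟩
      simp only [Nat.cast_zero, zero_mul]
      exact integral_nonneg fun _ => sq_nonneg _
    | succ N ih =>
      obtain ⟨f, hf, hq⟩ := ih
      obtain ⟨ρ, hρ0, hρ⟩ := exists_rad hf.supp
      obtain ⟨F, hF, hFρ, hqF⟩ := hstep ρ
      obtain ⟨f', hf', hq'⟩ := signs hψ hf hF hρ hFρ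
      refine ⟨f', hf', ?_⟩
      push_cast
      linarith
  obtain ⟨N, hN⟩ := exists_nat_gt (C / κ)
  obtain ⟨f, hf, hq⟩ := h1 N
  have h2 := hC f hf
  rw [div_lt_iff₀ hκ] at hN
  have h3 : qq ψ f ≤ C := h2
  linarith

end Pool.Agent.W756.RK
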