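import Mathlib
import Pool.Agent.W756.RK5

set_option autoImplicit false
open MeasureTheory Filter Topology Metric Set
open scoped ENNReal NNReal

namespace Pool.Agent.W756.RK

/-- radial bump -/
noncomputable def eta : ContDiffBump (1 : ℝ) := ⟨1/40, 1/20, by norm_num, by norm_num⟩

/-- slope bump -/
noncomputable def zeta : ContDiffBump (1/2 : ℝ) := ⟨3/2, 5/2, by norm_num, by norm_num⟩

/-- the test function at scale `R` -/
noncomputable def FR (R : ℝ) (z : E) : ℝ :=
  Real.cos (2 * Real.pi * (R * (z 1 / z 0))) * eta (-z 0 / R) * zeta (z 1 / z 0)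

lemma eta_nn (t : ℝ) : 0 ≤ eta t := eta.nonneg
lemma eta_le (t : ℝ) : eta t ≤ 1 := eta.le_one
lemma zeta_nn (t : ℝ) : 0 ≤ zeta t := zeta.nonneg
lemma zeta_le (t : ℝ) : zeta t ≤ 1 := zeta.le_one

lemma eta_zero {t : ℝ} (h : 1/20 ≤ |t - 1|) : eta t = 0 := by
  apply eta.zero_of_le_dist
  rw [Real.dist_eq]; exact h

lemma eta_one {t : ℝ} (h : |t - 1| ≤ 1/40) : eta t = 1 := by
  apply eta.one_of_mem_closedBall
  rw [mem_closedBall, Real.dist_eq]; exact h

lemma zeta_zero {t : ℝ} (h : 5/2 ≤ |t - 1/2|) : zeta t = 0 := by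
  apply zeta.zero_of_le_dist
  rw [Real.dist_eq]; exact h

lemma zeta_one {t : ℝ} (h : |t - 1/2| ≤ 3/2) : zeta t = 1 := by
  apply zeta.one_of_mem_closedBall
  rw [mem_closedBall, Real.dist_eq]; exact h

lemma FR_supp {R : ℝ} (hR : 0 < R) {z : E} (h : FR R z ≠ 0) :
    R * (19/20) ≤ -z 0 ∧ -z 0 ≤ R * (21/20) ∧ |z 1| ≤ 3 * |z 0| := by
  unfold FR at h
  have h1 : eta (-z 0 / R) ≠ 0 := fun h0 => h (by rw [h0]; ring)
  have h2 : zeta (z 1 / z 0) ≠ 0 := fun h0 => h (by rw [h0]; ring)
  have h3 : |-z 0 / R - 1| < 1/20 := by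
    by_contra hc; exact h1 (eta_zero (not_lt.mp hc))
  have h4 : |z 1 / z 0 - 1/2| < 5/2 := by
    by_contra hc; exact h2 (zeta_zero (not_lt.mp hc))
  rw [abs_lt] at h3 h4
  have h5 : -z 0 = (-z 0 / R) * R := by field_simp
  refine ⟨?_, ?_, ?_⟩
  · rw [h5]; nlinarith [h3.1]
  · rw [h5]; nlinarith [h3.2]
  · have hz : z 0 ≠ 0 := by
      intro h0
      rw [h0] at h3
      norm_num at h3
    have h6 : z 1 = (z 1 / z 0) * z 0 := by field_simp
    rw [h6, abs_mul]
    apply mul_le_mul_of_nonneg_right _ (abs_nonneg _)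
    rw [abs_le]
    constructor <;> linarith [h4.1, h4.2]

lemma FR_smooth {R : ℝ} (hR : 0 < R) : ContDiff ℝ 1 (FR R) := by
  rw [contDiff_iff_contDiffAt]
  intro z
  have c0 : ContDiff ℝ 1 (fun z : E => z 0) := by fun_prop
  have c1 : ContDiff ℝ 1 (fun z : E => z 1) := by fun_prop
  by_cases hz : z 0 < 0
  · have h0 : z 0 ≠ 0 := hz.ne
    have h1 : ContDiffAt ℝ 1 (fun z : E => z 1 / z 0) z := c1.contDiffAt.div c0.contDiffAt h0
    unfold FR
    refine ContDiffAt.mul (ContDiffAt.mul ?_ ?_) ?_
    · exact Real.contDiff_cos.contDiffAt.comp z (contDiffAt_const.mul (contDiffAt_const.mul h1))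
    · exact eta.contDiffAt.comp z (c0.neg.contDiffAt.div_const R)
    · exact zeta.contDiffAt.comp z h1
  · have h1 : (fun _ : E => (0 : ℝ)) =ᶠ[𝓝 z] FR R := by
      have ho : IsOpen {w : E | -R / 2 < w 0} := isOpen_lt continuous_const c0.continuous
      filter_upwards [ho.mem_nhds (show -R/2 < z 0 by linarith)] with w hw
      by_contra hc
      have := (FR_supp hR (Ne.symm hc)).1
      have hw' : -R / 2 < w 0 := hw
      linarith
    exact contDiffAt_const.congr_of_eventuallyEq h1.symm

lemma norm_le_two (z : E) : ‖z‖ ≤ |z 0| + |z 1| := by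
  rw [EuclideanSpace.norm_eq, Fin.sum_univ_two]
  apply Real.sqrt_le_iff.mpr
  refine ⟨by positivity, ?_⟩
  simp only [Real.norm_eq_abs]
  nlinarith [abs_nonneg (z 0), abs_nonneg (z 1), mul_nonneg (abs_nonneg (z 0)) (abs_nonneg (z 1))]

lemma FR_adm {R : ℝ} (hR : 4 ≤ R) : Adm (FR R) := by
  have hR0 : 0 < R := by linarith
  have hs : HasCompactSupport (FR R) := by
    apply HasCompactSupport.intro (isCompact_closedBall (0 : E) (8 * R))
    intro z hz
    by_contra hc
    apply hz
    obtain ⟨h1, h2, h3⟩ := FR_supp hR0 hc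
    rw [mem_closedBall_zero_iff]
    have h4 := norm_le_two z
    have h5 : |z 0| = -z 0 := abs_of_neg (by linarith)
    rw [h5] at h3 h4
    linarith
  refine ⟨?_, hs, fun z => ?_, fun z hz => ?_⟩
  · exact (FR_smooth hR0).lipschitzWith_of_hasCompactSupport hs (by norm_num)
  · unfold FR
    rw [abs_mul, abs_mul, abs_of_nonneg (eta_nn _), abs_of_nonneg (zeta_nn _)]
    have h1 := Real.abs_cos_le_one (2 * Real.pi * (R * (z 1 / z 0)))
    have h2 := eta_le (-z 0 / R)
    have h3 := zeta_le (z 1 / z 0)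
    calc |Real.cos (2 * Real.pi * (R * (z 1 / z 0)))| * eta (-z 0 / R) * zeta (z 1 / z 0)
        ≤ 1 * 1 * 1 := by
          gcongr
          · exact zeta_nn _
          · exact eta_nn _
      _ = 1 := by norm_num
  · by_contra hc
    have := (FR_supp hR0 hc).1
    linarith

lemma FR_far {R ρ : ℝ} (hR : 0 < R) (h : ρ < R / 2) (z : E) (hz : ‖z‖ ≤ ρ) : FR R z = 0 := by
  by_contra hc
  have h1 := (FR_supp hR hc).1
  have h2 := abs_le_norm z
  have h3 := neg_le_abs (z 0)
  linarith

/-- the small square -/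
def Q0 : Set E := {x : E | |x 0| < 1/100 ∧ |x 1| < 1/100}

lemma Q0_meas : MeasurableSet Q0 := by
  have h0 : Measurable (fun y : E => y 0) := by fun_prop
  have h1 : Measurable (fun y : E => y 1) := by fun_prop
  exact (measurableSet_lt h0.abs measurable_const).inter (measurableSet_lt h1.abs measurable_const)

lemma Q0_open : IsOpen Q0 := by
  have h0 : Continuous (fun y : E => y 0) := by fun_prop
  have h1 : Continuous (fun y : E => y 1) := by fun_prop
  exact (isOpen_lt h0.abs continuous_const).inter (isOpen_lt h1.abs continuous_const)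

lemma Q0_sub : Q0 ⊆ ball (0 : E) (1/2) := by
  intro x hx
  rw [mem_ball_zero_iff]
  have := norm_le_two x
  linarith [hx.1, hx.2]

lemma Q0_vol : 0 < (volume Q0).toReal := by
  apply ENNReal.toReal_pos
  · exact (Q0_open.measure_pos volume ⟨0, by simp [Q0]⟩).ne'
  · exact ((measure_mono Q0_sub).trans_lt measure_ball_lt_top).ne

/-- the half unit in the second direction -/
noncomputable def e1 : E := eqv.symm (0, 1/2)

lemma e1_zero : e1 0 = 0 := by
  have : eqv e1 = (0, 1/2) := by simp [e1]
  rw [eqv_apply] at this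
  exact (Prod.ext_iff.mp this).1

lemma e1_one : e1 1 = 1/2 := by
  have : eqv e1 = (0, 1/2) := by simp [e1]
  rw [eqv_apply] at this
  exact (Prod.ext_iff.mp this).2

/-- the averaging function -/
noncomputable def psi (x : E) : ℝ := Q0.indicator 1 x - Q0.indicator 1 (x - e1)

lemma Q0_int : Integrable (Q0.indicator (1 : E → ℝ)) := by
  rw [integrable_indicator_iff Q0_meas]
  exact integrableOn_const ((measure_mono Q0_sub).trans_lt measure_ball_lt_top).ne

lemma psi_avg : Avg psi := by
  have hm : Measurable (Q0.indicator (1 : E → ℝ)) := measurable_one.indicator Q0_meas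
  refine ⟨?_, fun x => ?_, fun x hx => ?_, ?_⟩
  · exact hm.sub (hm.comp (measurable_id.sub_const e1))
  · unfold psi
    by_cases h1 : x ∈ Q0 <;> by_cases h2 : x - e1 ∈ Q0 <;> simp [h1, h2]
  · unfold psi
    have h1 : x ∉ Q0 := fun h => hx (ball_subset_ball (by norm_num) (Q0_sub h))
    have h2 : x - e1 ∉ Q0 := by
      intro h
      apply hx
      rw [mem_ball_zero_iff]
      have h3 := norm_le_two x
      have h4 : |x 0 - e1 0| < 1/100 := h.1
      have h5 : |x 1 - e1 1| < 1/100 := h.2
      rw [e1_zero, sub_zero] at h4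
      rw [e1_one, abs_lt] at h5
      have h6 : |x 1| ≤ 6/10 := abs_le.mpr ⟨by linarith, by linarith⟩
      linarith
    rw [indicator_of_notMem h1, indicator_of_notMem h2, sub_zero]
  · unfold psi
    rw [integral_sub Q0_int (Q0_int.comp_sub_right e1), integral_sub_right_eq_self
      (fun x => Q0.indicator (1 : E → ℝ) x) e1, sub_self]

lemma hh_psi {f : E → ℝ} (hf : Adm f) (y : E) :
    hh psi f y = ∫ x in Q0, (f (x - y) - f (x + e1 - y)) := by
  obtain ⟨L, hL⟩ := hf.lip
  have i1 : Integrable (fun x : E => Q0.indicator 1 x * f (x - y)) :=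
    Q0_int.mul_bdd (c := 1) (hL.continuous.comp
    (continuous_id.sub continuous_const)).aestronglyMeasurable
    (Eventually.of_forall fun x => hf.bdd _)
  have i2 : Integrable (fun x : E => Q0.indicator 1 (x - e1) * f (x - y)) :=
    (Q0_int.comp_sub_right e1).mul_bdd (c := 1) (hL.continuous.comp
    (continuous_id.sub continuous_const)).aestronglyMeasurable
    (Eventually.of_forall fun x => hf.bdd _)
  have i3 : Integrable (fun x : E => Q0.indicator 1 x * f (x + e1 - y)) :=
    Q0_int.mul_bdd (c := 1) (hL.continuous.comp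
    ((continuous_id.add continuous_const).sub continuous_const)).aestronglyMeasurable
    (Eventually.of_forall fun x => hf.bdd _)
  have h1 : hh psi f y = (∫ x, Q0.indicator 1 x * f (x - y)) -
      ∫ x, Q0.indicator 1 (x - e1) * f (x - y) := by
    unfold hh psi
    rw [← integral_sub i1 i2]
    congr 1; ext x; ring
  have h2 : ∫ x, Q0.indicator 1 (x - e1) * f (x - y) =
      ∫ x, Q0.indicator 1 x * f (x + e1 - y) := by
    rw [← integral_add_right_eq_self (fun x => Q0.indicator 1 (x - e1) * f (x - y)) e1]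
    simp only [add_sub_cancel_right]
  rw [h1, h2, ← integral_sub i1 i3, ← integral_indicator Q0_meas]
  congr 1
  ext x
  by_cases hx : x ∈ Q0
  · rw [indicator_of_mem hx, indicator_of_mem hx]; simp
  · rw [indicator_of_notMem hx, indicator_of_notMem hx]; simp

end Pool.Agent.W756.RK
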