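import Mathlib
import Pool.Agent.W756.RK6

set_option autoImplicit false
open MeasureTheory Filter Topology Metric Set
open scoped ENNReal NNReal

namespace Pool.Agent.W756.RK

lemma cos_lip (a b : ℝ) : |Real.cos a - Real.cos b| ≤ |a - b| := by
  have h := Real.cos_sub_cos a b
  rw [h]
  have h1 : |Real.sin ((a + b) / 2)| ≤ 1 := Real.abs_sin_le_one _
  have h2 : |Real.sin ((a - b) / 2)| ≤ |(a - b) / 2| := Real.abs_sin_le_abs
  rw [abs_mul, abs_mul, abs_neg, abs_two]
  rw [abs_div, abs_two] at h2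
  nlinarith [abs_nonneg (Real.sin ((a + b) / 2)), abs_nonneg (Real.sin ((a - b) / 2))]

/-- the weight -/
noncomputable def GG (R u : ℝ) : ℝ := u⁻¹ * ∫ x in Q0, eta ((u - x 0) / R)

lemma D_est {R u s : ℝ} (hR : 80 ≤ R) (hs : s ∈ Icc (0 : ℝ) 1) {x : E} (hx : x ∈ Q0) :
    |(FR R (x - Psi (u, s)) - FR R (x + e1 - Psi (u, s))) -
      2 * Real.cos (2 * Real.pi * (R * s)) * eta ((u - x 0) / R)| ≤
      1 / 2 * eta ((u - x 0) / R) := by
  have hR0 : 0 < R := by linarith
  have a0 : (x - Psi (u, s)) 0 = -(u - x 0) := by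
    show x 0 - (Psi (u, s)) 0 = _
    rw [Psi_zero]; ring
  have a1 : (x - Psi (u, s)) 1 = -(u * s - x 1) := by
    show x 1 - (Psi (u, s)) 1 = _
    rw [Psi_one]; ring
  have b0 : (x + e1 - Psi (u, s)) 0 = -(u - x 0) := by
    show x 0 + e1 0 - (Psi (u, s)) 0 = _
    rw [Psi_zero, e1_zero]; ring
  have b1 : (x + e1 - Psi (u, s)) 1 = -(u * s - x 1 - 1 / 2) := by
    show x 1 + e1 1 - (Psi (u, s)) 1 = _
    rw [Psi_one, e1_one]; ring
  set U := u - x 0 with hU
  have hF1 : FR R (x - Psi (u, s)) = Real.cos (2 * Real.pi * (R * ((u * s - x 1) / U))) *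
      eta (U / R) * zeta ((u * s - x 1) / U) := by
    unfold FR
    rw [a0, a1, neg_div_neg_eq, neg_neg]
  have hF2 : FR R (x + e1 - Psi (u, s)) =
      Real.cos (2 * Real.pi * (R * ((u * s - x 1 - 1 / 2) / U))) *
      eta (U / R) * zeta ((u * s - x 1 - 1 / 2) / U) := by
    unfold FR
    rw [b0, b1, neg_div_neg_eq, neg_neg]
  rw [hF1, hF2]
  by_cases he : eta (U / R) = 0
  · rw [he]; simp
  have h3 : |U / R - 1| < 1/20 := by
    by_contra hc; exact he (eta_zero (not_lt.mp hc))
  rw [abs_lt] at h3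
  have hU1 : R * (19/20) < U := by
    have : U = (U / R) * R := by field_simp
    rw [this]; nlinarith [h3.1]
  have hU2 : U < R * (21/20) := by
    have : U = (U / R) * R := by field_simp
    rw [this]; nlinarith [h3.2]
  have hU0 : 0 < U := by linarith
  obtain ⟨hx0, hx1⟩ := hx
  rw [abs_lt] at hx0 hx1
  set d := (s * x 0 - x 1) / U with hd
  have ht : (u * s - x 1) / U = s + d := by
    rw [hd]; field_simp; rw [hU]; ring
  have ht' : (u * s - x 1 - 1 / 2) / U = s + d - 1 / (2 * U) := by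
    rw [hd]; field_simp; rw [hU]; ring
  have hdU : |d * U| ≤ 1 / 50 := by
    rw [hd, div_mul_cancel₀ _ hU0.ne', abs_le]
    constructor <;> nlinarith [hs.1, hs.2, hx0.1, hx0.2, hx1.1, hx1.2]
  have hUi : 1 / (2 * U) ≤ 1 / 100 := by
    apply one_div_le_one_div_of_le (by norm_num); linarith
  have hUi0 : 0 < 1 / (2 * U) := by positivity
  have hd1 : |d| ≤ 1 / 50 := by
    rw [abs_mul, abs_of_pos hU0] at hdU
    nlinarith [abs_nonneg d]
  have hdl := abs_le.mp hd1
  have z1 : zeta ((u * s - x 1) / U) = 1 := by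
    apply zeta_one; rw [ht, abs_le]; constructor <;> linarith [hs.1, hs.2]
  have z2 : zeta ((u * s - x 1 - 1 / 2) / U) = 1 := by
    apply zeta_one; rw [ht', abs_le]; constructor <;> linarith [hs.1, hs.2]
  rw [z1, z2, ht, ht', mul_one, mul_one]
  have hpi := Real.pi_pos
  have hpi2 : Real.pi < 3.15 := Real.pi_lt_d2
  have hRd : |R * d| ≤ 20/19 * (1/50) := by
    have e : R * d = (R / U) * (d * U) := by field_simp
    rw [e, abs_mul]
    have : |R / U| ≤ 20/19 := by
      rw [abs_of_pos (by positivity), div_le_iff₀ hU0]; linarith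
    gcongr
  have c1 : |Real.cos (2 * Real.pi * (R * (s + d))) - Real.cos (2 * Real.pi * (R * s))| ≤
      2 * Real.pi * (20/19 * (1/50)) := by
    refine (cos_lip _ _).trans ?_
    have : 2 * Real.pi * (R * (s + d)) - 2 * Real.pi * (R * s) = 2 * Real.pi * (R * d) := by ring
    rw [this, abs_mul, abs_of_pos (by positivity)]
    gcongr
  have c2 : |-Real.cos (2 * Real.pi * (R * (s + d - 1 / (2 * U)))) -
      Real.cos (2 * Real.pi * (R * s))| ≤ 2 * Real.pi * (20/19 * (1/50)) + Real.pi * (1/19) := by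
    rw [← Real.cos_add_pi]
    refine (cos_lip _ _).trans ?_
    have e : 2 * Real.pi * (R * (s + d - 1 / (2 * U))) + Real.pi - 2 * Real.pi * (R * s) =
      2 * Real.pi * (R * d) + Real.pi * (1 - R / U) := by field_simp; ring
    rw [e]
    refine (abs_add_le _ _).trans ?_
    rw [abs_mul (2 * Real.pi), abs_of_pos (show 0 < 2 * Real.pi by positivity),
      abs_mul Real.pi, abs_of_pos hpi]
    have h5 : |1 - R / U| ≤ 1/19 := by
      rw [abs_le]
      constructor
      · have : R / U ≤ 20/19 := by rw [div_le_iff₀ hU0]; linarith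
        linarith
      · have : 20/21 ≤ R / U := by rw [le_div_iff₀ hU0]; linarith
        linarith
    gcongr
  have hen := eta_nn (U / R)
  have e : Real.cos (2 * Real.pi * (R * (s + d))) * eta (U / R) -
      Real.cos (2 * Real.pi * (R * (s + d - 1 / (2 * U)))) * eta (U / R) -
      2 * Real.cos (2 * Real.pi * (R * s)) * eta (U / R) =
      ((Real.cos (2 * Real.pi * (R * (s + d))) - Real.cos (2 * Real.pi * (R * s))) +
      (-Real.cos (2 * Real.pi * (R * (s + d - 1 / (2 * U)))) -
      Real.cos (2 * Real.pi * (R * s)))) * eta (U / R) := by ring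
  rw [e, abs_mul, abs_of_nonneg hen]
  apply mul_le_mul_of_nonneg_right _ hen
  refine (abs_add_le _ _).trans ?_
  nlinarith

lemma eta_Q0_int (R u : ℝ) : IntegrableOn (fun x : E => eta ((u - x 0) / R)) Q0 := by
  have h1 : IntegrableOn (fun _ : E => (1 : ℝ)) Q0 :=
    integrableOn_const ((measure_mono Q0_sub).trans_lt measure_ball_lt_top).ne
  refine h1.mono' ?_ (Eventually.of_forall fun x => ?_)
  · apply Continuous.aestronglyMeasurable
    exact eta.continuous.comp (by fun_prop)
  · rw [Real.norm_of_nonneg (eta_nn _)]; exact eta_le _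

lemma FR_cont {R : ℝ} (hR : 0 < R) : Continuous (FR R) := (FR_smooth hR).continuous

lemma J_pt {R u s : ℝ} (hR : 80 ≤ R) (hs : s ∈ Icc (0 : ℝ) 1) :
    |u⁻¹ * hh psi (FR R) (Psi (u, s)) - 2 * Real.cos (2 * Real.pi * (R * s)) * GG R u| ≤
      1 / 2 * GG R u := by
  have hR0 : 0 < R := by linarith
  have hA := FR_adm (show 4 ≤ R by linarith)
  rw [hh_psi hA]
  unfold GG
  set y := Psi (u, s) with hy
  have i1 : IntegrableOn (fun x => FR R (x - y) - FR R (x + e1 - y)) Q0 := by
    have h1 : IntegrableOn (fun _ : E => (2 : ℝ)) Q0 :=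
      integrableOn_const ((measure_mono Q0_sub).trans_lt measure_ball_lt_top).ne
    refine h1.mono' ?_ (Eventually.of_forall fun x => ?_)
    · apply Continuous.aestronglyMeasurable
      exact ((FR_cont hR0).comp (by fun_prop)).sub ((FR_cont hR0).comp (by fun_prop))
    · have h2 := hA.bdd (x - y)
      have h3 := hA.bdd (x + e1 - y)
      calc ‖FR R (x - y) - FR R (x + e1 - y)‖ ≤ ‖FR R (x - y)‖ + ‖FR R (x + e1 - y)‖ :=
            norm_sub_le _ _
        _ ≤ 1 + 1 := by
            rw [Real.norm_eq_abs, Real.norm_eq_abs]; linarith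
        _ = 2 := by norm_num
  have i2 := eta_Q0_int R u
  have h1 : |(∫ x in Q0, (FR R (x - y) - FR R (x + e1 - y))) -
      2 * Real.cos (2 * Real.pi * (R * s)) * ∫ x in Q0, eta ((u - x 0) / R)| ≤
      1 / 2 * ∫ x in Q0, eta ((u - x 0) / R) := by
    rw [← integral_const_mul, ← integral_const_mul, ← integral_sub i1 (i2.const_mul _),
      ← Real.norm_eq_abs]
    refine (norm_integral_le_integral_norm _).trans ?_
    apply setIntegral_mono_on (i1.sub (i2.const_mul _)).norm (i2.const_mul _) Q0_meas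
    intro x hx
    rw [Real.norm_eq_abs]
    exact D_est hR hs hx
  by_cases hu : 0 < u
  · have e : u⁻¹ * (∫ x in Q0, (FR R (x - y) - FR R (x + e1 - y))) -
        2 * Real.cos (2 * Real.pi * (R * s)) * (u⁻¹ * ∫ x in Q0, eta ((u - x 0) / R)) =
        u⁻¹ * ((∫ x in Q0, (FR R (x - y) - FR R (x + e1 - y))) -
        2 * Real.cos (2 * Real.pi * (R * s)) * ∫ x in Q0, eta ((u - x 0) / R)) := by ring
    rw [e, abs_mul, abs_of_pos (inv_pos.mpr hu)]
    calc u⁻¹ * _ ≤ u⁻¹ * (1 / 2 * ∫ x in Q0, eta ((u - x 0) / R)) :=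
          mul_le_mul_of_nonneg_left h1 (inv_pos.mpr hu).le
      _ = _ := by ring
  · have h2 : ∫ x in Q0, eta ((u - x 0) / R) = 0 := by
      apply setIntegral_eq_zero_of_forall_eq_zero
      intro x hx
      apply eta_zero
      have hx0 := abs_lt.mp hx.1
      have : (u - x 0) / R ≤ 1/100 := by
        rw [div_le_iff₀ hR0]; linarith
      rw [abs_of_neg (by linarith)]; linarith
    rw [h2] at h1 ⊢
    simp only [mul_zero, sub_zero] at h1 ⊢
    have h3 : (∫ x in Q0, (FR R (x - y) - FR R (x + e1 - y))) = 0 :=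
      abs_eq_zero.mp (le_antisymm h1 (abs_nonneg _))
    rw [h3]; simp

lemma GG_nn {R u : ℝ} (hR : 80 ≤ R) : 0 ≤ GG R u := by
  have h := J_pt (u := u) hR (s := 0) (by norm_num)
  have := (abs_nonneg _).trans h
  linarith

lemma GG_int {R : ℝ} (hR : 80 ≤ R) : Integrable (GG R) := by
  have hR0 : 0 < R := by linarith
  have h1 : Integrable ((Icc (0 : ℝ) (2 * R)).indicator
      (fun _ => (volume Q0).toReal)) := by
    rw [integrable_indicator_iff measurableSet_Icc]
    exact integrableOn_const measure_Icc_lt_top.ne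
  have hle : ∀ u, ∫ x in Q0, eta ((u - x 0) / R) ≤ (volume Q0).toReal := by
    intro u
    calc ∫ x in Q0, eta ((u - x 0) / R) ≤ ∫ x in Q0, (1 : ℝ) := by
          apply setIntegral_mono_on (eta_Q0_int R u) _ Q0_meas (fun x _ => eta_le _)
          exact integrableOn_const ((measure_mono Q0_sub).trans_lt measure_ball_lt_top).ne
      _ = _ := by simp [Measure.real]
  refine h1.mono' ?_ (Eventually.of_forall fun u => ?_)
  · apply Measurable.aestronglyMeasurable
    unfold GG
    refine measurable_inv.mul ?_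
    have h2 : StronglyMeasurable (fun p : ℝ × E => eta ((p.1 - p.2 0) / R)) := by
      apply Measurable.stronglyMeasurable
      exact eta.continuous.measurable.comp (by fun_prop)
    exact (StronglyMeasurable.integral_prod_right (ν := (volume : Measure E).restrict Q0)
      h2).measurable
  · rw [Real.norm_of_nonneg (GG_nn hR)]
    by_cases hu : ∃ x ∈ Q0, eta ((u - x 0) / R) ≠ 0
    · obtain ⟨x, hx, he⟩ := hu
      have h3 : |(u - x 0) / R - 1| < 1/20 := by
        by_contra hc; exact he (eta_zero (not_lt.mp hc))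
      rw [abs_lt] at h3
      have hx0 := abs_lt.mp hx.1
      have h4 : u - x 0 = ((u - x 0) / R) * R := by field_simp
      have h5 : R * (19/20) < u - x 0 := by rw [h4]; nlinarith [h3.1]
      have h6 : u - x 0 < R * (21/20) := by rw [h4]; nlinarith [h3.2]
      have hu1 : 1 ≤ u := by linarith
      rw [indicator_of_mem (show u ∈ Icc (0 : ℝ) (2 * R) from ⟨by linarith, by linarith⟩)]
      unfold GG
      have h7 : 0 ≤ ∫ x in Q0, eta ((u - x 0) / R) := integral_nonneg fun _ => eta_nn _
      calc u⁻¹ * ∫ x in Q0, eta ((u - x 0) / R) ≤ 1 * ∫ x in Q0, eta ((u - x 0) / R) := by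
            apply mul_le_mul_of_nonneg_right _ h7
            exact inv_le_one_of_one_le₀ hu1
        _ ≤ _ := by rw [one_mul]; exact hle u
    · push Not at hu
      unfold GG
      rw [setIntegral_eq_zero_of_forall_eq_zero hu, mul_zero]
      exact indicator_nonneg (fun _ _ => ENNReal.toReal_nonneg) _

lemma GG_lower {R : ℝ} (hR : 80 ≤ R) : (volume Q0).toReal / 80 ≤ ∫ u, GG R u := by
  have hR0 : 0 < R := by linarith
  set v := (volume Q0).toReal with hv
  have hv0 : 0 ≤ v := ENNReal.toReal_nonneg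
  set S : Set ℝ := Icc (R * (79/80)) (R * (81/80)) with hS
  have h1 : ∀ u ∈ S, v / (2 * R) ≤ GG R u := by
    intro u hu
    have h2 : ∫ x in Q0, eta ((u - x 0) / R) = v := by
      have : ∀ x ∈ Q0, eta ((u - x 0) / R) = 1 := by
        intro x hx
        apply eta_one
        have hx0 := abs_lt.mp hx.1
        rw [abs_le]
        have e : (u - x 0) / R - 1 = (u - x 0 - R) / R := by field_simp
        rw [e]
        constructor
        · rw [le_div_iff₀ hR0]; linarith [hu.1]
        · rw [div_le_iff₀ hR0]; linarith [hu.2]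
      rw [setIntegral_congr_fun Q0_meas this]
      simp [Measure.real, hv]
    unfold GG
    rw [h2]
    have hu0 : 0 < u := by linarith [hu.1]
    rw [div_eq_inv_mul]
    apply mul_le_mul_of_nonneg_right _ hv0
    apply inv_anti₀ hu0
    linarith [hu.2]
  calc v / 80 = ∫ u in S, v / (2 * R) := by
        rw [setIntegral_const, smul_eq_mul, Measure.real, hS, Real.volume_Icc,
          ENNReal.toReal_ofReal (by linarith)]
        field_simp
        ring
    _ ≤ ∫ u in S, GG R u := by
        apply setIntegral_mono_on _ (GG_int hR).integrableOn measurableSet_Icc h1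
        exact integrableOn_const (by simp [hS])
    _ ≤ ∫ u, GG R u := setIntegral_le_integral (GG_int hR) (Eventually.of_forall fun u => GG_nn hR)

lemma J_est {R s : ℝ} (hR : 80 ≤ R) (hs : s ∈ Icc (0 : ℝ) 1) :
    |JJ psi (FR R) s - 2 * Real.cos (2 * Real.pi * (R * s)) * ∫ u, GG R u| ≤
      1 / 2 * ∫ u, GG R u := by
  have hA := FR_adm (show 4 ≤ R by linarith)
  have i1 := JJ_int psi_avg hA s
  have i2 := GG_int hR
  unfold JJ
  rw [← integral_const_mul, ← integral_const_mul, ← integral_sub i1 (i2.const_mul _),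
    ← Real.norm_eq_abs]
  refine (norm_integral_le_integral_norm _).trans ?_
  apply integral_mono (i1.sub (i2.const_mul _)).norm (i2.const_mul _)
  intro u
  simp only [Real.norm_eq_abs]
  exact J_pt hR hs

lemma cos_sq_int {n : ℕ} (hn : 0 < n) :
    ∫ s in Icc (0 : ℝ) 1, Real.cos (2 * Real.pi * ((n : ℝ) * s)) ^ 2 = 1 / 2 := by
  rw [integral_Icc_eq_integral_Ioc, ← intervalIntegral.integral_of_le zero_le_one]
  have hc : (2 * Real.pi * (n : ℝ)) ≠ 0 := by
    have : (n : ℝ) ≠ 0 := by positivity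
    positivity
  have h1 : ∀ s : ℝ, Real.cos (2 * Real.pi * ((n : ℝ) * s)) ^ 2 =
      (fun t => Real.cos t ^ 2) ((2 * Real.pi * n) * s) := by
    intro s; simp only; congr 2; ring
  simp_rw [h1]
  rw [intervalIntegral.integral_comp_mul_left (fun t => Real.cos t ^ 2) hc, mul_zero, mul_one,
    integral_cos_sq]
  have h2 : Real.sin (2 * Real.pi * n) = 0 := by
    have := Real.sin_nat_mul_pi (2 * n)
    push_cast at this
    rw [← this]; congr 1; ring
  rw [h2]
  simp only [mul_zero, Real.sin_zero, sub_zero, zero_add, smul_eq_mul]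
  field_simp

lemma qq_lower {n : ℕ} (hn : 80 ≤ n) :
    3 / 4 * ((volume Q0).toReal / 80) ^ 2 ≤ qq psi (FR n) := by
  have hR : (80 : ℝ) ≤ n := by exact_mod_cast hn
  set A := ∫ u, GG (n : ℝ) u with hA
  have hAl : (volume Q0).toReal / 80 ≤ A := GG_lower hR
  have hv0 : 0 < (volume Q0).toReal / 80 := by have := Q0_vol; positivity
  have hA0 : 0 < A := by linarith
  have hadm := FR_adm (show (4 : ℝ) ≤ n by linarith)
  have h1 : ∀ s ∈ Icc (0 : ℝ) 1, 2 * A ^ 2 * Real.cos (2 * Real.pi * ((n : ℝ) * s)) ^ 2 - A ^ 2 / 4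
      ≤ JJ psi (FR n) s ^ 2 := by
    intro s hs
    have h2 := J_est hR hs
    rw [← hA] at h2
    set c := Real.cos (2 * Real.pi * ((n : ℝ) * s)) with hc
    set J := JJ psi (FR n) s with hJ
    have h3 := sq_le_sq' (abs_le.mp h2).1 (abs_le.mp h2).2
    nlinarith [sq_nonneg (2 * c * A - 2 * J), sq_nonneg (J - 2 * c * A), sq_nonneg (2 * J - 2 * c * A)]
  have i1 : IntegrableOn (fun s => 2 * A ^ 2 * Real.cos (2 * Real.pi * ((n : ℝ) * s)) ^ 2 - A ^ 2 / 4)
      (Icc (0 : ℝ) 1) := by
    apply Continuous.integrableOn_Icc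
    fun_prop
  have h2 : ∫ s in Icc (0 : ℝ) 1, (2 * A ^ 2 * Real.cos (2 * Real.pi * ((n : ℝ) * s)) ^ 2 - A ^ 2 / 4)
      = 3 / 4 * A ^ 2 := by
    rw [integral_sub, integral_const_mul, cos_sq_int (by omega)]
    · simp only [integral_const, MeasurableSet.univ, measureReal_restrict_apply, univ_inter,
        Real.volume_real_Icc, sub_zero, smul_eq_mul]
      norm_num
      ring
    · apply Continuous.integrableOn_Icc
      fun_prop
    · exact integrableOn_const (by simp)
  calc 3 / 4 * ((volume Q0).toReal / 80) ^ 2 ≤ 3 / 4 * A ^ 2 := by gcongr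
    _ = ∫ s in Icc (0 : ℝ) 1, (2 * A ^ 2 * Real.cos (2 * Real.pi * ((n : ℝ) * s)) ^ 2 - A ^ 2 / 4) :=
        h2.symm
    _ ≤ _ := by
        unfold qq
        exact setIntegral_mono_on i1 (JJ_memLp psi_avg hadm).integrable_sq measurableSet_Icc h1

theorem not_pos : ¬ PosTwo := by
  intro H
  have hv0 : 0 < (volume Q0).toReal / 80 := by have := Q0_vol; positivity
  refine contra psi_avg (κ := 3 / 4 * ((volume Q0).toReal / 80) ^ 2) (by positivity) ?_ H
  intro ρ
  obtain ⟨n, hn⟩ := exists_nat_gt (max 80 (2 * ρ))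
  have h1 : (80 : ℝ) < n := (le_max_left _ _).trans_lt hn
  have h2 : 2 * ρ < n := (le_max_right _ _).trans_lt hn
  have h3 : 80 ≤ n := by exact_mod_cast h1.le
  exact ⟨FR n, FR_adm (by linarith), fun z hz => FR_far (by linarith) (by linarith) z hz,
    qq_lower h3⟩

end Pool.Agent.W756.RK
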