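import Pool.Agent.Helper506.ArcAreaS

/-!
# MP_2cd50e_an, part A: a coefficient triple which belongs to no univalent function

`a₂ = 1.9`, `a₃ = 2.96` are not the second and third coefficients of a function of class `S`.
-/

set_option autoImplicit false
open Complex Set Filter Metric Topology
open Pool.Agent.Helper506.Arc

namespace Pool.Agent.W756.LC

/-- Taylor coefficients give a power series expansion in the disc -/
theorem PS_taylor {B : ℂ → ℂ} (hB : DifferentiableOn ℂ B (ball (0 : ℂ) 1)) :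
    PS (fun n => iteratedDeriv n B 0 / ((n.factorial : ℕ) : ℂ)) B := by
  intro z hz
  have h := Complex.hasSum_taylorSeries_on_ball (c := (0 : ℂ)) (r := 1) (f := B)
    (by simpa using hB) (z := z) (by simpa using hz)
  refine h.congr_fun ?_ |> fun h => h
  intro n
  simp only [sub_zero, smul_eq_mul]
  field_simp

theorem not_univalent {B : ℂ → ℂ} (hB : DifferentiableOn ℂ B (ball (0 : ℂ) 1))
    (hinj : Set.InjOn B (ball (0 : ℂ) 1)) (h0 : B 0 = 0) {β : ℝ} (hβ : 0 < β)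
    (h1 : iteratedDeriv 1 B 0 / ((Nat.factorial 1 : ℕ) : ℂ) = (β : ℂ))
    (h2 : iteratedDeriv 2 B 0 / ((Nat.factorial 2 : ℕ) : ℂ) = ((19 / 10 * β : ℝ) : ℂ))
    (h3 : iteratedDeriv 3 B 0 / ((Nat.factorial 3 : ℕ) : ℂ) = ((74 / 25 * β : ℝ) : ℂ)) :
    False := by
  have hβ' : (β : ℂ) ≠ 0 := by exact_mod_cast hβ.ne'
  have hd : deriv B 0 = β := by
    simpa using h1
  set f : ℂ → ℂ := fun z => (β : ℂ)⁻¹ * B z with hf
  have hS : InS f := by
    refine ⟨hB.const_mul _, ?_, ?_, ?_⟩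
    · intro x hx y hy hxy
      exact hinj hx hy (mul_left_cancel₀ (inv_ne_zero hβ') hxy)
    · simp [hf, h0]
    · have hBd : DifferentiableAt ℂ B 0 :=
        hB.differentiableAt (isOpen_ball.mem_nhds (mem_ball_self one_pos))
      rw [hf, deriv_const_mul _ hBd, hd, inv_mul_cancel₀ hβ']
  obtain ⟨s, hs⟩ := exists_root hS
  obtain ⟨σ, hσ⟩ := exists_PS hs.1
  have hPS := (PS_taylor hB).const_mul (β : ℂ)⁻¹
  have hrel := (coeffs_rel hPS hσ hs.2.2.2 hs.2.1 (by simp [h0])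
    (by simp only [h1]; exact inv_mul_cancel₀ hβ')).1
  have e2 : (β : ℂ)⁻¹ * (iteratedDeriv 2 B 0 / ((Nat.factorial 2 : ℕ) : ℂ)) = 19 / 10 := by
    rw [h2]; push_cast; field_simp
  have e3 : (β : ℂ)⁻¹ * (iteratedDeriv 3 B 0 / ((Nat.factorial 3 : ℕ) : ℂ)) = 74 / 25 := by
    rw [h3]; push_cast; field_simp
  have s1 : vec σ 0 = -19 / 20 := by
    rw [hrel]
    simp only [Sm, Matrix.cons_val_zero]
    have z0 : ((0 : Fin 5) : ℕ) + 2 = 2 := rfl
    simp only [z0]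
    rw [e2]
    norm_num
  have s2 : vec σ 1 = -101 / 800 := by
    rw [hrel]
    simp only [Sm, Matrix.cons_val_one, Matrix.cons_val_zero]
    have z0 : ((0 : Fin 5) : ℕ) + 2 = 2 := rfl
    have z1 : ((1 : Fin 5) : ℕ) + 2 = 3 := rfl
    simp only [z0, z1]
    rw [e2, e3]
    norm_num
  set y : ℂ := vec σ 2 with hy
  have hKd : ∀ c : ℂ, DifferentiableOn ℂ (KK c 0 s) (ball (0 : ℂ) 1) := by
    intro c
    have := hs.1
    unfold KK
    fun_prop
  -- first area inequality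
  obtain ⟨κ, hκ⟩ := exists_PS (hKd 0)
  have A1 := area_s hS hs hκ 6 (by norm_num)
  obtain ⟨p0, p1, p2, p3, p4, p5⟩ := KK_coeffs hσ hs.2.1 hκ
  simp only [k0, k1, k2, k3, k4, k5, s1, s2] at p0 p1 p2 p3 p4 p5
  rw [← hy] at p5
  have q2 : κ 2 = 1 := by rw [p2]; ring
  have q3 : κ 3 = ((-19 / 20 : ℝ) : ℂ) := by rw [p3]; push_cast; ring
  have q4 : κ 4 = ((-101 / 800 : ℝ) : ℂ) := by rw [p4]; push_cast; ring
  have q5 : κ 5 = y := by rw [p5]; ring
  have q0 : κ 0 = 0 := by rw [p0]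
  have q1 : κ 1 = 0 := by rw [p1]; ring
  simp only [Finset.sum_range_succ, Finset.sum_range_zero, q0, q1, q2, q3, q4, q5,
    Complex.norm_real, Real.norm_eq_abs, sq_abs, norm_zero, norm_one] at A1
  norm_num at A1
  -- second area inequality
  obtain ⟨μ, hμ⟩ := exists_PS (hKd (1 / 9))
  have A2 := area_s hS hs hμ 5 (by norm_num)
  obtain ⟨r0, r1, r2, r3, r4, r5⟩ := KK_coeffs hσ hs.2.1 hμ
  simp only [k0, k1, k2, k3, k4, k5, s1, s2] at r0 r1 r2 r3 r4 r5
  rw [← hy] at r4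
  have t0 : μ 0 = 0 := by rw [r0]
  have t1 : μ 1 = ((1 / 9 : ℝ) : ℂ) := by rw [r1]; push_cast; ring
  have t2 : μ 2 = ((41 / 60 : ℝ) : ℂ) := by rw [r2]; push_cast; ring
  have t3 : μ 3 = ((-553 / 800 : ℝ) : ℂ) := by rw [r3]; push_cast; ring
  have t4 : μ 4 = y / 3 + ((-5096 / 36000 : ℝ) : ℂ) := by rw [r4]; push_cast; ring
  simp only [Finset.sum_range_succ, Finset.sum_range_zero, t0, t1, t2, t3,
    Complex.norm_real, Real.norm_eq_abs, sq_abs, norm_zero] at A2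
  have n1 : y.re ^ 2 ≤ ‖y‖ ^ 2 := by
    rw [← Complex.normSq_eq_norm_sq, Complex.normSq_apply]
    nlinarith [mul_self_nonneg y.im]
  have n2 : (y.re / 3 - 5096 / 36000) ^ 2 ≤ ‖μ 4‖ ^ 2 := by
    have hre : (μ 4).re = y.re / 3 - 5096 / 36000 := by
      rw [t4, Complex.add_re, Complex.ofReal_re]
      have : (y / 3).re = y.re / 3 := by
        rw [show (3 : ℂ) = ((3 : ℝ) : ℂ) by norm_num, Complex.div_ofReal_re]
      rw [this]; ring
    rw [← hre, ← Complex.normSq_eq_norm_sq, Complex.normSq_apply]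
    nlinarith [mul_self_nonneg (μ 4).im]
  norm_num at A2
  have n3 : (y.re / 3 - 5096 / 36000) ^ 2 ≤ 875 / 100000 := by
    nlinarith
  have n4 : y.re / 3 ≥ 48 / 1000 := by
    nlinarith
  nlinarith

end Pool.Agent.W756.LC
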