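import Mathlib

/-!
# MP_2cd50e_an, part B: the weights and the determinant inequality
-/

set_option autoImplicit false

namespace Pool.Agent.W756.LC

/-- the weight `d / (1 - b^{2 d})`, `L = log (1/b)` -/
noncomputable def g (L d : ℝ) : ℝ := if d = 0 then 1 / (2 * L) else d / (1 - Real.exp (-(2 * L * d)))

theorem g_pos {L : ℝ} (hL : 0 < L) (d : ℝ) : 0 < g L d := by
  unfold g
  split_ifs with h
  · positivity
  · rcases lt_or_gt_of_ne h with h | h
    · have h1 : 1 < Real.exp (-(2 * L * d)) := by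
        rw [Real.one_lt_exp_iff]
        have : 0 < L * -d := mul_pos hL (by linarith)
        nlinarith
      exact div_pos_of_neg_of_neg h (by linarith)
    · have h1 : Real.exp (-(2 * L * d)) < 1 := by
        rw [Real.exp_lt_one_iff]
        have : 0 < L * d := mul_pos hL h
        nlinarith
      exact div_pos h (by linarith)

theorem one_sub_exp_ne {L : ℝ} (hL : 0 < L) {d : ℝ} (hd : d ≠ 0) : 1 - Real.exp (2 * L * d) ≠ 0 := by
  intro h
  have h1 : Real.exp (2 * L * d) = 1 := by linarith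
  rw [Real.exp_eq_one_iff] at h1
  have : 2 * L ≠ 0 := by positivity
  exact hd ((mul_eq_zero.1 h1).resolve_left this)

theorem g_sub {L : ℝ} (hL : 0 < L) (d : ℝ) : g L d - g L (-d) = d := by
  unfold g
  by_cases h : d = 0
  · simp [h]
  · rw [if_neg h, if_neg (neg_ne_zero.2 h)]
    have h1 := one_sub_exp_ne hL h
    rw [show -(2 * L * -d) = 2 * L * d by ring, Real.exp_neg]
    have h2 : 0 < Real.exp (2 * L * d) := Real.exp_pos _
    generalize Real.exp (2 * L * d) = E at h1 h2
    have h3 : 1 - E⁻¹ = -((1 - E) / E) := by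
      field_simp
      ring
    rw [h3]
    field_simp
    ring

theorem g_mul {L : ℝ} (hL : 0 < L) (d : ℝ) :
    d * (Real.exp (2 * L * d) - 1) = d ^ 2 / g L (-d) := by
  by_cases h : d = 0
  · simp [h]
  · have h1 := one_sub_exp_ne hL h
    unfold g
    rw [if_neg (neg_ne_zero.2 h), show -(2 * L * -d) = 2 * L * d by ring]
    field_simp
    ring

theorem g_neg_le {L : ℝ} (hL : 5000 ≤ L) {d : ℝ} (hd : 0 ≤ d) :
    g L (-d) * (1 + d) ^ 3 ≤ 1 / (2 * L) := by
  have hL0 : 0 < L := by linarith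
  rcases hd.eq_or_lt with h | h
  · rw [← h]; simp [g]
  · unfold g
    rw [if_neg (neg_ne_zero.2 h.ne'), show -(2 * L * -d) = 2 * L * d by ring]
    set t : ℝ := 2 * L * d with ht
    have ht0 : 0 < t := by positivity
    have hE := Real.sum_le_exp_of_nonneg ht0.le 5
    simp only [Finset.sum_range_succ, Finset.sum_range_zero, Nat.factorial] at hE
    norm_num at hE
    have hE1 : 0 < Real.exp t - 1 := by nlinarith [pow_pos ht0 2, pow_pos ht0 3, pow_pos ht0 4]
    rw [show -d / (1 - Real.exp t) = d / (Real.exp t - 1) by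
      rw [← neg_sub, div_neg, neg_div, neg_neg]]
    rw [div_mul_eq_mul_div, div_le_div_iff₀ hE1 (by positivity)]
    have hd1 : d ≤ t / 10000 := by rw [ht]; nlinarith
    have e1 : d * (1 + d) ^ 3 * (2 * L) = t * (1 + d) ^ 3 := by rw [ht]; ring
    rw [e1]
    have h2 : (1 + d) ^ 3 ≤ (1 + t / 10000) ^ 3 :=
      pow_le_pow_left₀ (by linarith) (by linarith) 3
    have h3 : t * (1 + d) ^ 3 ≤ t * (1 + t / 10000) ^ 3 := mul_le_mul_of_nonneg_left h2 ht0.le
    nlinarith [pow_pos ht0 2, pow_pos ht0 3, pow_pos ht0 4]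

/-- the quartic is positive -/
theorem quartic (r : ℝ) : 13 / 1000 ≤
    1 - (361 / 100) * r * (1 - r) - (1 - r ^ 2) * (361 / 200 * r - 13 / 20) ^ 2 := by
  nlinarith [sq_nonneg (r ^ 2 - 36 / 100 * r - 151 / 1000), sq_nonneg (r - 607 / 1000),
    sq_nonneg r, sq_nonneg (r ^ 2)]

end Pool.Agent.W756.LC
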