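import Pool.Agent.W756.LC2

/-!
# MP_2cd50e_an, part B: the determinant inequality
-/

set_option autoImplicit false

namespace Pool.Agent.W756.LC

theorem near {r e1 e2 v : ℝ} (h0 : 0 ≤ r) (h1 : r ≤ 1) (a0 : 0 ≤ e1) (a1 : e1 ≤ 1 / 10000)
    (b0 : 0 ≤ e2) (b1 : e2 ≤ 1 / 10000) (c0 : 0 ≤ v) (c1 : v ≤ 1 / 10000) :
    0 < 1 - 361 / 100 * ((1 + r + e1) * v) ∧ 0 < 1 - 361 / 100 * ((1 - r + e2) * (r + v)) ∧
    (1 + r + e1) * (1 - r + e2) * (-13 / 20 + 361 / 100 * (r + v - r / 2)) ^ 2 ≤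
      (1 - 361 / 100 * ((1 + r + e1) * v)) * (1 - 361 / 100 * ((1 - r + e2) * (r + v))) := by
  have m1 : (1 + r + e1) * v ≤ 21 / 100000 := by
    have : (1 + r + e1) * v ≤ (1 + 1 + 1 / 10000) * (1 / 10000) := by gcongr
    linarith
  have m1' : 0 ≤ (1 + r + e1) * v := by positivity
  have h1r : 0 ≤ 1 - r := by linarith
  have m2 : (1 - r + e2) * (r + v) ≤ r * (1 - r) + 11 / 100000 := by
    have i1 : (1 - r) * v ≤ (1 - r) * (1 / 10000) := by gcongr
    have i2 : e2 * r ≤ 1 / 10000 * r := by gcongr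
    have i3 : e2 * v ≤ 1 / 10000 * (1 / 10000) := by gcongr
    nlinarith
  have m2' : 0 ≤ (1 - r + e2) * (r + v) := by positivity
  have hq : r * (1 - r) ≤ 1 / 4 := by nlinarith [sq_nonneg (r - 1 / 2)]
  have m3 : (1 + r + e1) * (1 - r + e2) ≤ (1 - r ^ 2) + 4 / 10000 := by
    have i1 : e1 * (1 - r) ≤ 1 / 10000 * 1 := by gcongr; linarith
    have i2 : (1 + r) * e2 ≤ (1 + 1) * (1 / 10000) := by gcongr
    have i3 : e1 * e2 ≤ 1 / 10000 * (1 / 10000) := by gcongr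
    nlinarith
  have m3' : 0 ≤ (1 + r + e1) * (1 - r + e2) := by positivity
  set T : ℝ := 361 / 200 * r - 13 / 20 with hT
  have hT1 : T ≤ 1155 / 1000 := by rw [hT]; linarith
  have hT0 : -65 / 100 ≤ T := by rw [hT]; linarith
  have hTsq : T ^ 2 ≤ 1335 / 1000 := by nlinarith
  have m4 : (-13 / 20 + 361 / 100 * (r + v - r / 2)) ^ 2 ≤ T ^ 2 + 9 / 10000 := by
    have e : -13 / 20 + 361 / 100 * (r + v - r / 2) = T + 361 / 100 * v := by rw [hT]; ring
    rw [e]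
    have i1 : T * v ≤ 1155 / 1000 * (1 / 10000) := by
      calc T * v ≤ 1155 / 1000 * v := by gcongr
        _ ≤ _ := by gcongr
    have i2 : v * v ≤ 1 / 10000 * (1 / 10000) := by gcongr
    nlinarith
  have hr2 : 0 ≤ 1 - r ^ 2 := by nlinarith
  have m5 : (1 + r + e1) * (1 - r + e2) * (-13 / 20 + 361 / 100 * (r + v - r / 2)) ^ 2 ≤
      (1 - r ^ 2) * T ^ 2 + 15 / 10000 := by
    calc (1 + r + e1) * (1 - r + e2) * (-13 / 20 + 361 / 100 * (r + v - r / 2)) ^ 2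
        ≤ ((1 - r ^ 2) + 4 / 10000) * (T ^ 2 + 9 / 10000) := by gcongr
      _ ≤ (1 - r ^ 2) * T ^ 2 + 15 / 10000 := by nlinarith [sq_nonneg r]
  have hF := quartic r
  rw [← hT] at hF
  refine ⟨by linarith, by linarith, m5.trans ?_⟩
  have k1 : 1 - 76 / 100000 ≤ 1 - 361 / 100 * ((1 + r + e1) * v) := by linarith
  have k2 : 1 - 361 / 100 * (r * (1 - r)) - 4 / 10000 ≤
      1 - 361 / 100 * ((1 - r + e2) * (r + v)) := by linarith
  have k3 : (1 - 76 / 100000) * (1 - 361 / 100 * (r * (1 - r)) - 4 / 10000) ≤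
      (1 - 361 / 100 * ((1 + r + e1) * v)) * (1 - 361 / 100 * ((1 - r + e2) * (r + v))) := by
    apply mul_le_mul k1 k2
    · linarith
    · linarith
  refine le_trans ?_ k3
  have k4 : 0 ≤ r * (1 - r) := by positivity
  nlinarith

theorem far {r e1 p v : ℝ} (h1 : 1 ≤ r) (a0 : 0 ≤ e1) (a1 : e1 ≤ 1 / 10000)
    (b0 : 0 ≤ p) (b1 : p * r ^ 3 ≤ 1 / 10000) (c0 : 0 ≤ v) (c1 : v * (1 + r) ^ 3 ≤ 1 / 10000) :
    0 < 1 - 361 / 100 * ((1 + r + e1) * v) ∧ 0 < 1 - 361 / 100 * (p * (r + v)) ∧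
    (1 + r + e1) * p * (-13 / 20 + 361 / 100 * (r + v - r / 2)) ^ 2 ≤
      (1 - 361 / 100 * ((1 + r + e1) * v)) * (1 - 361 / 100 * (p * (r + v))) := by
  have hr0 : 0 ≤ r := by linarith
  have hv : v ≤ 1 / 10000 := by
    have : v * 1 ≤ v * (1 + r) ^ 3 := by
      gcongr
      exact one_le_pow₀ (by linarith)
    linarith
  have hv1 : v * (1 + r) ≤ 1 / 10000 := by
    have : v * (1 + r) ^ 1 ≤ v * (1 + r) ^ 3 := by
      gcongr
      · linarith
      · norm_num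
    linarith
  have hp1 : p * r ≤ 1 / 10000 := by
    have : p * r ^ 1 ≤ p * r ^ 3 := by
      gcongr
      norm_num
    linarith
  have hp : p ≤ 1 / 10000 := by nlinarith
  have m1 : (1 + r + e1) * v ≤ 11 / 100000 := by
    have : e1 * v ≤ 1 / 10000 * (1 / 10000) := by gcongr
    nlinarith
  have m2 : p * (r + v) ≤ 11 / 100000 := by
    have : p * v ≤ 1 / 10000 * (1 / 10000) := by gcongr
    nlinarith
  have e : -13 / 20 + 361 / 100 * (r + v - r / 2) = 361 / 200 * r - 13 / 20 + 361 / 100 * v := by ring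
  have t0 : 0 ≤ 361 / 200 * r - 13 / 20 + 361 / 100 * v := by linarith
  have t1 : 361 / 200 * r - 13 / 20 + 361 / 100 * v ≤ 2 * r := by linarith
  have m3 : (1 + r + e1) * p * (-13 / 20 + 361 / 100 * (r + v - r / 2)) ^ 2 ≤ 12 / 10000 := by
    rw [e]
    calc (1 + r + e1) * p * (361 / 200 * r - 13 / 20 + 361 / 100 * v) ^ 2
        ≤ (3 * r) * p * (2 * r) ^ 2 := by
          gcongr
          linarith
      _ = 12 * (p * r ^ 3) := by ring
      _ ≤ 12 / 10000 := by linarith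
  refine ⟨by linarith, by linarith, m3.trans ?_⟩
  have k1 : (9 / 10 : ℝ) ≤ 1 - 361 / 100 * ((1 + r + e1) * v) := by linarith
  have k2 : (9 / 10 : ℝ) ≤ 1 - 361 / 100 * (p * (r + v)) := by linarith
  have k3 : (9 / 10 : ℝ) * (9 / 10) ≤
      (1 - 361 / 100 * ((1 + r + e1) * v)) * (1 - 361 / 100 * (p * (r + v))) := by
    apply mul_le_mul k1 k2 (by norm_num) (by linarith)
  linarith

theorem star_nonneg {L : ℝ} (hL : 5000 ≤ L) {r : ℝ} (hr : 0 ≤ r) :
    0 < 1 - 361 / 100 * (g L (1 + r) * g L (-r)) ∧ 0 < 1 - 361 / 100 * (g L (1 - r) * g L r) ∧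
    g L (1 + r) * g L (1 - r) * (-13 / 20 + 361 / 100 * (g L r - r / 2)) ^ 2 ≤
      (1 - 361 / 100 * (g L (1 + r) * g L (-r))) * (1 - 361 / 100 * (g L (1 - r) * g L r)) := by
  have hL0 : 0 < L := by linarith
  have hδ : 1 / (2 * L) ≤ 1 / 10000 := by
    apply one_div_le_one_div_of_le <;> linarith
  have p1 : ∀ d : ℝ, 0 ≤ d → g L (-d) ≤ 1 / 10000 := by
    intro d hd
    have h1 := g_neg_le hL hd
    have h2 : g L (-d) * 1 ≤ g L (-d) * (1 + d) ^ 3 := by
      have := (g_pos hL0 (-d)).le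
      gcongr
      exact one_le_pow₀ (by linarith)
    linarith
  have q1 : g L (1 + r) = 1 + r + g L (-(1 + r)) := by linarith [g_sub hL0 (1 + r)]
  have q2 : g L r = r + g L (-r) := by linarith [g_sub hL0 r]
  rcases le_or_gt r 1 with h | h
  · have q3 : g L (1 - r) = 1 - r + g L (-(1 - r)) := by linarith [g_sub hL0 (1 - r)]
    rw [q1, q2, q3]
    exact near hr h (g_pos hL0 _).le (p1 _ (by linarith)) (g_pos hL0 _).le (p1 _ (by linarith))
      (g_pos hL0 _).le (p1 _ hr)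
  · rw [q1, q2]
    refine far h.le (g_pos hL0 _).le (p1 _ (by linarith)) (g_pos hL0 _).le ?_ (g_pos hL0 _).le ?_
    · have h1 := g_neg_le hL (d := r - 1) (by linarith)
      rw [show -(r - 1) = 1 - r by ring, show 1 + (r - 1) = r by ring] at h1
      linarith
    · have h1 := g_neg_le hL hr
      linarith

theorem star {L : ℝ} (hL : 5000 ≤ L) (r : ℝ) :
    0 < 1 - 361 / 100 * (g L (1 + r) * g L (-r)) ∧ 0 < 1 - 361 / 100 * (g L (1 - r) * g L r) ∧
    g L (1 + r) * g L (1 - r) * (-13 / 20 + 361 / 100 * (g L r - r / 2)) ^ 2 ≤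
      (1 - 361 / 100 * (g L (1 + r) * g L (-r))) * (1 - 361 / 100 * (g L (1 - r) * g L r)) := by
  rcases le_total 0 r with h | h
  · exact star_nonneg hL h
  · have hL0 : 0 < L := by linarith
    obtain ⟨h1, h2, h3⟩ := star_nonneg hL (r := -r) (by linarith)
    rw [neg_neg, show 1 + -r = 1 - r by ring] at h1
    rw [show 1 - -r = 1 + r by ring] at h2
    rw [neg_neg, show 1 - -r = 1 + r by ring, show 1 + -r = 1 - r by ring] at h3
    have e : g L (-r) - -r / 2 = g L r - r / 2 := by linarith [g_sub hL0 r]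
    rw [e] at h3
    refine ⟨h2, h1, ?_⟩
    calc _ = g L (1 - r) * g L (1 + r) * (-13 / 20 + 361 / 100 * (g L r - r / 2)) ^ 2 := by ring
      _ ≤ _ := h3
      _ = _ := by ring

/-- the quadratic form is nonnegative -/
theorem form_nonneg {L : ℝ} (hL : 5000 ≤ L) (s x y w : ℝ) :
    2 * (19 / 10) * x * y + (s + 2) * (361 / 100) * x ^ 2
      + 2 * w * (19 / 10 * y + (74 / 25 + s / 2 * (361 / 100)) * x)
      + (s + 3) * (19 / 10 * y + (74 / 25 + s / 2 * (361 / 100)) * x) ^ 2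
      ≤ x ^ 2 / g L (-(s + 1)) + y ^ 2 / g L (-(s + 2)) + w ^ 2 / g L (-(s + 3)) := by
  have hL0 : 0 < L := by linarith
  obtain ⟨r, hr⟩ : ∃ r : ℝ, r = -(s + 2) := ⟨_, rfl⟩
  have hs : s = -2 - r := by linarith
  subst hs
  rw [show -(-2 - r + 1) = 1 + r by ring, show -(-2 - r + 2) = r by ring,
    show -(-2 - r + 3) = r - 1 by ring]
  obtain ⟨h1, h2, h3⟩ := star hL r
  have q1 : g L (-r) = g L r - r := by linarith [g_sub hL0 r]
  have q2 : g L (1 - r) = g L (r - 1) + (1 - r) := by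
    have := g_sub hL0 (1 - r)
    rw [show -(1 - r) = r - 1 by ring] at this
    linarith
  rw [q1] at h1 h3
  rw [q2] at h2 h3
  have P1 := g_pos hL0 (1 + r)
  have P2 := g_pos hL0 r
  have P3 := g_pos hL0 (r - 1)
  generalize g L (1 + r) = G1 at *
  generalize g L r = G2 at *
  generalize g L (r - 1) = G3 at *
  set β : ℝ := 74 / 25 + (-2 - r) / 2 * (361 / 100) with hβ
  set T : ℝ := 19 / 10 * y + β * x with hT
  set Z : ℝ := 1 - 361 / 100 * ((G3 + (1 - r)) * G2) with hZ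
  have key : 0 ≤ G2 * x ^ 2 + G1 * y ^ 2 - G1 * G2 * (2 * (19 / 10) * x * y
      - r * (361 / 100) * x ^ 2 + (G3 + (1 - r)) * T ^ 2) := by
    have hmul : 0 ≤ Z * (G2 * x ^ 2 + G1 * y ^ 2 - G1 * G2 * (2 * (19 / 10) * x * y
      - r * (361 / 100) * x ^ 2 + (G3 + (1 - r)) * T ^ 2)) := by
      have e : Z * (G2 * x ^ 2 + G1 * y ^ 2 - G1 * G2 * (2 * (19 / 10) * x * y
          - r * (361 / 100) * x ^ 2 + (G3 + (1 - r)) * T ^ 2))
          = G1 * (Z * y - G2 * (19 / 10) * (1 + (G3 + (1 - r)) * β) * x) ^ 2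
            + G2 * x ^ 2 * ((1 - 361 / 100 * (G1 * (G2 - r))) * Z
              - G1 * (G3 + (1 - r)) * (-13 / 20 + 361 / 100 * (G2 - r / 2)) ^ 2) := by
        rw [hZ, hT, hβ]; ring
      rw [e]
      have : 0 ≤ (1 - 361 / 100 * (G1 * (G2 - r))) * Z
              - G1 * (G3 + (1 - r)) * (-13 / 20 + 361 / 100 * (G2 - r / 2)) ^ 2 := by
        linarith
      positivity
    exact nonneg_of_mul_nonneg_right hmul h2
  have key2 : 0 ≤ x ^ 2 / G1 + y ^ 2 / G2 - (2 * (19 / 10) * x * y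
      - r * (361 / 100) * x ^ 2 + (G3 + (1 - r)) * T ^ 2) := by
    have e : x ^ 2 / G1 + y ^ 2 / G2 - (2 * (19 / 10) * x * y
      - r * (361 / 100) * x ^ 2 + (G3 + (1 - r)) * T ^ 2)
      = (G2 * x ^ 2 + G1 * y ^ 2 - G1 * G2 * (2 * (19 / 10) * x * y
      - r * (361 / 100) * x ^ 2 + (G3 + (1 - r)) * T ^ 2)) / (G1 * G2) := by
      field_simp
    rw [e]
    positivity
  have key3 : 0 ≤ w ^ 2 / G3 - 2 * w * T + G3 * T ^ 2 := by
    have e : w ^ 2 / G3 - 2 * w * T + G3 * T ^ 2 = (w - G3 * T) ^ 2 / G3 := by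
      field_simp
      ring
    rw [e]
    positivity
  linarith

/-- real form of the local contraction inequality -/
theorem real_ineq {L : ℝ} (hL : 5000 ≤ L) (s p q w : ℝ) :
    (s + 1) * p ^ 2 + (s + 2) * (q + (s + 1) * (19 / 10) * p) ^ 2
      + (s + 3) * (w + (s + 2) * (19 / 10) * q
        + (s + 1) * (74 / 25 + s / 2 * (361 / 100)) * p) ^ 2
      ≤ (s + 1) * (Real.exp (2 * L * (s + 1)) * p ^ 2)
        + (s + 2) * (Real.exp (2 * L * (s + 2)) * q ^ 2)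
        + (s + 3) * (Real.exp (2 * L * (s + 3)) * w ^ 2) := by
  have hL0 : 0 < L := by linarith
  have h := form_nonneg hL s ((s + 1) * p) ((s + 2) * q) ((s + 3) * w)
  have e1 : ((s + 1) * p) ^ 2 / g L (-(s + 1)) = (s + 1) * (Real.exp (2 * L * (s + 1)) - 1) * p ^ 2 := by
    rw [g_mul hL0]; ring
  have e2 : ((s + 2) * q) ^ 2 / g L (-(s + 2)) = (s + 2) * (Real.exp (2 * L * (s + 2)) - 1) * q ^ 2 := by
    rw [g_mul hL0]; ring
  have e3 : ((s + 3) * w) ^ 2 / g L (-(s + 3)) = (s + 3) * (Real.exp (2 * L * (s + 3)) - 1) * w ^ 2 := by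
    rw [g_mul hL0]; ring
  rw [e1, e2, e3] at h
  nlinarith [h]

end Pool.Agent.W756.LC
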