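import Mathlib

/-! Fourier synthesis of integrable densities on the line. -/

set_option autoImplicit false

open MeasureTheory Filter Topology Complex
open scoped FourierTransform Real

namespace Pool.Agent.W756.ML

/-- `E m x = ∫ m ξ e^{2πiξx} dξ` -/
noncomputable def E (m : ℝ → ℂ) (x : ℝ) : ℂ := 𝓕⁻ m x

theorem E_def (m : ℝ → ℂ) (x : ℝ) :
    E m x = ∫ ξ : ℝ, Complex.exp (2 * π * I * (ξ * x)) * m ξ := by
  unfold E
  rw [Real.fourierInv_eq']
  refine integral_congr_ae (Eventually.of_forall fun ξ => ?_)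
  have : (inner ℝ ξ x : ℝ) = ξ * x := by simp [mul_comm]
  simp only [smul_eq_mul, this]
  congr 2
  push_cast
  ring

theorem norm_exp_real (t : ℝ) : ‖Complex.exp (2 * π * I * t)‖ = 1 := by
  rw [show (2 * π * I * t : ℂ) = ((2 * π * t : ℝ) : ℂ) * I by push_cast; ring]
  exact Complex.norm_exp_ofReal_mul_I _

theorem norm_exp_real' (s t : ℝ) : ‖Complex.exp (2 * π * I * (s * t))‖ = 1 := by
  have := norm_exp_real (s * t)
  push_cast at this
  exact this

theorem norm_E_le (m : ℝ → ℂ) (x : ℝ) : ‖E m x‖ ≤ ∫ ξ, ‖m ξ‖ := by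
  rw [E_def]
  refine (norm_integral_le_integral_norm _).trans (le_of_eq ?_)
  refine integral_congr_ae (Eventually.of_forall fun ξ => ?_)
  simp only [norm_mul, norm_exp_real', one_mul]

theorem integrable_expmul {m : ℝ → ℂ} (hm : Integrable m) (x : ℝ) :
    Integrable fun ξ : ℝ => Complex.exp (2 * π * I * (ξ * x)) * m ξ := by
  refine hm.bdd_mul (c := 1) ?_ ?_
  · exact (by fun_prop : Continuous fun ξ : ℝ => Complex.exp (2 * π * I * (ξ * x))).aestronglyMeasurable
  · exact Eventually.of_forall fun ξ => (norm_exp_real' ξ x).le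

theorem E_add {m n : ℝ → ℂ} (hm : Integrable m) (hn : Integrable n) (x : ℝ) :
    E (fun ξ => m ξ + n ξ) x = E m x + E n x := by
  simp only [E_def]
  rw [← integral_add (integrable_expmul hm x) (integrable_expmul hn x)]
  refine integral_congr_ae (Eventually.of_forall fun ξ => ?_)
  simp only; ring

theorem E_sub {m n : ℝ → ℂ} (hm : Integrable m) (hn : Integrable n) (x : ℝ) :
    E (fun ξ => m ξ - n ξ) x = E m x - E n x := by
  simp only [E_def]
  rw [← integral_sub (integrable_expmul hm x) (integrable_expmul hn x)]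
  refine integral_congr_ae (Eventually.of_forall fun ξ => ?_)
  simp only; ring

theorem continuous_E {m : ℝ → ℂ} (hm : Integrable m) : Continuous (E m) := by
  have h : E m = fun x => 𝓕 m (-x) := by
    funext x
    unfold E
    rw [Real.fourierInv_eq_fourier_neg]
  rw [h]
  exact (VectorFourier.fourierIntegral_continuous Real.continuous_fourierChar
    (innerSL ℝ).continuous₂ hm).comp continuous_neg

theorem E_conj (m : ℝ → ℂ) (x : ℝ) :
    (starRingEnd ℂ) (E m x) = E (fun ξ => (starRingEnd ℂ) (m (-ξ))) x := by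
  rw [E_def, E_def, ← integral_conj]
  rw [← integral_neg_eq_self]
  refine integral_congr_ae (Eventually.of_forall fun ξ => ?_)
  simp only [map_mul, ← Complex.exp_conj, Complex.conj_I, Complex.conj_ofReal, map_ofNat,
    Complex.ofReal_neg, map_neg]
  congr 2
  ring

/-- inversion -/
theorem E_fourier {f : ℝ → ℂ} (hc : Continuous f) (hi : Integrable f) (hf : Integrable (𝓕 f)) :
    E (𝓕 f) = f := by
  funext x
  unfold E
  rw [hc.fourierInv_fourier_eq hi hf]

/-- Riemann-Lebesgue -/
theorem E_zero_at_infty (m : ℝ → ℂ) : Tendsto (E m) (cocompact ℝ) (𝓝 0) := by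
  have h : E m = fun x => 𝓕 m (-x) := by
    funext x
    unfold E
    rw [Real.fourierInv_eq_fourier_neg]
  rw [h]
  have h1 := Real.zero_at_infty_fourier m
  exact h1.comp (Homeomorph.neg ℝ).isClosedEmbedding.tendsto_cocompact

/-- differentiation -/
theorem hasDerivAt_E {m : ℝ → ℂ} (hm : Integrable m) (hm1 : Integrable fun ξ : ℝ => (ξ : ℂ) * m ξ)
    (x : ℝ) : HasDerivAt (E m) (E (fun ξ => 2 * π * I * ξ * m ξ) x) x := by
  have key := hasDerivAt_integral_of_dominated_loc_of_deriv_le
    (F := fun (y : ℝ) (ξ : ℝ) => Complex.exp (2 * π * I * (ξ * y)) * m ξ)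
    (F' := fun (y : ℝ) (ξ : ℝ) => Complex.exp (2 * π * I * (ξ * y)) * (2 * π * I * ξ * m ξ))
    (x₀ := x) (s := Set.univ) (bound := fun ξ => ‖2 * π * I * ξ * m ξ‖) (μ := volume)
    univ_mem ?_ (integrable_expmul hm x) ?_ ?_ ?_ ?_
  · have h2 := key.2
    simp only [← E_def] at h2
    exact h2
  · exact Eventually.of_forall fun y => (integrable_expmul hm y).aestronglyMeasurable
  · have : Integrable fun ξ : ℝ => 2 * π * I * ξ * m ξ := by
      have := hm1.const_mul (2 * π * I)
      refine this.congr (Eventually.of_forall fun ξ => ?_)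
      simp only; ring
    exact (integrable_expmul this x).aestronglyMeasurable
  · refine Eventually.of_forall fun ξ y _ => ?_
    rw [norm_mul, norm_exp_real', one_mul]
  · have := (hm1.const_mul (2 * π * I)).norm
    refine this.congr (Eventually.of_forall fun ξ => ?_)
    have e : (2 * π * I * ((ξ : ℂ) * m ξ)) = 2 * π * I * ξ * m ξ := by ring
    simp only [e]
  · refine Eventually.of_forall fun ξ y _ => ?_
    have h1 : HasDerivAt (fun y : ℝ => (2 * π * I * (ξ * y) : ℂ)) (2 * π * I * ξ) y := by
      have := (Complex.ofRealCLM.hasDerivAt (x := y)).const_mul (2 * π * I * ξ : ℂ)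
      simp only [Complex.ofRealCLM_apply, Complex.ofReal_one, mul_one] at this
      refine this.congr_of_eventuallyEq (Eventually.of_forall fun z => ?_)
      simp only; ring
    have h2 := (h1.cexp).mul_const (m ξ)
    refine h2.congr_deriv ?_
    show _ = Complex.exp (2 * π * I * (ξ * y)) * (2 * π * I * ξ * m ξ)
    rw [mul_assoc]

theorem deriv_E {m : ℝ → ℂ} (hm : Integrable m) (hm1 : Integrable fun ξ : ℝ => (ξ : ℂ) * m ξ) :
    deriv (E m) = E (fun ξ => 2 * π * I * ξ * m ξ) :=
  funext fun x => (hasDerivAt_E hm hm1 x).deriv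

end Pool.Agent.W756.ML
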