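import Mathlib

/-! Reverse Hölder inequality with exponent infinity for derivatives of multiscale compositions. -/

set_option autoImplicit false

open Filter Topology Real

namespace Pool.Agent.W756.ML

/-- conditions on a sequence of maps at finer and finer scales -/
structure Chain (m0 Λ B : ℝ) (θ T : ℕ → ℝ → ℝ) (N : ℕ → ℝ) (act O : ℕ → Set ℝ) : Prop where
  Npos : ∀ j, 0 < N j
  dbl : ∀ j, 2 * N j ≤ N (j + 1)
  der : ∀ j x, HasDerivAt (θ (j + 1)) (T (j + 1) x) x
  low : ∀ j x, m0 ≤ T (j + 1) x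
  upp : ∀ j x, T (j + 1) x ≤ Λ
  lip : ∀ j x y, |T (j + 1) x - T (j + 1) y| ≤ B * N (j + 1) * |x - y|
  disp : ∀ j x, |θ (j + 1) x - x| ≤ π / N (j + 1)
  off : ∀ j x, x ∉ act (j + 1) → θ (j + 1) x = x ∧ T (j + 1) x = 1
  on : ∀ j x, x ∈ act (j + 1) → θ (j + 1) x ∈ O j
  Oact : ∀ j x, x ∈ O (j + 1) → x ∈ act (j + 1) ∧ T (j + 1) x ≤ 1

/-- `θ_{i+1} ∘ ⋯ ∘ θ_{i+n}` -/
def Cp (θ : ℕ → ℝ → ℝ) (i : ℕ) : ℕ → ℝ → ℝ
  | 0, x => x
  | n + 1, x => Cp θ i n (θ (i + n + 1) x)

/-- its derivative -/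
def Dp (θ T : ℕ → ℝ → ℝ) (i : ℕ) : ℕ → ℝ → ℝ
  | 0, _ => 1
  | n + 1, x => T (i + n + 1) x * Dp θ T i n (θ (i + n + 1) x)

section

variable {m0 Λ B : ℝ} {θ T : ℕ → ℝ → ℝ} {N : ℕ → ℝ} {act O : ℕ → Set ℝ}

theorem Cp_split (i n : ℕ) (x : ℝ) : Cp θ 0 (i + n) x = Cp θ 0 i (Cp θ i n x) := by
  induction n generalizing x with
  | zero => rfl
  | succ n ih =>
    show Cp θ 0 (i + n) (θ (0 + (i + n) + 1) x) = Cp θ 0 i (Cp θ i n (θ (i + n + 1) x))
    rw [← ih, Nat.zero_add]

theorem Dp_split (i n : ℕ) (x : ℝ) : Dp θ T 0 (i + n) x = Dp θ T 0 i (Cp θ i n x) * Dp θ T i n x := by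
  induction n generalizing x with
  | zero => simp [Cp, Dp]
  | succ n ih =>
    show T (0 + (i + n) + 1) x * Dp θ T 0 (i + n) (θ (0 + (i + n) + 1) x)
      = Dp θ T 0 i (Cp θ i n (θ (i + n + 1) x)) * (T (i + n + 1) x * Dp θ T i n (θ (i + n + 1) x))
    rw [Nat.zero_add, ih]; ring

theorem Dp_front (i n : ℕ) (x : ℝ) :
    Dp θ T i (n + 1) x = Dp θ T (i + 1) n x * T (i + 1) (Cp θ (i + 1) n x) := by
  induction n generalizing x with
  | zero => simp [Cp, Dp]
  | succ n ih =>
    show T (i + (n + 1) + 1) x * Dp θ T i (n + 1) (θ (i + (n + 1) + 1) x) = _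
    rw [ih]
    show _ = (T (i + 1 + n + 1) x * Dp θ T (i + 1) n (θ (i + 1 + n + 1) x)) *
      T (i + 1) (Cp θ (i + 1) n (θ (i + 1 + n + 1) x))
    have e : i + (n + 1) + 1 = i + 1 + n + 1 := by ring
    rw [e]; ring

variable (h : Chain m0 Λ B θ T N act O)

include h

theorem Chain.cp_der (i n : ℕ) (x : ℝ) : HasDerivAt (Cp θ i n) (Dp θ T i n x) x := by
  induction n generalizing x with
  | zero => exact hasDerivAt_id x
  | succ n ih =>
    have h1 := (ih (θ (i + n + 1) x)).comp x (h.der (i + n) x)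
    refine h1.congr_deriv ?_
    show _ = T (i + n + 1) x * Dp θ T i n (θ (i + n + 1) x)
    ring

theorem Chain.dp_pos (hm : 0 < m0) (i n : ℕ) (x : ℝ) : 0 < Dp θ T i n x := by
  induction n generalizing x with
  | zero => exact one_pos
  | succ n ih => exact mul_pos (hm.trans_le (h.low (i + n) x)) (ih _)

theorem Chain.dp_upp (hm : 0 < m0) (hΛ : 1 ≤ Λ) (i n : ℕ) (x : ℝ) :
    Dp θ T i n x ≤ Λ ∧ (1 ≤ n → x ∈ O (i + n) → Dp θ T i n x ≤ 1) := by
  induction n generalizing x with
  | zero => exact ⟨hΛ, fun h => by omega⟩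
  | succ n ih =>
    have hT := hm.trans_le (h.low (i + n) x)
    by_cases hx : x ∈ act (i + n + 1)
    · have h1 : Dp θ T i n (θ (i + n + 1) x) ≤ 1 := by
        rcases Nat.eq_zero_or_pos n with h0 | h0
        · subst h0; exact le_rfl
        · exact (ih _).2 h0 (h.on (i + n) x hx)
      constructor
      · show T (i + n + 1) x * Dp θ T i n (θ (i + n + 1) x) ≤ Λ
        calc _ ≤ T (i + n + 1) x * 1 := by gcongr
          _ ≤ Λ := by rw [mul_one]; exact h.upp (i + n) x
      · intro _ hO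
        show T (i + n + 1) x * Dp θ T i n (θ (i + n + 1) x) ≤ 1
        have h2 := (h.Oact (i + n) x hO).2
        have h3 := (h.dp_pos hm i n (θ (i + n + 1) x)).le
        calc _ ≤ 1 * 1 := mul_le_mul h2 h1 h3 zero_le_one
          _ = 1 := one_mul 1
    · obtain ⟨e1, e2⟩ := h.off (i + n) x hx
      constructor
      · show T (i + n + 1) x * Dp θ T i n (θ (i + n + 1) x) ≤ Λ
        rw [e1, e2, one_mul]
        exact (ih x).1
      · intro _ hO
        exact absurd (h.Oact (i + n) x hO).1 hx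

theorem Chain.cp_mono (hm : 0 < m0) (i n : ℕ) : StrictMono (Cp θ i n) :=
  strictMono_of_hasDerivAt_pos (fun x => h.cp_der i n x) (fun x => h.dp_pos hm i n x)

theorem Chain.cp_lip (hm : 0 < m0) (hΛ : 1 ≤ Λ) (i n : ℕ) (u v : ℝ) :
    |Cp θ i n u - Cp θ i n v| ≤ Λ * |u - v| := by
  have := Convex.norm_image_sub_le_of_norm_hasDerivWithin_le (f := Cp θ i n) (f' := Dp θ T i n)
    (s := Set.univ) (C := Λ) (x := v) (y := u) (fun x _ => (h.cp_der i n x).hasDerivWithinAt)
    (fun x _ => by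
      rw [Real.norm_eq_abs, abs_of_pos (h.dp_pos hm i n x)]
      exact (h.dp_upp hm hΛ i n x).1) convex_univ trivial trivial
  simpa [Real.norm_eq_abs] using this

theorem Chain.N_grow (i n : ℕ) : 2 ^ n * N i ≤ N (i + n) := by
  induction n with
  | zero => simp
  | succ n ih =>
    have := h.dbl (i + n)
    calc 2 ^ (n + 1) * N i = 2 * (2 ^ n * N i) := by ring
      _ ≤ 2 * N (i + n) := by gcongr
      _ ≤ N (i + n + 1) := this

theorem Chain.cp_disp (i n : ℕ) (x : ℝ) :
    |Cp θ i n x - x| ≤ (2 - 2 * (1 / 2) ^ n) * (π / N (i + 1)) := by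
  induction n generalizing x with
  | zero => simp [Cp]
  | succ n ih =>
    have h1 := ih (θ (i + n + 1) x)
    have h2 := h.disp (i + n) x
    have h3 : π / N (i + n + 1) ≤ (1 / 2) ^ n * (π / N (i + 1)) := by
      have h4 := h.N_grow (i + 1) n
      have h5 := h.Npos (i + 1)
      have e : i + 1 + n = i + n + 1 := by ring
      rw [e] at h4
      have hp := Real.pi_pos
      calc π / N (i + n + 1) ≤ π / (2 ^ n * N (i + 1)) :=
            div_le_div_of_nonneg_left hp.le (by positivity) h4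
        _ = (1 / 2) ^ n * (π / N (i + 1)) := by
            rw [div_pow, one_pow]; field_simp
    calc |Cp θ i (n + 1) x - x| = |(Cp θ i n (θ (i + n + 1) x) - θ (i + n + 1) x) + (θ (i + n + 1) x - x)| := by
          congr 1; show Cp θ i n (θ (i + n + 1) x) - x = _; ring
      _ ≤ (2 - 2 * (1 / 2) ^ n) * (π / N (i + 1)) + (1 / 2) ^ n * (π / N (i + 1)) :=
          (abs_add_le _ _).trans (add_le_add h1 (h2.trans h3))
      _ = (2 - 2 * (1 / 2) ^ (n + 1)) * (π / N (i + 1)) := by
          rw [pow_succ]; ring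

theorem Chain.cp_disp' (i n : ℕ) (x : ℝ) : |Cp θ i n x - x| ≤ 2 * π / N (i + 1) := by
  refine (h.cp_disp i n x).trans ?_
  have h1 := h.Npos (i + 1)
  have hp := Real.pi_pos
  have h2 : (0:ℝ) ≤ (1 / 2) ^ n := by positivity
  have h3 : 0 ≤ π / N (i + 1) := by positivity
  calc (2 - 2 * (1 / 2) ^ n) * (π / N (i + 1)) ≤ 2 * (π / N (i + 1)) := by
        apply mul_le_mul_of_nonneg_right _ h3
        linarith
    _ = _ := by ring

theorem Chain.dp_ratio (hm : 0 < m0) (hΛ : 1 ≤ Λ) (hB : 0 ≤ B) (n : ℕ) : ∀ (i : ℕ) (u v : ℝ),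
    Dp θ T i n u ≤ Real.exp (B * Λ / m0 * (2 * N (i + n)) * |u - v|) * Dp θ T i n v := by
  -- first with the sum of the frequencies
  have key : ∀ (n i : ℕ) (u v : ℝ), Dp θ T i n u ≤
      Real.exp (B * Λ / m0 * (∑ j ∈ Finset.range n, N (i + j + 1)) * |u - v|) * Dp θ T i n v := by
    intro n
    induction n with
    | zero =>
      intro i u v
      simp [Dp]
    | succ n ih =>
      intro i u v
      rw [Dp_front, Dp_front]
      set U := Cp θ (i + 1) n u with hU
      set V := Cp θ (i + 1) n v with hV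
      have h1 := ih (i + 1) u v
      have h2 := h.cp_lip hm hΛ (i + 1) n u v
      have h3 := h.lip i U V
      have hTV := h.low i V
      have hTU : T (i + 1) U ≤ Real.exp (B * Λ / m0 * N (i + 1) * |u - v|) * T (i + 1) V := by
        have hN := h.Npos (i + 1)
        have h4 : T (i + 1) U ≤ T (i + 1) V + B * N (i + 1) * (Λ * |u - v|) := by
          have h5 := le_abs_self (T (i + 1) U - T (i + 1) V)
          have h6 : B * N (i + 1) * |U - V| ≤ B * N (i + 1) * (Λ * |u - v|) := by gcongr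
          linarith
        have h7 : T (i + 1) V + B * N (i + 1) * (Λ * |u - v|)
            ≤ (1 + B * Λ / m0 * N (i + 1) * |u - v|) * T (i + 1) V := by
          have h8 : B * N (i + 1) * (Λ * |u - v|) = (B * Λ / m0 * N (i + 1) * |u - v|) * m0 := by
            field_simp
          have h9 : 0 ≤ B * Λ / m0 * N (i + 1) * |u - v| := by positivity
          rw [h8]
          nlinarith
        have h10 : 1 + B * Λ / m0 * N (i + 1) * |u - v| ≤ Real.exp (B * Λ / m0 * N (i + 1) * |u - v|) := by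
          have := Real.add_one_le_exp (B * Λ / m0 * N (i + 1) * |u - v|)
          linarith
        calc T (i + 1) U ≤ _ := h4
          _ ≤ _ := h7
          _ ≤ _ := mul_le_mul_of_nonneg_right h10 (hm.le.trans hTV)
      have hp := (h.dp_pos hm (i + 1) n v).le
      have hTU0 := hm.le.trans (h.low i U)
      calc Dp θ T (i + 1) n u * T (i + 1) U
          ≤ (Real.exp (B * Λ / m0 * (∑ j ∈ Finset.range n, N (i + 1 + j + 1)) * |u - v|) * Dp θ T (i + 1) n v)
            * (Real.exp (B * Λ / m0 * N (i + 1) * |u - v|) * T (i + 1) V) :=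
            mul_le_mul h1 hTU hTU0 (mul_nonneg (Real.exp_pos _).le hp)
        _ = Real.exp (B * Λ / m0 * (∑ j ∈ Finset.range (n + 1), N (i + j + 1)) * |u - v|)
            * (Dp θ T (i + 1) n v * T (i + 1) V) := by
            rw [Finset.sum_range_succ']
            have e1 : ∀ j, N (i + (j + 1) + 1) = N (i + 1 + j + 1) := fun j => by
              congr 1; ring
            simp_rw [e1]
            rw [show B * Λ / m0 * (∑ j ∈ Finset.range n, N (i + 1 + j + 1) + N (i + 0 + 1)) * |u - v|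
              = B * Λ / m0 * (∑ j ∈ Finset.range n, N (i + 1 + j + 1)) * |u - v|
                + B * Λ / m0 * N (i + 1) * |u - v| by simp only [Nat.add_zero]; ring, Real.exp_add]
            ring
  have hsum : ∀ (n i : ℕ), ∑ j ∈ Finset.range n, N (i + j + 1) ≤ 2 * N (i + n) := by
    intro n
    induction n with
    | zero => intro i; simp [(h.Npos i).le]
    | succ n ih =>
      intro i
      rw [Finset.sum_range_succ]
      have h1 := ih i
      have h2 := h.dbl (i + n)
      have e : i + (n + 1) = i + n + 1 := by ring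
      rw [e]
      linarith
  intro i u v
  refine (key n i u v).trans ?_
  apply mul_le_mul_of_nonneg_right _ (h.dp_pos hm i n v).le
  apply Real.exp_le_exp.2
  have := hsum n i
  gcongr

theorem Chain.rh (hm : 0 < m0) (hΛ : 1 ≤ Λ) (hB : 0 ≤ B) (k : ℕ) {s t x : ℝ} (hst : s < t)
    (hsx : s ≤ x) (hxt : x ≤ t) :
    Dp θ T 0 k x * (t - s) ≤ 2 * Λ * Real.exp (24 * π * B * Λ / m0) * (Cp θ 0 k t - Cp θ 0 k s) := by
  classical
  set ℓ := t - s with hℓ
  have hℓ0 : 0 < ℓ := by rw [hℓ]; linarith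
  have hp := Real.pi_pos
  -- the scale
  obtain ⟨i, n, hin, hi, hn⟩ : ∃ i n : ℕ, i + n = k ∧ (i = 0 ∨ N i * ℓ ≤ 8 * π) ∧
      (n = 0 ∨ 8 * π ≤ N (i + 1) * ℓ) := by
    by_cases hall : ∀ j, j < k → N (j + 1) * ℓ < 8 * π
    · refine ⟨k, 0, rfl, ?_, Or.inl rfl⟩
      rcases Nat.eq_zero_or_pos k with h0 | h0
      · exact Or.inl h0
      · right
        have := hall (k - 1) (by omega)
        rw [Nat.sub_add_cancel h0] at this
        exact this.le
    · push Not at hall
      set i := Nat.find hall with hi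
      obtain ⟨hik, hiN⟩ := Nat.find_spec hall
      refine ⟨i, k - i, by omega, ?_, Or.inr hiN⟩
      rcases Nat.eq_zero_or_pos i with h0 | h0
      · exact Or.inl h0
      · right
        have h1 := Nat.find_min hall (m := i - 1) (by omega)
        push Not at h1
        have h2 := h1 (by omega)
        rw [Nat.sub_add_cancel h0] at h2
        exact h2.le
  rw [← hin, Cp_split, Cp_split, Dp_split]
  set s' := Cp θ i n s with hs'
  set t' := Cp θ i n t with ht'
  set x' := Cp θ i n x with hx'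
  have hmono := h.cp_mono hm i n
  have hsx' : s' ≤ x' := hmono.monotone hsx
  have hxt' : x' ≤ t' := hmono.monotone hxt
  have hst' : s' < t' := hmono hst
  have hdisp : ∀ y, |Cp θ i n y - y| ≤ ℓ / 4 := by
    intro y
    rcases hn with h0 | h0
    · subst h0
      simp [Cp]; linarith
    · refine (h.cp_disp' i n y).trans ?_
      have hN := h.Npos (i + 1)
      rw [div_le_div_iff₀ hN (by norm_num)]
      linarith
  have hlow : ℓ / 2 ≤ t' - s' := by
    have h1 := hdisp s
    have h2 := hdisp t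
    rw [abs_le] at h1 h2
    rw [hs', ht']; linarith [h1.1, h1.2, h2.1, h2.2]
  have hup : t' - s' ≤ 3 / 2 * ℓ := by
    have h1 := hdisp s
    have h2 := hdisp t
    rw [abs_le] at h1 h2
    rw [hs', ht']; linarith [h1.1, h1.2, h2.1, h2.2]
  -- mean value
  obtain ⟨ξ, hξ, hmv⟩ := exists_hasDerivAt_eq_slope (Cp θ 0 i) (Dp θ T 0 i) hst'
    (fun y _ => (h.cp_der 0 i y).continuousAt.continuousWithinAt) (fun y _ => h.cp_der 0 i y)
  have hmv' : Cp θ 0 i t' - Cp θ 0 i s' = Dp θ T 0 i ξ * (t' - s') := by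
    rw [hmv]
    have : t' - s' ≠ 0 := by linarith
    field_simp
  have hratio : Dp θ T 0 i x' ≤ Real.exp (24 * π * B * Λ / m0) * Dp θ T 0 i ξ := by
    rcases hi with h0 | h0
    · subst h0
      show (1:ℝ) ≤ Real.exp (24 * π * B * Λ / m0) * 1
      rw [mul_one]
      exact Real.one_le_exp (by positivity)
    · refine (h.dp_ratio hm hΛ hB i 0 x' ξ).trans ?_
      apply mul_le_mul_of_nonneg_right _ (h.dp_pos hm 0 i ξ).le
      apply Real.exp_le_exp.2
      have h1 : |x' - ξ| ≤ 3 / 2 * ℓ := by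
        rw [abs_le]
        constructor <;> linarith [hξ.1, hξ.2]
      have hN := h.Npos i
      have hq : 0 ≤ B * Λ / m0 := by positivity
      calc B * Λ / m0 * (2 * N (0 + i)) * |x' - ξ| ≤ B * Λ / m0 * (2 * N (0 + i)) * (3 / 2 * ℓ) := by
            rw [Nat.zero_add]; gcongr
        _ = 3 * (B * Λ / m0) * (N i * ℓ) := by rw [Nat.zero_add]; ring
        _ ≤ 3 * (B * Λ / m0) * (8 * π) := by gcongr
        _ = 24 * π * B * Λ / m0 := by ring
  have hD1 := (h.dp_upp hm hΛ i n x).1
  have hD0 := (h.dp_pos hm i n x).le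
  have hξ0 := (h.dp_pos hm 0 i ξ).le
  have hx0 := (h.dp_pos hm 0 i x').le
  have hex := (Real.exp_pos (24 * π * B * Λ / m0)).le
  rw [hmv']
  have hΛ0 : 0 ≤ Λ := by linarith
  calc Dp θ T 0 i x' * Dp θ T i n x * ℓ
      ≤ (Real.exp (24 * π * B * Λ / m0) * Dp θ T 0 i ξ) * Λ * (2 * (t' - s')) := by
        apply mul_le_mul _ (by linarith) hℓ0.le (by positivity)
        exact mul_le_mul hratio hD1 hD0 (by positivity)
    _ = _ := by ring

end

end Pool.Agent.W756.ML
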