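import Pool.Agent.W756.ML7

/-! The map at one scale. -/

set_option autoImplicit false

open MeasureTheory Filter Topology Complex
open scoped FourierTransform Real ENNReal ContDiff Manifold

namespace Pool.Agent.W756.ML

/-- smooth cutoffs -/
theorem exists_cutoff {K O : Set ℝ} (hK : IsCompact K) (hO : IsOpen O) (hKO : K ⊆ O) :
    ∃ l : ℝ → ℝ, ContDiff ℝ ∞ l ∧ HasCompactSupport l ∧ tsupport l ⊆ O ∧ (∀ x, 0 ≤ l x ∧ l x ≤ 1) ∧
      K ⊆ interior {x | l x = 1} := by
  obtain ⟨L, hL, hKL, hLO⟩ := exists_compact_between hK hO hKO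
  obtain ⟨f, h1, h0, h01⟩ := exists_contMDiffMap_one_nhds_of_subset_interior (n := (⊤ : ℕ∞))
    (I := 𝓘(ℝ, ℝ)) hK.isClosed hKL
  have hsub : tsupport (f : ℝ → ℝ) ⊆ L := by
    refine closure_minimal ?_ hL.isClosed
    intro x hx
    by_contra hxL
    exact hx (h0 x hxL)
  refine ⟨f, f.contMDiff.contDiff, HasCompactSupport.intro hL h0, hsub.trans hLO,
    fun x => h01 x, ?_⟩
  intro x hx
  rw [mem_interior_iff_mem_nhds]
  exact (eventually_nhdsSet_iff_forall.1 h1) x hx

/-- inverses of smooth maps at bounded distance from the identity -/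
theorem exists_dif {θ : ℝ → ℝ} (hs : ContDiff ℝ ∞ θ) (hp : ∀ x, 0 < deriv θ x) {M : ℝ}
    (hM : ∀ x, |θ x - x| ≤ M) : ∃ κ : ℝ → ℝ, Dif θ κ := by
  have hmono : StrictMono θ := strictMono_of_deriv_pos hp
  have hc : Continuous θ := hs.continuous
  have htop : Tendsto θ atTop atTop := by
    refine tendsto_atTop_mono (f := fun x => x - M) (fun x => ?_) (tendsto_atTop_add_const_right _ _ tendsto_id)
    have := (abs_le.1 (hM x)).1
    linarith
  have hbot : Tendsto θ atBot atBot := by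
    have h2 : Tendsto (fun x : ℝ => x + M) atBot atBot := tendsto_atBot_add_const_right _ _ tendsto_id
    refine tendsto_atBot_mono (fun x => ?_) h2
    have := (abs_le.1 (hM x)).2
    linarith
  have hsurj : Function.Surjective θ := hc.surjective htop hbot
  set e := (hmono.orderIsoOfSurjective θ hsurj).toHomeomorph with he
  have hcoe : (e : ℝ → ℝ) = θ := rfl
  have hd : ∀ x, HasDerivAt e (deriv θ x) x := fun x =>
    ((contDiff_infty_iff_deriv.1 hs).1 x).hasDerivAt
  have hsymm : ContDiff ℝ ∞ (e.symm : ℝ → ℝ) :=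
    e.contDiff_symm_deriv (fun x => (hp x).ne') hd (by rw [hcoe]; exact hs)
  exact ⟨e.symm, hs, hsymm, hp, fun x => e.symm_apply_apply x, fun y => e.apply_symm_apply y⟩

/-- the map at scale `1 / N` -/
noncomputable def tht (p : ℝ) (l : ℝ → ℝ) (N x : ℝ) : ℝ := x + l x * tau p (N * x) / N

/-- its derivative -/
noncomputable def Tht (p : ℝ) (l : ℝ → ℝ) (N x : ℝ) : ℝ :=
  1 + deriv l x * tau p (N * x) / N + l x * ((1 - p ^ 2) / Den p (N * x) - 1)

/-- lower bound for derivatives -/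
noncomputable def m0c (p : ℝ) : ℝ := (1 - p) / (2 * (1 + p))

/-- upper bound for derivatives -/
noncomputable def Lamc (p : ℝ) : ℝ := (1 + p) / (1 - p) + 1

/-- bound of the second derivative of `tau` -/
noncomputable def Bc (p : ℝ) : ℝ := π + 2 * ((1 + p) / (1 - p)) + (1 - p ^ 2) * (2 * p) / (1 - p) ^ 4

section

variable {p : ℝ}

theorem m0c_pos (h0 : 0 < p) (h1 : p < 1) : 0 < m0c p := by
  unfold m0c
  have : 0 < 1 - p := by linarith
  positivity

theorem m0c_le (h0 : 0 < p) (h1 : p < 1) : m0c p ≤ 1 := by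
  unfold m0c
  rw [div_le_one (by positivity)]
  linarith

theorem Lamc_ge (h0 : 0 < p) (h1 : p < 1) : 1 ≤ Lamc p := by
  unfold Lamc
  have : 0 < 1 - p := by linarith
  have : 0 ≤ (1 + p) / (1 - p) := by positivity
  linarith

theorem Bc_nonneg (h0 : 0 < p) (h1 : p < 1) : 0 ≤ Bc p := by
  unfold Bc
  have h2 : 0 < 1 - p := by linarith
  have h3 : 0 < 1 - p ^ 2 := by nlinarith
  have := Real.pi_pos
  positivity

theorem Den_le (h0 : 0 < p) (x : ℝ) : Den p x ≤ (1 + p) ^ 2 := by
  unfold Den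
  have := Real.neg_one_le_cos x
  nlinarith

theorem q_low (h0 : 0 < p) (h1 : p < 1) (x : ℝ) : (1 - p) / (1 + p) ≤ (1 - p ^ 2) / Den p x := by
  have hD := Den_pos h0 h1 x
  have hD' := Den_le h0 x
  rw [div_le_div_iff₀ (by linarith) hD]
  have h2 : 0 < 1 - p := by linarith
  calc (1 - p) * Den p x ≤ (1 - p) * (1 + p) ^ 2 := by gcongr
    _ = _ := by ring

theorem q_upp (h0 : 0 < p) (h1 : p < 1) (x : ℝ) : (1 - p ^ 2) / Den p x ≤ (1 + p) / (1 - p) := by
  have hD := Den_pos h0 h1 x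
  have hD' := Den_ge h0 x
  have h2 : 0 < 1 - p := by linarith
  rw [div_le_div_iff₀ hD h2]
  calc (1 - p ^ 2) * (1 - p) = (1 + p) * (1 - p) ^ 2 := by ring
    _ ≤ _ := by gcongr

theorem q_deriv (h0 : 0 < p) (h1 : p < 1) (x : ℝ) :
    HasDerivAt (fun x => (1 - p ^ 2) / Den p x - 1) (-((1 - p ^ 2) * (2 * p * Real.sin x)) / Den p x ^ 2) x := by
  have hD := Den_pos h0 h1 x
  have hd : HasDerivAt (Den p) (2 * p * Real.sin x) x := by
    unfold Den
    have := (((Real.hasDerivAt_cos x).const_mul (2 * p)).const_sub 1).add_const (p ^ 2)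
    refine this.congr_deriv ?_
    ring
  have := ((hasDerivAt_const x (1 - p ^ 2)).fun_div hd hD.ne').sub_const 1
  refine this.congr_deriv ?_
  ring

theorem q_deriv_bound (h0 : 0 < p) (h1 : p < 1) (x : ℝ) :
    |(-((1 - p ^ 2) * (2 * p * Real.sin x)) / Den p x ^ 2)| ≤ (1 - p ^ 2) * (2 * p) / (1 - p) ^ 4 := by
  have hD := Den_pos h0 h1 x
  have hD' := Den_ge h0 x
  have h2 : 0 < 1 - p := by linarith
  have h3 : 0 < 1 - p ^ 2 := by nlinarith
  rw [abs_div, abs_neg, abs_mul, abs_mul, abs_of_pos h3, abs_of_pos (by positivity : 0 < 2 * p),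
    abs_of_pos (by positivity : 0 < Den p x ^ 2)]
  have h4 : |Real.sin x| ≤ 1 := Real.abs_sin_le_one x
  have h5 : (1 - p) ^ 4 ≤ Den p x ^ 2 := by
    calc (1 - p) ^ 4 = ((1 - p) ^ 2) ^ 2 := by ring
      _ ≤ _ := pow_le_pow_left₀ (by positivity) hD' 2
  apply div_le_div₀ (by positivity) _ (by positivity) h5
  apply mul_le_mul_of_nonneg_left _ h3.le
  nlinarith

variable {l : ℝ → ℝ}

theorem tht_hasDerivAt (h0 : 0 < p) (h1 : p < 1) (hl : ContDiff ℝ ∞ l) {N : ℝ} (hN : 0 < N) (x : ℝ) :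
    HasDerivAt (tht p l N) (Tht p l N x) x := by
  have hd : HasDerivAt l (deriv l x) x := ((contDiff_infty_iff_deriv.1 hl).1 x).hasDerivAt
  have ht : HasDerivAt (fun x => tau p (N * x)) (((1 - p ^ 2) / Den p (N * x) - 1) * N) x := by
    have := (tau_hasDerivAt h0 h1 (N * x)).comp x ((hasDerivAt_id x).const_mul N)
    refine this.congr_deriv ?_
    simp
  have h2 := ((hd.mul ht).div_const N)
  have h3 := (hasDerivAt_id x).add h2
  refine h3.congr_deriv ?_
  unfold Tht
  field_simp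
  ring

theorem tht_contDiff (h0 : 0 < p) (h1 : p < 1) (hl : ContDiff ℝ ∞ l) (N : ℝ) :
    ContDiff ℝ ∞ (tht p l N) := by
  unfold tht
  exact contDiff_id.add ((hl.mul ((tau_contDiff h0 h1).comp (contDiff_const.mul contDiff_id))).div_const N)

theorem tht_disp (hl01 : ∀ x, 0 ≤ l x ∧ l x ≤ 1) {N : ℝ} (hN : 0 < N) (x : ℝ) :
    |tht p l N x - x| ≤ π / N := by
  unfold tht
  rw [add_sub_cancel_left, abs_div, abs_of_pos hN, abs_mul, abs_of_nonneg (hl01 x).1]
  have h1 := tau_abs_le p (N * x)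
  have h2 := (hl01 x).2
  have h3 := (hl01 x).1
  gcongr
  calc l x * |tau p (N * x)| ≤ 1 * π := mul_le_mul h2 h1 (abs_nonneg _) zero_le_one
    _ = π := one_mul _

theorem tht_off {N x : ℝ} (hx : x ∉ tsupport l) : tht p l N x = x ∧ Tht p l N x = 1 := by
  have h1 : l x = 0 := image_eq_zero_of_notMem_tsupport hx
  have h2 : deriv l x = 0 := by
    have : l =ᶠ[𝓝 x] fun _ => 0 := notMem_tsupport_iff_eventuallyEq.1 hx
    rw [this.deriv_eq, deriv_const]
  unfold tht Tht
  rw [h1, h2]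
  constructor <;> ring

theorem tht_Oact (h0 : 0 < p) (h1 : p < 1) {N x : ℝ} (hx : x ∈ interior {x | l x = 1} ∩ {x | Real.cos (N * x) < p}) :
    x ∈ tsupport l ∧ Tht p l N x ≤ 1 := by
  have hlx : l x = 1 := interior_subset (s := {x | l x = 1}) hx.1
  have hd : deriv l x = 0 := by
    have h2 : l =ᶠ[𝓝 x] fun _ => 1 := mem_interior_iff_mem_nhds.1 hx.1
    rw [h2.deriv_eq, deriv_const]
  constructor
  · apply subset_tsupport
    rw [Function.mem_support, hlx]
    exact one_ne_zero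
  · unfold Tht
    rw [hlx, hd]
    have hD := Den_pos h0 h1 (N * x)
    have hc : Real.cos (N * x) < p := hx.2
    have : (1 - p ^ 2) / Den p (N * x) ≤ 1 := by
      rw [div_le_one hD]
      unfold Den
      nlinarith
    rw [zero_mul, zero_div, one_mul]
    linarith

/-- all properties of the map -/
theorem tht_all (h0 : 0 < p) (h1 : p < 1) (hl : ContDiff ℝ ∞ l) (hlc : HasCompactSupport l)
    (hl01 : ∀ x, 0 ≤ l x ∧ l x ≤ 1) {O : Set ℝ} (hO : IsOpen O) (hlO : tsupport l ⊆ O) :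
    ∀ᶠ N in atTop, (∀ x, m0c p ≤ Tht p l N x) ∧ (∀ x, Tht p l N x ≤ Lamc p) ∧
      (∀ x y, |Tht p l N x - Tht p l N y| ≤ Bc p * N * |x - y|) ∧
      (∀ x ∈ tsupport l, tht p l N x ∈ O) ∧ ∃ κ, Dif (tht p l N) κ := by
  have hp := Real.pi_pos
  have hl1 : ContDiff ℝ ∞ (deriv l) := (contDiff_infty_iff_deriv.1 hl).2
  have hl2 : ContDiff ℝ ∞ (deriv (deriv l)) := (contDiff_infty_iff_deriv.1 hl1).2
  obtain ⟨M1, hM1⟩ := hlc.deriv.exists_bound_of_continuous hl1.continuous
  obtain ⟨M2, hM2⟩ := hlc.deriv.deriv.exists_bound_of_continuous hl2.continuous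
  simp only [Real.norm_eq_abs] at hM1 hM2
  have hM10 : 0 ≤ M1 := (abs_nonneg _).trans (hM1 0)
  have hM20 : 0 ≤ M2 := (abs_nonneg _).trans (hM2 0)
  obtain ⟨δ, hδ, hδO⟩ := (show IsCompact (tsupport l) from hlc).exists_thickening_subset_open hO hlO
  have hm := m0c_pos h0 h1
  have hp1 : 0 < 1 - p := by linarith
  filter_upwards [eventually_ge_atTop (π * M1 / m0c p), eventually_ge_atTop M1, eventually_ge_atTop M2,
    eventually_ge_atTop 1, eventually_gt_atTop (π / δ)] with N e1 e2 e3 e4 e5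
  have hN : 0 < N := by linarith
  have hsm : ∀ x, |deriv l x * tau p (N * x) / N| ≤ m0c p := by
    intro x
    rw [abs_div, abs_mul, abs_of_pos hN, div_le_iff₀ hN]
    have h2 : |deriv l x| * |tau p (N * x)| ≤ M1 * π :=
      mul_le_mul (hM1 x) (tau_abs_le p _) (abs_nonneg _) hM10
    rw [div_le_iff₀ hm] at e1
    nlinarith
  have hcomb : ∀ x, (1 - p) / (1 + p) ≤ 1 + l x * ((1 - p ^ 2) / Den p (N * x) - 1) := by
    intro x
    have h2 := q_low h0 h1 (N * x)
    have h3 : (1 - p) / (1 + p) ≤ 1 := by rw [div_le_one (by linarith)]; linarith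
    have h4 := hl01 x
    nlinarith [h4.1, h4.2]
  have hlow : ∀ x, m0c p ≤ Tht p l N x := by
    intro x
    have h2 := (abs_le.1 (hsm x)).1
    have h3 := hcomb x
    have h4 : (1 - p) / (1 + p) = 2 * m0c p := by
      unfold m0c
      field_simp
    unfold Tht
    linarith
  have hupp : ∀ x, Tht p l N x ≤ Lamc p := by
    intro x
    have h2 := (abs_le.1 (hsm x)).2
    have h3 := q_upp h0 h1 (N * x)
    have h4 := hl01 x
    have h5 := m0c_le h0 h1
    have h6 : 1 ≤ (1 + p) / (1 - p) := by rw [one_le_div hp1]; linarith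
    unfold Tht Lamc
    nlinarith [h4.1, h4.2]
  refine ⟨hlow, hupp, ?_, ?_, ?_⟩
  · -- Lipschitz
    have hder : ∀ x, HasDerivAt (Tht p l N) (deriv (deriv l) x * tau p (N * x) / N
        + 2 * deriv l x * ((1 - p ^ 2) / Den p (N * x) - 1)
        + l x * (-((1 - p ^ 2) * (2 * p * Real.sin (N * x))) / Den p (N * x) ^ 2) * N) x := by
      intro x
      have hd : HasDerivAt l (deriv l x) x := ((contDiff_infty_iff_deriv.1 hl).1 x).hasDerivAt
      have hd2 : HasDerivAt (deriv l) (deriv (deriv l) x) x := ((contDiff_infty_iff_deriv.1 hl1).1 x).hasDerivAt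
      have hNx : HasDerivAt (fun x : ℝ => N * x) N x := by simpa using (hasDerivAt_id x).const_mul N
      have ht : HasDerivAt (fun x => tau p (N * x)) (((1 - p ^ 2) / Den p (N * x) - 1) * N) x :=
        (tau_hasDerivAt h0 h1 (N * x)).comp x hNx
      have hq : HasDerivAt (fun x => (1 - p ^ 2) / Den p (N * x) - 1)
          (-((1 - p ^ 2) * (2 * p * Real.sin (N * x))) / Den p (N * x) ^ 2 * N) x :=
        (q_deriv h0 h1 (N * x)).comp x hNx
      have h2 := (((hd2.mul ht).div_const N).const_add 1).add (hd.mul hq)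
      refine h2.congr_deriv ?_
      field_simp
      ring
    intro x y
    have := Convex.norm_image_sub_le_of_norm_hasDerivWithin_le (f := Tht p l N) (s := Set.univ)
      (C := Bc p * N) (x := y) (y := x) (fun x _ => (hder x).hasDerivWithinAt)
      (fun x _ => ?_) convex_univ trivial trivial
    · simpa [Real.norm_eq_abs] using this
    · rw [Real.norm_eq_abs]
      have a1 : |deriv (deriv l) x * tau p (N * x) / N| ≤ π * N := by
        rw [abs_div, abs_mul, abs_of_pos hN, div_le_iff₀ hN]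
        have h2 : |deriv (deriv l) x| * |tau p (N * x)| ≤ M2 * π :=
          mul_le_mul (hM2 x) (tau_abs_le p _) (abs_nonneg _) hM20
        nlinarith [mul_le_mul e3 e4 zero_le_one hN.le]
      have a2 : |2 * deriv l x * ((1 - p ^ 2) / Den p (N * x) - 1)| ≤ 2 * ((1 + p) / (1 - p)) * N := by
        rw [abs_mul, abs_mul, abs_of_pos (by norm_num : (0:ℝ) < 2)]
        have h3 : |(1 - p ^ 2) / Den p (N * x) - 1| ≤ (1 + p) / (1 - p) := by
          have h4 := q_upp h0 h1 (N * x)
          have h5 := q_low h0 h1 (N * x)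
          have h6 : 1 ≤ (1 + p) / (1 - p) := by rw [one_le_div hp1]; linarith
          have h7 : 0 ≤ (1 - p) / (1 + p) := by positivity
          rw [abs_le]
          constructor <;> linarith
        have h4 : |deriv l x| ≤ N := (hM1 x).trans e2
        calc 2 * |deriv l x| * |(1 - p ^ 2) / Den p (N * x) - 1| ≤ 2 * N * ((1 + p) / (1 - p)) := by gcongr
          _ = _ := by ring
      have a3 : |l x * (-((1 - p ^ 2) * (2 * p * Real.sin (N * x))) / Den p (N * x) ^ 2) * N|
          ≤ (1 - p ^ 2) * (2 * p) / (1 - p) ^ 4 * N := by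
        rw [abs_mul, abs_mul, abs_of_pos hN, abs_of_nonneg (hl01 x).1]
        have h4 := q_deriv_bound h0 h1 (N * x)
        have h5 := (hl01 x).2
        gcongr
        calc l x * |(-((1 - p ^ 2) * (2 * p * Real.sin (N * x))) / Den p (N * x) ^ 2)|
            ≤ 1 * ((1 - p ^ 2) * (2 * p) / (1 - p) ^ 4) := mul_le_mul h5 h4 (abs_nonneg _) zero_le_one
          _ = _ := one_mul _
      unfold Bc
      calc _ ≤ |deriv (deriv l) x * tau p (N * x) / N + 2 * deriv l x * ((1 - p ^ 2) / Den p (N * x) - 1)|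
            + |l x * (-((1 - p ^ 2) * (2 * p * Real.sin (N * x))) / Den p (N * x) ^ 2) * N| := abs_add_le _ _
        _ ≤ (|deriv (deriv l) x * tau p (N * x) / N| + |2 * deriv l x * ((1 - p ^ 2) / Den p (N * x) - 1)|)
            + |l x * (-((1 - p ^ 2) * (2 * p * Real.sin (N * x))) / Den p (N * x) ^ 2) * N| := by
            gcongr; exact abs_add_le _ _
        _ ≤ (π * N + 2 * ((1 + p) / (1 - p)) * N) + (1 - p ^ 2) * (2 * p) / (1 - p) ^ 4 * N := by gcongr
        _ = _ := by ring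
  · intro x hx
    apply hδO
    rw [Metric.mem_thickening_iff]
    refine ⟨x, hx, ?_⟩
    rw [Real.dist_eq]
    refine (tht_disp hl01 hN x).trans_lt ?_
    rw [div_lt_iff₀ hδ] at e5
    rw [div_lt_iff₀ hN]
    linarith
  · refine exists_dif (tht_contDiff h0 h1 hl N) (fun x => ?_) (M := π / N) (tht_disp hl01 hN)
    rw [(tht_hasDerivAt h0 h1 hl hN x).deriv]
    exact hm.trans_le (hlow x)

end

end Pool.Agent.W756.ML
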