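import Pool.Agent.W756.ML11

/-! The error made at one scale. -/

set_option autoImplicit false

open MeasureTheory Filter Topology Complex
open scoped FourierTransform Real ENNReal ContDiff

namespace Pool.Agent.W756.ML

/-- bounded densities with all moments -/
structure Good (m : ℝ → ℂ) : Prop where
  int : Integrable m
  pow : ∀ k : ℕ, Integrable fun ξ : ℝ => |ξ| ^ k * ‖m ξ‖
  bdd : ∃ B : ℝ, ∀ ξ, ‖m ξ‖ ≤ B

theorem Good.mono {m n : ℝ → ℂ} (hm : Good m) (hn : AEStronglyMeasurable n) (h : ∀ ξ, ‖n ξ‖ ≤ ‖m ξ‖) :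
    Good n where
  int := hm.int.mono hn (Eventually.of_forall h)
  pow k := by
    refine (hm.pow k).mono' ?_ (Eventually.of_forall fun ξ => ?_)
    · exact ((by fun_prop : Continuous fun ξ : ℝ => |ξ| ^ k).aestronglyMeasurable).mul hn.norm
    · rw [Real.norm_of_nonneg (by positivity)]
      have := h ξ
      gcongr
  bdd := by
    obtain ⟨B, hB⟩ := hm.bdd
    exact ⟨B, fun ξ => (h ξ).trans (hB ξ)⟩

theorem Good.add {m n : ℝ → ℂ} (hm : Good m) (hn : Good n) : Good (fun ξ => m ξ + n ξ) where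
  int := hm.int.add hn.int
  pow k := by
    refine ((hm.pow k).add (hn.pow k)).mono' ?_ (Eventually.of_forall fun ξ => ?_)
    · exact ((by fun_prop : Continuous fun ξ : ℝ => |ξ| ^ k).aestronglyMeasurable).mul
        (hm.int.add hn.int).aestronglyMeasurable.norm
    · rw [Real.norm_of_nonneg (by positivity)]
      simp only [Pi.add_apply]
      rw [← mul_add]
      gcongr
      exact norm_add_le _ _
  bdd := by
    obtain ⟨B, hB⟩ := hm.bdd
    obtain ⟨C, hC⟩ := hn.bdd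
    exact ⟨B + C, fun ξ => (norm_add_le _ _).trans (add_le_add (hB ξ) (hC ξ))⟩

theorem Good.neg {m : ℝ → ℂ} (hm : Good m) : Good (fun ξ => -m ξ) :=
  hm.mono hm.int.neg.aestronglyMeasurable fun ξ => by rw [norm_neg]

theorem Good.cutP {m : ℝ → ℂ} (hm : Good m) : Good (cutP m) :=
  hm.mono (cutP_integrable hm.int).aestronglyMeasurable (cutP_norm_le m)

theorem Good.cutN {m : ℝ → ℂ} (hm : Good m) : Good (cutN m) :=
  hm.mono (cutN_integrable hm.int).aestronglyMeasurable (cutN_norm_le m)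

theorem Good.fourier {f : ℝ → ℂ} (hf : ContDiff ℝ ∞ f) (hc : HasCompactSupport f) : Good (𝓕 f) where
  int := cc_fourier_integrable hf hc
  pow k := cc_fourier_pow hf hc k
  bdd := ⟨_, norm_fourier_le f⟩

theorem Good.mulξ {m : ℝ → ℂ} (hm : Good m) (k : ℕ) (c : ℂ) : Integrable fun ξ : ℝ => c * (ξ : ℂ) ^ k * m ξ := by
  refine ((hm.pow k).const_mul ‖c‖).mono' ?_ (Eventually.of_forall fun ξ => ?_)
  · exact ((by fun_prop : Continuous fun ξ : ℝ => c * (ξ : ℂ) ^ k).aestronglyMeasurable).mul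
      hm.int.aestronglyMeasurable
  · rw [norm_mul, norm_mul, norm_pow, Complex.norm_real, Real.norm_eq_abs, mul_assoc]

theorem Good.hasDerivAt {m : ℝ → ℂ} (hm : Good m) (x : ℝ) :
    HasDerivAt (E m) (E (fun ξ => 2 * π * I * ξ * m ξ) x) x := by
  refine hasDerivAt_E hm.int ?_ x
  simpa using hm.mulξ 1 1

theorem Good.lip {m : ℝ → ℂ} (hm : Good m) : ∃ C : ℝ, 0 ≤ C ∧ ∀ x y, ‖E m x - E m y‖ ≤ C * |x - y| := by
  refine ⟨∫ ξ, ‖2 * π * I * ξ * m ξ‖, integral_nonneg fun _ => norm_nonneg _, fun x y => ?_⟩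
  have := Convex.norm_image_sub_le_of_norm_hasDerivWithin_le (f := E m) (s := Set.univ)
    (C := ∫ ξ, ‖2 * π * I * ξ * m ξ‖) (x := y) (y := x) (fun x _ => (hm.hasDerivAt x).hasDerivWithinAt)
    (fun x _ => norm_E_le _ x) convex_univ trivial trivial
  simpa [Real.norm_eq_abs] using this

/-- maps equal to the identity off `[-1, 1]` are Lipschitz -/
theorem Dif.lip {h ψ : ℝ → ℝ} (H : Dif h ψ) (hid : ∀ x, 1 ≤ |x| → h x = x) :
    ∃ C : ℝ, 0 ≤ C ∧ ∀ x y, |h x - h y| ≤ C * |x - y| := by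
  have hs : ContDiff ℝ ∞ fun x => h x - x := H.sm.sub contDiff_id
  have hc : HasCompactSupport fun x => h x - x := by
    refine HasCompactSupport.intro (isCompact_Icc (a := (-1:ℝ)) (b := 1)) fun x hx => ?_
    have : 1 ≤ |x| := by
      by_contra hlt
      rw [not_le, abs_lt] at hlt
      exact hx ⟨hlt.1.le, hlt.2.le⟩
    rw [hid x this, sub_self]
  obtain ⟨C, hC⟩ := ContDiff.lipschitzWith_of_hasCompactSupport hc hs (by simp)
  refine ⟨C + 1, by positivity, fun x y => ?_⟩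
  have h1 := hC.dist_le_mul x y
  rw [Real.dist_eq, Real.dist_eq] at h1
  have e : h x - h y = ((h x - x) - (h y - y)) + (x - y) := by ring
  rw [e]
  refine (abs_add_le _ _).trans ?_
  linarith

theorem E_fourier_split {f : ℝ → ℂ} (hf : ContDiff ℝ ∞ f) (hc : HasCompactSupport f) (x : ℝ) :
    E (cutP (𝓕 f)) x = f x - E (cutN (𝓕 f)) x := by
  have := E_cut (cc_fourier_integrable hf hc) x
  rw [cc_E_fourier hf hc] at this
  rw [← this]; ring

/-- the function `a` -/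
noncomputable def aN (R : ℝ → ℂ) (L : ℕ) (c : ℕ → ℂ) (N x : ℝ) : ℂ :=
  R x * (starRingEnd ℂ) (tp L c (N * x))

theorem aN_contDiff {R : ℝ → ℂ} (hR : ContDiff ℝ ∞ R) (L : ℕ) (c : ℕ → ℂ) (N : ℝ) :
    ContDiff ℝ ∞ (aN R L c N) :=
  hR.mul (Complex.conjCLE.contDiff.comp ((tp_contDiff L c).comp (contDiff_const.mul contDiff_id)))

theorem aN_supp {R : ℝ → ℂ} (hc : HasCompactSupport R) (L : ℕ) (c : ℕ → ℂ) (N : ℝ) :
    HasCompactSupport (aN R L c N) := hc.mul_right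

/-- the multiplier -/
noncomputable def wN (p : ℝ) (L1 : ℕ) (c1 : ℕ → ℂ) (L2 : ℕ) (c2 : ℕ → ℂ) (x : ℝ) : ℂ :=
  1 + tp L1 c1 (eta p x) - (starRingEnd ℂ) (tp L2 c2 x)

theorem step_err {p : ℝ} {h ψ : ℝ → ℝ} (H : Dif h ψ)
    (hid : ∀ x, 1 ≤ |x| → h x = x) {R : ℝ → ℂ} (hR : ContDiff ℝ ∞ R) (hc : HasCompactSupport R)
    {l : ℝ → ℝ} (hl01 : ∀ x, 0 ≤ l x ∧ l x ≤ 1) (hlR : tsupport R ⊆ interior {x | l x = 1})
    {mG mF : ℝ → ℂ} (gG : Good mG) (gF : Good mF) (L1 : ℕ) (c1 : ℕ → ℂ) (L2 : ℕ) (c2 : ℕ → ℂ) {δ : ℝ}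
    (hδ : 0 < δ) : ∀ᶠ N in atTop, ∀ x,
      ‖(E (fun ξ => mG ξ + cutP (𝓕 (bN ψ R L1 c1 N)) ξ) (h (tht p l N x))
        - E (fun ξ => mF ξ + cutN (𝓕 (aN R L2 c2 N)) ξ) x - R x * wN p L1 c1 L2 c2 (N * x))
        - (E mG (h x) - E mF x - R x)‖ ≤ δ := by
  obtain ⟨CG, hCG, hG⟩ := gG.lip
  obtain ⟨Ch, hCh, hh⟩ := H.lip hid
  obtain ⟨CR, hCR⟩ := ContDiff.lipschitzWith_of_hasCompactSupport hc hR (by simp)
  obtain ⟨C1, hC1, h1⟩ := bN_cutN H hR hc L1 c1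
  obtain ⟨C2, hC2, h2⟩ := aN_cutP hR hc L2 c2
  have hp := Real.pi_pos
  set S1 := ∑ k ∈ Finset.range L1, ‖c1 k‖ with hS1
  have hS10 : 0 ≤ S1 := by positivity
  set X := CG * (Ch * π) + C1 + C2 + CR * π * S1 with hX
  filter_upwards [eventually_ge_atTop (X / δ), eventually_gt_atTop 0] with N e1 e2
  intro x
  have hb := E_fourier_split (bN_contDiff H hR L1 c1 N) (bN_supp H hc L1 c1 N) (h (tht p l N x))
  have hbG : Good (cutP (𝓕 (bN ψ R L1 c1 N))) := (Good.fourier (bN_contDiff H hR L1 c1 N) (bN_supp H hc L1 c1 N)).cutP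
  have haG : Good (𝓕 (aN R L2 c2 N)) := Good.fourier (aN_contDiff hR L2 c2 N) (aN_supp hc L2 c2 N)
  have ha : E (cutN (𝓕 (aN R L2 c2 N))) x = aN R L2 c2 N x - E (cutP (𝓕 (aN R L2 c2 N))) x := by
    rw [E_fourier_split (aN_contDiff hR L2 c2 N) (aN_supp hc L2 c2 N)]; ring
  rw [E_add gG.int hbG.int, E_add gF.int haG.cutN.int, hb, ha]
  set θ := tht p l N x with hθ
  have hbv : bN ψ R L1 c1 N (h θ) = R θ * tp L1 c1 (N * θ) := by
    unfold bN
    rw [H.left]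
  have hbr : R θ * tp L1 c1 (N * θ) - R x * tp L1 c1 (eta p (N * x)) = (R θ - R x) * tp L1 c1 (N * θ) := by
    by_cases hx : R x = 0
    · rw [hx]; ring
    · have hx1 : x ∈ interior {x | l x = 1} := hlR (subset_tsupport _ hx)
      have hlx : l x = 1 := interior_subset (s := {x | l x = 1}) hx1
      have : N * θ = eta p (N * x) := by
        rw [hθ]
        unfold tht eta
        rw [hlx]
        field_simp
      rw [this]; ring
  have key : (E mG (h θ) + (bN ψ R L1 c1 N (h θ) - E (cutN (𝓕 (bN ψ R L1 c1 N))) (h θ))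
        - (E mF x + (aN R L2 c2 N x - E (cutP (𝓕 (aN R L2 c2 N))) x)) - R x * wN p L1 c1 L2 c2 (N * x))
        - (E mG (h x) - E mF x - R x)
      = (E mG (h θ) - E mG (h x)) - E (cutN (𝓕 (bN ψ R L1 c1 N))) (h θ)
        + E (cutP (𝓕 (aN R L2 c2 N))) x + (R θ - R x) * tp L1 c1 (N * θ) := by
    rw [hbv, ← hbr]
    unfold wN aN
    ring
  rw [key]
  have hdisp : |θ - x| ≤ π / N := tht_disp hl01 e2 x
  have b1 : ‖E mG (h θ) - E mG (h x)‖ ≤ CG * (Ch * π) / N := by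
    calc _ ≤ CG * |h θ - h x| := hG _ _
      _ ≤ CG * (Ch * |θ - x|) := by gcongr; exact hh _ _
      _ ≤ CG * (Ch * (π / N)) := by gcongr
      _ = _ := by ring
  have b2 : ‖E (cutN (𝓕 (bN ψ R L1 c1 N))) (h θ)‖ ≤ C1 / N := h1 N e2 _
  have b3 : ‖E (cutP (𝓕 (aN R L2 c2 N))) x‖ ≤ C2 / N := h2 N e2 x
  have b4 : ‖(R θ - R x) * tp L1 c1 (N * θ)‖ ≤ CR * π * S1 / N := by
    rw [norm_mul]
    have h5 := hCR.dist_le_mul θ x
    rw [dist_eq_norm, Real.dist_eq] at h5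
    calc ‖R θ - R x‖ * ‖tp L1 c1 (N * θ)‖ ≤ (CR * (π / N)) * S1 := by
          refine mul_le_mul (h5.trans ?_) (tp_norm_le _ _ _) (norm_nonneg _) (by positivity)
          gcongr
      _ = _ := by ring
  calc _ ≤ ‖(E mG (h θ) - E mG (h x)) - E (cutN (𝓕 (bN ψ R L1 c1 N))) (h θ)
        + E (cutP (𝓕 (aN R L2 c2 N))) x‖ + ‖(R θ - R x) * tp L1 c1 (N * θ)‖ := norm_add_le _ _
    _ ≤ (‖(E mG (h θ) - E mG (h x)) - E (cutN (𝓕 (bN ψ R L1 c1 N))) (h θ)‖
        + ‖E (cutP (𝓕 (aN R L2 c2 N))) x‖) + ‖(R θ - R x) * tp L1 c1 (N * θ)‖ := by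
        gcongr; exact norm_add_le _ _
    _ ≤ ((‖E mG (h θ) - E mG (h x)‖ + ‖E (cutN (𝓕 (bN ψ R L1 c1 N))) (h θ)‖)
        + ‖E (cutP (𝓕 (aN R L2 c2 N))) x‖) + ‖(R θ - R x) * tp L1 c1 (N * θ)‖ := by
        gcongr; exact norm_sub_le _ _
    _ ≤ ((CG * (Ch * π) / N + C1 / N) + C2 / N) + CR * π * S1 / N := by gcongr
    _ = X / N := by rw [hX]; ring
    _ ≤ δ := by
        rw [div_le_iff₀ hδ] at e1
        rw [div_le_iff₀ e2]
        linarith

/-- the pairing with a fixed function changes little -/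
theorem step_pair {h ψ : ℝ → ℝ} (H : Dif h ψ) {R : ℝ → ℂ} (hR : ContDiff ℝ ∞ R) (hc : HasCompactSupport R)
    {mG : ℝ → ℂ} (gG : Good mG) (L1 : ℕ) (c1 : ℕ → ℂ) {A : ℝ → ℂ} (hA : ContDiff ℝ ∞ A)
    (hAc : HasCompactSupport A) {δ : ℝ} (hδ : 0 < δ) : ∀ᶠ N in atTop,
      ‖(∫ y, E (fun ξ => mG ξ + cutP (𝓕 (bN ψ R L1 c1 N)) ξ) y * A y) - ∫ y, E mG y * A y‖ ≤ δ := by
  obtain ⟨C1, hC1, h1⟩ := bN_cutN H hR hc L1 c1
  have hR' : ContDiff ℝ ∞ fun x => R x * A (h x) := hR.mul (hA.comp H.sm)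
  have hc' : HasCompactSupport fun x => R x * A (h x) := hc.mul_right
  obtain ⟨C2, hC2, h2⟩ := bN_fourier H hR' hc' L1 c1
  set X := C2 + C1 * (∫ y, ‖A y‖) with hX
  filter_upwards [eventually_ge_atTop (X / δ), eventually_ge_atTop 1] with N e1 e2
  have hN : 0 < N := by linarith
  have hAi := cc_integrable hA hAc
  have hbG : Good (𝓕 (bN ψ R L1 c1 N)) := Good.fourier (bN_contDiff H hR L1 c1 N) (bN_supp H hc L1 c1 N)
  have iA : ∀ {m : ℝ → ℂ}, Good m → Integrable fun y => E m y * A y := by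
    intro m hm
    refine hAi.bdd_mul (c := ∫ ξ, ‖m ξ‖) (continuous_E hm.int).aestronglyMeasurable ?_
    exact Eventually.of_forall fun y => norm_E_le m y
  have e3 : ∀ y, E (fun ξ => mG ξ + cutP (𝓕 (bN ψ R L1 c1 N)) ξ) y * A y
      = E mG y * A y + E (cutP (𝓕 (bN ψ R L1 c1 N))) y * A y := fun y => by
    rw [E_add gG.int hbG.cutP.int]; ring
  simp_rw [e3]
  rw [integral_add (iA gG) (iA hbG.cutP), add_sub_cancel_left]
  have hbc := bN_contDiff H hR L1 c1 N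
  have hbs := bN_supp H hc L1 c1 N
  have e4 : ∀ y, E (cutP (𝓕 (bN ψ R L1 c1 N))) y * A y
      = bN ψ (fun x => R x * A (h x)) L1 c1 N y - E (cutN (𝓕 (bN ψ R L1 c1 N))) y * A y := fun y => by
    rw [E_fourier_split hbc hbs]
    unfold bN
    simp only [H.right]
    ring
  simp_rw [e4]
  have hi1 : Integrable (bN ψ (fun x => R x * A (h x)) L1 c1 N) :=
    cc_integrable (bN_contDiff H hR' L1 c1 N) (bN_supp H hc' L1 c1 N)
  rw [integral_sub hi1 (iA hbG.cutN)]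
  have e5 : ∫ y, bN ψ (fun x => R x * A (h x)) L1 c1 N y = 𝓕 (bN ψ (fun x => R x * A (h x)) L1 c1 N) 0 := by
    rw [Real.fourier_eq']
    simp
  have b1 : ‖∫ y, bN ψ (fun x => R x * A (h x)) L1 c1 N y‖ ≤ C2 / N := by
    rw [e5]
    refine (h2 N hN 0 le_rfl).trans ?_
    apply div_le_div_of_nonneg_left hC2 hN
    nlinarith
  have b2 : ‖∫ y, E (cutN (𝓕 (bN ψ R L1 c1 N))) y * A y‖ ≤ C1 / N * ∫ y, ‖A y‖ := by
    rw [← integral_const_mul]
    refine norm_integral_le_of_norm_le (hAi.norm.const_mul _) (Eventually.of_forall fun y => ?_)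
    rw [norm_mul]
    gcongr
    exact h1 N hN y
  calc _ ≤ ‖∫ y, bN ψ (fun x => R x * A (h x)) L1 c1 N y‖ + ‖∫ y, E (cutN (𝓕 (bN ψ R L1 c1 N))) y * A y‖ :=
        norm_sub_le _ _
    _ ≤ C2 / N + C1 / N * ∫ y, ‖A y‖ := add_le_add b1 b2
    _ = X / N := by rw [hX]; ring
    _ ≤ δ := by
        rw [div_le_iff₀ hδ] at e1
        rw [div_le_iff₀ hN]
        linarith

end Pool.Agent.W756.ML
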