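import Pool.Agent.W756.ML9
import Pool.Agent.W756.ML10
import Pool.Agent.W756.ML12

/-! The multiscale recursion. -/

set_option autoImplicit false

open MeasureTheory Filter Topology Complex
open scoped FourierTransform Real ENNReal ContDiff

namespace Pool.Agent.W756.ML

/-- the data at one stage -/
structure St where
  h : ℝ → ℝ
  ψ : ℝ → ℝ
  R : ℝ → ℂ
  O : Set ℝ
  mG : ℝ → ℂ
  mF : ℝ → ℂ
  N : ℝ
  θ : ℝ → ℝ
  T : ℝ → ℝ
  act : Set ℝ

/-- the invariants at stage `j` -/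
structure Inv (a ε : ℝ) (A : ℝ → ℂ) (j : ℕ) (s : St) : Prop where
  dif : Dif s.h s.ψ
  hid : ∀ x, 1 ≤ |x| → s.h x = x
  Rs : ContDiff ℝ ∞ s.R
  Rc : HasCompactSupport s.R
  RO : tsupport s.R ⊆ s.O
  Rb : ∀ x, ‖s.R x‖ ≤ a ^ j
  Oo : IsOpen s.O
  O1 : s.O ⊆ Set.Ioo (-1) 1
  gG : Good s.mG
  gF : Good s.mF
  pG : ∀ ξ, ξ ≤ 0 → s.mG ξ = 0
  pF : ∀ ξ, 0 < ξ → s.mF ξ = 0
  err : ∀ x, ‖E s.mG (s.h x) - E s.mF x - s.R x‖ ≤ ε * (1 - (1 / 2) ^ j)
  pair : ‖(∫ y, E s.mG y * A y) - ∫ y, E (cutP (𝓕 A)) y * A y‖ ≤ ε * (1 - (1 / 2) ^ j)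
  Npos : 0 < s.N

/-- the relation between consecutive stages -/
structure Rel (p : ℝ) (s s' : St) : Prop where
  comp : ∀ x, s'.h x = s.h (s'.θ x)
  dbl : 2 * s.N ≤ s'.N
  der : ∀ x, HasDerivAt s'.θ (s'.T x) x
  low : ∀ x, m0c p ≤ s'.T x
  upp : ∀ x, s'.T x ≤ Lamc p
  lip : ∀ x y, |s'.T x - s'.T y| ≤ Bc p * s'.N * |x - y|
  disp : ∀ x, |s'.θ x - x| ≤ π / s'.N
  off : ∀ x, x ∉ s'.act → s'.θ x = x ∧ s'.T x = 1
  on : ∀ x, x ∈ s'.act → s'.θ x ∈ s.O
  Oact : ∀ x, x ∈ s'.O → x ∈ s'.act ∧ s'.T x ≤ 1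

theorem eta_contDiff {p : ℝ} (h0 : 0 < p) (h1 : p < 1) : ContDiff ℝ ∞ (eta p) :=
  contDiff_id.add (tau_contDiff h0 h1)

theorem wN_contDiff {p : ℝ} (h0 : 0 < p) (h1 : p < 1) (L1 : ℕ) (c1 : ℕ → ℂ) (L2 : ℕ) (c2 : ℕ → ℂ) :
    ContDiff ℝ ∞ (wN p L1 c1 L2 c2) :=
  (contDiff_const.add ((tp_contDiff L1 c1).comp (eta_contDiff h0 h1))).sub
    (Complex.conjCLE.contDiff.comp (tp_contDiff L2 c2))

theorem E_neg' (m : ℝ → ℂ) (x : ℝ) : E (fun ξ => -m ξ) x = -E m x := by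
  rw [E_def, E_def, ← integral_neg]
  refine integral_congr_ae (Eventually.of_forall fun ξ => ?_)
  simp only; ring

theorem step {p p1 p2 a : ℝ} (h0 : 0 < p) (h1 : p < 1) (h12 : p1 < p2) (h2p : p2 < p) (ha0 : 0 < a)
    (ha1 : a < 1)
    (hos : ∀ ε : ℝ, 0 < ε → ∃ (L1 : ℕ) (c1 : ℕ → ℂ) (L2 : ℕ) (c2 : ℕ → ℂ), ∀ x,
      ‖wN p L1 c1 L2 c2 x‖ ≤ a ∧ (p1 ≤ Real.cos x → ‖wN p L1 c1 L2 c2 x‖ ≤ ε))
    {ε : ℝ} (hε : 0 < ε) {A : ℝ → ℂ} (hA : ContDiff ℝ ∞ A) (hAc : HasCompactSupport A) {j : ℕ} {s : St}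
    (hs : Inv a ε A j s) : ∃ s', Inv a ε A (j + 1) s' ∧ Rel p s s' := by
  set δ := ε * (1 / 2) ^ (j + 1) / 2 with hδ
  have hδ0 : 0 < δ := by positivity
  obtain ⟨L1, c1, L2, c2, hw⟩ := hos δ hδ0
  obtain ⟨l, hl, hlc, hlO, hl01, hlR⟩ := exists_cutoff (show IsCompact (tsupport s.R) from hs.Rc) hs.Oo hs.RO
  have ev1 := tht_all h0 h1 hl hlc hl01 hs.Oo hlO
  have ev2 := step_err (p := p) hs.dif hs.hid hs.Rs hs.Rc hl01 hlR hs.gG hs.gF L1 c1 L2 c2 hδ0
  have ev3 := step_pair hs.dif hs.Rs hs.Rc hs.gG L1 c1 hA hAc hδ0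
  obtain ⟨N, ⟨t1, t2, t3, t4, κ, t5⟩, e2, e3, e4, e5⟩ :=
    (ev1.and (ev2.and (ev3.and ((eventually_ge_atTop (2 * s.N)).and (eventually_gt_atTop 0))))).exists
  have haj : a ^ j ≤ 1 := pow_le_one₀ ha0.le ha1.le
  have hbG : Good (𝓕 (bN s.ψ s.R L1 c1 N)) :=
    Good.fourier (bN_contDiff hs.dif hs.Rs L1 c1 N) (bN_supp hs.dif hs.Rc L1 c1 N)
  have haG : Good (𝓕 (aN s.R L2 c2 N)) := Good.fourier (aN_contDiff hs.Rs L2 c2 N) (aN_supp hs.Rc L2 c2 N)
  set S : ℝ → ℝ := fun x => Real.smoothTransition ((p2 - Real.cos (N * x)) / (p2 - p1)) with hS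
  have hSs : ContDiff ℝ ∞ S :=
    Real.smoothTransition.contDiff.comp ((contDiff_const.sub
      (Real.contDiff_cos.comp (contDiff_const.mul contDiff_id))).div_const _)
  have hS0 : ∀ x, 0 ≤ S x := fun x => Real.smoothTransition.nonneg _
  have hS1 : ∀ x, S x ≤ 1 := fun x => Real.smoothTransition.le_one _
  have hd12 : 0 < p2 - p1 := by linarith
  set R' : ℝ → ℂ := fun x => (S x : ℂ) * (s.R x * wN p L1 c1 L2 c2 (N * x)) with hR'
  have hR's : ContDiff ℝ ∞ R' :=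
    (Complex.ofRealCLM.contDiff.comp hSs).mul
      (hs.Rs.mul ((wN_contDiff h0 h1 L1 c1 L2 c2).comp (contDiff_const.mul contDiff_id)))
  have hR'c : HasCompactSupport R' := (hs.Rc.mul_right).mul_left
  refine ⟨⟨fun x => s.h (tht p l N x), fun y => κ (s.ψ y), R',
    interior {x | l x = 1} ∩ {x | Real.cos (N * x) < p},
    fun ξ => s.mG ξ + cutP (𝓕 (bN s.ψ s.R L1 c1 N)) ξ,
    fun ξ => s.mF ξ + cutN (𝓕 (aN s.R L2 c2 N)) ξ, N, tht p l N, Tht p l N, tsupport l⟩, ?_, ?_⟩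
  · constructor
    · exact hs.dif.comp t5
    · intro x hx
      have hxl : x ∉ tsupport l := fun hxl => by
        have h3 := hs.O1 (hlO hxl)
        have h4 : |x| < 1 := abs_lt.2 ⟨h3.1, h3.2⟩
        linarith
      show s.h (tht p l N x) = x
      rw [(tht_off hxl).1]
      exact hs.hid x hx
    · exact hR's
    · exact hR'c
    · show tsupport R' ⊆ interior {x | l x = 1} ∩ {x | Real.cos (N * x) < p}
      have h3 : tsupport R' ⊆ tsupport s.R ∩ {x | Real.cos (N * x) ≤ p2} := by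
        refine closure_minimal ?_ ((isClosed_tsupport _).inter
          (isClosed_le (by fun_prop) continuous_const))
        intro x hx
        rw [Function.mem_support] at hx
        refine ⟨subset_tsupport _ ?_, ?_⟩
        · rw [Function.mem_support]
          intro h
          exact hx (by simp [hR', h])
        · show Real.cos (N * x) ≤ p2
          by_contra hlt
          rw [not_le] at hlt
          apply hx
          have : S x = 0 := Real.smoothTransition.zero_of_nonpos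
            (div_nonpos_of_nonpos_of_nonneg (by linarith) hd12.le)
          simp [hR', this]
      intro x hx
      obtain ⟨hx1, hx2⟩ := h3 hx
      exact ⟨hlR hx1, lt_of_le_of_lt (show Real.cos (N * x) ≤ p2 from hx2) h2p⟩
    · intro x
      show ‖R' x‖ ≤ a ^ (j + 1)
      simp only [hR']
      rw [norm_mul, norm_mul, Complex.norm_real, Real.norm_of_nonneg (hS0 x), pow_succ]
      have h3 := hs.Rb x
      have h4 := (hw (N * x)).1
      calc S x * (‖s.R x‖ * ‖wN p L1 c1 L2 c2 (N * x)‖) ≤ 1 * (a ^ j * a) := by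
            apply mul_le_mul (hS1 x) _ (by positivity) zero_le_one
            exact mul_le_mul h3 h4 (norm_nonneg _) (by positivity)
        _ = a ^ j * a := one_mul _
    · exact isOpen_interior.inter (isOpen_lt (by fun_prop) continuous_const)
    · intro x hx
      have hlx : l x = 1 := interior_subset (s := {x | l x = 1}) hx.1
      apply hs.O1
      apply hlO
      apply subset_tsupport
      rw [Function.mem_support, hlx]
      exact one_ne_zero
    · exact hs.gG.add hbG.cutP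
    · exact hs.gF.add haG.cutN
    · intro ξ hξ
      show s.mG ξ + cutP (𝓕 (bN s.ψ s.R L1 c1 N)) ξ = 0
      rw [hs.pG ξ hξ]
      unfold cutP
      rw [Set.indicator_of_notMem (by simpa using hξ), zero_add]
    · intro ξ hξ
      show s.mF ξ + cutN (𝓕 (aN s.R L2 c2 N)) ξ = 0
      rw [hs.pF ξ hξ]
      unfold cutN
      rw [Set.indicator_of_notMem (by simpa using hξ), zero_add]
    · intro x
      show ‖E (fun ξ => s.mG ξ + cutP (𝓕 (bN s.ψ s.R L1 c1 N)) ξ) (s.h (tht p l N x))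
        - E (fun ξ => s.mF ξ + cutN (𝓕 (aN s.R L2 c2 N)) ξ) x - R' x‖ ≤ ε * (1 - (1 / 2) ^ (j + 1))
      have h3 := e2 x
      have h4 := hs.err x
      have h5 : ‖s.R x * wN p L1 c1 L2 c2 (N * x) - R' x‖ ≤ δ := by
        have e : s.R x * wN p L1 c1 L2 c2 (N * x) - R' x
            = ((1 - S x : ℝ) : ℂ) * (s.R x * wN p L1 c1 L2 c2 (N * x)) := by
          simp only [hR']; push_cast; ring
        rw [e, norm_mul, norm_mul, Complex.norm_real, Real.norm_of_nonneg (by linarith [hS1 x])]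
        rcases le_or_gt (Real.cos (N * x)) p1 with hc | hc
        · have : S x = 1 := Real.smoothTransition.one_of_one_le (by
            rw [one_le_div hd12]; linarith)
          rw [this, sub_self, zero_mul]
          exact hδ0.le
        · have h6 := (hw (N * x)).2 hc.le
          calc (1 - S x) * (‖s.R x‖ * ‖wN p L1 c1 L2 c2 (N * x)‖) ≤ 1 * (1 * δ) := by
                apply mul_le_mul (by linarith [hS0 x]) _ (by positivity) zero_le_one
                exact mul_le_mul ((hs.Rb x).trans haj) h6 (norm_nonneg _) zero_le_one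
            _ = δ := by ring
      set u := E (fun ξ => s.mG ξ + cutP (𝓕 (bN s.ψ s.R L1 c1 N)) ξ) (s.h (tht p l N x))
        - E (fun ξ => s.mF ξ + cutN (𝓕 (aN s.R L2 c2 N)) ξ) x with hu
      set v := E s.mG (s.h x) - E s.mF x - s.R x with hv
      calc ‖u - R' x‖ = ‖(u - s.R x * wN p L1 c1 L2 c2 (N * x) - v) + v
            + (s.R x * wN p L1 c1 L2 c2 (N * x) - R' x)‖ := by congr 1; ring
        _ ≤ ‖(u - s.R x * wN p L1 c1 L2 c2 (N * x) - v) + v‖
            + ‖s.R x * wN p L1 c1 L2 c2 (N * x) - R' x‖ := norm_add_le _ _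
        _ ≤ (‖u - s.R x * wN p L1 c1 L2 c2 (N * x) - v‖ + ‖v‖)
            + ‖s.R x * wN p L1 c1 L2 c2 (N * x) - R' x‖ := by gcongr; exact norm_add_le _ _
        _ ≤ (δ + ε * (1 - (1 / 2) ^ j)) + δ := by gcongr
        _ = ε * (1 - (1 / 2) ^ (j + 1)) := by rw [hδ, pow_succ]; ring
    · show ‖(∫ y, E (fun ξ => s.mG ξ + cutP (𝓕 (bN s.ψ s.R L1 c1 N)) ξ) y * A y)
        - ∫ y, E (cutP (𝓕 A)) y * A y‖ ≤ ε * (1 - (1 / 2) ^ (j + 1))
      set u := ∫ y, E (fun ξ => s.mG ξ + cutP (𝓕 (bN s.ψ s.R L1 c1 N)) ξ) y * A y with hu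
      set v := ∫ y, E s.mG y * A y with hv
      set w := ∫ y, E (cutP (𝓕 A)) y * A y with hw
      calc ‖u - w‖ = ‖(u - v) + (v - w)‖ := by congr 1; ring
        _ ≤ ‖u - v‖ + ‖v - w‖ := norm_add_le _ _
        _ ≤ δ + ε * (1 - (1 / 2) ^ j) := add_le_add e3 hs.pair
        _ ≤ ε * (1 - (1 / 2) ^ (j + 1)) := by
            have : ε * (1 - (1 / 2) ^ (j + 1)) = (δ + ε * (1 - (1 / 2) ^ j)) + δ := by
              rw [hδ, pow_succ]; ring
            rw [this]; linarith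
    · exact e5
  · constructor
    · intro x; rfl
    · exact e4
    · exact tht_hasDerivAt h0 h1 hl e5
    · exact t1
    · exact t2
    · exact t3
    · exact tht_disp hl01 e5
    · intro x hx; exact tht_off hx
    · exact t4
    · intro x hx; exact tht_Oact h0 h1 hx

/-- the initial stage -/
theorem init (a ε : ℝ) {A : ℝ → ℂ} (hA : ContDiff ℝ ∞ A) (hAc : HasCompactSupport A)
    (hAs : tsupport A ⊆ Set.Ioo (-1) 1) (hAb : ∀ x, ‖A x‖ ≤ 1) :
    Inv a ε A 0 ⟨fun x => x, fun x => x, A, Set.Ioo (-1) 1, cutP (𝓕 A), fun ξ => -cutN (𝓕 A) ξ, 1,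
      fun x => x, fun _ => 1, ∅⟩ where
  dif := Dif.id
  hid := fun _ _ => rfl
  Rs := hA
  Rc := hAc
  RO := hAs
  Rb := fun x => by simpa using hAb x
  Oo := isOpen_Ioo
  O1 := subset_rfl
  gG := (Good.fourier hA hAc).cutP
  gF := (Good.fourier hA hAc).cutN.neg
  pG := fun ξ hξ => by
    show cutP (𝓕 A) ξ = 0
    unfold cutP
    rw [Set.indicator_of_notMem (by simpa using hξ)]
  pF := fun ξ hξ => by
    show -cutN (𝓕 A) ξ = 0
    unfold cutN
    rw [Set.indicator_of_notMem (by simpa using hξ), neg_zero]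
  err := fun x => by
    show ‖E (cutP (𝓕 A)) x - E (fun ξ => -cutN (𝓕 A) ξ) x - A x‖ ≤ _
    rw [E_neg', E_fourier_split hA hAc]
    simp
  pair := by simp
  Npos := one_pos

/-- blocks -/
theorem block {A : ℝ → ℂ} (hA : ContDiff ℝ ∞ A) (hAc : HasCompactSupport A)
    (hAs : tsupport A ⊆ Set.Ioo (-1) 1) (hAb : ∀ x, ‖A x‖ ≤ 1) :
    ∃ C : ℝ, 0 < C ∧ ∀ ε : ℝ, 0 < ε → ∃ (h ψ : ℝ → ℝ) (mG mF : ℝ → ℂ), Dif h ψ ∧
      (∀ x, 1 ≤ |x| → h x = x) ∧ Good mG ∧ Good mF ∧ (∀ ξ, ξ ≤ 0 → mG ξ = 0) ∧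
      (∀ ξ, 0 < ξ → mF ξ = 0) ∧ (∀ x, ‖E mG (h x) - E mF x‖ ≤ ε) ∧
      ‖(∫ y, E mG y * A y) - ∫ y, E (cutP (𝓕 A)) y * A y‖ ≤ ε ∧
      ∀ s x t : ℝ, s < t → s ≤ x → x ≤ t → deriv h x * (t - s) ≤ C * (h t - h s) := by
  obtain ⟨p, p1, p2, a, h0, h1, h12, h2p, ha0, ha1, hos⟩ := one_step
  have hm := m0c_pos h0 h1
  have hΛ := Lamc_ge h0 h1
  have hB := Bc_nonneg h0 h1
  refine ⟨2 * Lamc p * Real.exp (24 * π * Bc p * Lamc p / m0c p), by positivity, fun ε hε => ?_⟩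
  have hε2 : 0 < ε / 2 := by linarith
  choose nx hnx using fun (j : ℕ) (s : {s // Inv a (ε / 2) A j s}) =>
    step h0 h1 h12 h2p ha0 ha1 hos hε2 hA hAc s.2
  let g : ∀ j, {s // Inv a (ε / 2) A j s} := fun j => Nat.rec (motive := fun j => {s // Inv a (ε / 2) A j s})
    ⟨_, init a (ε / 2) hA hAc hAs hAb⟩ (fun j s => ⟨nx j s, (hnx j s).1⟩) j
  have hrel : ∀ j, Rel p (g j).1 (g (j + 1)).1 := fun j => (hnx j (g j)).2
  have hch : Chain (m0c p) (Lamc p) (Bc p) (fun j => (g j).1.θ) (fun j => (g j).1.T)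
      (fun j => (g j).1.N) (fun j => (g j).1.act) (fun j => (g j).1.O) :=
    { Npos := fun j => (g j).2.Npos
      dbl := fun j => (hrel j).dbl
      der := fun j => (hrel j).der
      low := fun j => (hrel j).low
      upp := fun j => (hrel j).upp
      lip := fun j => (hrel j).lip
      disp := fun j => (hrel j).disp
      off := fun j => (hrel j).off
      on := fun j => (hrel j).on
      Oact := fun j => (hrel j).Oact }
  have hCp : ∀ k x, (g k).1.h x = Cp (fun j => (g j).1.θ) 0 k x := by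
    intro k
    induction k with
    | zero => intro x; rfl
    | succ k ih =>
      intro x
      rw [(hrel k).comp x, ih]
      show _ = Cp (fun j => (g j).1.θ) 0 k ((g (0 + k + 1)).1.θ x)
      rw [Nat.zero_add]
  obtain ⟨K, hK⟩ := exists_pow_lt_of_lt_one hε2 ha1
  set s := (g K).1 with hs
  have hI : Inv a (ε / 2) A K s := (g K).2
  have hpw : (ε / 2) * (1 - (1 / 2) ^ K) ≤ ε / 2 := by
    have : (0:ℝ) ≤ (1 / 2) ^ K := by positivity
    nlinarith
  refine ⟨s.h, s.ψ, s.mG, s.mF, hI.dif, hI.hid, hI.gG, hI.gF, hI.pG, hI.pF, ?_, ?_, ?_⟩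
  · intro x
    calc ‖E s.mG (s.h x) - E s.mF x‖ = ‖(E s.mG (s.h x) - E s.mF x - s.R x) + s.R x‖ := by congr 1; ring
      _ ≤ ‖E s.mG (s.h x) - E s.mF x - s.R x‖ + ‖s.R x‖ := norm_add_le _ _
      _ ≤ ε / 2 + ε / 2 := add_le_add ((hI.err x).trans hpw) ((hI.Rb x).trans hK.le)
      _ = ε := by ring
  · exact hI.pair.trans (hpw.trans (by linarith))
  · intro s' x t hst hsx hxt
    have h3 := hch.rh hm hΛ hB K hst hsx hxt
    have h4 : deriv s.h x = Dp (fun j => (g j).1.θ) (fun j => (g j).1.T) 0 K x := by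
      have e : s.h = Cp (fun j => (g j).1.θ) 0 K := funext (hCp K)
      rw [e]
      exact (hch.cp_der 0 K x).deriv
    rw [h4, hCp K, hCp K]
    exact h3

end Pool.Agent.W756.ML
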