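import Pool.Agent.W756.ML13

/-! Interaction of distant blocks. -/

set_option autoImplicit false

open MeasureTheory Filter Topology Complex
open scoped FourierTransform Real ENNReal ContDiff

namespace Pool.Agent.W756.ML

theorem Good.contDiff {m : ℝ → ℂ} (hm : Good m) : ContDiff ℝ ∞ (E m) := by
  have h : E m = fun x => 𝓕 m (-x) := funext (E_eq_fourier_neg m)
  rw [h]
  have h1 : ContDiff ℝ ∞ (𝓕 m) := Real.contDiff_fourier (fun n _ => hm.pow n)
  exact h1.comp contDiff_neg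

/-- interaction of the function `E m` at distance `T` with the map `h` -/
noncomputable def Dt (m : ℝ → ℂ) (h : ℝ → ℝ) (T u : ℝ) : ℂ := E m (T + h u) - E m (T + u)

section

variable {m : ℝ → ℂ} {h ψ : ℝ → ℝ}

theorem Dt_contDiff (hm : Good m) (H : Dif h ψ) (T : ℝ) : ContDiff ℝ ∞ (Dt m h T) :=
  (hm.contDiff.comp (contDiff_const.add H.sm)).sub (hm.contDiff.comp (contDiff_const.add contDiff_id))

theorem Dt_off (hid : ∀ x, 1 ≤ |x| → h x = x) (T : ℝ) {u : ℝ} (hu : 1 ≤ |u|) : Dt m h T u = 0 := by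
  unfold Dt
  rw [hid u hu, sub_self]

theorem Dt_supp (hid : ∀ x, 1 ≤ |x| → h x = x) (T : ℝ) : HasCompactSupport (Dt m h T) := by
  refine HasCompactSupport.intro (isCompact_Icc (a := (-1:ℝ)) (b := 1)) fun x hx => ?_
  refine Dt_off hid T ?_
  by_contra hlt
  rw [not_le, abs_lt] at hlt
  exact hx ⟨hlt.1.le, hlt.2.le⟩

theorem Dt_tsupport (hid : ∀ x, 1 ≤ |x| → h x = x) (T : ℝ) : tsupport (Dt m h T) ⊆ Set.Icc (-1) 1 := by
  refine closure_minimal ?_ isClosed_Icc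
  intro x hx
  by_contra hx1
  apply hx
  refine Dt_off hid T ?_
  by_contra hlt
  rw [not_le, abs_lt] at hlt
  exact hx1 ⟨hlt.1.le, hlt.2.le⟩

/-- integrals of functions supported in `[-1, 1]` -/
theorem integral_norm_le_of_supp {f : ℝ → ℂ} {M : ℝ} (hs : ∀ x, x ∉ Set.Icc (-1:ℝ) 1 → f x = 0)
    (hM : ∀ x ∈ Set.Icc (-1:ℝ) 1, ‖f x‖ ≤ M) : ∫ x, ‖f x‖ ≤ 2 * M := by
  have h1 : ∫ x, ‖f x‖ ≤ ∫ x, Set.indicator (Set.Icc (-1:ℝ) 1) (fun _ => M) x := by
    refine integral_mono_of_nonneg (Eventually.of_forall fun x => norm_nonneg _) ?_ ?_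
    · rw [integrable_indicator_iff measurableSet_Icc]
      exact integrableOn_const (by simp)
    · refine Eventually.of_forall fun x => ?_
      simp only
      by_cases hx : x ∈ Set.Icc (-1:ℝ) 1
      · rw [Set.indicator_of_mem hx]
        exact hM x hx
      · rw [Set.indicator_of_notMem hx, hs x hx, norm_zero]
  refine h1.trans (le_of_eq ?_)
  rw [integral_indicator measurableSet_Icc]
  simp only [integral_const, MeasurableSet.univ, Set.univ_inter, smul_eq_mul,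
    measureReal_restrict_apply, Real.volume_real_Icc]
  rw [max_eq_left (by norm_num)]
  ring

/-- Fourier decay from two derivatives -/
theorem fourier_decay {f : ℝ → ℂ} (hf : ContDiff ℝ ∞ f) (hc : HasCompactSupport f)
    (hs : tsupport f ⊆ Set.Icc (-1) 1) {M : ℝ} (hM : ∀ x ∈ Set.Icc (-1:ℝ) 1, ‖f x‖ ≤ M)
    (hM2 : ∀ x ∈ Set.Icc (-1:ℝ) 1, ‖deriv (deriv f) x‖ ≤ M) (ξ : ℝ) :
    ‖𝓕 f ξ‖ ≤ 4 * M / (1 + ξ ^ 2) := by
  have hf1 : ContDiff ℝ ∞ (deriv f) := (contDiff_infty_iff_deriv.1 hf).2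
  have hf2 : ContDiff ℝ ∞ (deriv (deriv f)) := (contDiff_infty_iff_deriv.1 hf1).2
  have hM0 : 0 ≤ M := (norm_nonneg _).trans (hM 0 (by constructor <;> norm_num))
  have e1 : 𝓕 (deriv f) ξ = (2 * π * I * ξ) * 𝓕 f ξ := by
    rw [Real.fourier_deriv (cc_integrable hf hc) (contDiff_infty_iff_deriv.1 hf).1 (cc_integrable hf1 hc.deriv)]
    simp only [smul_eq_mul]
  have e2 : 𝓕 (deriv (deriv f)) ξ = (2 * π * I * ξ) * 𝓕 (deriv f) ξ := by
    rw [Real.fourier_deriv (cc_integrable hf1 hc.deriv) (contDiff_infty_iff_deriv.1 hf1).1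
      (cc_integrable hf2 hc.deriv.deriv)]
    simp only [smul_eq_mul]
  have b0 : ‖𝓕 f ξ‖ ≤ 2 * M := (norm_fourier_le f ξ).trans
    (integral_norm_le_of_supp (fun x hx => image_eq_zero_of_notMem_tsupport fun h => hx (hs h)) hM)
  have hs2 : tsupport (deriv (deriv f)) ⊆ Set.Icc (-1) 1 :=
    ((tsupport_deriv_subset (𝕜 := ℝ)).trans (tsupport_deriv_subset (𝕜 := ℝ))).trans hs
  have b2 : ‖𝓕 (deriv (deriv f)) ξ‖ ≤ 2 * M := (norm_fourier_le _ ξ).trans
    (integral_norm_le_of_supp (fun x hx => image_eq_zero_of_notMem_tsupport fun h => hx (hs2 h)) hM2)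
  have hnz : ‖(2 * π * I * ξ : ℂ)‖ = 2 * π * |ξ| := by
    rw [norm_mul, norm_mul, norm_mul, Complex.norm_I, Complex.norm_real, Complex.norm_real, mul_one,
      Real.norm_of_nonneg Real.pi_pos.le, Real.norm_eq_abs, Complex.norm_ofNat]
  rw [e2, e1, norm_mul (2 * π * I * ξ : ℂ) (2 * π * I * ξ * 𝓕 f ξ), norm_mul (2 * π * I * ξ : ℂ) (𝓕 f ξ), hnz] at b2
  have hp := Real.pi_gt_three
  have h3 : ξ ^ 2 * ‖𝓕 f ξ‖ ≤ 2 * M := by
    refine le_trans ?_ b2
    have h4 : 2 * π * |ξ| * (2 * π * |ξ| * ‖𝓕 f ξ‖) = (2 * π) ^ 2 * (|ξ| ^ 2 * ‖𝓕 f ξ‖) := by ring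
    rw [h4, sq_abs]
    have h5 : 0 ≤ ξ ^ 2 * ‖𝓕 f ξ‖ := by positivity
    have h6 : 1 ≤ (2 * π) ^ 2 := by nlinarith
    nlinarith
  rw [le_div_iff₀ (by positivity)]
  nlinarith

theorem fourier_decay_ex {f : ℝ → ℂ} (hf : ContDiff ℝ ∞ f) (hc : HasCompactSupport f)
    (hs : tsupport f ⊆ Set.Icc (-1) 1) : ∃ c : ℝ, 0 ≤ c ∧ ∀ ξ : ℝ, ‖𝓕 f ξ‖ ≤ c / (1 + ξ ^ 2) := by
  have hf1 : ContDiff ℝ ∞ (deriv f) := (contDiff_infty_iff_deriv.1 hf).2
  have hf2 : ContDiff ℝ ∞ (deriv (deriv f)) := (contDiff_infty_iff_deriv.1 hf1).2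
  obtain ⟨M1, hM1⟩ := hc.exists_bound_of_continuous hf.continuous
  obtain ⟨M2, hM2⟩ := hc.deriv.deriv.exists_bound_of_continuous hf2.continuous
  have h0 : 0 ≤ M1 := (norm_nonneg _).trans (hM1 0)
  refine ⟨4 * max M1 M2, by positivity, fun ξ => ?_⟩
  exact fourier_decay hf hc hs (fun x _ => (hM1 x).trans (le_max_left _ _))
    (fun x _ => (hM2 x).trans (le_max_right _ _)) ξ

/-- far blocks interact weakly -/
theorem Dt_small (hm : Good m) (H : Dif h ψ) (hid : ∀ x, 1 ≤ |x| → h x = x) {c : ℝ} (hc : 0 < c) :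
    ∃ r : ℝ, 0 ≤ r ∧ ∀ T : ℝ, r ≤ |T| → ∀ ξ : ℝ, ‖𝓕 (Dt m h T) ξ‖ ≤ c / (1 + ξ ^ 2) := by
  have hh1 : ContDiff ℝ ∞ (deriv h) := (contDiff_infty_iff_deriv.1 H.sm).2
  have hh2 : ContDiff ℝ ∞ (deriv (deriv h)) := (contDiff_infty_iff_deriv.1 hh1).2
  set m1 : ℝ → ℂ := fun ξ => 2 * π * I * ξ * m ξ with hm1
  set m2 : ℝ → ℂ := fun ξ => 2 * π * I * ξ * m1 ξ with hm2
  have hm1i : Integrable m1 := by simpa using hm.mulξ 1 (2 * π * I)
  have hm1i' : Integrable fun ξ : ℝ => (ξ : ℂ) * m1 ξ := by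
    refine (hm.mulξ 2 (2 * π * I)).congr (Eventually.of_forall fun ξ => ?_)
    simp only [hm1]; ring
  have d1 : ∀ x, HasDerivAt (E m) (E m1 x) x := fun x => hm.hasDerivAt x
  have d2 : ∀ x, HasDerivAt (E m1) (E m2 x) x := fun x => hasDerivAt_E hm1i hm1i' x
  -- bounds of the derivatives of h on `[-1, 1]`
  obtain ⟨K1, hK1⟩ := (isCompact_Icc (a := (-1:ℝ)) (b := 1)).exists_bound_of_continuousOn
    hh1.continuous.continuousOn
  obtain ⟨K2, hK2⟩ := (isCompact_Icc (a := (-1:ℝ)) (b := 1)).exists_bound_of_continuousOn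
    hh2.continuous.continuousOn
  have hK10 : 0 ≤ K1 := (norm_nonneg _).trans (hK1 0 (by constructor <;> norm_num))
  have hK20 : 0 ≤ K2 := (norm_nonneg _).trans (hK2 0 (by constructor <;> norm_num))
  set K := K1 ^ 2 + K2 + 2 with hK
  have hKpos : 0 < K := by positivity
  set η := c / (4 * K) with hη
  have hη0 : 0 < η := by positivity
  have far : ∀ n : ℝ → ℂ, ∃ r : ℝ, ∀ y, r ≤ |y| → ‖E n y‖ ≤ η := by
    intro n
    have h1 := (E_zero_at_infty n).norm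
    rw [norm_zero] at h1
    have h2 := h1.eventually (eventually_le_nhds hη0)
    rw [← Metric.cobounded_eq_cocompact, ← comap_norm_atTop, eventually_comap] at h2
    obtain ⟨r, hr⟩ := eventually_atTop.1 h2
    exact ⟨r, fun y hy => hr |y| hy y (Real.norm_eq_abs y)⟩
  obtain ⟨r0, hr0⟩ := far m
  obtain ⟨r1, hr1⟩ := far m1
  obtain ⟨r2, hr2⟩ := far m2
  refine ⟨max 0 (max r0 (max r1 r2)) + 1, by positivity, fun T hT ξ => ?_⟩
  have hb : ∀ v : ℝ, |v| ≤ 1 → ‖E m (T + v)‖ ≤ η ∧ ‖E m1 (T + v)‖ ≤ η ∧ ‖E m2 (T + v)‖ ≤ η := by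
    intro v hv
    have h1 : |T| - 1 ≤ |T + v| := by
      have := abs_sub_abs_le_abs_sub T (-v)
      rw [abs_neg, sub_neg_eq_add] at this
      linarith
    have h2 := le_max_right (0:ℝ) (max r0 (max r1 r2))
    have h3 := le_max_left r0 (max r1 r2)
    have h4 := le_max_right r0 (max r1 r2)
    have h5 := le_max_left r1 r2
    have h6 := le_max_right r1 r2
    exact ⟨hr0 _ (by linarith), hr1 _ (by linarith), hr2 _ (by linarith)⟩
  have hh : ∀ u ∈ Set.Icc (-1:ℝ) 1, |h u| ≤ 1 := by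
    intro u hu
    have e1 : h 1 = 1 := hid 1 (by simp)
    have e2 : h (-1) = -1 := hid (-1) (by simp)
    rw [abs_le]
    constructor
    · rw [← e2]; exact H.strictMono.monotone hu.1
    · rw [← e1]; exact H.strictMono.monotone hu.2
  have hu1 : ∀ u ∈ Set.Icc (-1:ℝ) 1, |u| ≤ 1 := fun u hu => abs_le.2 hu
  -- derivatives of Dt
  have D1 : deriv (Dt m h T) = fun u => ((deriv h u : ℝ) : ℂ) * E m1 (T + h u) - E m1 (T + u) := by
    funext u
    have a1 : HasDerivAt (fun u => T + h u) (deriv h u) u := (H.hasDerivAt u).const_add T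
    have a2 : HasDerivAt (fun u : ℝ => T + u) 1 u := by simpa using (hasDerivAt_id u).const_add T
    have b1 := (d1 (T + h u)).scomp u a1
    have b2 := (d1 (T + u)).scomp u a2
    have := (b1.sub b2).deriv
    simp only [Complex.real_smul, Complex.ofReal_one, one_mul] at this
    exact this
  have D2 : ∀ u, deriv (deriv (Dt m h T)) u = ((deriv (deriv h) u : ℝ) : ℂ) * E m1 (T + h u)
      + ((deriv h u : ℝ) : ℂ) * (((deriv h u : ℝ) : ℂ) * E m2 (T + h u)) - E m2 (T + u) := by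
    intro u
    rw [D1]
    have a1 : HasDerivAt (fun u => T + h u) (deriv h u) u := (H.hasDerivAt u).const_add T
    have a2 : HasDerivAt (fun u : ℝ => T + u) 1 u := by simpa using (hasDerivAt_id u).const_add T
    have a3 : HasDerivAt (fun u => ((deriv h u : ℝ) : ℂ)) ((deriv (deriv h) u : ℝ) : ℂ) u :=
      ((contDiff_infty_iff_deriv.1 hh1).1 u).hasDerivAt.ofReal_comp
    have b1 := (d2 (T + h u)).scomp u a1
    have b2 := (d2 (T + u)).scomp u a2
    have := ((a3.mul b1).sub b2).deriv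
    simp only [Complex.real_smul, Complex.ofReal_one, one_mul] at this
    exact this
  have hmain : ∀ ξ, ‖𝓕 (Dt m h T) ξ‖ ≤ 4 * (K * η) / (1 + ξ ^ 2) := by
    refine fourier_decay (Dt_contDiff hm H T) (Dt_supp hid T) (Dt_tsupport hid T) ?_ ?_
    · intro u hu
      unfold Dt
      have h1 := (hb (h u) (hh u hu)).1
      have h2 := (hb u (hu1 u hu)).1
      calc _ ≤ ‖E m (T + h u)‖ + ‖E m (T + u)‖ := norm_sub_le _ _
        _ ≤ η + η := add_le_add h1 h2
        _ ≤ K * η := by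
            have : 2 ≤ K := by rw [hK]; nlinarith [sq_nonneg K1]
            nlinarith
    · intro u hu
      rw [D2]
      have h1 := (hb (h u) (hh u hu)).2.1
      have h1' := (hb (h u) (hh u hu)).2.2
      have h2 := (hb u (hu1 u hu)).2.2
      have k1 : ‖((deriv h u : ℝ) : ℂ)‖ ≤ K1 := by rw [Complex.norm_real]; exact hK1 u hu
      have k2 : ‖((deriv (deriv h) u : ℝ) : ℂ)‖ ≤ K2 := by rw [Complex.norm_real]; exact hK2 u hu
      calc _ ≤ ‖((deriv (deriv h) u : ℝ) : ℂ) * E m1 (T + h u)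
          + ((deriv h u : ℝ) : ℂ) * (((deriv h u : ℝ) : ℂ) * E m2 (T + h u))‖ + ‖E m2 (T + u)‖ :=
            norm_sub_le _ _
        _ ≤ (‖((deriv (deriv h) u : ℝ) : ℂ) * E m1 (T + h u)‖
          + ‖((deriv h u : ℝ) : ℂ) * (((deriv h u : ℝ) : ℂ) * E m2 (T + h u))‖) + ‖E m2 (T + u)‖ := by
            gcongr; exact norm_add_le _ _
        _ ≤ (K2 * η + K1 * (K1 * η)) + η := by
            rw [norm_mul, norm_mul, norm_mul]
            gcongr
        _ ≤ K * η := by rw [hK]; nlinarith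
  refine (hmain ξ).trans (le_of_eq ?_)
  rw [hη]
  field_simp

end

end Pool.Agent.W756.ML
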