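import Pool.Agent.W756.ML14

/-! Gluing infinitely many blocks. -/

set_option autoImplicit false

open MeasureTheory Filter Topology Complex
open scoped FourierTransform Real ENNReal ContDiff

namespace Pool.Agent.W756.ML

/-- translation of densities -/
noncomputable def sh (T : ℝ) (m : ℝ → ℂ) (ξ : ℝ) : ℂ := Complex.exp (2 * π * I * ((-T : ℝ) * ξ)) * m ξ

theorem E_sh (T : ℝ) (m : ℝ → ℂ) (x : ℝ) : E (sh T m) x = E m (x - T) := by
  rw [E_def, E_def]
  refine integral_congr_ae (Eventually.of_forall fun ξ => ?_)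
  simp only [sh]
  rw [← mul_assoc, ← Complex.exp_add]
  congr 2
  push_cast
  ring

theorem sh_norm (T : ℝ) (m : ℝ → ℂ) (ξ : ℝ) : ‖sh T m ξ‖ = ‖m ξ‖ := by
  unfold sh
  rw [norm_mul, norm_exp_real', one_mul]

theorem sh_meas {m : ℝ → ℂ} (hm : AEStronglyMeasurable m) (T : ℝ) : AEStronglyMeasurable (sh T m) :=
  ((by fun_prop : Continuous fun ξ : ℝ => Complex.exp (2 * π * I * ((-T : ℝ) * ξ))).aestronglyMeasurable).mul hm

theorem Good.sh {m : ℝ → ℂ} (hm : Good m) (T : ℝ) : Good (sh T m) :=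
  hm.mono (sh_meas hm.int.aestronglyMeasurable T) fun ξ => (sh_norm T m ξ).le

theorem sh_continuous {m : ℝ → ℂ} (hm : Continuous m) (T : ℝ) : Continuous (sh T m) := by
  unfold sh
  fun_prop

theorem fourier_continuous {f : ℝ → ℂ} (hf : Integrable f) : Continuous (𝓕 f) :=
  VectorFourier.fourierIntegral_continuous Real.continuous_fourierChar (innerSL ℝ).continuous₂ hf

theorem integrable_inv' (C : ℝ) : Integrable fun ξ : ℝ => C / (1 + ξ ^ 2) := by
  have := integrable_inv_one_add_sq.const_mul C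
  refine this.congr (Eventually.of_forall fun ξ => ?_)
  simp only [div_eq_mul_inv]

section sums

variable {D : ℕ → ℝ → ℂ} {c : ℕ → ℝ}

/-- the density of a sum of translates -/
noncomputable def dsum (T : ℕ → ℝ) (D : ℕ → ℝ → ℂ) (ξ : ℝ) : ℂ := ∑' i, sh (T i) (𝓕 (D i)) ξ

theorem dsum_bound (hc : Summable c) (hb : ∀ i ξ, ‖𝓕 (D i) ξ‖ ≤ c i / (1 + ξ ^ 2)) (T : ℕ → ℝ) (ξ : ℝ) :
    ‖dsum T D ξ‖ ≤ (∑' i, c i) / (1 + ξ ^ 2) := by
  unfold dsum
  refine tsum_of_norm_bounded (hc.hasSum.div_const _) fun i => ?_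
  rw [sh_norm]
  exact hb i ξ

theorem dsum_continuous (hD : ∀ i, Integrable (D i)) (hc : Summable c) (hc0 : ∀ i, 0 ≤ c i)
    (hb : ∀ i ξ, ‖𝓕 (D i) ξ‖ ≤ c i / (1 + ξ ^ 2)) (T : ℕ → ℝ) : Continuous (dsum T D) := by
  unfold dsum
  refine continuous_tsum (fun i => sh_continuous (fourier_continuous (hD i)) (T i)) hc fun i ξ => ?_
  rw [sh_norm]
  refine (hb i ξ).trans ?_
  exact div_le_self (hc0 i) (by nlinarith [sq_nonneg ξ])

theorem dsum_integrable (hD : ∀ i, Integrable (D i)) (hc : Summable c) (hc0 : ∀ i, 0 ≤ c i)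
    (hb : ∀ i ξ, ‖𝓕 (D i) ξ‖ ≤ c i / (1 + ξ ^ 2)) (T : ℕ → ℝ) : Integrable (dsum T D) :=
  (integrable_inv' (∑' i, c i)).mono' (dsum_continuous hD hc hc0 hb T).aestronglyMeasurable
    (Eventually.of_forall (dsum_bound hc hb T))

theorem E_dsum (hD : ∀ i, ContDiff ℝ ∞ (D i)) (hDc : ∀ i, HasCompactSupport (D i)) (hc : Summable c)
    (hb : ∀ i ξ, ‖𝓕 (D i) ξ‖ ≤ c i / (1 + ξ ^ 2)) (T : ℕ → ℝ) (x : ℝ) :
    E (dsum T D) x = ∑' i, D i (x - T i) := by
  have e1 : ∀ i, ∫ ξ : ℝ, Complex.exp (2 * π * I * (ξ * x)) * sh (T i) (𝓕 (D i)) ξ = D i (x - T i) := by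
    intro i
    rw [← E_def, E_sh, cc_E_fourier (hD i) (hDc i)]
  have hi : ∀ i, Integrable fun ξ : ℝ => Complex.exp (2 * π * I * (ξ * x)) * sh (T i) (𝓕 (D i)) ξ := by
    intro i
    refine integrable_expmul ?_ x
    exact ((Good.fourier (hD i) (hDc i)).sh (T i)).int
  have hs : Summable fun i => ∫ ξ : ℝ, ‖Complex.exp (2 * π * I * (ξ * x)) * sh (T i) (𝓕 (D i)) ξ‖ := by
    refine Summable.of_nonneg_of_le (fun i => integral_nonneg fun _ => norm_nonneg _) (fun i => ?_)
      (hc.mul_right π)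
    have h1 : ∫ ξ : ℝ, ‖Complex.exp (2 * π * I * (ξ * x)) * sh (T i) (𝓕 (D i)) ξ‖
        ≤ ∫ ξ : ℝ, c i / (1 + ξ ^ 2) := by
      refine integral_mono_of_nonneg (Eventually.of_forall fun _ => norm_nonneg _) (integrable_inv' _)
        (Eventually.of_forall fun ξ => ?_)
      simp only
      rw [norm_mul, norm_exp_real', one_mul, sh_norm]
      exact hb i ξ
    refine h1.trans (le_of_eq ?_)
    simp only [div_eq_mul_inv]
    rw [integral_const_mul, integral_univ_inv_one_add_sq]
  have key := hasSum_integral_of_summable_integral_norm hi hs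
  simp_rw [e1] at key
  rw [E_def, ← key.tsum_eq.symm]
  refine integral_congr_ae (Eventually.of_forall fun ξ => ?_)
  simp only [dsum]
  rw [tsum_mul_left]

end sums

/-- sparse sequences -/
theorem exists_sparse (r : ℕ → ℕ → ℝ) (hr : ∀ i j, 0 ≤ r i j) :
    ∃ T : ℕ → ℝ, ∀ i j, i ≠ j → r j i ≤ |T i - T j| ∧ 20 ≤ |T i - T j| := by
  set w : ℕ → ℝ := fun l => 20 + ∑ a ∈ Finset.range (l + 2), ∑ b ∈ Finset.range (l + 2), r a b with hw
  have hw0 : ∀ l, 20 ≤ w l := fun l => by
    have : 0 ≤ ∑ a ∈ Finset.range (l + 2), ∑ b ∈ Finset.range (l + 2), r a b :=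
      Finset.sum_nonneg fun a _ => Finset.sum_nonneg fun b _ => hr a b
    simp only [hw]; linarith
  have hwr : ∀ l a b, a ≤ l + 1 → b ≤ l + 1 → r a b ≤ w l := by
    intro l a b ha hb
    have h1 : r a b ≤ ∑ b ∈ Finset.range (l + 2), r a b :=
      Finset.single_le_sum (f := fun b => r a b) (fun b _ => hr a b) (Finset.mem_range.2 (by omega))
    have h2 : ∑ b ∈ Finset.range (l + 2), r a b ≤ ∑ a ∈ Finset.range (l + 2), ∑ b ∈ Finset.range (l + 2), r a b :=
      Finset.single_le_sum (f := fun a => ∑ b ∈ Finset.range (l + 2), r a b)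
        (fun a _ => Finset.sum_nonneg fun b _ => hr a b) (Finset.mem_range.2 (by omega))
    simp only [hw]; linarith
  set T : ℕ → ℝ := fun n => ∑ l ∈ Finset.range n, w l with hT
  have hstep : ∀ n, T (n + 1) = T n + w n := fun n => by simp only [hT]; rw [Finset.sum_range_succ]
  have hmono : Monotone T := monotone_nat_of_le_succ fun n => by rw [hstep]; linarith [hw0 n]
  have key : ∀ i j, j < i → w (i - 1) ≤ T i - T j := by
    intro i j hji
    obtain ⟨n, rfl⟩ : ∃ n, i = n + 1 := ⟨i - 1, by omega⟩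
    have h1 := hmono (show j ≤ n by omega)
    rw [hstep, Nat.add_sub_cancel]
    linarith
  refine ⟨T, fun i j hij => ?_⟩
  rcases lt_or_gt_of_ne hij with h | h
  · have h1 := key j i h
    have h2 := hw0 (j - 1)
    rw [abs_sub_comm, abs_of_nonneg (by linarith)]
    exact ⟨(hwr (j - 1) j i (by omega) (by omega)).trans h1, h2.trans h1⟩
  · have h1 := key i j h
    have h2 := hw0 (i - 1)
    rw [abs_of_nonneg (by linarith)]
    exact ⟨(hwr (i - 1) j i (by omega) (by omega)).trans h1, h2.trans h1⟩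

section glue

/-- the glued map -/
noncomputable def glue (hs : ℕ → ℝ → ℝ) (T : ℕ → ℝ) (x : ℝ) : ℝ := x + ∑' m, (hs m (x - T m) - (x - T m))

variable {hs ψs : ℕ → ℝ → ℝ} {T : ℕ → ℝ}

theorem sep {T : ℕ → ℝ} (hT : ∀ i j, i ≠ j → 20 ≤ |T i - T j|) {x : ℝ} {m : ℕ} (hx : |x - T m| ≤ 10) {i : ℕ}
    (hi : i ≠ m) : 10 ≤ |x - T i| := by
  have h1 := hT i m hi
  have h2 : |T i - T m| ≤ |x - T i| + |x - T m| := by
    have := abs_sub_le (T i) x (T m)
    rw [abs_sub_comm (T i) x] at this
    exact this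
  linarith

theorem glue_near (hid : ∀ m x, 1 ≤ |x| → hs m x = x) (hT : ∀ i j, i ≠ j → 20 ≤ |T i - T j|) {x : ℝ} {m : ℕ}
    (hx : |x - T m| ≤ 10) : glue hs T x = T m + hs m (x - T m) := by
  unfold glue
  rw [tsum_eq_single m]
  · ring
  · intro i hi
    rw [hid i _ (by have := sep hT hx hi; linarith), sub_self]

theorem glue_far (hid : ∀ m x, 1 ≤ |x| → hs m x = x) {x : ℝ} (hx : ∀ m, 1 ≤ |x - T m|) : glue hs T x = x := by
  unfold glue
  have : (fun m => hs m (x - T m) - (x - T m)) = fun _ => 0 := by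
    funext m
    rw [hid m _ (hx m), sub_self]
  rw [this, tsum_zero, add_zero]

theorem glue_local (hid : ∀ m x, 1 ≤ |x| → hs m x = x) (hT : ∀ i j, i ≠ j → 20 ≤ |T i - T j|) (x : ℝ) :
    ∃ m, ∀ y, |y - x| ≤ 4 → glue hs T y = T m + hs m (y - T m) := by
  by_cases h : ∃ m, |x - T m| ≤ 5
  · obtain ⟨m, hm⟩ := h
    refine ⟨m, fun y hy => glue_near hid hT ?_⟩
    have := abs_sub_le y x (T m)
    linarith
  · push Not at h
    refine ⟨0, fun y hy => ?_⟩
    have h1 : ∀ m, 1 ≤ |y - T m| := fun m => by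
      have h2 := h m
      have h3 := abs_sub_le x y (T m)
      rw [abs_sub_comm x y] at h3
      linarith
    rw [glue_far hid h1, hid 0 _ (h1 0)]
    ring

theorem tsum_Dt (hid : ∀ m x, 1 ≤ |x| → hs m x = x) (hT : ∀ i j, i ≠ j → 20 ≤ |T i - T j|) (m : ℝ → ℂ) (S : ℝ)
    (x : ℝ) : ∑' i, Dt m (hs i) (T i - S) (x - T i) = E m (glue hs T x - S) - E m (x - S) := by
  by_cases h : ∃ i, |x - T i| ≤ 1
  · obtain ⟨i, hi⟩ := h
    rw [tsum_eq_single i]
    · rw [glue_near hid hT (by linarith : |x - T i| ≤ 10)]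
      unfold Dt
      congr 2 <;> ring
    · intro j hj
      refine Dt_off (hid j) _ ?_
      have := sep hT (by linarith : |x - T i| ≤ 10) hj
      linarith
  · push Not at h
    rw [glue_far hid fun i => (h i).le, sub_self]
    have : (fun i => Dt m (hs i) (T i - S) (x - T i)) = fun _ => 0 := by
      funext i
      exact Dt_off (hid i) _ (h i).le
    rw [this, tsum_zero]

/-- the glued map is a diffeomorphism -/
theorem glue_props (hD : ∀ m, Dif (hs m) (ψs m)) (hid : ∀ m x, 1 ≤ |x| → hs m x = x)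
    (hT : ∀ i j, i ≠ j → 20 ≤ |T i - T j|) {C : ℝ} (hC0 : 0 < C)
    (hRH : ∀ m, ∀ s x t : ℝ, s < t → s ≤ x → x ≤ t → deriv (hs m) x * (t - s) ≤ C * (hs m t - hs m s)) :
    (∃ κ, Dif (glue hs T) κ) ∧
    ∀ s x t : ℝ, s < t → s ≤ x → x ≤ t → deriv (glue hs T) x * (t - s) ≤ 2 * C * (glue hs T t - glue hs T s) := by
  have hev : ∀ x m, (∀ y, |y - x| ≤ 4 → glue hs T y = T m + hs m (y - T m)) →
      glue hs T =ᶠ[𝓝 x] fun y => T m + hs m (y - T m) := by
    intro x m hm
    filter_upwards [Metric.ball_mem_nhds x (by norm_num : (0:ℝ) < 4)] with y hy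
    rw [Metric.mem_ball, Real.dist_eq] at hy
    exact hm y hy.le
  have hder : ∀ x m, (∀ y, |y - x| ≤ 4 → glue hs T y = T m + hs m (y - T m)) →
      deriv (glue hs T) x = deriv (hs m) (x - T m) := by
    intro x m hm
    rw [(hev x m hm).deriv_eq]
    have h1 : HasDerivAt (fun y => y - T m) 1 x := by simpa using (hasDerivAt_id x).sub_const (T m)
    have h2 := (((hD m).hasDerivAt (x - T m)).comp x h1).const_add (T m)
    rw [mul_one] at h2
    exact h2.deriv
  have hsm : ContDiff ℝ ∞ (glue hs T) := by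
    rw [contDiff_iff_contDiffAt]
    intro x
    obtain ⟨m, hm⟩ := glue_local hid hT x
    refine ContDiffAt.congr_of_eventuallyEq ?_ (hev x m hm)
    exact (contDiff_const.add ((hD m).sm.comp (contDiff_id.sub contDiff_const))).contDiffAt
  have hmm : ∀ m u, |hs m u - u| ≤ 2 := by
    intro m u
    by_cases hu : 1 ≤ |u|
    · rw [hid m u hu]; simp
    · rw [not_le, abs_lt] at hu
      have e1 : hs m 1 = 1 := hid m 1 (by simp)
      have e2 : hs m (-1) = -1 := hid m (-1) (by simp)
      have h1 := (hD m).strictMono.monotone hu.1.le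
      have h2 := (hD m).strictMono.monotone hu.2.le
      rw [e2] at h1
      rw [e1] at h2
      rw [abs_le]
      constructor <;> linarith
  have hdisp : ∀ x, |glue hs T x - x| ≤ 2 := by
    intro x
    obtain ⟨m, hm⟩ := glue_local hid hT x
    rw [hm x (by simp)]
    have := hmm m (x - T m)
    rw [show T m + hs m (x - T m) - x = hs m (x - T m) - (x - T m) by ring]
    exact this
  have hpos : ∀ x, 0 < deriv (glue hs T) x := by
    intro x
    obtain ⟨m, hm⟩ := glue_local hid hT x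
    rw [hder x m hm]
    exact (hD m).pos _
  have hup : ∀ x, deriv (glue hs T) x ≤ C := by
    intro x
    obtain ⟨m, hm⟩ := glue_local hid hT x
    rw [hder x m hm]
    set u := x - T m with hu
    have e1 : 1 ≤ |max u 1| := by
      rw [abs_of_pos (lt_of_lt_of_le one_pos (le_max_right u 1))]
      exact le_max_right u 1
    have e2 : 1 ≤ |min u (-1)| := by
      rw [abs_of_neg (lt_of_le_of_lt (min_le_right u (-1)) (by norm_num))]
      have := min_le_right u (-1)
      linarith
    have h1 : min u (-1) < max u 1 := by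
      have := min_le_right u (-1)
      have := le_max_right u 1
      linarith
    have h2 := hRH m (min u (-1)) u (max u 1) h1 (min_le_left _ _) (le_max_left _ _)
    rw [hid m _ e1, hid m _ e2] at h2
    have h3 : 0 < max u 1 - min u (-1) := by linarith
    exact le_of_mul_le_mul_right h2 h3
  refine ⟨exists_dif hsm hpos hdisp, fun s x t hst hsx hxt => ?_⟩
  rcases le_or_gt (t - s) 8 with h | h
  · obtain ⟨m, hm⟩ := glue_local hid hT ((s + t) / 2)
    have a1 : ∀ y, s ≤ y → y ≤ t → |y - (s + t) / 2| ≤ 4 := by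
      intro y h1 h2
      rw [abs_le]
      constructor <;> linarith
    obtain ⟨m', hm'⟩ := glue_local hid hT x
    -- derivative at x, through a chart at the midpoint
    have hdx : deriv (glue hs T) x = deriv (hs m) (x - T m) := by
      -- one-sided: the two functions agree on `[s, t]`, which contains `x`
      have hu : UniqueDiffWithinAt ℝ (Set.Icc s t) x := (uniqueDiffOn_Icc hst) x ⟨hsx, hxt⟩
      have h1 : HasDerivAt (fun y => y - T m) 1 x := by simpa using (hasDerivAt_id x).sub_const (T m)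
      have h2 := (((hD m).hasDerivAt (x - T m)).comp x h1).const_add (T m)
      rw [mul_one] at h2
      have h3 : HasDerivWithinAt (glue hs T) (deriv (hs m) (x - T m)) (Set.Icc s t) x := by
        refine h2.hasDerivWithinAt.congr (fun y hy => ?_) ?_
        · exact hm y (a1 y hy.1 hy.2)
        · exact hm x (a1 x hsx hxt)
      have h4 : HasDerivWithinAt (glue hs T) (deriv (glue hs T) x) (Set.Icc s t) x :=
        (((contDiff_infty_iff_deriv.1 hsm).1 x).hasDerivAt).hasDerivWithinAt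
      exact (h4.derivWithin hu).symm.trans (h3.derivWithin hu)
    rw [hdx, hm t (a1 t hst.le le_rfl), hm s (a1 s le_rfl hst.le)]
    have h2 := hRH m (s - T m) (x - T m) (t - T m) (by linarith) (by linarith) (by linarith)
    have h3 : t - T m - (s - T m) = t - s := by ring
    rw [h3] at h2
    have h4 : T m + hs m (t - T m) - (T m + hs m (s - T m)) = hs m (t - T m) - hs m (s - T m) := by ring
    rw [h4]
    have h5 : 0 < hs m (t - T m) - hs m (s - T m) := by
      have := (hD m).strictMono (show s - T m < t - T m by linarith)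
      linarith
    nlinarith
  · have h1 := (abs_le.1 (hdisp t)).1
    have h2 := (abs_le.1 (hdisp s)).2
    have h3 := hup x
    have h4 : (t - s) / 2 ≤ glue hs T t - glue hs T s := by linarith
    calc deriv (glue hs T) x * (t - s) ≤ C * (t - s) := by
          apply mul_le_mul_of_nonneg_right h3; linarith
      _ = 2 * C * ((t - s) / 2) := by ring
      _ ≤ 2 * C * (glue hs T t - glue hs T s) := by gcongr

end glue

end Pool.Agent.W756.ML
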