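import Pool.Agent.W756.ML12

/-! The Hilbert transform of Fourier syntheses. -/

set_option autoImplicit false

open MeasureTheory Filter Topology Complex
open scoped FourierTransform Real ENNReal ContDiff

namespace Pool.Agent.W756.ML

/-- Cauchy kernel differences in frequency -/
noncomputable def Kz (z w : ℂ) (ξ : ℝ) : ℂ :=
  if 0 < ξ then Complex.exp (2 * π * I * ξ * z) - Complex.exp (2 * π * I * ξ * w) else 0

theorem norm_exp_z (ξ : ℝ) (z : ℂ) : ‖Complex.exp (2 * π * I * ξ * z)‖ = Real.exp (-(2 * π * z.im) * ξ) := by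
  rw [Complex.norm_exp]
  congr 1
  have : (2 * π * I * ξ * z : ℂ) = ((2 * π * ξ : ℝ) : ℂ) * (I * z) := by push_cast; ring
  rw [this, Complex.re_ofReal_mul]
  simp
  ring

theorem Kz_continuous (z w : ℂ) : Continuous (Kz z w) := by
  unfold Kz
  have h := Continuous.if_le (f' := fun _ : ℝ => (0 : ℂ))
    (g' := fun ξ : ℝ => Complex.exp (2 * π * I * ξ * z) - Complex.exp (2 * π * I * ξ * w))
    (f := fun ξ : ℝ => ξ) (g := fun _ : ℝ => (0 : ℝ)) continuous_const (by fun_prop) continuous_id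
    continuous_const (by intro ξ hξ; rw [hξ]; simp)
  refine h.congr fun ξ => ?_
  by_cases hξ : ξ ≤ 0
  · rw [if_pos hξ, if_neg (not_lt.2 hξ)]
  · rw [if_neg hξ, if_pos (not_le.1 hξ)]

theorem Kz_norm_le {z w : ℂ} (hz : 0 ≤ z.im) (hw : 0 ≤ w.im) (ξ : ℝ) : ‖Kz z w ξ‖ ≤ 2 := by
  unfold Kz
  split_ifs with h
  · refine (norm_sub_le _ _).trans ?_
    rw [norm_exp_z, norm_exp_z]
    have h1 : Real.exp (-(2 * π * z.im) * ξ) ≤ 1 := by
      rw [Real.exp_le_one_iff]
      have : 0 ≤ (2 * π * z.im) * ξ := by have := Real.pi_pos; positivity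
      linarith
    have h2 : Real.exp (-(2 * π * w.im) * ξ) ≤ 1 := by
      rw [Real.exp_le_one_iff]
      have : 0 ≤ (2 * π * w.im) * ξ := by have := Real.pi_pos; positivity
      linarith
    linarith
  · simp

theorem Kz_integrable {z w : ℂ} (hz : 0 < z.im) (hw : 0 < w.im) : Integrable (Kz z w) := by
  have hp := Real.pi_pos
  have h1 : IntegrableOn (fun ξ : ℝ => Real.exp (-(2 * π * z.im) * ξ) + Real.exp (-(2 * π * w.im) * ξ)) (Set.Ioi 0) :=
    (integrableOn_exp_mul_Ioi (by have : 0 < 2 * π * z.im := by positivity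
                                  linarith) 0).add
    (integrableOn_exp_mul_Ioi (by have : 0 < 2 * π * w.im := by positivity
                                  linarith) 0)
  refine ((integrable_indicator_iff measurableSet_Ioi).2 h1).mono' (Kz_continuous z w).aestronglyMeasurable
    (Eventually.of_forall fun ξ => ?_)
  unfold Kz
  split_ifs with h
  · rw [Set.indicator_of_mem (by simpa using h), ← norm_exp_z, ← norm_exp_z]
    exact norm_sub_le _ _
  · rw [Set.indicator_of_notMem (by simpa using h)]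
    simp

theorem sub_real_ne {z : ℂ} (hz : 0 < z.im) (t : ℝ) : (z - t : ℂ) ≠ 0 := by
  intro h
  have := congrArg Complex.im h
  simp at this
  linarith

theorem Kz_fourier {z w : ℂ} (hz : 0 < z.im) (hw : 0 < w.im) (t : ℝ) :
    𝓕 (Kz z w) t = (2 * π * I)⁻¹ * (1 / (w - t) - 1 / (z - t)) := by
  rw [Real.fourier_eq']
  have e0 : ∀ ξ : ℝ, Complex.exp ((↑(-2 * π * inner ℝ ξ t) : ℂ) * I) • Kz z w ξ
      = Set.indicator (Set.Ioi (0:ℝ)) (fun ξ : ℝ => Complex.exp ((2 * π * I * (z - t)) * ξ)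
        - Complex.exp ((2 * π * I * (w - t)) * ξ)) ξ := by
    intro ξ
    have : (inner ℝ ξ t : ℝ) = ξ * t := by simp [mul_comm]
    rw [this, smul_eq_mul]
    unfold Kz
    split_ifs with h
    · rw [Set.indicator_of_mem (by simpa using h), mul_sub, ← Complex.exp_add, ← Complex.exp_add]
      congr 1
      · congr 1
        push_cast
        ring
      · congr 1
        push_cast
        ring
    · rw [Set.indicator_of_notMem (by simpa using h), mul_zero]
  simp_rw [e0]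
  rw [integral_indicator measurableSet_Ioi]
  have hp := Real.pi_pos
  have hre : ∀ z : ℂ, 0 < z.im → ((2 * π * I * (z - t) : ℂ)).re < 0 := by
    intro z hz
    have : (2 * π * I * (z - t) : ℂ) = ((2 * π : ℝ) : ℂ) * (I * (z - t)) := by push_cast; ring
    rw [this, Complex.re_ofReal_mul]
    simp
    positivity
  rw [integral_sub (integrableOn_exp_mul_complex_Ioi (hre z hz) 0)
    (integrableOn_exp_mul_complex_Ioi (hre w hw) 0),
    integral_exp_mul_complex_Ioi (hre z hz), integral_exp_mul_complex_Ioi (hre w hw)]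
  simp only [Complex.ofReal_zero, mul_zero, Complex.exp_zero]
  have hpi : (π : ℂ) ≠ 0 := by exact_mod_cast Real.pi_ne_zero
  have n1 := sub_real_ne hz t
  have n2 := sub_real_ne hw t
  have hI := Complex.I_ne_zero
  field_simp
  ring

theorem normsq_sub (z : ℂ) (t : ℝ) : ‖(z - t : ℂ)‖ ^ 2 = (t - z.re) ^ 2 + z.im ^ 2 := by
  rw [← Complex.normSq_eq_norm_sq, Complex.normSq_apply]
  simp
  ring

theorem Kz_fourier_integrable {z w : ℂ} (hz : 0 < z.im) (hw : 0 < w.im) : Integrable (𝓕 (Kz z w)) := by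
  have hp := Real.pi_pos
  have hFc : Continuous (𝓕 (Kz z w)) :=
    VectorFourier.fourierIntegral_continuous Real.continuous_fourierChar
      (innerSL ℝ).continuous₂ (Kz_integrable hz hw)
  have hi0 : ∀ z : ℂ, 0 < z.im → Integrable fun t : ℝ => 1 / ‖(z - t : ℂ)‖ ^ 2 := by
    intro z hz
    have h1 := (integrable_pk hz z.re).const_mul (π / z.im)
    refine h1.congr (Eventually.of_forall fun t => ?_)
    simp only
    rw [normsq_sub]
    have : (0:ℝ) < (t - z.re) ^ 2 + z.im ^ 2 := by positivity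
    field_simp
  refine (((hi0 z hz).add (hi0 w hw)).const_mul (‖z - w‖ / (4 * π))).mono' hFc.aestronglyMeasurable
    (Eventually.of_forall fun t => ?_)
  have n1 := sub_real_ne hz t
  have n2 := sub_real_ne hw t
  have e : 𝓕 (Kz z w) t = (2 * π * I)⁻¹ * ((z - w) / ((w - t) * (z - t))) := by
    rw [Kz_fourier hz hw]
    congr 1
    field_simp
    ring
  rw [e, norm_mul, norm_inv, norm_div, norm_mul, norm_mul, norm_mul, Complex.norm_I, Complex.norm_real,
    Complex.norm_ofNat, Real.norm_of_nonneg hp.le, mul_one]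
  set A := ‖(z - t : ℂ)‖ with hA
  set B := ‖(w - t : ℂ)‖ with hB
  have hA0 : 0 < A := norm_pos_iff.2 n1
  have hB0 : 0 < B := norm_pos_iff.2 n2
  simp only [Pi.add_apply]
  have h3 : 1 / (B * A) ≤ (1 / A ^ 2 + 1 / B ^ 2) / 2 := by
    have : 0 ≤ (1 / A - 1 / B) ^ 2 := sq_nonneg _
    have e : (1 / A - 1 / B) ^ 2 = 1 / A ^ 2 + 1 / B ^ 2 - 2 * (1 / (B * A)) := by
      field_simp
      ring
    linarith
  calc (2 * π)⁻¹ * (‖z - w‖ / (B * A)) = ‖z - w‖ / (2 * π) * (1 / (B * A)) := by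
        field_simp
    _ ≤ ‖z - w‖ / (2 * π) * ((1 / A ^ 2 + 1 / B ^ 2) / 2) := by gcongr
    _ = ‖z - w‖ / (4 * π) * (1 / A ^ 2 + 1 / B ^ 2) := by ring

/-- Parseval for integrable densities -/
theorem swap_E {m K : ℝ → ℂ} (hm : Integrable m) (hKc : Continuous K) (hKi : Integrable K)
    (hFi : Integrable (𝓕 K)) : ∫ t, 𝓕 K t * E m t = ∫ ξ, m ξ * K ξ := by
  have hinv : E (𝓕 K) = K := E_fourier hKc hKi hFi
  symm
  conv_lhs => rw [← hinv]
  have e1 : ∀ ξ : ℝ, m ξ * E (𝓕 K) ξ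
      = ∫ t : ℝ, m ξ * (Complex.exp (2 * π * I * (t * ξ)) * 𝓕 K t) := by
    intro ξ
    rw [E_def, integral_const_mul]
  have e2 : ∀ t : ℝ, 𝓕 K t * E m t
      = ∫ ξ : ℝ, 𝓕 K t * (Complex.exp (2 * π * I * (ξ * t)) * m ξ) := by
    intro t
    rw [E_def, integral_const_mul]
  simp_rw [e1, e2]
  rw [integral_integral_swap]
  · refine integral_congr_ae (Eventually.of_forall fun t => ?_)
    refine integral_congr_ae (Eventually.of_forall fun ξ => ?_)
    simp only
    rw [mul_comm (t : ℂ) (ξ : ℂ)]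
    ring
  · have h2 : Integrable (fun p : ℝ × ℝ => m p.1 * 𝓕 K p.2) (volume.prod volume) :=
      hm.mul_prod hFi
    have h3 := h2.bdd_mul (c := 1) (f := fun p : ℝ × ℝ => Complex.exp (2 * π * I * (p.2 * p.1)))
      (by exact (by fun_prop : Continuous fun p : ℝ × ℝ => Complex.exp (2 * π * I * (p.2 * p.1))).aestronglyMeasurable)
      (Eventually.of_forall fun p => (norm_exp_real' p.2 p.1).le)
    refine h3.congr (Eventually.of_forall fun p => ?_)
    simp only [Function.uncurry]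
    ring

/-- the conjugate Poisson kernel, normalised at `i` -/
noncomputable def ck (x y t : ℝ) : ℝ := ((x - t) / ((x - t) ^ 2 + y ^ 2) + t / (1 + t ^ 2)) / π

theorem ck_eq {x y : ℝ} (hy : 0 < y) (t : ℝ) :
    (ck x y t : ℂ) = -I * 𝓕 (Kz ⟨x, y⟩ I) t + I * (starRingEnd ℂ) (𝓕 (Kz ⟨x, y⟩ I) t) := by
  have hz : 0 < (⟨x, y⟩ : ℂ).im := hy
  have hw : 0 < (I : ℂ).im := by simp
  set F := 𝓕 (Kz ⟨x, y⟩ I) t with hF
  have e1 : -I * F + I * (starRingEnd ℂ) F = ((2 * F.im : ℝ) : ℂ) := by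
    apply Complex.ext <;> simp
    ring
  rw [e1]
  congr 1
  rw [hF, Kz_fourier hz hw]
  have hp := Real.pi_pos
  have e2 : ((2 * π * I)⁻¹ * (1 / (I - (t:ℂ)) - 1 / (⟨x, y⟩ - (t:ℂ))) : ℂ)
      = (((2 * π)⁻¹ : ℝ) : ℂ) * (-I * (1 / (I - (t:ℂ)) - 1 / (⟨x, y⟩ - (t:ℂ)))) := by
    rw [mul_inv, Complex.inv_I]
    push_cast
    ring
  rw [e2, Complex.im_ofReal_mul]
  have e3 : (-I * (1 / (I - (t:ℂ)) - 1 / (⟨x, y⟩ - (t:ℂ)))).im
      = -((1 / (I - (t:ℂ))).re - (1 / ((⟨x, y⟩ : ℂ) - (t:ℂ))).re) := by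
    simp
  have e4 : ∀ v : ℂ, (1 / v).re = v.re / Complex.normSq v := fun v => by
    rw [one_div, Complex.inv_re]
  rw [e3, e4, e4]
  unfold ck
  simp only [Complex.normSq_apply, Complex.sub_re, Complex.sub_im, Complex.I_re, Complex.I_im,
    Complex.ofReal_re, Complex.ofReal_im, sub_zero, zero_sub]
  have h1 : (0:ℝ) < (x - t) ^ 2 + y ^ 2 := by positivity
  have h2 : (0:ℝ) < 1 + t ^ 2 := by positivity
  rw [show (x - t) * (x - t) + y * y = (x - t) ^ 2 + y ^ 2 by ring, show -t * -t + 1 * 1 = 1 + t ^ 2 by ring]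
  field_simp
  ring

theorem ck_integrable {x y : ℝ} (hy : 0 < y) : Integrable (ck x y) := by
  have hz : 0 < (⟨x, y⟩ : ℂ).im := hy
  have hw : 0 < (I : ℂ).im := by simp
  have h1 := Kz_fourier_integrable hz hw
  have h2 : Integrable fun t : ℝ => (ck x y t : ℂ) := by
    simp_rw [ck_eq hy]
    refine (h1.const_mul _).add (Integrable.const_mul ?_ _)
    exact (Complex.conjLIE.integrable_comp_iff).2 h1
  exact h2.re

theorem ck_integral {m : ℝ → ℂ} (hm : Integrable m) {x y : ℝ} (hy : 0 < y) :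
    ∫ t, (ck x y t : ℂ) * E m t = -I * (∫ ξ, m ξ * Kz ⟨x, y⟩ I ξ)
      + I * ∫ ξ, m ξ * (starRingEnd ℂ) (Kz ⟨x, y⟩ I (-ξ)) := by
  have hz : 0 < (⟨x, y⟩ : ℂ).im := hy
  have hw : 0 < (I : ℂ).im := by simp
  have h1 := Kz_fourier_integrable hz hw
  have hKi := Kz_integrable hz hw
  have hKc := Kz_continuous ⟨x, y⟩ I
  have hb : ∀ {m : ℝ → ℂ}, Integrable m → Integrable fun t => 𝓕 (Kz ⟨x, y⟩ I) t * E m t := by
    intro m hm
    exact h1.mul_bdd (c := ∫ ξ, ‖m ξ‖) (continuous_E hm).aestronglyMeasurable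
      (Eventually.of_forall fun t => norm_E_le m t)
  have hm' : Integrable fun ξ => (starRingEnd ℂ) (m (-ξ)) :=
    (Complex.conjLIE.integrable_comp_iff).2 hm.comp_neg
  have s1 := swap_E hm hKc hKi h1
  have s2 := swap_E hm' hKc hKi h1
  have e1 : ∀ t, (ck x y t : ℂ) * E m t = -I * (𝓕 (Kz ⟨x, y⟩ I) t * E m t)
      + I * (starRingEnd ℂ) (𝓕 (Kz ⟨x, y⟩ I) t * E (fun ξ => (starRingEnd ℂ) (m (-ξ))) t) := by
    intro t
    rw [ck_eq hy, ← E_conj, map_mul, Complex.conj_conj]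
    ring
  simp_rw [e1]
  have hconj : Integrable fun t => (starRingEnd ℂ) (𝓕 (Kz ⟨x, y⟩ I) t * E (fun ξ => (starRingEnd ℂ) (m (-ξ))) t) :=
    (Complex.conjLIE.integrable_comp_iff).2 (hb hm')
  rw [integral_add ((hb hm).const_mul _) (hconj.const_mul _),
    integral_const_mul, integral_const_mul, s1, integral_conj, s2, ← integral_conj]
  congr 2
  rw [← integral_neg_eq_self]
  refine integral_congr_ae (Eventually.of_forall fun ξ => ?_)
  simp only [map_mul, Complex.conj_conj, neg_neg]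

/-- the limit of the conjugate Poisson integrals -/
theorem ck_tendsto {m : ℝ → ℂ} (hm : Integrable m) (x : ℝ) :
    Tendsto (fun y => ∫ t, (ck x y t : ℂ) * E m t) (𝓝[>] 0)
      (𝓝 (-I * (∫ ξ, m ξ * Kz ⟨x, 0⟩ I ξ) + I * ∫ ξ, m ξ * (starRingEnd ℂ) (Kz ⟨x, 0⟩ I (-ξ)))) := by
  have hK : ∀ ξ, Tendsto (fun y : ℝ => Kz ⟨x, y⟩ I ξ) (𝓝[>] 0) (𝓝 (Kz ⟨x, 0⟩ I ξ)) := by
    intro ξ
    unfold Kz
    split_ifs with h
    · have h1 : Continuous fun y : ℝ => (⟨x, y⟩ : ℂ) := by
        have : (fun y : ℝ => (⟨x, y⟩ : ℂ)) = fun y : ℝ => (x : ℂ) + (y : ℂ) * I := by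
          funext y
          apply Complex.ext <;> simp
        rw [this]
        fun_prop
      have h2 : Continuous fun y : ℝ => Complex.exp (2 * π * I * ξ * (⟨x, y⟩ : ℂ)) - Complex.exp (2 * π * I * ξ * I) := by
        fun_prop
      exact (h2.tendsto 0).mono_left nhdsWithin_le_nhds
    · exact tendsto_const_nhds
  have hev : (fun y => -I * (∫ ξ, m ξ * Kz ⟨x, y⟩ I ξ) + I * ∫ ξ, m ξ * (starRingEnd ℂ) (Kz ⟨x, y⟩ I (-ξ)))
      =ᶠ[𝓝[>] 0] fun y => ∫ t, (ck x y t : ℂ) * E m t := by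
    filter_upwards [self_mem_nhdsWithin] with y hy
    exact (ck_integral hm hy).symm
  refine Tendsto.congr' hev ?_
  have hbd : ∀ y : ℝ, y ∈ Set.Ioi (0:ℝ) → ∀ ξ, ‖Kz ⟨x, y⟩ I ξ‖ ≤ 2 := fun y hy ξ =>
    Kz_norm_le (z := ⟨x, y⟩) (le_of_lt hy) (by simp) ξ
  refine Tendsto.add (Tendsto.const_mul _ ?_) (Tendsto.const_mul _ ?_)
  · refine tendsto_integral_filter_of_dominated_convergence (fun ξ => ‖m ξ‖ * 2) ?_ ?_ (hm.norm.mul_const 2) ?_
    · exact Eventually.of_forall fun y => hm.aestronglyMeasurable.mul (Kz_continuous _ _).aestronglyMeasurable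
    · filter_upwards [self_mem_nhdsWithin] with y hy
      refine Eventually.of_forall fun ξ => ?_
      rw [norm_mul]
      gcongr
      exact hbd y hy ξ
    · exact Eventually.of_forall fun ξ => (hK ξ).const_mul _
  · refine tendsto_integral_filter_of_dominated_convergence (fun ξ => ‖m ξ‖ * 2) ?_ ?_ (hm.norm.mul_const 2) ?_
    · exact Eventually.of_forall fun y => hm.aestronglyMeasurable.mul
        ((Complex.continuous_conj.comp ((Kz_continuous _ _).comp continuous_neg))).aestronglyMeasurable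
    · filter_upwards [self_mem_nhdsWithin] with y hy
      refine Eventually.of_forall fun ξ => ?_
      rw [norm_mul, RCLike.norm_conj]
      gcongr
      exact hbd y hy (-ξ)
    · exact Eventually.of_forall fun ξ => ((Complex.continuous_conj.tendsto _).comp (hK (-ξ))).const_mul _

end Pool.Agent.W756.ML
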