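import Pool.Agent.W756.ML16

/-! The principal value Hilbert transform on the line, acting on functions with integrable density. -/

set_option autoImplicit false

open MeasureTheory Filter Topology Complex
open scoped FourierTransform Real ENNReal ContDiff

namespace Pool.Agent.W756.ML

/-- the truncated Hilbert integral, with the kernel that makes it converge for functions of bounded
mean oscillation -/
noncomputable def truncHilbert (f : ℝ → ℂ) (ε x : ℝ) : ℂ :=
  (π : ℂ)⁻¹ * ∫ t in {t : ℝ | ε < |x - t|}, ((1 / (x - t) + t / (1 + t ^ 2) : ℝ) : ℂ) * f t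

/-- difference of kernels -/
noncomputable def kap0 (ε s : ℝ) : ℝ := (if ε < |s| then 1 / s else 0) - s / (s ^ 2 + ε ^ 2)

theorem kap0_meas (ε : ℝ) : Measurable (kap0 ε) := by
  unfold kap0
  refine Measurable.sub (Measurable.ite ?_ (by fun_prop) measurable_const) (by fun_prop)
  exact measurableSet_lt measurable_const (by fun_prop)

theorem kap0_abs {ε : ℝ} (hε : 0 < ε) (s : ℝ) : |kap0 ε s| ≤ ε / (s ^ 2 + ε ^ 2) := by
  unfold kap0
  have h0 : 0 < s ^ 2 + ε ^ 2 := by positivity
  split_ifs with h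
  · have hs : s ≠ 0 := by
      intro h0; rw [h0, abs_zero] at h; linarith
    have hs' : 0 < |s| := abs_pos.2 hs
    have e : 1 / s - s / (s ^ 2 + ε ^ 2) = ε ^ 2 / (s * (s ^ 2 + ε ^ 2)) := by
      field_simp
      ring
    rw [e, abs_div, abs_mul, abs_of_pos h0, abs_of_pos (by positivity : 0 < ε ^ 2)]
    rw [div_le_div_iff₀ (by positivity) h0]
    have : ε ^ 2 ≤ ε * |s| := by nlinarith
    nlinarith [mul_le_mul_of_nonneg_right this h0.le]
  · rw [not_lt] at h
    rw [zero_sub, abs_neg, abs_div, abs_of_pos h0]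
    gcongr

theorem kap0_integrable {ε : ℝ} (hε : 0 < ε) : Integrable (kap0 ε) := by
  refine ((integrable_pk0 hε).const_mul π).mono' (kap0_meas ε).aestronglyMeasurable
    (Eventually.of_forall fun s => ?_)
  rw [Real.norm_eq_abs]
  refine (kap0_abs hε s).trans (le_of_eq ?_)
  have hp := Real.pi_pos
  have h0 : 0 < s ^ 2 + ε ^ 2 := by positivity
  field_simp

theorem kap0_odd (ε s : ℝ) : kap0 ε (-s) = -kap0 ε s := by
  unfold kap0
  rw [abs_neg, neg_sq]
  split_ifs
  · rw [one_div_neg_eq_neg_one_div]; ring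
  · ring

theorem kap0_integral (ε : ℝ) : ∫ s, kap0 ε s = 0 := by
  have h1 := integral_neg_eq_self (kap0 ε) volume
  simp_rw [kap0_odd] at h1
  rw [integral_neg] at h1
  linarith

theorem kap0_scale {ε : ℝ} (hε : 0 < ε) (v : ℝ) : ε * kap0 ε (ε * v) = kap0 1 v := by
  unfold kap0
  have h1 : (ε < |ε * v|) ↔ (1 < |v|) := by
    rw [abs_mul, abs_of_pos hε]
    constructor
    · intro h
      by_contra hc
      rw [not_lt] at hc
      nlinarith
    · intro h; nlinarith
  have h3 : 0 < v ^ 2 + 1 := by positivity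
  by_cases h : 1 < |v|
  · rw [if_pos h, if_pos (h1.2 h)]
    have hv : v ≠ 0 := by
      intro h0; rw [h0, abs_zero] at h; linarith
    have h4 : 0 < (ε * v) ^ 2 + ε ^ 2 := by positivity
    have h5 : (ε * v) ^ 2 + ε ^ 2 = ε ^ 2 * (v ^ 2 + 1) := by ring
    rw [h5]
    field_simp
  · rw [if_neg h, if_neg (fun h' => h (h1.1 h'))]
    have h5 : (ε * v) ^ 2 + ε ^ 2 = ε ^ 2 * (v ^ 2 + 1) := by ring
    rw [h5]
    field_simp
    ring

theorem kap0_conv {f : ℝ → ℂ} {ε : ℝ} (hε : 0 < ε) (x : ℝ) :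
    ∫ t, (kap0 ε (x - t) : ℂ) * f t = ∫ v, (kap0 1 v : ℂ) * f (x - ε * v) := by
  have h1 : ∫ t, (kap0 ε (x - t) : ℂ) * f t = ∫ s, (kap0 ε s : ℂ) * f (x - s) := by
    rw [← integral_sub_left_eq_self (fun s => (kap0 ε s : ℂ) * f (x - s)) volume x]
    refine integral_congr_ae (Eventually.of_forall fun t => ?_)
    simp only [sub_sub_cancel]
  rw [h1]
  have h2 := Measure.integral_comp_mul_left (fun s => (kap0 ε s : ℂ) * f (x - s)) ε
  rw [abs_of_pos (inv_pos.2 hε)] at h2
  have h3 : ∫ s, (kap0 ε s : ℂ) * f (x - s) = ε • ∫ v, (kap0 ε (ε * v) : ℂ) * f (x - ε * v) := by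
    rw [h2, smul_smul, mul_inv_cancel₀ hε.ne', one_smul]
  rw [h3, ← integral_smul]
  refine integral_congr_ae (Eventually.of_forall fun v => ?_)
  simp only
  rw [← kap0_scale hε v, Complex.real_smul]
  push_cast
  ring

theorem trunc_sub {f : ℝ → ℂ} (hf : Continuous f) {M : ℝ} (hM : ∀ x, ‖f x‖ ≤ M) {ε : ℝ} (hε : 0 < ε) (x : ℝ) :
    truncHilbert f ε x = (∫ t, (ck x ε t : ℂ) * f t) + (π : ℂ)⁻¹ * (∫ v, (kap0 1 v : ℂ) * f (x - ε * v))
      - (π : ℂ)⁻¹ * ∫ t in {t : ℝ | ε < |x - t|}ᶜ, ((t / (1 + t ^ 2) : ℝ) : ℂ) * f t := by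
  unfold truncHilbert
  have hp := Real.pi_pos
  have hpc : (π : ℂ) ≠ 0 := by exact_mod_cast hp.ne'
  have hms : MeasurableSet {t : ℝ | ε < |x - t|} := measurableSet_lt measurable_const (by fun_prop)
  have i1 : Integrable fun t => (ck x ε t : ℂ) * f t :=
    (ck_integrable hε).ofReal.mul_bdd (c := M) hf.aestronglyMeasurable (Eventually.of_forall hM)
  have i2 : Integrable fun t => (kap0 ε (x - t) : ℂ) * f t :=
    ((kap0_integrable hε).comp_sub_left x).ofReal.mul_bdd (c := M) hf.aestronglyMeasurable (Eventually.of_forall hM)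
  have hbd : ∀ t : ℝ, ‖((t / (1 + t ^ 2) : ℝ) : ℂ) * f t‖ ≤ M := by
    intro t
    rw [norm_mul, Complex.norm_real, Real.norm_eq_abs, abs_div, abs_of_pos (by positivity : 0 < 1 + t ^ 2)]
    have h1 : |t| / (1 + t ^ 2) ≤ 1 := by
      rw [div_le_one (by positivity)]
      nlinarith [sq_abs t, sq_nonneg (|t| - 1), abs_nonneg t]
    calc _ ≤ 1 * M := mul_le_mul h1 (hM t) (norm_nonneg _) zero_le_one
      _ = M := one_mul M
  have hcont : Continuous fun t : ℝ => ((t / (1 + t ^ 2) : ℝ) : ℂ) * f t := by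
    refine Continuous.mul (Complex.continuous_ofReal.comp ?_) hf
    refine continuous_id.div (by fun_prop) fun t => ?_
    positivity
  have hsub : {t : ℝ | ε < |x - t|}ᶜ ⊆ Set.Icc (x - ε) (x + ε) := by
    intro t ht
    have : |x - t| ≤ ε := not_lt.1 ht
    rw [abs_le] at this
    exact ⟨by linarith [this.2], by linarith [this.1]⟩
  have i3 : IntegrableOn (fun t : ℝ => ((t / (1 + t ^ 2) : ℝ) : ℂ) * f t) ({t : ℝ | ε < |x - t|}ᶜ) :=
    (hcont.integrableOn_Icc).mono_set hsub
  have i3' : Integrable (Set.indicator ({t : ℝ | ε < |x - t|}ᶜ) fun t : ℝ => ((t / (1 + t ^ 2) : ℝ) : ℂ) * f t) :=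
    (integrable_indicator_iff hms.compl).2 i3
  rw [← kap0_conv hε, ← integral_indicator hms, ← integral_indicator hms.compl]
  have key : ∀ t, Set.indicator {t : ℝ | ε < |x - t|} (fun t : ℝ => ((1 / (x - t) + t / (1 + t ^ 2) : ℝ) : ℂ) * f t) t
      = (π : ℂ) * ((ck x ε t : ℂ) * f t) + (kap0 ε (x - t) : ℂ) * f t
        - Set.indicator ({t : ℝ | ε < |x - t|}ᶜ) (fun t : ℝ => ((t / (1 + t ^ 2) : ℝ) : ℂ) * f t) t := by
    intro t
    have e1 : (π : ℂ) * (ck x ε t : ℂ) = (((x - t) / ((x - t) ^ 2 + ε ^ 2) + t / (1 + t ^ 2) : ℝ) : ℂ) := by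
      rw [← Complex.ofReal_mul]
      congr 1
      unfold ck
      field_simp
    rw [← mul_assoc, e1]
    by_cases h : ε < |x - t|
    · rw [Set.indicator_of_mem (show t ∈ {t : ℝ | ε < |x - t|} from h),
        Set.indicator_of_notMem (show t ∉ {t : ℝ | ε < |x - t|}ᶜ from fun h' => h' h)]
      unfold kap0
      rw [if_pos h]
      push_cast
      ring
    · rw [Set.indicator_of_notMem (show t ∉ {t : ℝ | ε < |x - t|} from h),
        Set.indicator_of_mem (show t ∈ {t : ℝ | ε < |x - t|}ᶜ from h)]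
      unfold kap0
      rw [if_neg h]
      push_cast
      ring
  simp_rw [key]
  have i12 : Integrable fun t => (π : ℂ) * ((ck x ε t : ℂ) * f t) + (kap0 ε (x - t) : ℂ) * f t :=
    (i1.const_mul _).add i2
  rw [integral_sub i12 i3', integral_add (i1.const_mul _) i2, integral_const_mul]
  rw [mul_sub, mul_add, ← mul_assoc, inv_mul_cancel₀ hpc, one_mul]

theorem trunc_tendsto {m : ℝ → ℂ} (hm : Integrable m) (x : ℝ) :
    Tendsto (fun ε => truncHilbert (E m) ε x) (𝓝[>] 0)
      (𝓝 (-I * (∫ ξ, m ξ * Kz ⟨x, 0⟩ I ξ) + I * ∫ ξ, m ξ * (starRingEnd ℂ) (Kz ⟨x, 0⟩ I (-ξ)))) := by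
  set M := ∫ ξ, ‖m ξ‖ with hM
  have hf := continuous_E hm
  have hfM : ∀ x, ‖E m x‖ ≤ M := norm_E_le m
  have hM0 : 0 ≤ M := (norm_nonneg _).trans (hfM 0)
  have t1 := ck_tendsto hm x
  have t2 : Tendsto (fun ε : ℝ => ∫ v, (kap0 1 v : ℂ) * E m (x - ε * v)) (𝓝[>] 0) (𝓝 0) := by
    have e : (0:ℂ) = ∫ v, (kap0 1 v : ℂ) * E m x := by
      rw [integral_mul_const, integral_complex_ofReal, kap0_integral]
      simp
    rw [e]
    refine tendsto_integral_filter_of_dominated_convergence (fun v => |kap0 1 v| * M) ?_ ?_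
      ((kap0_integrable one_pos).abs.mul_const M) ?_
    · refine Eventually.of_forall fun ε => ?_
      exact (Complex.measurable_ofReal.comp (kap0_meas 1)).aestronglyMeasurable.mul
        (hf.comp (by fun_prop : Continuous fun v : ℝ => x - ε * v)).aestronglyMeasurable
    · refine Eventually.of_forall fun ε => Eventually.of_forall fun v => ?_
      rw [norm_mul, Complex.norm_real, Real.norm_eq_abs]
      gcongr
      exact hfM _
    · refine Eventually.of_forall fun v => Tendsto.const_mul _ ?_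
      have h1 : Continuous fun ε : ℝ => E m (x - ε * v) := hf.comp (by fun_prop)
      have h2 := (h1.tendsto 0).mono_left (nhdsWithin_le_nhds (s := Set.Ioi 0))
      simpa using h2
  have t3 : Tendsto (fun ε : ℝ => ∫ t in {t : ℝ | ε < |x - t|}ᶜ, ((t / (1 + t ^ 2) : ℝ) : ℂ) * E m t)
      (𝓝[>] 0) (𝓝 0) := by
    rw [tendsto_zero_iff_norm_tendsto_zero]
    have h1 : Tendsto (fun ε : ℝ => M * (2 * ε)) (𝓝[>] 0) (𝓝 0) := by
      have h2 : Continuous fun ε : ℝ => M * (2 * ε) := by fun_prop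
      have h3 := (h2.tendsto 0).mono_left (nhdsWithin_le_nhds (s := Set.Ioi 0))
      simpa using h3
    refine squeeze_zero' (Eventually.of_forall fun _ => norm_nonneg _) ?_ h1
    filter_upwards [self_mem_nhdsWithin] with ε hε
    have hε0 : (0:ℝ) < ε := hε
    have hsub : {t : ℝ | ε < |x - t|}ᶜ ⊆ Set.Icc (x - ε) (x + ε) := by
      intro t ht
      have : |x - t| ≤ ε := not_lt.1 ht
      rw [abs_le] at this
      exact ⟨by linarith [this.2], by linarith [this.1]⟩
    have hvol : volume ({t : ℝ | ε < |x - t|}ᶜ) ≤ ENNReal.ofReal (2 * ε) := by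
      refine (measure_mono hsub).trans (le_of_eq ?_)
      rw [Real.volume_Icc]
      congr 1; ring
    have hfin : volume ({t : ℝ | ε < |x - t|}ᶜ) < ⊤ := hvol.trans_lt ENNReal.ofReal_lt_top
    have h4 := norm_setIntegral_le_of_norm_le_const (C := M) hfin (f := fun t : ℝ => ((t / (1 + t ^ 2) : ℝ) : ℂ) * E m t)
      (fun t _ => by
        rw [norm_mul, Complex.norm_real, Real.norm_eq_abs, abs_div, abs_of_pos (by positivity : 0 < 1 + t ^ 2)]
        have h1 : |t| / (1 + t ^ 2) ≤ 1 := by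
          rw [div_le_one (by positivity)]
          nlinarith [sq_abs t, sq_nonneg (|t| - 1), abs_nonneg t]
        calc _ ≤ 1 * M := mul_le_mul h1 (hfM t) (norm_nonneg _) zero_le_one
          _ = M := one_mul M)
    refine h4.trans ?_
    gcongr
    rw [measureReal_def]
    exact ENNReal.toReal_le_of_le_ofReal (by positivity) hvol
  have hev : (fun ε => (∫ t, (ck x ε t : ℂ) * E m t) + (π : ℂ)⁻¹ * (∫ v, (kap0 1 v : ℂ) * E m (x - ε * v))
      - (π : ℂ)⁻¹ * ∫ t in {t : ℝ | ε < |x - t|}ᶜ, ((t / (1 + t ^ 2) : ℝ) : ℂ) * E m t)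
      =ᶠ[𝓝[>] 0] fun ε => truncHilbert (E m) ε x := by
    filter_upwards [self_mem_nhdsWithin] with ε hε
    exact (trunc_sub hf hfM hε x).symm
  refine Tendsto.congr' hev ?_
  have := (t1.add (t2.const_mul (π : ℂ)⁻¹)).sub (t3.const_mul (π : ℂ)⁻¹)
  simpa using this

/-- the limit, up to a constant -/
theorem lim_eq {m : ℝ → ℂ} (hm : Integrable m) : ∃ c : ℂ, ∀ x : ℝ,
    -I * (∫ ξ, m ξ * Kz ⟨x, 0⟩ I ξ) + I * (∫ ξ, m ξ * (starRingEnd ℂ) (Kz ⟨x, 0⟩ I (-ξ)))
      = -I * E (cutP m) x + I * E (cutN m) x + c := by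
  set c1 := ∫ ξ, cutP m ξ * Complex.exp (2 * π * I * ξ * I) with hc1
  set c2 := ∫ ξ, cutN m ξ * Complex.exp (-(2 * π * I * ξ * I)) with hc2
  have hp := Real.pi_pos
  refine ⟨I * c1 - I * c2, fun x => ?_⟩
  have hP := cutP_integrable hm
  have hN := cutN_integrable hm
  have a1 : ∫ ξ, m ξ * Kz ⟨x, 0⟩ I ξ = E (cutP m) x - c1 := by
    rw [E_def, hc1, ← integral_sub (integrable_expmul hP x)]
    · refine integral_congr_ae (Eventually.of_forall fun ξ => ?_)
      simp only [Kz, cutP]
      by_cases h : 0 < ξ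
      · rw [if_pos h, Set.indicator_of_mem (by simpa using h)]
        have : (⟨x, 0⟩ : ℂ) = (x : ℂ) := rfl
        rw [this, show (2 * π * I * ξ * x : ℂ) = 2 * π * I * (ξ * x) by ring]
        ring
      · rw [if_neg h, Set.indicator_of_notMem (by simpa using h)]
        ring
    · refine hP.mul_bdd (c := 1) ?_ ?_ |>.congr ?_ (f := fun ξ => cutP m ξ * (if 0 < ξ then Complex.exp (2 * π * I * ξ * I) else 0))
      · refine Measurable.aestronglyMeasurable (Measurable.ite measurableSet_Ioi (by fun_prop) measurable_const)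
      · refine Eventually.of_forall fun ξ => ?_
        split_ifs with h
        · rw [norm_exp_z]
          simp
          positivity
        · simp
      · refine Eventually.of_forall fun ξ => ?_
        simp only [cutP]
        by_cases h : 0 < ξ
        · rw [if_pos h]
        · rw [if_neg h, Set.indicator_of_notMem (by simpa using h)]
          ring
  have a2 : ∫ ξ, m ξ * (starRingEnd ℂ) (Kz ⟨x, 0⟩ I (-ξ)) = E (cutN m) x - c2 := by
    rw [E_def, hc2, ← integral_sub (integrable_expmul hN x)]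
    · have hne : ∀ᵐ ξ : ℝ, ξ ≠ 0 := by
        rw [ae_iff]
        simp
      refine integral_congr_ae ?_
      filter_upwards [hne] with ξ hξ
      simp only [Kz, cutN]
      by_cases h : ξ ≤ 0
      · have h' : ξ < 0 := lt_of_le_of_ne h hξ
        rw [if_pos (by linarith), Set.indicator_of_mem (by simpa using h)]
        have : (⟨x, 0⟩ : ℂ) = (x : ℂ) := rfl
        rw [this, map_sub, ← Complex.exp_conj, ← Complex.exp_conj]
        have e1 : (starRingEnd ℂ) (2 * π * I * ((-ξ : ℝ) : ℂ) * (x : ℂ)) = 2 * π * I * (ξ * x) := by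
          simp only [map_mul, Complex.conj_I, Complex.conj_ofReal, map_ofNat]
          push_cast; ring
        have e2 : (starRingEnd ℂ) (2 * π * I * ((-ξ : ℝ) : ℂ) * I) = -(2 * π * I * ξ * I) := by
          simp only [map_mul, Complex.conj_I, Complex.conj_ofReal, map_ofNat]
          push_cast; ring
        rw [e1, e2]
        ring
      · rw [if_neg (by linarith), Set.indicator_of_notMem (by simpa using h)]
        simp
    · refine hN.mul_bdd (c := 1) ?_ ?_ |>.congr ?_ (f := fun ξ => cutN m ξ * (if ξ ≤ 0 then Complex.exp (-(2 * π * I * ξ * I)) else 0))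
      · refine Measurable.aestronglyMeasurable (Measurable.ite measurableSet_Iic (by fun_prop) measurable_const)
      · refine Eventually.of_forall fun ξ => ?_
        split_ifs with h
        · have : (-(2 * π * I * ξ * I) : ℂ) = 2 * π * I * ((-ξ : ℝ) : ℂ) * I := by push_cast; ring
          rw [this, norm_exp_z]
          simp
          nlinarith
        · simp
      · refine Eventually.of_forall fun ξ => ?_
        simp only [cutN]
        by_cases h : ξ ≤ 0
        · rw [if_pos h]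
        · rw [if_neg h, Set.indicator_of_notMem (by simpa using h)]
          ring
  rw [a1, a2]
  ring

end Pool.Agent.W756.ML
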