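import Pool.Agent.W756.ML15
import Pool.Agent.W756.ML17

/-! Assembly. -/

set_option autoImplicit false

open MeasureTheory Filter Topology Complex
open scoped FourierTransform Real ENNReal ContDiff

namespace Pool.Agent.W756.ML

theorem fourier_comp_neg (m : ℝ → ℂ) (t : ℝ) : 𝓕 (fun ξ => m (-ξ)) t = E m t := by
  rw [E_def, Real.fourier_eq', ← integral_neg_eq_self]
  refine integral_congr_ae (Eventually.of_forall fun ξ => ?_)
  have : (inner ℝ (-ξ) t : ℝ) = -(ξ * t) := by simp [mul_comm]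
  simp only [this, smul_eq_mul, neg_neg]
  congr 2
  push_cast
  ring

/-- a bump function with mean zero and nonzero analytic energy -/
theorem exists_A : ∃ A : ℝ → ℂ, ContDiff ℝ ∞ A ∧ HasCompactSupport A ∧ tsupport A ⊆ Set.Ioo (-1) 1 ∧
    (∀ x, ‖A x‖ ≤ 1) ∧ (∫ x in (-1:ℝ)..1, A x = 0) ∧ 0 < ‖∫ y, E (cutP (𝓕 A)) y * A y‖ := by
  set β : ContDiffBump (0:ℝ) := ⟨1 / 8, 1 / 4, by norm_num, by norm_num⟩ with hβ
  set A : ℝ → ℂ := fun x => ((β (x - 1 / 2) - β (x + 1 / 2) : ℝ) : ℂ) with hA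
  have hs : ContDiff ℝ ∞ A := Complex.ofRealCLM.contDiff.comp
    ((β.contDiff.comp (contDiff_id.sub contDiff_const)).sub (β.contDiff.comp (contDiff_id.add contDiff_const)))
  have hβ0 : ∀ x, 1 / 4 ≤ |x| → β x = 0 := fun x hx => by
    apply β.zero_of_le_dist
    rw [Real.dist_eq, sub_zero]
    exact hx
  have hout : ∀ x, x ∉ Set.Icc (-(3:ℝ) / 4) (3 / 4) → A x = 0 := by
    intro x hx
    have h1 : 3 / 4 < |x| := by
      by_contra h
      rw [not_lt, abs_le] at h
      exact hx ⟨by linarith [h.1], h.2⟩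
    have h2 : 1 / 4 ≤ |x - 1 / 2| := by
      have := abs_sub_abs_le_abs_sub x (1 / 2)
      rw [abs_of_pos (by norm_num : (0:ℝ) < 1 / 2)] at this
      linarith
    have h3 : 1 / 4 ≤ |x + 1 / 2| := by
      have := abs_sub_abs_le_abs_sub x (-(1 / 2))
      rw [abs_neg, abs_of_pos (by norm_num : (0:ℝ) < 1 / 2), sub_neg_eq_add] at this
      linarith
    simp only [hA]
    rw [hβ0 _ h2, hβ0 _ h3]
    simp
  have hc : HasCompactSupport A := HasCompactSupport.intro isCompact_Icc hout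
  have hts : tsupport A ⊆ Set.Icc (-(3:ℝ) / 4) (3 / 4) := by
    refine closure_minimal ?_ isClosed_Icc
    intro x hx
    by_contra h
    exact hx (hout x h)
  have hts' : tsupport A ⊆ Set.Ioo (-1) 1 := hts.trans fun x hx => ⟨by linarith [hx.1], by linarith [hx.2]⟩
  have hb : ∀ x, ‖A x‖ ≤ 1 := by
    intro x
    simp only [hA]
    rw [Complex.norm_real, Real.norm_eq_abs, abs_le]
    have h1 := β.nonneg (x := x - 1 / 2)
    have h2 := β.le_one (x := x - 1 / 2)
    have h3 := β.nonneg (x := x + 1 / 2)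
    have h4 := β.le_one (x := x + 1 / 2)
    constructor <;> linarith
  have h12 : A (1 / 2) = 1 := by
    simp only [hA]
    have h1 : β (1 / 2 - 1 / 2) = 1 := by
      rw [sub_self]
      exact β.one_of_mem_closedBall (by simp [β.rIn_pos.le])
    have h2 : β (1 / 2 + 1 / 2) = 0 := hβ0 _ (by norm_num)
    rw [h1, h2]
    simp
  have hreal : (fun x => (starRingEnd ℂ) (A x)) = A := by
    funext x
    simp only [hA]
    rw [Complex.conj_ofReal]
  refine ⟨A, hs, hc, hts', hb, ?_, ?_⟩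
  · rw [intervalIntegral.integral_eq_integral_of_support_subset
      ((subset_tsupport A).trans (hts'.trans Set.Ioo_subset_Ioc_self))]
    simp only [hA]
    rw [integral_complex_ofReal]
    have hi : Integrable (fun x => β x) := β.continuous.integrable_of_hasCompactSupport β.hasCompactSupport
    rw [integral_sub (hi.comp_sub_right _) (hi.comp_add_right _), integral_sub_right_eq_self (fun x => β x),
      integral_add_right_eq_self (fun x => β x)]
    simp
  · have hG := Good.fourier hs hc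
    have hsym : ∀ ξ, 𝓕 A (-ξ) = (starRingEnd ℂ) (𝓕 A ξ) := by
      intro ξ
      have := fourier_conj A (-ξ)
      rw [hreal, neg_neg] at this
      exact this
    have hFc : Continuous (𝓕 A) := fourier_continuous (cc_integrable hs hc)
    have hKF : 𝓕 (fun ξ => 𝓕 A (-ξ)) = A := by
      funext t
      rw [fourier_comp_neg, cc_E_fourier hs hc]
    have hsw := swap_E (m := cutP (𝓕 A)) (K := fun ξ => 𝓕 A (-ξ)) hG.cutP.int (hFc.comp continuous_neg)
      hG.int.comp_neg (by rw [hKF]; exact cc_integrable hs hc)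
    rw [hKF] at hsw
    have e1 : ∫ y, E (cutP (𝓕 A)) y * A y = ((∫ ξ, ‖cutP (𝓕 A) ξ‖ ^ 2 : ℝ) : ℂ) := by
      rw [← integral_complex_ofReal, show (∫ y, E (cutP (𝓕 A)) y * A y) = ∫ y, A y * E (cutP (𝓕 A)) y from
        integral_congr_ae (Eventually.of_forall fun y => mul_comm _ _), hsw]
      refine integral_congr_ae (Eventually.of_forall fun ξ => ?_)
      simp only
      rw [hsym]
      unfold cutP
      by_cases h : ξ ∈ Set.Ioi (0:ℝ)
      · rw [Set.indicator_of_mem h, Complex.mul_conj, Complex.normSq_eq_norm_sq]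
      · rw [Set.indicator_of_notMem h]
        simp
    rw [e1, norm_pos_iff]
    intro h0
    have h1 : ∫ ξ, ‖cutP (𝓕 A) ξ‖ ^ 2 = 0 := by exact_mod_cast h0
    obtain ⟨B, hB⟩ := hG.cutP.bdd
    have hi2 : Integrable fun ξ => ‖cutP (𝓕 A) ξ‖ ^ 2 :=
      (memLp_two_iff_integrable_sq_norm hG.cutP.int.aestronglyMeasurable).1 (memLp_two hG.cutP.int hB)
    have h2 : (fun ξ => ‖cutP (𝓕 A) ξ‖ ^ 2) =ᵐ[volume] 0 :=
      (integral_eq_zero_iff_of_nonneg (fun ξ => by positivity) hi2).1 h1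
    have h3 : ∀ᵐ ξ, 0 < ξ → 𝓕 A ξ = 0 := by
      filter_upwards [h2] with ξ hξ hpos
      simp only [Pi.zero_apply] at hξ
      have : cutP (𝓕 A) ξ = 0 := by
        rw [← norm_eq_zero]
        exact pow_eq_zero_iff (two_ne_zero) |>.1 hξ
      unfold cutP at this
      rwa [Set.indicator_of_mem (by simpa using hpos)] at this
    have h4 : ∀ᵐ ξ, ξ < 0 → 𝓕 A ξ = 0 := by
      have h5 : ∀ᵐ ξ, 0 < -ξ → 𝓕 A (-ξ) = 0 :=
        (Measure.measurePreserving_neg (volume : Measure ℝ)).quasiMeasurePreserving.ae h3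
      filter_upwards [h5] with ξ hξ hneg
      have h6 := hξ (by linarith)
      rw [hsym] at h6
      exact (map_eq_zero _).1 h6
    have h5 : ∀ᵐ ξ, 𝓕 A ξ = 0 := by
      have hne : ∀ᵐ ξ : ℝ, ξ ≠ 0 := by
        rw [ae_iff]
        simp
      filter_upwards [h3, h4, hne] with ξ a b c
      rcases lt_or_gt_of_ne c with h | h
      · exact b h
      · exact a h
    have h6 : A (1 / 2) = 0 := by
      have e := congrFun (cc_E_fourier hs hc) (1 / 2)
      rw [← e, E_def]
      rw [integral_eq_zero_of_ae]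
      filter_upwards [h5] with ξ hξ
      simp [hξ]
    rw [h12] at h6
    exact one_ne_zero h6

theorem norm_le_of_decay {f : ℝ → ℂ} (hf : ContDiff ℝ ∞ f) (hc : HasCompactSupport f) {c : ℝ}
    (h : ∀ ξ : ℝ, ‖𝓕 f ξ‖ ≤ c / (1 + ξ ^ 2)) (x : ℝ) : ‖f x‖ ≤ c * π := by
  have e := congrFun (cc_E_fourier hf hc) x
  rw [← e]
  refine (norm_E_le _ x).trans ?_
  have h1 : ∫ ξ : ℝ, ‖𝓕 f ξ‖ ≤ ∫ ξ : ℝ, c / (1 + ξ ^ 2) :=
    integral_mono (cc_fourier_integrable hf hc).norm (integrable_inv' c) h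
  refine h1.trans (le_of_eq ?_)
  simp only [div_eq_mul_inv]
  rw [integral_const_mul, integral_univ_inv_one_add_sq]

theorem assembly : ∃ (h κ : ℝ → ℝ) (C : ℝ), Dif h κ ∧ 0 < C ∧
    (∀ s x t : ℝ, s < t → s ≤ x → x ≤ t → deriv h x * (t - s) ≤ C * (h t - h s)) ∧
    ∃ (n μ : ℕ → ℝ → ℂ) (γ : ℝ), 0 < γ ∧ ∀ k, Good (n k) ∧ (∀ ξ, ξ ≤ 0 → n k ξ = 0) ∧ Integrable (μ k) ∧
      (∀ x, E (n k) (h x) = E (μ k) x) ∧ ENNReal.ofReal γ ≤ bmoNorm (E (n k)) ∧
      ∀ a b : ℝ, a < b → ∃ c : ℂ, ∫ x in a..b, ‖E (cutP (μ k)) x - c‖ ≤ (15 / ((k : ℝ) + 1)) * (b - a) := by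
  obtain ⟨A, hA, hAc, hAs, hAb, hA0, hκ⟩ := exists_A
  set γ0 := ‖∫ y, E (cutP (𝓕 A)) y * A y‖ with hγ0
  obtain ⟨C, hC, hblk⟩ := block hA hAc hAs hAb
  set ε : ℕ → ℝ := fun k => min 1 (γ0 / 2) / ((k : ℝ) + 1) with hε
  have hmin : 0 < min 1 (γ0 / 2) := lt_min one_pos (by linarith)
  have hε0 : ∀ k, 0 < ε k := fun k => by simp only [hε]; positivity
  have hε1 : ∀ k, ε k ≤ 1 / ((k : ℝ) + 1) := fun k => by
    simp only [hε]
    gcongr
    exact min_le_left _ _
  have hε2 : ∀ k, ε k ≤ γ0 / 2 := fun k => by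
    simp only [hε]
    refine (div_le_self hmin.le ?_).trans (min_le_right _ _)
    have : (0:ℝ) ≤ k := Nat.cast_nonneg k
    linarith
  choose hs ψs mG mF b1 b2 b3 b4 b5 b6 b7 b8 b9 using fun k => hblk (ε k) (hε0 k)
  have hcpos : ∀ j i : ℕ, 0 < ε j * (1 / 2) ^ i := fun j i => by have := hε0 j; positivity
  choose r hr0 hr using fun j i => Dt_small (b3 j) (b1 i) (b2 i) (hcpos j i)
  obtain ⟨T, hT⟩ := exists_sparse r hr0
  have hT20 : ∀ i j, i ≠ j → 20 ≤ |T i - T j| := fun i j hij => (hT i j hij).2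
  obtain ⟨⟨κ, hdif⟩, hRH⟩ := glue_props b1 b2 hT20 hC b9
  refine ⟨glue hs T, κ, 2 * C, hdif, by positivity, hRH, fun k => sh (T k) (mG k),
    fun k ξ => sh (T k) (mG k) ξ + dsum T (fun i => Dt (mG k) (hs i) (T i - T k)) ξ, γ0 / 4, by positivity,
    fun k => ?_⟩
  -- the interaction terms
  set D : ℕ → ℝ → ℂ := fun i => Dt (mG k) (hs i) (T i - T k) with hD
  have hDs : ∀ i, ContDiff ℝ ∞ (D i) := fun i => Dt_contDiff (b3 k) (b1 i) _
  have hDc : ∀ i, HasCompactSupport (D i) := fun i => Dt_supp (b2 i) _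
  obtain ⟨c0, hc00, hc0⟩ := fourier_decay_ex (hDs k) (hDc k) (Dt_tsupport (b2 k) _)
  set c : ℕ → ℝ := fun i => ε k * (1 / 2) ^ i + (if i = k then c0 else 0) with hc
  have hcs : Summable c := by
    refine Summable.add ?_ (hasSum_ite_eq k c0).summable
    exact (summable_geometric_of_lt_one (by norm_num) (by norm_num)).mul_left _
  have hcn : ∀ i, 0 ≤ c i := fun i => by
    simp only [hc]
    have := (hcpos k i).le
    split_ifs <;> linarith
  have hoff : ∀ i, i ≠ k → ∀ ξ : ℝ, ‖𝓕 (D i) ξ‖ ≤ ε k * (1 / 2) ^ i / (1 + ξ ^ 2) := fun i hi =>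
    hr k i _ (hT i k hi).1
  have hbd : ∀ i ξ, ‖𝓕 (D i) ξ‖ ≤ c i / (1 + ξ ^ 2) := by
    intro i ξ
    by_cases hi : i = k
    · subst hi
      refine (hc0 ξ).trans ?_
      gcongr
      simp only [hc, if_true]
      have := (hcpos i i).le
      linarith
    · refine (hoff i hi ξ).trans ?_
      gcongr
      simp only [hc, if_neg hi]
      linarith
  have hDi : ∀ i, Integrable (D i) := fun i => cc_integrable (hDs i) (hDc i)
  have hdi : Integrable (dsum T D) := dsum_integrable hDi hcs hcn hbd T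
  have hnG : Good (sh (T k) (mG k)) := (b3 k).sh (T k)
  have hμi : Integrable fun ξ => sh (T k) (mG k) ξ + dsum T D ξ := hnG.int.add hdi
  have hEd : ∀ x, E (dsum T D) x = E (mG k) (glue hs T x - T k) - E (mG k) (x - T k) := by
    intro x
    rw [E_dsum hDs hDc hcs hbd T x]
    exact tsum_Dt b2 hT20 (mG k) (T k) x
  have hEμ : ∀ x, E (fun ξ => sh (T k) (mG k) ξ + dsum T D ξ) x = E (mG k) (glue hs T x - T k) := by
    intro x
    rw [E_add hnG.int hdi, E_sh, hEd]
    ring
  refine ⟨hnG, ?_, hμi, ?_, ?_, ?_⟩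
  · intro ξ hξ
    show sh (T k) (mG k) ξ = 0
    unfold sh
    rw [b5 k ξ hξ, mul_zero]
  · intro x
    rw [hEμ, E_sh]
  · -- lower bound
    have hcont : Continuous (E (sh (T k) (mG k))) := continuous_E hnG.int
    have hAcont : Continuous fun y => A (y - T k) := hA.continuous.comp (by fun_prop)
    have h0 : ∫ x in (T k - 1)..(T k + 1), A (x - T k) = 0 := by
      rw [intervalIntegral.integral_comp_sub_right (fun x => A x)]
      rw [show T k - 1 - T k = -1 by ring, show T k + 1 - T k = 1 by ring]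
      exact hA0
    have hp := pairing_le hcont hAcont (by linarith : T k - 1 < T k + 1) h0 (B := 1) (fun x => hAb _)
    have e1 : ∫ x in (T k - 1)..(T k + 1), E (sh (T k) (mG k)) x * A (x - T k) = ∫ y, E (mG k) y * A y := by
      have e2 : ∀ x, E (sh (T k) (mG k)) x * A (x - T k) = (fun y => E (mG k) y * A y) (x - T k) := fun x => by
        rw [E_sh]
      simp_rw [e2]
      rw [intervalIntegral.integral_comp_sub_right (fun y => E (mG k) y * A y)]
      rw [show T k - 1 - T k = -1 by ring, show T k + 1 - T k = 1 by ring]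
      refine intervalIntegral.integral_eq_integral_of_support_subset ?_
      refine subset_trans ?_ ((subset_tsupport A).trans (hAs.trans Set.Ioo_subset_Ioc_self))
      intro y hy
      rw [Function.mem_support] at hy ⊢
      intro h
      exact hy (by rw [h, mul_zero])
    rw [e1, one_mul, show T k + 1 - (T k - 1) = 2 by ring] at hp
    have h2 : γ0 / 2 ≤ ‖∫ y, E (mG k) y * A y‖ := by
      have h3 := b8 k
      have h4 : γ0 ≤ ‖∫ y, E (mG k) y * A y‖ + ‖(∫ y, E (mG k) y * A y) - ∫ y, E (cutP (𝓕 A)) y * A y‖ := by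
        rw [hγ0]
        have := norm_sub_le (∫ y, E (mG k) y * A y) ((∫ y, E (mG k) y * A y) - ∫ y, E (cutP (𝓕 A)) y * A y)
        rwa [sub_sub_cancel] at this
      have := hε2 k
      linarith
    have h3 : ENNReal.ofReal (γ0 / 2) ≤ ENNReal.ofReal 2 * bmoNorm (E (sh (T k) (mG k))) :=
      (ENNReal.ofReal_le_ofReal h2).trans hp
    have h4 : ENNReal.ofReal (γ0 / 2) = ENNReal.ofReal 2 * ENNReal.ofReal (γ0 / 4) := by
      rw [← ENNReal.ofReal_mul (by norm_num)]
      congr 1; ring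
    rw [h4] at h3
    exact (ENNReal.mul_le_mul_iff_right (by simp) ENNReal.ofReal_ne_top).1 h3
  · -- upper bound
    intro a b hab
    have hFG : Good (sh (T k) (mF k)) := (b4 k).sh (T k)
    set ρ : ℝ → ℂ := fun ξ => (sh (T k) (mG k) ξ + dsum T D ξ) - sh (T k) (mF k) ξ with hρ
    have hρi : Integrable ρ := hμi.sub hFG.int
    obtain ⟨B1, hB1⟩ := hnG.bdd
    obtain ⟨B2, hB2⟩ := hFG.bdd
    have hρB : ∀ ξ, ‖ρ ξ‖ ≤ B1 + (∑' i, c i) + B2 := by
      intro ξ
      have h1 : ‖dsum T D ξ‖ ≤ ∑' i, c i := by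
        refine (dsum_bound hcs hbd T ξ).trans ?_
        exact div_le_self (tsum_nonneg hcn) (by nlinarith [sq_nonneg ξ])
      calc ‖ρ ξ‖ ≤ ‖sh (T k) (mG k) ξ + dsum T D ξ‖ + ‖sh (T k) (mF k) ξ‖ := norm_sub_le _ _
        _ ≤ (‖sh (T k) (mG k) ξ‖ + ‖dsum T D ξ‖) + ‖sh (T k) (mF k) ξ‖ := by gcongr; exact norm_add_le _ _
        _ ≤ _ := by gcongr; exacts [hB1 ξ, hB2 ξ]
    have hEρ : ∀ x, E ρ x = E (mG k) (glue hs T x - T k) - E (mF k) (x - T k) := by
      intro x
      rw [hρ, E_sub hμi hFG.int, hEμ, E_sh]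
    have hbound : ∀ x, ‖E ρ x‖ ≤ 5 * ε k := by
      intro x
      have hp4 : π ≤ 4 := Real.pi_le_four
      have hek := hε0 k
      rw [hEρ]
      by_cases hx : ∃ i, |x - T i| ≤ 1
      · obtain ⟨i, hi⟩ := hx
        by_cases hik : i = k
        · subst hik
          rw [glue_near b2 hT20 (by linarith : |x - T i| ≤ 10), add_sub_cancel_left]
          have := b7 i (x - T i)
          linarith
        · have hxk : 1 ≤ |x - T k| := by
            have := sep hT20 (by linarith : |x - T i| ≤ 10) (Ne.symm hik)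
            linarith
          have h1 := b7 k (x - T k)
          rw [b2 k _ hxk] at h1
          have h2 : ‖E (mG k) (glue hs T x - T k) - E (mG k) (x - T k)‖ ≤ 4 * ε k := by
            rw [glue_near b2 hT20 (by linarith : |x - T i| ≤ 10)]
            have e : E (mG k) (T i + hs i (x - T i) - T k) - E (mG k) (x - T k) = D i (x - T i) := by
              simp only [hD, Dt]
              congr 2 <;> ring
            rw [e]
            refine (norm_le_of_decay (hDs i) (hDc i) (hoff i hik) _).trans ?_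
            have h3 : (1 / 2 : ℝ) ^ i ≤ 1 := pow_le_one₀ (by norm_num) (by norm_num)
            calc ε k * (1 / 2) ^ i * π ≤ ε k * 1 * 4 := by gcongr
              _ = 4 * ε k := by ring
          calc ‖E (mG k) (glue hs T x - T k) - E (mF k) (x - T k)‖
              = ‖(E (mG k) (glue hs T x - T k) - E (mG k) (x - T k)) + (E (mG k) (x - T k) - E (mF k) (x - T k))‖ := by
                congr 1; ring
            _ ≤ _ := norm_add_le _ _
            _ ≤ 4 * ε k + ε k := add_le_add h2 h1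
            _ = 5 * ε k := by ring
      · push Not at hx
        rw [glue_far b2 fun i => (hx i).le]
        have h1 := b7 k (x - T k)
        rw [b2 k _ (hx k).le] at h1
        linarith
    obtain ⟨c', hc'⟩ := proj_bound hρi hρB (M := 5 * ε k) (by have := hε0 k; positivity) hbound hab
    refine ⟨c', ?_⟩
    have hcut : cutP ρ = cutP (fun ξ => sh (T k) (mG k) ξ + dsum T D ξ) := by
      funext ξ
      unfold cutP
      by_cases h : ξ ∈ Set.Ioi (0:ℝ)
      · rw [Set.indicator_of_mem h, Set.indicator_of_mem h, hρ]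
        have : sh (T k) (mF k) ξ = 0 := by
          unfold sh
          rw [b6 k ξ h, mul_zero]
        simp only [this, sub_zero]
      · rw [Set.indicator_of_notMem h, Set.indicator_of_notMem h]
    rw [hcut] at hc'
    refine hc'.trans ?_
    have h5 := hε1 k
    have h6 : 0 < b - a := by linarith
    calc 3 * (5 * ε k) * (b - a) ≤ 3 * (5 * (1 / ((k : ℝ) + 1))) * (b - a) := by gcongr
      _ = _ := by ring

end Pool.Agent.W756.ML
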