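import Pool.Agent.W756.ML1

/-! Poisson integrals of Fourier syntheses. -/

set_option autoImplicit false

open MeasureTheory Filter Topology Complex
open scoped FourierTransform Real ENNReal

namespace Pool.Agent.W756.ML

/-- Poisson integral of `f` at the point `z` of the upper half-plane -/
noncomputable def poisson (f : ℝ → ℂ) (z : ℂ) : ℂ :=
  ∫ t : ℝ, ((z.im / (π * ((t - z.re) ^ 2 + z.im ^ 2)) : ℝ) : ℂ) * f t

theorem integrable_pk0 {y : ℝ} (hy : 0 < y) : Integrable fun t : ℝ => y / (π * (t ^ 2 + y ^ 2)) := by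
  have h1 : Integrable fun t : ℝ => (1 / (π * y)) * (1 + (t / y) ^ 2)⁻¹ :=
    (integrable_inv_one_add_sq.comp_div hy.ne').const_mul _
  refine h1.congr (Eventually.of_forall fun t => ?_)
  simp only
  have : (0:ℝ) < t ^ 2 + y ^ 2 := by positivity
  have hp := Real.pi_pos
  field_simp
  ring

theorem integrable_pk {y : ℝ} (hy : 0 < y) (x : ℝ) :
    Integrable fun t : ℝ => y / (π * ((t - x) ^ 2 + y ^ 2)) :=
  (integrable_pk0 hy).comp_sub_right x

theorem pk_nonneg {y : ℝ} (hy : 0 < y) (x t : ℝ) : 0 ≤ y / (π * ((t - x) ^ 2 + y ^ 2)) := by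
  positivity

theorem integrable_k {y : ℝ} (hy : 0 < y) :
    Integrable fun ξ : ℝ => Complex.exp (-(2 * π * y * |ξ| : ℝ)) := by
  have h0 : 0 < 2 * π * y := by positivity
  rw [← integrableOn_univ, ← Set.Iic_union_Ioi (a := (0 : ℝ))]
  refine IntegrableOn.union ?_ ?_
  · have h1 := integrableOn_exp_mul_complex_Iic (a := ((2 * π * y : ℝ) : ℂ)) (by simpa using h0) 0
    refine (integrableOn_congr_fun ?_ measurableSet_Iic).2 h1
    intro ξ hξ
    simp only
    rw [abs_of_nonpos hξ]
    congr 1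
    push_cast; ring
  · have h1 := integrableOn_exp_mul_complex_Ioi (a := ((-(2 * π * y) : ℝ) : ℂ)) (by simpa using h0) 0
    refine (integrableOn_congr_fun ?_ measurableSet_Ioi).2 h1
    intro ξ hξ
    simp only
    rw [abs_of_pos hξ]
    congr 1
    push_cast; ring

theorem fourier_k {y : ℝ} (hy : 0 < y) (t : ℝ) :
    𝓕 (fun ξ : ℝ => Complex.exp (-(2 * π * y * |ξ| : ℝ))) t
      = ((y / (π * (t ^ 2 + y ^ 2)) : ℝ) : ℂ) := by
  rw [Real.fourier_eq']
  have e1 : ∀ ξ : ℝ, Complex.exp ((↑(-2 * π * inner ℝ ξ t) : ℂ) * I) • Complex.exp (-(2 * π * y * |ξ| : ℝ))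
      = Complex.exp (-(2 * π * I * (ξ * t))) * Complex.exp (-(2 * π * y * |ξ| : ℝ)) := by
    intro ξ
    have : (inner ℝ ξ t : ℝ) = ξ * t := by simp [mul_comm]
    rw [this, smul_eq_mul]
    congr 2
    push_cast
    ring
  simp_rw [e1]
  have hint : Integrable fun ξ : ℝ =>
      Complex.exp (-(2 * π * I * (ξ * t))) * Complex.exp (-(2 * π * y * |ξ| : ℝ)) := by
    refine (integrable_k hy).bdd_mul (c := 1) ?_ ?_
    · exact (by fun_prop : Continuous fun ξ : ℝ => Complex.exp (-(2 * π * I * (ξ * t)))).aestronglyMeasurable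
    · refine Eventually.of_forall fun ξ => ?_
      have := norm_exp_real' (-ξ) t
      rw [show (-(2 * π * I * (ξ * t)) : ℂ) = 2 * π * I * (((-ξ : ℝ) : ℂ) * t) by push_cast; ring]
      exact this.le
  rw [← intervalIntegral.integral_Iic_add_Ioi (b := 0) hint.integrableOn hint.integrableOn]
  set a1 : ℂ := -(2 * π * I * t) + 2 * π * y with ha1
  set a2 : ℂ := -(2 * π * I * t) - 2 * π * y with ha2
  have r1 : 0 < a1.re := by
    simp [ha1]; positivity
  have r2 : a2.re < 0 := by
    simp [ha2]; positivity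
  have i1 : ∫ ξ in Set.Iic (0 : ℝ), Complex.exp (-(2 * π * I * (ξ * t))) * Complex.exp (-(2 * π * y * |ξ| : ℝ))
      = ∫ ξ in Set.Iic (0 : ℝ), Complex.exp (a1 * ξ) := by
    refine setIntegral_congr_fun measurableSet_Iic fun ξ hξ => ?_
    rw [← Complex.exp_add, abs_of_nonpos hξ]
    congr 1
    rw [ha1]; push_cast; ring
  have i2 : ∫ ξ in Set.Ioi (0 : ℝ), Complex.exp (-(2 * π * I * (ξ * t))) * Complex.exp (-(2 * π * y * |ξ| : ℝ))
      = ∫ ξ in Set.Ioi (0 : ℝ), Complex.exp (a2 * ξ) := by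
    refine setIntegral_congr_fun measurableSet_Ioi fun ξ hξ => ?_
    rw [← Complex.exp_add, abs_of_pos hξ]
    congr 1
    rw [ha2]; push_cast; ring
  rw [i1, i2, integral_exp_mul_complex_Iic r1, integral_exp_mul_complex_Ioi r2]
  simp only [Complex.ofReal_zero, mul_zero, Complex.exp_zero]
  have hn1 : a1 ≠ 0 := fun h => by rw [h] at r1; simp at r1
  have hn2 : a2 ≠ 0 := fun h => by rw [h] at r2; simp at r2
  have hpos : (t ^ 2 + y ^ 2 : ℝ) ≠ 0 := by positivity
  have hpc : ((t : ℂ) ^ 2 + (y : ℂ) ^ 2) ≠ 0 := by exact_mod_cast hpos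
  have hpi : (π : ℂ) ≠ 0 := by exact_mod_cast Real.pi_ne_zero
  have hprod : a1 * a2 = -(4 * π ^ 2 * (t ^ 2 + y ^ 2)) := by
    rw [ha1, ha2]
    ring_nf
    rw [Complex.I_sq]
    ring
  have h3 : (1 : ℂ) / a1 + -1 / a2 = (a2 - a1) / (a1 * a2) := by
    field_simp
    ring
  rw [h3, hprod, ha1, ha2]
  push_cast
  field_simp
  ring

theorem pk_fourier {y : ℝ} (hy : 0 < y) (x ξ : ℝ) :
    ∫ t : ℝ, ((y / (π * ((t - x) ^ 2 + y ^ 2)) : ℝ) : ℂ) * Complex.exp (2 * π * I * (ξ * t))
      = Complex.exp (2 * π * I * (ξ * x)) * Complex.exp (-(2 * π * y * |ξ| : ℝ)) := by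
  have hk := integrable_k hy
  have hF : 𝓕 (fun ξ : ℝ => Complex.exp (-(2 * π * y * |ξ| : ℝ)))
      = fun t : ℝ => ((y / (π * (t ^ 2 + y ^ 2)) : ℝ) : ℂ) := funext fun t => fourier_k hy t
  have hc : Continuous fun ξ : ℝ => Complex.exp (-(2 * π * y * |ξ| : ℝ)) := by
    have : Continuous fun ξ : ℝ => |ξ| := continuous_abs
    fun_prop
  have hinv := E_fourier hc hk (by rw [hF]; exact (integrable_pk0 hy).ofReal)
  have h1 := congrFun hinv ξ
  rw [E_def, hF] at h1
  have h2 : ∫ t : ℝ, ((y / (π * ((t - x) ^ 2 + y ^ 2)) : ℝ) : ℂ) * Complex.exp (2 * π * I * (ξ * t))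
      = ∫ t : ℝ, ((y / (π * (t ^ 2 + y ^ 2)) : ℝ) : ℂ) * Complex.exp (2 * π * I * (ξ * (t + x : ℝ))) := by
    rw [← integral_add_right_eq_self _ x]
    refine integral_congr_ae (Eventually.of_forall fun t => ?_)
    simp only [add_sub_cancel_right]
  rw [h2, ← h1, ← integral_const_mul]
  refine integral_congr_ae (Eventually.of_forall fun t => ?_)
  simp only
  rw [show (2 * π * I * (ξ * ((t + x : ℝ) : ℂ)) : ℂ) = 2 * π * I * (ξ * x) + 2 * π * I * (t * ξ) by
    push_cast; ring, Complex.exp_add]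
  ring

theorem poisson_E {m : ℝ → ℂ} (hm : Integrable m) {z : ℂ} (hz : 0 < z.im) :
    poisson (E m) z = ∫ ξ : ℝ, Complex.exp (2 * π * I * (ξ * z.re)) *
      Complex.exp (-(2 * π * z.im * |ξ| : ℝ)) * m ξ := by
  unfold poisson
  have h1 : ∀ t : ℝ, ((z.im / (π * ((t - z.re) ^ 2 + z.im ^ 2)) : ℝ) : ℂ) * E m t
      = ∫ ξ : ℝ, ((z.im / (π * ((t - z.re) ^ 2 + z.im ^ 2)) : ℝ) : ℂ) *
        (Complex.exp (2 * π * I * (ξ * t)) * m ξ) := by
    intro t
    rw [E_def, integral_const_mul]
  simp_rw [h1]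
  rw [integral_integral_swap]
  · refine integral_congr_ae (Eventually.of_forall fun ξ => ?_)
    simp only
    rw [← pk_fourier hz z.re ξ, ← integral_mul_const]
    refine integral_congr_ae (Eventually.of_forall fun t => ?_)
    simp only; ring
  · have h2 : Integrable (fun p : ℝ × ℝ => ((z.im / (π * ((p.1 - z.re) ^ 2 + z.im ^ 2)) : ℝ) : ℂ) * m p.2)
        (volume.prod volume) := ((integrable_pk hz z.re).ofReal (𝕜 := ℂ)).mul_prod hm
    have h3 := h2.bdd_mul (c := 1) (f := fun p : ℝ × ℝ => Complex.exp (2 * π * I * (p.2 * p.1)))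
      (by exact (by fun_prop : Continuous fun p : ℝ × ℝ => Complex.exp (2 * π * I * (p.2 * p.1))).aestronglyMeasurable)
      (Eventually.of_forall fun p => (norm_exp_real' p.2 p.1).le)
    refine h3.congr (Eventually.of_forall fun p => ?_)
    simp only [Function.uncurry]
    ring

/-- the Poisson integral is holomorphic if the density lives on the positive half-line -/
theorem poisson_E_holo {m : ℝ → ℂ} (hm : Integrable m) (h0 : ∀ ξ < 0, m ξ = 0) :
    DifferentiableOn ℂ (poisson (E m)) {z | 0 < z.im} := by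
  have hopen : IsOpen {z : ℂ | 0 < z.im} := isOpen_lt continuous_const Complex.continuous_im
  have h1 : ∀ z ∈ {z : ℂ | 0 < z.im}, poisson (E m) z
      = ∫ ξ : ℝ, Complex.exp (2 * π * I * (ξ * z)) * m ξ := by
    intro z hz
    rw [poisson_E hm hz]
    refine integral_congr_ae (Eventually.of_forall fun ξ => ?_)
    simp only
    rcases lt_or_ge ξ 0 with h | h
    · rw [h0 ξ h]; simp
    · rw [← Complex.exp_add, abs_of_nonneg h]
      congr 2
      have hzz : z = z.re + z.im * I := (Complex.re_add_im z).symm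
      conv_rhs => rw [hzz]
      push_cast
      have hI : I * I = -1 := Complex.I_mul_I
      linear_combination (-(2 * π * ξ * z.im : ℂ)) * hI
  refine DifferentiableOn.congr ?_ h1
  intro z hz
  have hz' : 0 < z.im := hz
  set δ := z.im / 2 with hδ
  have hδ0 : 0 < δ := by positivity
  have hnb : Metric.ball z δ ⊆ {w : ℂ | δ < w.im} := by
    intro w hw
    rw [Metric.mem_ball, Complex.dist_eq] at hw
    have := (Complex.abs_im_le_norm (w - z)).trans_lt hw
    rw [Complex.sub_im, abs_lt] at this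
    show δ < w.im
    rw [hδ] at *; linarith
  have hnorm : ∀ (w : ℂ) (ξ : ℝ), ‖Complex.exp (2 * π * I * (ξ * w))‖ = Real.exp (-(2 * π * ξ * w.im)) := by
    intro w ξ
    rw [Complex.norm_exp]
    congr 1
    simp [Complex.mul_re, Complex.mul_im]
    ring
  have key := hasDerivAt_integral_of_dominated_loc_of_deriv_le
    (F := fun (w : ℂ) (ξ : ℝ) => Complex.exp (2 * π * I * (ξ * w)) * m ξ)
    (F' := fun (w : ℂ) (ξ : ℝ) => Complex.exp (2 * π * I * (ξ * w)) * (2 * π * I * ξ) * m ξ)
    (x₀ := z) (s := Metric.ball z δ) (bound := fun ξ => (1 / δ) * ‖m ξ‖) (μ := volume)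
    (Metric.ball_mem_nhds z hδ0) ?_ ?_ ?_ ?_ ?_ ?_
  · exact key.2.differentiableAt.differentiableWithinAt
  · exact Eventually.of_forall fun w =>
      ((by fun_prop : Continuous fun ξ : ℝ => Complex.exp (2 * π * I * (ξ * w))).aestronglyMeasurable).mul
        hm.aestronglyMeasurable
  · refine Integrable.mono' (g := fun ξ => ‖m ξ‖) hm.norm
      (((by fun_prop : Continuous fun ξ : ℝ => Complex.exp (2 * π * I * (ξ * z))).aestronglyMeasurable).mul
        hm.aestronglyMeasurable) (Eventually.of_forall fun ξ => ?_)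
    rcases lt_or_ge ξ 0 with h | h
    · rw [h0 ξ h]; simp
    · rw [norm_mul, hnorm]
      have : Real.exp (-(2 * π * ξ * z.im)) ≤ 1 := by
        rw [Real.exp_le_one_iff]
        have := Real.pi_pos
        have : 0 ≤ 2 * π * ξ * z.im := by positivity
        linarith
      nlinarith [norm_nonneg (m ξ)]
  · exact (((by fun_prop : Continuous fun ξ : ℝ => Complex.exp (2 * π * I * (ξ * z)) * (2 * π * I * ξ)).aestronglyMeasurable).mul
        hm.aestronglyMeasurable)
  · refine Eventually.of_forall fun ξ w hw => ?_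
    have hw' : δ < w.im := hnb hw
    rcases lt_or_ge ξ 0 with h | h
    · rw [h0 ξ h]; simp
    · rw [norm_mul, norm_mul, hnorm]
      have hn : ‖(2 * π * I * ξ : ℂ)‖ = 2 * π * ξ := by
        rw [norm_mul, norm_mul, norm_mul, Complex.norm_I, Complex.norm_real, Complex.norm_real]
        simp [abs_of_pos Real.pi_pos, abs_of_nonneg h]
      rw [hn]
      have hp := Real.pi_pos
      have h2 : Real.exp (-(2 * π * ξ * w.im)) * (2 * π * ξ) ≤ 1 / δ := by
        have h3 : Real.exp (-(2 * π * ξ * w.im)) ≤ Real.exp (-(2 * π * ξ * δ)) := by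
          apply Real.exp_le_exp.2
          have : 0 ≤ 2 * π * ξ := by positivity
          nlinarith
        have h4 : 2 * π * ξ * δ + 1 ≤ Real.exp (2 * π * ξ * δ) := Real.add_one_le_exp _
        have h5 : 0 ≤ 2 * π * ξ := by positivity
        calc Real.exp (-(2 * π * ξ * w.im)) * (2 * π * ξ)
            ≤ Real.exp (-(2 * π * ξ * δ)) * (2 * π * ξ) := by gcongr
          _ = (2 * π * ξ) / Real.exp (2 * π * ξ * δ) := by rw [Real.exp_neg]; ring
          _ ≤ 1 / δ := by
              rw [div_le_div_iff₀ (Real.exp_pos _) hδ0]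
              linarith
      exact mul_le_mul_of_nonneg_right h2 (norm_nonneg _)
  · exact hm.norm.const_mul _
  · refine Eventually.of_forall fun ξ w _ => ?_
    have h1 : HasDerivAt (fun w : ℂ => (2 * π * I * (ξ * w) : ℂ)) (2 * π * I * ξ) w := by
      have := (hasDerivAt_id w).const_mul (2 * π * I * ξ : ℂ)
      simp only [mul_one, id] at this
      refine this.congr_of_eventuallyEq (Eventually.of_forall fun z => ?_)
      simp only; ring
    exact (h1.cexp).mul_const (m ξ)

end Pool.Agent.W756.ML
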