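import Pool.Agent.W756.ML2
import Pool.Agent.Helper625.Planch

/-! The oscillation bound for the analytic projection of a bounded function. -/

set_option autoImplicit false

open MeasureTheory Filter Topology Complex
open scoped FourierTransform Real ENNReal ContDiff Convolution

namespace Pool.Agent.W756.ML

section schwartz

variable {f : ℝ → ℂ}

theorem cc_schwartz (hf : ContDiff ℝ ∞ f) (hc : HasCompactSupport f) :
    ∃ g : SchwartzMap ℝ ℂ, (g : ℝ → ℂ) = f := ⟨hc.toSchwartzMap hf, rfl⟩

theorem cc_integrable (hf : ContDiff ℝ ∞ f) (hc : HasCompactSupport f) : Integrable f := by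
  obtain ⟨g, rfl⟩ := cc_schwartz hf hc
  exact g.integrable

theorem cc_fourier_schwartz (hf : ContDiff ℝ ∞ f) (hc : HasCompactSupport f) :
    ∃ g : SchwartzMap ℝ ℂ, (g : ℝ → ℂ) = 𝓕 f := by
  obtain ⟨g, rfl⟩ := cc_schwartz hf hc
  exact ⟨𝓕 g, SchwartzMap.fourier_coe g⟩

theorem cc_fourier_integrable (hf : ContDiff ℝ ∞ f) (hc : HasCompactSupport f) :
    Integrable (𝓕 f) := by
  obtain ⟨g, hg⟩ := cc_fourier_schwartz hf hc
  rw [← hg]
  exact g.integrable

theorem cc_fourier_pow (hf : ContDiff ℝ ∞ f) (hc : HasCompactSupport f) (k : ℕ) :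
    Integrable fun ξ : ℝ => |ξ| ^ k * ‖𝓕 f ξ‖ := by
  obtain ⟨g, hg⟩ := cc_fourier_schwartz hf hc
  rw [← hg]
  simpa using g.integrable_pow_mul volume k

theorem cc_E_fourier (hf : ContDiff ℝ ∞ f) (hc : HasCompactSupport f) : E (𝓕 f) = f :=
  E_fourier hf.continuous (cc_integrable hf hc) (cc_fourier_integrable hf hc)

theorem norm_fourier_le (f : ℝ → ℂ) (ξ : ℝ) : ‖𝓕 f ξ‖ ≤ ∫ x, ‖f x‖ :=
  VectorFourier.norm_fourierIntegral_le_integral_norm _ _ _ _ _

end schwartz

theorem E_eq_fourier_neg (m : ℝ → ℂ) (x : ℝ) : E m x = 𝓕 m (-x) := by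
  unfold E
  rw [Real.fourierInv_eq_fourier_neg]

/-- Plancherel -/
theorem E_plancherel {m : ℝ → ℂ} (hm : Integrable m) (h2 : MemLp m 2) :
    MemLp (E m) 2 ∧ ∫ x, ‖E m x‖ ^ 2 = ∫ ξ, ‖m ξ‖ ^ 2 := by
  obtain ⟨h1, h3⟩ := Pool.Agent.Helper625.Planch.plancherel m hm h2
  have he : E m = fun x => 𝓕 m (-x) := funext (E_eq_fourier_neg m)
  constructor
  · rw [he]
    exact h1.comp_measurePreserving (Measure.measurePreserving_neg volume)
  · rw [← h3, he]
    exact integral_neg_eq_self (fun x => ‖𝓕 m x‖ ^ 2) volume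

/-- products -/
theorem E_mul {m n : ℝ → ℂ} (hm : Integrable m) (hn : Integrable n) (x : ℝ) :
    E (m ⋆[ContinuousLinearMap.mul ℂ ℂ, volume] n) x = E m x * E n x := by
  simp only [E_eq_fourier_neg]
  exact Real.fourier_mul_convolution_eq hm hn (-x)

theorem integrable_conv {m n : ℝ → ℂ} (hm : Integrable m) (hn : Integrable n) :
    Integrable (m ⋆[ContinuousLinearMap.mul ℂ ℂ, volume] n) :=
  hm.integrable_convolution _ hn

theorem norm_conv_le {m n : ℝ → ℂ} (hm : Integrable m) {B : ℝ} (hB : ∀ ξ, ‖n ξ‖ ≤ B) (ξ : ℝ) :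
    ‖(m ⋆[ContinuousLinearMap.mul ℂ ℂ, volume] n) ξ‖ ≤ (∫ t, ‖m t‖) * B := by
  unfold MeasureTheory.convolution
  rw [← integral_mul_const]
  refine norm_integral_le_of_norm_le (hm.norm.mul_const B) (Eventually.of_forall fun t => ?_)
  simp only [ContinuousLinearMap.mul_apply', norm_mul]
  gcongr
  exact hB _

theorem memLp_two {m : ℝ → ℂ} (hm : Integrable m) {B : ℝ} (hB : ∀ ξ, ‖m ξ‖ ≤ B) : MemLp m 2 := by
  refine (memLp_two_iff_integrable_sq_norm hm.aestronglyMeasurable).2 ?_
  refine (hm.norm.const_mul B).mono' ((hm.aestronglyMeasurable.norm).pow 2)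
    (Eventually.of_forall fun ξ => ?_)
  rw [Real.norm_of_nonneg (by positivity), sq]
  exact mul_le_mul_of_nonneg_right (hB ξ) (norm_nonneg _)

/-- the density cut to positive frequencies -/
noncomputable def cutP (m : ℝ → ℂ) : ℝ → ℂ := Set.indicator (Set.Ioi 0) m

/-- the density cut to nonpositive frequencies -/
noncomputable def cutN (m : ℝ → ℂ) : ℝ → ℂ := Set.indicator (Set.Iic 0) m

theorem cutP_integrable {m : ℝ → ℂ} (hm : Integrable m) : Integrable (cutP m) :=
  hm.indicator measurableSet_Ioi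

theorem cutN_integrable {m : ℝ → ℂ} (hm : Integrable m) : Integrable (cutN m) :=
  hm.indicator measurableSet_Iic

theorem cutP_norm_le (m : ℝ → ℂ) (ξ : ℝ) : ‖cutP m ξ‖ ≤ ‖m ξ‖ := norm_indicator_le_norm_self _ _

theorem cutN_norm_le (m : ℝ → ℂ) (ξ : ℝ) : ‖cutN m ξ‖ ≤ ‖m ξ‖ := norm_indicator_le_norm_self _ _

theorem cut_add (m : ℝ → ℂ) (ξ : ℝ) : cutP m ξ + cutN m ξ = m ξ := by
  unfold cutP cutN
  rcases le_or_gt ξ 0 with h | h
  · rw [Set.indicator_of_notMem (by simpa using h), Set.indicator_of_mem (by simpa using h), zero_add]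
  · rw [Set.indicator_of_mem (by simpa using h), Set.indicator_of_notMem (by simpa using h), add_zero]

theorem E_cut {m : ℝ → ℂ} (hm : Integrable m) (x : ℝ) : E (cutP m) x + E (cutN m) x = E m x := by
  rw [← E_add (cutP_integrable hm) (cutN_integrable hm)]
  congr 1
  funext ξ
  exact cut_add m ξ

/-- the regularised difference kernel in frequency -/
noncomputable def Kd (ε x c : ℝ) (ξ : ℝ) : ℂ :=
  if 0 < ξ then Complex.exp (-(2 * π * ε * ξ : ℝ)) *
    (Complex.exp (2 * π * I * (ξ * x)) - Complex.exp (2 * π * I * (ξ * c))) else 0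

theorem Kd_continuous (ε x c : ℝ) : Continuous (Kd ε x c) := by
  unfold Kd
  have h := Continuous.if_le (f' := fun _ : ℝ => (0 : ℂ)) (g' := fun ξ : ℝ => Complex.exp (-(2 * π * ε * ξ : ℝ)) *
    (Complex.exp (2 * π * I * (ξ * x)) - Complex.exp (2 * π * I * (ξ * c))))
    (f := fun ξ : ℝ => ξ) (g := fun _ : ℝ => (0 : ℝ)) continuous_const (by fun_prop) continuous_id
    continuous_const (by intro ξ hξ; rw [hξ]; simp)
  refine h.congr fun ξ => ?_
  by_cases hξ : ξ ≤ 0
  · rw [if_pos hξ, if_neg (not_lt.2 hξ)]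
  · rw [if_neg hξ, if_pos (not_le.1 hξ)]

theorem Kd_norm_le {ε : ℝ} (hε : 0 < ε) (x c ξ : ℝ) : ‖Kd ε x c ξ‖ ≤ 2 := by
  unfold Kd
  split_ifs with h
  · rw [norm_mul, Complex.norm_exp]
    have h1 : Real.exp ((-(2 * π * ε * ξ : ℝ) : ℂ)).re ≤ 1 := by
      rw [Real.exp_le_one_iff]
      have : 0 ≤ 2 * π * ε * ξ := by positivity
      rw [← Complex.ofReal_neg, Complex.ofReal_re]
      linarith
    have h2 : ‖Complex.exp (2 * π * I * (ξ * x)) - Complex.exp (2 * π * I * (ξ * c))‖ ≤ 2 := by
      refine (norm_sub_le _ _).trans ?_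
      rw [norm_exp_real', norm_exp_real']
      norm_num
    calc _ ≤ 1 * 2 := mul_le_mul h1 h2 (norm_nonneg _) zero_le_one
      _ = 2 := by norm_num
  · simp

theorem Kd_integrable {ε : ℝ} (hε : 0 < ε) (x c : ℝ) : Integrable (Kd ε x c) := by
  have h0 : 0 < 2 * π * ε := by positivity
  have h1 : IntegrableOn (fun ξ : ℝ => 2 * Real.exp (-(2 * π * ε) * ξ)) (Set.Ioi 0) :=
    (integrableOn_exp_mul_Ioi (by linarith) 0).const_mul 2
  have h2 : Integrable (Set.indicator (Set.Ioi (0:ℝ)) fun ξ : ℝ => 2 * Real.exp (-(2 * π * ε) * ξ)) :=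
    (integrable_indicator_iff measurableSet_Ioi).2 h1
  refine h2.mono' (Kd_continuous ε x c).aestronglyMeasurable (Eventually.of_forall fun ξ => ?_)
  unfold Kd
  split_ifs with h
  · rw [Set.indicator_of_mem (by simpa using h), norm_mul, Complex.norm_exp]
    have h2 : ‖Complex.exp (2 * π * I * (ξ * x)) - Complex.exp (2 * π * I * (ξ * c))‖ ≤ 2 := by
      refine (norm_sub_le _ _).trans ?_
      rw [norm_exp_real', norm_exp_real']
      norm_num
    have h3 : Real.exp ((-(2 * π * ε * ξ : ℝ) : ℂ)).re = Real.exp (-(2 * π * ε) * ξ) := by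
      rw [← Complex.ofReal_neg, Complex.ofReal_re]
      congr 1; ring
    rw [h3]
    nlinarith [Real.exp_pos (-(2 * π * ε) * ξ)]
  · rw [Set.indicator_of_notMem (by simpa using h)]
    simp

theorem Kd_fourier {ε : ℝ} (hε : 0 < ε) (x c t : ℝ) :
    𝓕 (Kd ε x c) t = I * (x - c) / (2 * π * (ε - I * (x - t)) * (ε - I * (c - t))) := by
  rw [Real.fourier_eq']
  have e0 : ∀ ξ : ℝ, Complex.exp ((↑(-2 * π * inner ℝ ξ t) : ℂ) * I) • Kd ε x c ξ
      = Set.indicator (Set.Ioi (0:ℝ)) (fun ξ : ℝ => Complex.exp ((2 * π * I * (x - t) - 2 * π * ε) * ξ)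
        - Complex.exp ((2 * π * I * (c - t) - 2 * π * ε) * ξ)) ξ := by
    intro ξ
    have : (inner ℝ ξ t : ℝ) = ξ * t := by simp [mul_comm]
    rw [this, smul_eq_mul]
    unfold Kd
    split_ifs with h
    · rw [Set.indicator_of_mem (by simpa using h), mul_sub, mul_sub, ← Complex.exp_add,
        ← Complex.exp_add, ← Complex.exp_add, ← Complex.exp_add]
      congr 1
      · congr 1
        push_cast
        ring
      · congr 1
        push_cast
        ring
    · rw [Set.indicator_of_notMem (by simpa using h), mul_zero]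
  simp_rw [e0]
  rw [integral_indicator measurableSet_Ioi]
  have hp := Real.pi_pos
  have r1 : ((2 * π * I * (x - t) - 2 * π * ε : ℂ)).re < 0 := by
    simp; positivity
  have r2 : ((2 * π * I * (c - t) - 2 * π * ε : ℂ)).re < 0 := by
    simp; positivity
  rw [integral_sub (integrableOn_exp_mul_complex_Ioi r1 0) (integrableOn_exp_mul_complex_Ioi r2 0),
    integral_exp_mul_complex_Ioi r1, integral_exp_mul_complex_Ioi r2]
  simp only [Complex.ofReal_zero, mul_zero, Complex.exp_zero]
  have hpi : (π : ℂ) ≠ 0 := by exact_mod_cast Real.pi_ne_zero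
  have n1 : (ε - I * (x - t) : ℂ) ≠ 0 := by
    intro h
    have := congrArg Complex.re h
    simp at this
    exact hε.ne' this
  have n2 : (ε - I * (c - t) : ℂ) ≠ 0 := by
    intro h
    have := congrArg Complex.re h
    simp at this
    exact hε.ne' this
  have g1 : (2 * π * I * (x - t) - 2 * π * ε : ℂ) = -(2 * π * (ε - I * (x - t))) := by ring
  have g2 : (2 * π * I * (c - t) - 2 * π * ε : ℂ) = -(2 * π * (ε - I * (c - t))) := by ring
  rw [g1, g2]
  field_simp
  ring

/-- the far part -/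
theorem far_bound {m : ℝ → ℂ} (hm : Integrable m) {M ℓ c x : ℝ} (hM : 0 ≤ M) (hℓ : 0 < ℓ)
    (hb : ∀ t, ‖E m t‖ ≤ M) (h0 : ∀ t, |t - c| ≤ ℓ → E m t = 0) (hx : |x - c| ≤ ℓ / 2) :
    ‖E (cutP m) x - E (cutP m) c‖ ≤ M := by
  -- the estimate for positive `ε`
  have key : ∀ ε : ℝ, 0 < ε → ‖∫ ξ, m ξ * Kd ε x c ξ‖ ≤ M := by
    intro ε hε
    have hKi := Kd_integrable hε x c
    have hKc := Kd_continuous ε x c
    have hden : ∀ s : ℝ, s ≠ 0 ∨ True → (ε - I * s : ℂ) ≠ 0 := by
      intro s _ h
      have := congrArg Complex.re h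
      simp at this
      exact hε.ne' this
    have hnd : ∀ s : ℝ, ‖(ε - I * s : ℂ)‖ ^ 2 = ε ^ 2 + s ^ 2 := by
      intro s
      rw [← Complex.normSq_eq_norm_sq, Complex.normSq_apply]
      simp
      ring
    have hFn : ∀ t : ℝ, ‖𝓕 (Kd ε x c) t‖ = |x - c| / (2 * π * ‖(ε - I * (x - t : ℝ) : ℂ)‖ * ‖(ε - I * (c - t : ℝ) : ℂ)‖) := by
      intro t
      rw [Kd_fourier hε, norm_div, norm_mul, norm_mul, norm_mul, norm_mul, Complex.norm_I, one_mul]
      rw [show (x - c : ℂ) = ((x - c : ℝ) : ℂ) by push_cast; ring, Complex.norm_real, Real.norm_eq_abs]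
      rw [Complex.norm_real, Real.norm_eq_abs, abs_of_pos Real.pi_pos]
      simp
    -- integrability of the transform
    have hFi : Integrable (𝓕 (Kd ε x c)) := by
      have hFc : Continuous (𝓕 (Kd ε x c)) :=
        VectorFourier.fourierIntegral_continuous Real.continuous_fourierChar
          (innerSL ℝ).continuous₂ hKi
      have hi0 : ∀ c' : ℝ, Integrable fun t : ℝ => 1 / (ε ^ 2 + (c' - t) ^ 2) := by
        intro c'
        have h1 := (integrable_pk hε c').const_mul (π / ε)
        refine h1.congr (Eventually.of_forall fun t => ?_)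
        simp only
        have hp := Real.pi_pos
        have : (0:ℝ) < (t - c') ^ 2 + ε ^ 2 := by positivity
        rw [show (c' - t) ^ 2 = (t - c') ^ 2 by ring]
        field_simp
        ring
      refine (((hi0 x).add (hi0 c)).const_mul (|x - c| / (4 * π))).mono' hFc.aestronglyMeasurable
        (Eventually.of_forall fun t => ?_)
      rw [hFn t]
      set A := ‖(ε - I * (x - t : ℝ) : ℂ)‖ with hA
      set B := ‖(ε - I * (c - t : ℝ) : ℂ)‖ with hB
      have hA2 : A ^ 2 = ε ^ 2 + (x - t) ^ 2 := hnd (x - t)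
      have hB2 : B ^ 2 = ε ^ 2 + (c - t) ^ 2 := hnd (c - t)
      have hA0 : 0 < A := norm_pos_iff.2 (hden _ (Or.inr trivial))
      have hB0 : 0 < B := norm_pos_iff.2 (hden _ (Or.inr trivial))
      simp only [Pi.add_apply]
      rw [← hA2, ← hB2]
      have hp := Real.pi_pos
      have h3 : 1 / (A * B) ≤ (1 / A ^ 2 + 1 / B ^ 2) / 2 := by
        have : 0 ≤ (1 / A - 1 / B) ^ 2 := sq_nonneg _
        have e : (1 / A - 1 / B) ^ 2 = 1 / A ^ 2 + 1 / B ^ 2 - 2 * (1 / (A * B)) := by
          field_simp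
          ring
        linarith
      calc |x - c| / (2 * π * A * B) = |x - c| / (2 * π) * (1 / (A * B)) := by
            field_simp
        _ ≤ |x - c| / (2 * π) * ((1 / A ^ 2 + 1 / B ^ 2) / 2) := by gcongr
        _ = |x - c| / (4 * π) * (1 / A ^ 2 + 1 / B ^ 2) := by ring
    have hinv : E (𝓕 (Kd ε x c)) = Kd ε x c := E_fourier hKc hKi hFi
    have hswap : ∫ ξ, m ξ * Kd ε x c ξ = ∫ t, E m t * 𝓕 (Kd ε x c) t := by
      conv_lhs => rw [← hinv]
      have e1 : ∀ ξ : ℝ, m ξ * E (𝓕 (Kd ε x c)) ξ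
          = ∫ t : ℝ, m ξ * (Complex.exp (2 * π * I * (t * ξ)) * 𝓕 (Kd ε x c) t) := by
        intro ξ
        rw [E_def, integral_const_mul]
      have e2 : ∀ t : ℝ, E m t * 𝓕 (Kd ε x c) t
          = ∫ ξ : ℝ, Complex.exp (2 * π * I * (ξ * t)) * m ξ * 𝓕 (Kd ε x c) t := by
        intro t
        rw [E_def, integral_mul_const]
      simp_rw [e1, e2]
      rw [integral_integral_swap]
      · refine integral_congr_ae (Eventually.of_forall fun t => ?_)
        refine integral_congr_ae (Eventually.of_forall fun ξ => ?_)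
        simp only
        rw [mul_comm (t : ℂ) (ξ : ℂ)]
        ring
      · have h2 : Integrable (fun p : ℝ × ℝ => m p.1 * 𝓕 (Kd ε x c) p.2) (volume.prod volume) :=
          hm.mul_prod hFi
        have h3 := h2.bdd_mul (c := 1) (f := fun p : ℝ × ℝ => Complex.exp (2 * π * I * (p.2 * p.1)))
          (by exact (by fun_prop : Continuous fun p : ℝ × ℝ => Complex.exp (2 * π * I * (p.2 * p.1))).aestronglyMeasurable)
          (Eventually.of_forall fun p => (norm_exp_real' p.2 p.1).le)
        refine h3.congr (Eventually.of_forall fun p => ?_)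
        simp only [Function.uncurry]
        ring
    rw [hswap]
    have hP : ∫ t : ℝ, ℓ / (π * ((t - c) ^ 2 + ℓ ^ 2)) = 1 := by
      have := pk_fourier hℓ c 0
      simp only [Complex.ofReal_zero, zero_mul, mul_zero, Complex.exp_zero, mul_one, abs_zero,
        neg_zero] at this
      rw [integral_complex_ofReal] at this
      exact_mod_cast this
    calc ‖∫ t, E m t * 𝓕 (Kd ε x c) t‖ ≤ ∫ t, M * (ℓ / (π * ((t - c) ^ 2 + ℓ ^ 2))) := by
          refine norm_integral_le_of_norm_le ((integrable_pk hℓ c).const_mul M)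
            (Eventually.of_forall fun t => ?_)
          by_cases ht : |t - c| ≤ ℓ
          · rw [h0 t ht, zero_mul, norm_zero]
            exact mul_nonneg hM (pk_nonneg hℓ c t)
          · rw [not_le] at ht
            rw [norm_mul]
            refine mul_le_mul (hb t) ?_ (norm_nonneg _) hM
            rw [hFn t]
            set A := ‖(ε - I * (x - t : ℝ) : ℂ)‖ with hA
            set B := ‖(ε - I * (c - t : ℝ) : ℂ)‖ with hB
            have hA2 : A ^ 2 = ε ^ 2 + (x - t) ^ 2 := hnd (x - t)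
            have hB2 : B ^ 2 = ε ^ 2 + (c - t) ^ 2 := hnd (c - t)
            have hA0 : 0 ≤ A := norm_nonneg _
            have hB0 : 0 ≤ B := norm_nonneg _
            set u := |t - c| with hu
            have hu0 : 0 < u := hℓ.trans ht
            have hB1 : u ≤ B := by
              refine abs_le_of_sq_le_sq' ?_ hB0 |>.2
              rw [hB2, hu, sq_abs]
              nlinarith [sq_nonneg ε]
            have hxt : u / 2 ≤ |x - t| := by
              have h5 : |t - c| ≤ |x - t| + |x - c| := by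
                have := abs_sub_le t x c
                rw [abs_sub_comm t x] at this
                exact this
              linarith
            have hA1 : u / 2 ≤ A := by
              refine abs_le_of_sq_le_sq' ?_ hA0 |>.2
              rw [hA2]
              have : (u / 2) ^ 2 ≤ |x - t| ^ 2 := pow_le_pow_left₀ (by positivity) hxt 2
              rw [sq_abs] at this
              nlinarith [sq_nonneg ε]
            have hp := Real.pi_pos
            have h6 : |x - c| / (2 * π * A * B) ≤ (ℓ / 2) / (2 * π * (u / 2) * u) := by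
              gcongr
            refine h6.trans ?_
            have h7 : u ^ 2 = (t - c) ^ 2 := by rw [hu, sq_abs]
            rw [← h7]
            rw [div_le_div_iff₀ (by positivity) (by positivity)]
            have : ℓ ^ 2 ≤ u ^ 2 := pow_le_pow_left₀ hℓ.le ht.le 2
            nlinarith [mul_pos hℓ hp]
      _ = M := by rw [integral_const_mul, hP, mul_one]
  -- the limit
  have hlim : Tendsto (fun n : ℕ => ∫ ξ, m ξ * Kd (1 / ((n : ℝ) + 1)) x c ξ) atTop
      (𝓝 (E (cutP m) x - E (cutP m) c)) := by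
    have e : E (cutP m) x - E (cutP m) c
        = ∫ ξ, m ξ * (if 0 < ξ then (Complex.exp (2 * π * I * (ξ * x)) - Complex.exp (2 * π * I * (ξ * c))) else 0) := by
      rw [E_def, E_def, ← integral_sub (integrable_expmul (cutP_integrable hm) x)
        (integrable_expmul (cutP_integrable hm) c)]
      refine integral_congr_ae (Eventually.of_forall fun ξ => ?_)
      simp only [cutP]
      split_ifs with h
      · rw [Set.indicator_of_mem (by simpa using h)]; ring
      · rw [Set.indicator_of_notMem (by simpa using h)]; ring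
    rw [e]
    refine tendsto_integral_of_dominated_convergence (fun ξ => ‖m ξ‖ * 2) ?_ (hm.norm.mul_const 2) ?_ ?_
    · intro n
      exact hm.aestronglyMeasurable.mul (Kd_continuous _ x c).aestronglyMeasurable
    · intro n
      refine Eventually.of_forall fun ξ => ?_
      rw [norm_mul]
      gcongr
      exact Kd_norm_le (by positivity) x c ξ
    · refine Eventually.of_forall fun ξ => ?_
      refine Tendsto.const_mul _ ?_
      unfold Kd
      split_ifs with h
      · have h1 : Tendsto (fun n : ℕ => Complex.exp (-(2 * π * (1 / ((n : ℝ) + 1)) * ξ : ℝ))) atTop (𝓝 1) := by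
          have h2 : Tendsto (fun n : ℕ => (2 * π * (1 / ((n : ℝ) + 1)) * ξ : ℝ)) atTop (𝓝 (2 * π * 0 * ξ)) :=
            (tendsto_one_div_add_atTop_nhds_zero_nat.const_mul (2 * π)).mul_const ξ
          have h3 : Continuous fun s : ℝ => Complex.exp (-(s : ℂ)) := by fun_prop
          have h4 : Tendsto (fun n : ℕ => Complex.exp (-((2 * π * (1 / ((n : ℝ) + 1)) * ξ : ℝ) : ℂ))) atTop
              (𝓝 (Complex.exp (-((2 * π * 0 * ξ : ℝ) : ℂ)))) := (h3.tendsto _).comp h2
          have h5 : Complex.exp (-((2 * π * 0 * ξ : ℝ) : ℂ)) = 1 := by simp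
          rw [h5] at h4
          exact h4
        have h5 := h1.mul_const (Complex.exp (2 * π * I * (ξ * x)) - Complex.exp (2 * π * I * (ξ * c)))
        rw [one_mul] at h5
        exact h5
      · exact tendsto_const_nhds
  refine le_of_tendsto hlim.norm (Eventually.of_forall fun n => ?_)
  exact key _ (by positivity)

end Pool.Agent.W756.ML
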