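import Pool.Agent.W756.ML3

/-! The analytic projection of a bounded function has bounded mean oscillation. -/

set_option autoImplicit false

open MeasureTheory Filter Topology Complex
open scoped FourierTransform Real ENNReal ContDiff Convolution

namespace Pool.Agent.W756.ML

theorem proj_bound {m : ℝ → ℂ} (hm : Integrable m) {B : ℝ} (hB : ∀ ξ, ‖m ξ‖ ≤ B) {M : ℝ}
    (hM0 : 0 < M) (hM : ∀ x, ‖E m x‖ ≤ M) {a b : ℝ} (hab : a < b) :
    ∃ c : ℂ, ∫ x in a..b, ‖E (cutP m) x - c‖ ≤ 3 * M * (b - a) := by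
  set ℓ := b - a with hℓ
  have hℓ0 : 0 < ℓ := by rw [hℓ]; linarith
  set c0 := (a + b) / 2 with hc0
  set ψ : ContDiffBump c0 := ⟨ℓ, 2 * ℓ, hℓ0, by linarith⟩ with hψ
  set χ : ℝ → ℂ := fun x => ((ψ x : ℝ) : ℂ) with hχ
  have hχs : ContDiff ℝ ∞ χ := Complex.ofRealCLM.contDiff.comp ψ.contDiff
  have hχc : HasCompactSupport χ := ψ.hasCompactSupport.comp_left (g := ((↑) : ℝ → ℂ)) rfl
  set κ := 𝓕 χ with hκ
  have hκi : Integrable κ := cc_fourier_integrable hχs hχc
  have hEκ : E κ = χ := cc_E_fourier hχs hχc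
  set m1 := κ ⋆[ContinuousLinearMap.mul ℂ ℂ, volume] m with hm1
  have hm1i : Integrable m1 := integrable_conv hκi hm
  have hE1 : ∀ x, E m1 x = χ x * E m x := fun x => by rw [hm1, E_mul hκi hm, hEκ]
  have hB1 : ∀ ξ, ‖m1 ξ‖ ≤ (∫ t, ‖κ t‖) * B := fun ξ => norm_conv_le hκi hB ξ
  have hm12 : MemLp m1 2 := memLp_two hm1i hB1
  have hχ01 : ∀ x, ‖χ x‖ ≤ 1 := fun x => by
    simp only [hχ, Complex.norm_real, Real.norm_eq_abs]
    rw [abs_of_nonneg ψ.nonneg]
    exact ψ.le_one
  have hχ01' : ∀ x, ‖1 - χ x‖ ≤ 1 := fun x => by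
    have : (1 - χ x) = ((1 - ψ x : ℝ) : ℂ) := by simp [hχ]
    rw [this, Complex.norm_real, Real.norm_eq_abs, abs_of_nonneg (by linarith [ψ.le_one (x := x)])]
    linarith [ψ.nonneg (x := x)]
  set m2 : ℝ → ℂ := fun ξ => m ξ - m1 ξ with hm2
  have hm2i : Integrable m2 := hm.sub hm1i
  have hE2 : ∀ x, E m2 x = (1 - χ x) * E m x := fun x => by
    rw [hm2, E_sub hm hm1i, hE1]; ring
  have hfar : ∀ x, |x - c0| ≤ ℓ / 2 → ‖E (cutP m2) x - E (cutP m2) c0‖ ≤ M := by
    intro x hx
    refine far_bound hm2i hM0.le hℓ0 ?_ ?_ hx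
    · intro t
      rw [hE2, norm_mul]
      calc ‖1 - χ t‖ * ‖E m t‖ ≤ 1 * M := mul_le_mul (hχ01' t) (hM t) (norm_nonneg _) zero_le_one
        _ = M := one_mul M
    · intro t ht
      have : ψ t = 1 := ψ.one_of_mem_closedBall (by rw [Metric.mem_closedBall, Real.dist_eq]; exact ht)
      rw [hE2]
      simp [hχ, this]
  -- near part
  have hP := E_plancherel hm1i hm12
  have hcut1 : Integrable (cutP m1) := cutP_integrable hm1i
  have hcut12 : MemLp (cutP m1) 2 :=
    memLp_two hcut1 (fun ξ => (cutP_norm_le m1 ξ).trans (hB1 ξ))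
  have hPc := E_plancherel hcut1 hcut12
  have hsq1 : Integrable fun x => ‖E (cutP m1) x‖ ^ 2 :=
    (memLp_two_iff_integrable_sq_norm hPc.1.aestronglyMeasurable).1 hPc.1
  have hsqE : ∫ x, ‖E m1 x‖ ^ 2 ≤ 4 * ℓ * M ^ 2 := by
    have h1 : ∫ x, ‖E m1 x‖ ^ 2 ≤ ∫ x, Set.indicator (Set.Ioc (c0 - 2 * ℓ) (c0 + 2 * ℓ)) (fun _ => M ^ 2) x := by
      refine integral_mono_of_nonneg (Eventually.of_forall fun x => by positivity) ?_ ?_
      · rw [integrable_indicator_iff measurableSet_Ioc]
        exact integrableOn_const (by simp)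
      · refine Eventually.of_forall fun x => ?_
        simp only
        by_cases hx : x ∈ Set.Ioc (c0 - 2 * ℓ) (c0 + 2 * ℓ)
        · rw [Set.indicator_of_mem hx]
          refine pow_le_pow_left₀ (norm_nonneg _) ?_ 2
          rw [hE1, norm_mul]
          calc ‖χ x‖ * ‖E m x‖ ≤ 1 * M := mul_le_mul (hχ01 x) (hM x) (norm_nonneg _) zero_le_one
            _ = M := one_mul M
        · rw [Set.indicator_of_notMem hx]
          have hz : ψ x = 0 := by
            apply ψ.zero_of_le_dist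
            rw [Real.dist_eq]
            show 2 * ℓ ≤ |x - c0|
            rw [Set.mem_Ioc, not_and_or, not_lt, not_le] at hx
            rcases hx with h | h
            · rw [le_abs]; right; linarith
            · rw [le_abs]; left; linarith
          rw [hE1]
          simp [hχ, hz]
    refine h1.trans (le_of_eq ?_)
    rw [integral_indicator measurableSet_Ioc]
    simp only [integral_const, MeasurableSet.univ, Measure.restrict_apply, Set.univ_inter, smul_eq_mul,
      measureReal_restrict_apply, Real.volume_real_Ioc]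
    rw [max_eq_left (by linarith)]
    ring
  have hsqC : ∫ x, ‖E (cutP m1) x‖ ^ 2 ≤ 4 * ℓ * M ^ 2 := by
    rw [hPc.2]
    refine le_trans ?_ hsqE
    rw [hP.2]
    refine integral_mono_of_nonneg (Eventually.of_forall fun x => by positivity)
      ((memLp_two_iff_integrable_sq_norm hm12.aestronglyMeasurable).1 hm12)
      (Eventually.of_forall fun ξ => ?_)
    exact pow_le_pow_left₀ (norm_nonneg _) (cutP_norm_le m1 ξ) 2
  refine ⟨E (cutP m2) c0, ?_⟩
  have hc1 : Continuous (E (cutP m1)) := continuous_E hcut1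
  have hc2 : Continuous (E (cutP m2)) := continuous_E (cutP_integrable hm2i)
  have hc : Continuous (E (cutP m)) := continuous_E (cutP_integrable hm)
  have hsplit : ∀ x, E (cutP m) x = E (cutP m1) x + E (cutP m2) x := by
    intro x
    rw [← E_add hcut1 (cutP_integrable hm2i)]
    congr 1
    funext ξ
    simp only [cutP]
    by_cases h : ξ ∈ Set.Ioi (0:ℝ)
    · rw [Set.indicator_of_mem h, Set.indicator_of_mem h, Set.indicator_of_mem h, hm2]; ring
    · rw [Set.indicator_of_notMem h, Set.indicator_of_notMem h, Set.indicator_of_notMem h]; ring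
  have hpt : ∀ x ∈ Set.Icc a b, ‖E (cutP m) x - E (cutP m2) c0‖
      ≤ 1 / (4 * M) * ‖E (cutP m1) x‖ ^ 2 + M + M := by
    intro x hx
    have hx' : |x - c0| ≤ ℓ / 2 := by
      rw [abs_le, hc0, hℓ]
      constructor <;> linarith [hx.1, hx.2]
    have h1 := hfar x hx'
    have h2 : ‖E (cutP m) x - E (cutP m2) c0‖ ≤ ‖E (cutP m1) x‖ + ‖E (cutP m2) x - E (cutP m2) c0‖ := by
      rw [hsplit, add_sub_assoc]
      exact norm_add_le _ _
    have h3 : ‖E (cutP m1) x‖ ≤ 1 / (4 * M) * ‖E (cutP m1) x‖ ^ 2 + M := by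
      have h4 : 0 ≤ (‖E (cutP m1) x‖ - 2 * M) ^ 2 / (4 * M) := by positivity
      have h5 : (‖E (cutP m1) x‖ - 2 * M) ^ 2 / (4 * M)
          = 1 / (4 * M) * ‖E (cutP m1) x‖ ^ 2 + M - ‖E (cutP m1) x‖ := by
        field_simp; ring
      linarith
    linarith
  calc ∫ x in a..b, ‖E (cutP m) x - E (cutP m2) c0‖
      ≤ ∫ x in a..b, (1 / (4 * M) * ‖E (cutP m1) x‖ ^ 2 + M + M) := by
        refine intervalIntegral.integral_mono_on hab.le ?_ ?_ hpt
        · exact (by fun_prop : Continuous fun x => ‖E (cutP m) x - E (cutP m2) c0‖).intervalIntegrable _ _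
        · exact (by fun_prop : Continuous fun x => 1 / (4 * M) * ‖E (cutP m1) x‖ ^ 2 + M + M).intervalIntegrable _ _
    _ = 1 / (4 * M) * (∫ x in a..b, ‖E (cutP m1) x‖ ^ 2) + 2 * M * ℓ := by
        have hi : IntervalIntegrable (fun x => 1 / (4 * M) * ‖E (cutP m1) x‖ ^ 2) volume a b :=
          (by fun_prop : Continuous fun x => 1 / (4 * M) * ‖E (cutP m1) x‖ ^ 2).intervalIntegrable _ _
        have e1 : ∀ x, 1 / (4 * M) * ‖E (cutP m1) x‖ ^ 2 + M + M
            = 1 / (4 * M) * ‖E (cutP m1) x‖ ^ 2 + (2 * M) := fun x => by ring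
        simp_rw [e1]
        rw [intervalIntegral.integral_add hi intervalIntegrable_const,
          intervalIntegral.integral_const_mul, intervalIntegral.integral_const, smul_eq_mul, hℓ]
        ring
    _ ≤ 1 / (4 * M) * (4 * ℓ * M ^ 2) + 2 * M * ℓ := by
        gcongr
        refine le_trans ?_ hsqC
        rw [intervalIntegral.integral_of_le hab.le]
        exact setIntegral_le_integral hsq1 (Eventually.of_forall fun x => by positivity)
    _ = 3 * M * ℓ := by field_simp; ring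

/-- mean oscillation of `f` over `(a, b]` -/
noncomputable def osc (f : ℝ → ℂ) (a b : ℝ) : ℝ≥0∞ :=
  ENNReal.ofReal (b - a)⁻¹ * ∫⁻ x in Set.Ioc a b, ‖f x - (b - a)⁻¹ • ∫ y in a..b, f y‖ₑ

/-- the `BMO` seminorm -/
noncomputable def bmoNorm (f : ℝ → ℂ) : ℝ≥0∞ := ⨆ (a : ℝ) (b : ℝ) (_ : a < b), osc f a b

theorem osc_le_of {f : ℝ → ℂ} {a b : ℝ} (hab : a < b) (hf : IntervalIntegrable f volume a b) {c : ℂ}
    {K : ℝ} (h : ∫ x in a..b, ‖f x - c‖ ≤ K * (b - a)) : osc f a b ≤ ENNReal.ofReal (2 * K) := by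
  have hℓ : 0 < b - a := by linarith
  set μ := (b - a)⁻¹ • ∫ y in a..b, f y with hμ
  have hfc : IntervalIntegrable (fun x => f x - c) volume a b := hf.sub intervalIntegrable_const
  have hfm : IntervalIntegrable (fun x => f x - μ) volume a b := hf.sub intervalIntegrable_const
  have h1 : ‖μ - c‖ ≤ K := by
    have e : μ - c = (b - a)⁻¹ • ∫ y in a..b, (f y - c) := by
      rw [intervalIntegral.integral_sub hf intervalIntegrable_const, intervalIntegral.integral_const,
        smul_sub, smul_smul, inv_mul_cancel₀ hℓ.ne', one_smul]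
    rw [e, norm_smul, norm_inv, Real.norm_of_nonneg hℓ.le]
    have h2 := intervalIntegral.norm_integral_le_integral_norm (f := fun y => f y - c) (μ := volume) hab.le
    rw [inv_mul_le_iff₀ hℓ]
    calc _ ≤ _ := h2
      _ ≤ K * (b - a) := h
      _ = (b - a) * K := by ring
  have h2 : ∫ x in a..b, ‖f x - μ‖ ≤ 2 * K * (b - a) := by
    calc ∫ x in a..b, ‖f x - μ‖ ≤ ∫ x in a..b, (‖f x - c‖ + ‖μ - c‖) := by
          refine intervalIntegral.integral_mono_on hab.le hfm.norm (hfc.norm.add intervalIntegrable_const) ?_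
          intro x _
          calc ‖f x - μ‖ = ‖(f x - c) - (μ - c)‖ := by congr 1; ring
            _ ≤ ‖f x - c‖ + ‖μ - c‖ := norm_sub_le _ _
      _ = (∫ x in a..b, ‖f x - c‖) + (b - a) * ‖μ - c‖ := by
          rw [intervalIntegral.integral_add hfc.norm intervalIntegrable_const,
            intervalIntegral.integral_const, smul_eq_mul]
      _ ≤ K * (b - a) + (b - a) * K := by gcongr
      _ = 2 * K * (b - a) := by ring
  unfold osc
  rw [← hμ]
  have h3 : ∫⁻ x in Set.Ioc a b, ‖f x - μ‖ₑ = ENNReal.ofReal (∫ x in a..b, ‖f x - μ‖) := by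
    rw [intervalIntegral.integral_of_le hab.le, ofReal_integral_norm_eq_lintegral_enorm hfm.1]
  rw [h3, ← ENNReal.ofReal_mul (inv_nonneg.2 hℓ.le)]
  apply ENNReal.ofReal_le_ofReal
  rw [inv_mul_le_iff₀ hℓ]
  calc _ ≤ _ := h2
    _ = (b - a) * (2 * K) := by ring

theorem bmoNorm_le {f : ℝ → ℂ} (hf : Continuous f) {K : ℝ}
    (h : ∀ a b : ℝ, a < b → ∃ c : ℂ, ∫ x in a..b, ‖f x - c‖ ≤ K * (b - a)) :
    bmoNorm f ≤ ENNReal.ofReal (2 * K) := by
  unfold bmoNorm
  refine iSup_le fun a => iSup_le fun b => iSup_le fun hab => ?_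
  obtain ⟨c, hc⟩ := h a b hab
  exact osc_le_of hab (hf.intervalIntegrable _ _) hc

/-- testing the seminorm against a bounded function with mean zero -/
theorem pairing_le {f φ : ℝ → ℂ} (hf : Continuous f) (hφ : Continuous φ) {a b : ℝ} (hab : a < b)
    (h0 : ∫ x in a..b, φ x = 0) {B : ℝ} (hB : ∀ x, ‖φ x‖ ≤ B) :
    ENNReal.ofReal ‖∫ x in a..b, f x * φ x‖ ≤ ENNReal.ofReal (B * (b - a)) * bmoNorm f := by
  have hℓ : 0 < b - a := by linarith
  have hB0 : 0 ≤ B := (norm_nonneg _).trans (hB 0)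
  set μ := (b - a)⁻¹ • ∫ y in a..b, f y with hμ
  have h1 : osc f a b ≤ bmoNorm f := by
    unfold bmoNorm
    exact le_iSup_of_le a (le_iSup_of_le b (le_iSup_of_le hab le_rfl))
  refine le_trans ?_ (mul_le_mul_right h1 _)
  unfold osc
  rw [← hμ]
  have h3 : ∫⁻ x in Set.Ioc a b, ‖f x - μ‖ₑ = ENNReal.ofReal (∫ x in a..b, ‖f x - μ‖) := by
    rw [intervalIntegral.integral_of_le hab.le, ofReal_integral_norm_eq_lintegral_enorm]
    exact ((hf.sub continuous_const).intervalIntegrable a b).1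
  rw [h3, ← mul_assoc, ← ENNReal.ofReal_mul (by positivity), ← ENNReal.ofReal_mul (by positivity)]
  apply ENNReal.ofReal_le_ofReal
  have e : ∫ x in a..b, f x * φ x = ∫ x in a..b, (f x - μ) * φ x := by
    have i1 : IntervalIntegrable (fun x => f x * φ x) volume a b := (hf.mul hφ).intervalIntegrable _ _
    have i2 : IntervalIntegrable (fun x => μ * φ x) volume a b := (continuous_const.mul hφ).intervalIntegrable _ _
    have : ∀ x, (f x - μ) * φ x = f x * φ x - μ * φ x := fun x => by ring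
    simp_rw [this]
    rw [intervalIntegral.integral_sub i1 i2, intervalIntegral.integral_const_mul, h0, mul_zero, sub_zero]
  rw [e]
  calc ‖∫ x in a..b, (f x - μ) * φ x‖ ≤ ∫ x in a..b, ‖f x - μ‖ * B := by
        refine intervalIntegral.norm_integral_le_of_norm_le hab.le ?_ ?_
        · refine Eventually.of_forall fun x _ => ?_
          rw [norm_mul]
          gcongr
          exact hB x
        · exact (by fun_prop : Continuous fun x => ‖f x - μ‖ * B).intervalIntegrable _ _
    _ = B * (b - a) * (b - a)⁻¹ * ∫ x in a..b, ‖f x - μ‖ := by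
        rw [intervalIntegral.integral_mul_const]
        field_simp

end Pool.Agent.W756.ML
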