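import Pool.Agent.W756.ML4

/-! Non-stationary phase. -/

set_option autoImplicit false

open MeasureTheory Filter Topology Complex
open scoped FourierTransform Real ENNReal ContDiff

namespace Pool.Agent.W756.ML

theorem nonstat {G : ℝ → ℂ} (hG : ContDiff ℝ ∞ G) (hc : HasCompactSupport G) {φ : ℝ → ℝ}
    (hφ : ContDiff ℝ ∞ φ) (hpos : ∀ x, 0 < deriv φ x) :
    ∃ C : ℝ, 0 ≤ C ∧ ∀ N ξ : ℝ, 0 < N → 0 ≤ ξ →
      ‖∫ x, G x * Complex.exp (I * ((N * x + ξ * φ x : ℝ) : ℂ))‖ ≤ C / (N + ξ) ^ 2 := by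
  -- derivatives
  set g1 := deriv G with hg1
  set g2 := deriv g1 with hg2
  set φ1 := deriv φ with hφ1
  set φ2 := deriv φ1 with hφ2
  set φ3 := deriv φ2 with hφ3
  have sG1 : ContDiff ℝ ∞ g1 := (contDiff_infty_iff_deriv.1 hG).2
  have sG2 : ContDiff ℝ ∞ g2 := (contDiff_infty_iff_deriv.1 sG1).2
  have sφ1 : ContDiff ℝ ∞ φ1 := (contDiff_infty_iff_deriv.1 hφ).2
  have sφ2 : ContDiff ℝ ∞ φ2 := (contDiff_infty_iff_deriv.1 sφ1).2
  have sφ3 : ContDiff ℝ ∞ φ3 := (contDiff_infty_iff_deriv.1 sφ2).2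
  have dG : ∀ x, HasDerivAt G (g1 x) x := fun x => ((contDiff_infty_iff_deriv.1 hG).1 x).hasDerivAt
  have dG1 : ∀ x, HasDerivAt g1 (g2 x) x := fun x => ((contDiff_infty_iff_deriv.1 sG1).1 x).hasDerivAt
  have dφ : ∀ x, HasDerivAt φ (φ1 x) x := fun x => ((contDiff_infty_iff_deriv.1 hφ).1 x).hasDerivAt
  have dφ1 : ∀ x, HasDerivAt φ1 (φ2 x) x := fun x => ((contDiff_infty_iff_deriv.1 sφ1).1 x).hasDerivAt
  have dφ2 : ∀ x, HasDerivAt φ2 (φ3 x) x := fun x => ((contDiff_infty_iff_deriv.1 sφ2).1 x).hasDerivAt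
  have c1 : HasCompactSupport g1 := hc.deriv
  have c2 : HasCompactSupport g2 := c1.deriv
  -- bounds on the support
  have hKc : IsCompact (tsupport G) := hc
  obtain ⟨Q0, hQ0⟩ := hKc.exists_bound_of_continuousOn (f := fun x => (φ1 x)⁻¹)
    (sφ1.continuous.inv₀ fun x => (hpos x).ne').continuousOn
  obtain ⟨B2, hB2⟩ := hKc.exists_bound_of_continuousOn (f := φ2) sφ2.continuous.continuousOn
  obtain ⟨B3, hB3⟩ := hKc.exists_bound_of_continuousOn (f := φ3) sφ3.continuous.continuousOn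
  set Q := |Q0| + 1 with hQ
  set D2 := |B2| with hD2
  set D3 := |B3| with hD3
  have hQ1 : 1 ≤ Q := by rw [hQ]; linarith [abs_nonneg Q0]
  have hQp : 0 < Q := by linarith
  have iG : Integrable G := hG.continuous.integrable_of_hasCompactSupport hc
  have iG1 : Integrable g1 := sG1.continuous.integrable_of_hasCompactSupport c1
  have iG2 : Integrable g2 := sG2.continuous.integrable_of_hasCompactSupport c2
  refine ⟨Q ^ 2 * (∫ x, ‖g2 x‖) + 3 * D2 * Q ^ 3 * (∫ x, ‖g1 x‖)
    + (D2 ^ 2 * Q ^ 4 + D3 * Q ^ 3 + 2 * D2 ^ 2 * Q ^ 4) * (∫ x, ‖G x‖), ?_, ?_⟩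
  · have h1 : 0 ≤ ∫ x, ‖g2 x‖ := integral_nonneg fun x => norm_nonneg _
    have h2 : 0 ≤ ∫ x, ‖g1 x‖ := integral_nonneg fun x => norm_nonneg _
    have h3 : 0 ≤ ∫ x, ‖G x‖ := integral_nonneg fun x => norm_nonneg _
    positivity
  intro N ξ hN hξ
  set t := N + ξ with ht
  have ht0 : 0 < t := by rw [ht]; linarith
  set w : ℝ → ℝ := fun x => N + ξ * φ1 x with hw
  have hw0 : ∀ x, 0 < w x := fun x => by
    have := hpos x
    simp only [hw]; positivity
  set v : ℝ → ℝ := fun x => (w x)⁻¹ with hv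
  set v1 : ℝ → ℝ := fun x => -(ξ * φ2 x) * v x ^ 2 with hv1
  set v2 : ℝ → ℝ := fun x => -(ξ * φ3 x) * v x ^ 2 + 2 * (ξ * φ2 x) ^ 2 * v x ^ 3 with hv2
  have dw : ∀ x, HasDerivAt w (ξ * φ2 x) x := fun x => by
    simpa [hw] using ((dφ1 x).const_mul ξ).const_add N
  have dv : ∀ x, HasDerivAt v (v1 x) x := fun x => by
    have := (dw x).inv (hw0 x).ne'
    refine this.congr_deriv ?_
    simp only [hv1, hv]
    field_simp
  have dv1 : ∀ x, HasDerivAt v1 (v2 x) x := fun x => by
    have h1 : HasDerivAt (fun x => -(ξ * φ2 x)) (-(ξ * φ3 x)) x := ((dφ2 x).const_mul ξ).neg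
    have h2 : HasDerivAt (fun x => v x ^ 2) (2 * v x * v1 x) x :=
      ((dv x).pow 2).congr_deriv (by simp)
    refine (h1.mul h2).congr_deriv ?_
    simp only [hv2, hv1]
    ring
  -- the phase
  set e : ℝ → ℂ := fun x => Complex.exp (I * ((N * x + ξ * φ x : ℝ) : ℂ)) with he
  have hen : ∀ x, ‖e x‖ = 1 := fun x => by
    simp only [he]
    rw [mul_comm]
    exact Complex.norm_exp_ofReal_mul_I _
  have de : ∀ x, HasDerivAt e (I * (w x : ℂ) * e x) x := fun x => by
    have h1 : HasDerivAt (fun x : ℝ => (N * x + ξ * φ x : ℝ)) (w x) x :=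
      (((hasDerivAt_id x).const_mul N).add ((dφ x).const_mul ξ)).congr_deriv (by simp [hw])
    have h2 := (h1.ofReal_comp.const_mul I).cexp
    refine h2.congr_deriv ?_
    simp only [he]
    ring
  have he_c : Continuous e := continuous_iff_continuousAt.2 fun x => (de x).continuousAt
  have hvc : Continuous v := continuous_iff_continuousAt.2 fun x => (dv x).continuousAt
  have hv1c : Continuous v1 := continuous_iff_continuousAt.2 fun x => (dv1 x).continuousAt
  have hv2c : Continuous v2 := by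
    simp only [hv2]
    have := sφ3.continuous
    have := sφ2.continuous
    fun_prop
  have hvw : ∀ x, (v x : ℂ) * w x = 1 := fun x => by
    have := (hw0 x).ne'
    simp only [hv]
    rw [← Complex.ofReal_mul, inv_mul_cancel₀ this, Complex.ofReal_one]
  -- the functions of the two integrations by parts
  set u1 : ℝ → ℂ := fun x => G x * v x with hu1
  set u1' : ℝ → ℂ := fun x => g1 x * v x + G x * v1 x with hu1'
  set u2 : ℝ → ℂ := fun x => u1' x * v x with hu2
  set u2' : ℝ → ℂ := fun x => g2 x * v x ^ 2 + 3 * (g1 x * v x * v1 x) + G x * (v1 x ^ 2 + v x * v2 x) with hu2'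
  have dvc : ∀ x, HasDerivAt (fun x => (v x : ℂ)) (v1 x : ℂ) x := fun x => (dv x).ofReal_comp
  have dv1c : ∀ x, HasDerivAt (fun x => (v1 x : ℂ)) (v2 x : ℂ) x := fun x => (dv1 x).ofReal_comp
  have du1 : ∀ x, HasDerivAt u1 (u1' x) x := fun x => (dG x).mul (dvc x)
  have du1' : ∀ x, HasDerivAt u1' (g2 x * v x + 2 * (g1 x * v1 x) + G x * v2 x) x := fun x => by
    have := ((dG1 x).mul (dvc x)).add ((dG x).mul (dv1c x))
    refine this.congr_deriv ?_
    ring
  have du2 : ∀ x, HasDerivAt u2 (u2' x) x := fun x => by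
    refine ((du1' x).mul (dvc x)).congr_deriv ?_
    simp only [hu2', hu1']
    ring
  have hGc := hG.continuous
  have hg1c := sG1.continuous
  have hg2c := sG2.continuous
  have cu1 : Continuous u1 := by fun_prop
  have cu1' : Continuous u1' := by fun_prop
  have cu2 : Continuous u2 := by fun_prop
  have cu2' : Continuous u2' := by fun_prop
  have hs1 : HasCompactSupport u1 := hc.mul_right
  have hs1' : HasCompactSupport u1' := (c1.mul_right).add (hc.mul_right)
  have hs2 : HasCompactSupport u2 := hs1'.mul_right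
  have hs2' : HasCompactSupport u2' := by
    refine ((c2.mul_right).add ?_).add (hc.mul_right)
    exact ((c1.mul_right).mul_right).mul_left
  -- integration by parts
  have ibp : ∀ (u u' : ℝ → ℂ), (∀ x, HasDerivAt u (u' x) x) → Continuous u → Continuous u' →
      HasCompactSupport u → HasCompactSupport u' →
      ∫ x, u x * w x * e x = I * ∫ x, u' x * e x := by
    intro u u' hd hcu hcu' hsu hsu'
    have i1 : Integrable fun x => u' x * e x :=
      (hcu'.mul he_c).integrable_of_hasCompactSupport hsu'.mul_right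
    have hwc : Continuous w := continuous_iff_continuousAt.2 fun x => (dw x).continuousAt
    have i2 : Integrable fun x => u x * w x * e x := by
      have hcc : Continuous fun x => u x * w x * e x := by fun_prop
      exact hcc.integrable_of_hasCompactSupport (hsu.mul_right.mul_right)
    have i3 : Integrable fun x => u x * e x :=
      (hcu.mul he_c).integrable_of_hasCompactSupport hsu.mul_right
    have hz := integral_eq_zero_of_hasDerivAt_of_integrable (f := fun x => u x * e x)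
      (f' := fun x => u' x * e x + I * (u x * w x * e x))
      (fun x => ((hd x).mul (de x)).congr_deriv (by ring)) (i1.add (i2.const_mul I)) i3
    rw [integral_add i1 (i2.const_mul I), integral_const_mul] at hz
    have hI : I * I = -1 := Complex.I_mul_I
    linear_combination (-I) * hz + (∫ x, u x * w x * e x) * hI
  have s1 : ∫ x, G x * e x = I * ∫ x, u1' x * e x := by
    rw [← ibp u1 u1' du1 cu1 cu1' hs1 hs1']
    refine integral_congr_ae (Eventually.of_forall fun x => ?_)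
    simp only [hu1]
    linear_combination (-(G x * e x)) * hvw x
  have s2 : ∫ x, u1' x * e x = I * ∫ x, u2' x * e x := by
    rw [← ibp u2 u2' du2 cu2 cu2' hs2 hs2']
    refine integral_congr_ae (Eventually.of_forall fun x => ?_)
    simp only [hu2]
    linear_combination (-(u1' x * e x)) * hvw x
  show ‖∫ x, G x * e x‖ ≤ _
  rw [s1, s2, norm_mul, norm_mul, Complex.norm_I, one_mul, one_mul]
  -- pointwise bound
  have hz0 : ∀ x, x ∉ tsupport G → G x = 0 ∧ g1 x = 0 ∧ g2 x = 0 := by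
    intro x hx
    have hx1 : x ∉ tsupport g1 := fun h => hx (tsupport_deriv_subset h)
    have hx2 : x ∉ tsupport g2 := fun h => hx1 (tsupport_deriv_subset h)
    exact ⟨image_eq_zero_of_notMem_tsupport hx, image_eq_zero_of_notMem_tsupport hx1,
      image_eq_zero_of_notMem_tsupport hx2⟩
  have hpt : ∀ x, ‖u2' x * e x‖ ≤ (Q ^ 2 * ‖g2 x‖ + 3 * D2 * Q ^ 3 * ‖g1 x‖
      + (D2 ^ 2 * Q ^ 4 + D3 * Q ^ 3 + 2 * D2 ^ 2 * Q ^ 4) * ‖G x‖) / t ^ 2 := by
    intro x
    rw [norm_mul, hen, mul_one]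
    by_cases hx : x ∈ tsupport G
    · have hq : (φ1 x)⁻¹ ≤ Q := by
        have := hQ0 x hx
        rw [Real.norm_eq_abs] at this
        have h2 := le_abs_self ((φ1 x)⁻¹)
        have h3 := le_abs_self Q0
        rw [hQ]; linarith
      have hφ1x : 1 ≤ Q * φ1 x := by
        have := hpos x
        calc (1:ℝ) = (φ1 x)⁻¹ * φ1 x := (inv_mul_cancel₀ this.ne').symm
          _ ≤ Q * φ1 x := by gcongr
      have hwt : t ≤ Q * w x := by
        simp only [hw, ht]
        nlinarith
      have hvx0 : 0 ≤ v x := (inv_pos.2 (hw0 x)).le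
      have hvx : v x ≤ Q / t := by
        simp only [hv]
        rw [inv_le_iff_one_le_mul₀ (hw0 x), div_mul_eq_mul_div, le_div_iff₀ ht0, one_mul]
        exact hwt
      have hb2 : |φ2 x| ≤ D2 := by
        have := hB2 x hx
        rw [Real.norm_eq_abs] at this
        exact this.trans (le_abs_self _)
      have hb3 : |φ3 x| ≤ D3 := by
        have := hB3 x hx
        rw [Real.norm_eq_abs] at this
        exact this.trans (le_abs_self _)
      have hξt : ξ ≤ t := by rw [ht]; linarith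
      have hD20 : 0 ≤ D2 := abs_nonneg _
      have hD30 : 0 ≤ D3 := abs_nonneg _
      have hv1x : |v1 x| ≤ D2 * Q ^ 2 / t := by
        simp only [hv1]
        rw [abs_mul, abs_neg, abs_mul, abs_of_nonneg hξ, abs_of_nonneg (by positivity : (0:ℝ) ≤ v x ^ 2)]
        calc ξ * |φ2 x| * v x ^ 2 ≤ t * D2 * (Q / t) ^ 2 := by gcongr
          _ = D2 * Q ^ 2 / t := by field_simp
      have hv2x : |v2 x| ≤ (D3 * Q ^ 2 + 2 * D2 ^ 2 * Q ^ 3) / t := by
        simp only [hv2]
        refine (abs_add_le _ _).trans ?_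
        rw [abs_mul, abs_neg, abs_mul, abs_of_nonneg hξ, abs_of_nonneg (by positivity : (0:ℝ) ≤ v x ^ 2)]
        have h4 : |2 * (ξ * φ2 x) ^ 2 * v x ^ 3| = 2 * (ξ * |φ2 x|) ^ 2 * v x ^ 3 := by
          rw [abs_of_nonneg (by positivity), mul_pow, mul_pow, sq_abs]
        rw [h4]
        calc ξ * |φ3 x| * v x ^ 2 + 2 * (ξ * |φ2 x|) ^ 2 * v x ^ 3
            ≤ t * D3 * (Q / t) ^ 2 + 2 * (t * D2) ^ 2 * (Q / t) ^ 3 := by gcongr
          _ = (D3 * Q ^ 2 + 2 * D2 ^ 2 * Q ^ 3) / t := by field_simp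
      have hnv : ‖(v x : ℂ)‖ = v x := by rw [Complex.norm_real, Real.norm_of_nonneg hvx0]
      have hnv1 : ‖(v1 x : ℂ)‖ = |v1 x| := by rw [Complex.norm_real, Real.norm_eq_abs]
      have hnv2 : ‖(v2 x : ℂ)‖ = |v2 x| := by rw [Complex.norm_real, Real.norm_eq_abs]
      calc ‖u2' x‖ ≤ ‖g2 x‖ * v x ^ 2 + 3 * (‖g1 x‖ * v x * |v1 x|)
            + ‖G x‖ * (|v1 x| ^ 2 + v x * |v2 x|) := by
            simp only [hu2']
            refine (norm_add_le _ _).trans (add_le_add ((norm_add_le _ _).trans (add_le_add ?_ ?_)) ?_)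
            · rw [norm_mul, norm_pow, hnv]
            · rw [norm_mul, norm_mul, norm_mul, hnv, hnv1]; simp
            · rw [norm_mul]
              refine mul_le_mul_of_nonneg_left ((norm_add_le _ _).trans ?_) (norm_nonneg _)
              rw [norm_pow, norm_mul, hnv, hnv1, hnv2]
        _ ≤ ‖g2 x‖ * (Q / t) ^ 2 + 3 * (‖g1 x‖ * (Q / t) * (D2 * Q ^ 2 / t))
            + ‖G x‖ * ((D2 * Q ^ 2 / t) ^ 2 + (Q / t) * ((D3 * Q ^ 2 + 2 * D2 ^ 2 * Q ^ 3) / t)) := by
            gcongr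
        _ = _ := by field_simp; ring
    · obtain ⟨z0, z1, z2⟩ := hz0 x hx
      simp [hu2', z0, z1, z2]
  have hiB : Integrable fun x => (Q ^ 2 * ‖g2 x‖ + 3 * D2 * Q ^ 3 * ‖g1 x‖
      + (D2 ^ 2 * Q ^ 4 + D3 * Q ^ 3 + 2 * D2 ^ 2 * Q ^ 4) * ‖G x‖) / t ^ 2 :=
    (((iG2.norm.const_mul _).add (iG1.norm.const_mul _)).add (iG.norm.const_mul _)).div_const _
  refine (norm_integral_le_of_norm_le hiB (Eventually.of_forall hpt)).trans (le_of_eq ?_)
  have j2 : Integrable fun x => Q ^ 2 * ‖g2 x‖ := iG2.norm.const_mul _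
  have j1 : Integrable fun x => 3 * D2 * Q ^ 3 * ‖g1 x‖ := iG1.norm.const_mul _
  have j0 : Integrable fun x => (D2 ^ 2 * Q ^ 4 + D3 * Q ^ 3 + 2 * D2 ^ 2 * Q ^ 4) * ‖G x‖ :=
    iG.norm.const_mul _
  have j21 : Integrable fun x => Q ^ 2 * ‖g2 x‖ + 3 * D2 * Q ^ 3 * ‖g1 x‖ := j2.add j1
  rw [integral_div, integral_add j21 j0, integral_add j2 j1, integral_const_mul, integral_const_mul,
    integral_const_mul]

end Pool.Agent.W756.ML
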