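import Pool.Agent.W756.ML5

/-! High frequency one-sided oscillation after a change of variables. -/

set_option autoImplicit false

open MeasureTheory Filter Topology Complex
open scoped FourierTransform Real ENNReal ContDiff

namespace Pool.Agent.W756.ML

/-- a smooth increasing diffeomorphism of the line with its inverse -/
structure Dif (h ψ : ℝ → ℝ) : Prop where
  sm : ContDiff ℝ ∞ h
  sm' : ContDiff ℝ ∞ ψ
  pos : ∀ x, 0 < deriv h x
  left : ∀ x, ψ (h x) = x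
  right : ∀ y, h (ψ y) = y

theorem Dif.id : Dif (fun x => x) (fun x => x) :=
  ⟨contDiff_id, contDiff_id, fun x => by simp, fun _ => rfl, fun _ => rfl⟩

theorem Dif.hasDerivAt {h ψ : ℝ → ℝ} (H : Dif h ψ) (x : ℝ) : HasDerivAt h (deriv h x) x :=
  ((contDiff_infty_iff_deriv.1 H.sm).1 x).hasDerivAt

theorem Dif.comp {h ψ θ κ : ℝ → ℝ} (H : Dif h ψ) (T : Dif θ κ) :
    Dif (fun x => h (θ x)) (fun y => κ (ψ y)) where
  sm := H.sm.comp T.sm
  sm' := T.sm'.comp H.sm'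
  pos x := by
    have := ((H.hasDerivAt (θ x)).comp x (T.hasDerivAt x)).deriv
    have e : (fun x => h (θ x)) = h ∘ θ := rfl
    rw [e, this]
    exact mul_pos (H.pos _) (T.pos _)
  left x := by rw [H.left, T.left]
  right y := by rw [T.right, H.right]

theorem Dif.strictMono {h ψ : ℝ → ℝ} (H : Dif h ψ) : StrictMono h :=
  strictMono_of_deriv_pos H.pos

/-- the homeomorphism -/
noncomputable def Dif.homeo {h ψ : ℝ → ℝ} (H : Dif h ψ) : ℝ ≃ₜ ℝ where
  toFun := h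
  invFun := ψ
  left_inv := H.left
  right_inv := H.right
  continuous_toFun := H.sm.continuous
  continuous_invFun := H.sm'.continuous

theorem Dif.integral_comp {h ψ : ℝ → ℝ} (H : Dif h ψ) (F : ℝ → ℂ) :
    ∫ y, F y = ∫ x, ((deriv h x : ℝ) : ℂ) * F (h x) := by
  have h1 := integral_image_eq_integral_abs_deriv_smul (s := Set.univ) (f := h) (f' := deriv h)
    MeasurableSet.univ (fun x _ => (H.hasDerivAt x).hasDerivWithinAt) (H.strictMono.injective.injOn) F
  have h2 : h '' Set.univ = Set.univ := by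
    rw [Set.image_univ]
    exact Set.range_eq_univ.2 fun y => ⟨ψ y, H.right y⟩
  rw [h2, setIntegral_univ, setIntegral_univ] at h1
  rw [h1]
  refine integral_congr_ae (Eventually.of_forall fun x => ?_)
  simp only [abs_of_pos (H.pos x), Complex.real_smul]

/-- analytic trigonometric polynomials without constant term -/
noncomputable def tp (L : ℕ) (c : ℕ → ℂ) (y : ℝ) : ℂ :=
  ∑ k ∈ Finset.range L, c k * Complex.exp (I * (((k + 1 : ℝ) * y : ℝ) : ℂ))

theorem tp_contDiff (L : ℕ) (c : ℕ → ℂ) : ContDiff ℝ ∞ (tp L c) := by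
  unfold tp
  refine ContDiff.sum fun k _ => contDiff_const.mul ?_
  have : ContDiff ℝ ∞ fun y : ℝ => I * (((k + 1 : ℝ) * y : ℝ) : ℂ) :=
    contDiff_const.mul (Complex.ofRealCLM.contDiff.comp (contDiff_const.mul contDiff_id))
  exact this.cexp

theorem tp_norm_le (L : ℕ) (c : ℕ → ℂ) (y : ℝ) : ‖tp L c y‖ ≤ ∑ k ∈ Finset.range L, ‖c k‖ := by
  unfold tp
  refine (norm_sum_le _ _).trans (Finset.sum_le_sum fun k _ => ?_)
  rw [norm_mul, mul_comm I, Complex.norm_exp_ofReal_mul_I, mul_one]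

/-- the function `b` -/
noncomputable def bN (ψ : ℝ → ℝ) (R : ℝ → ℂ) (L : ℕ) (c : ℕ → ℂ) (N : ℝ) (y : ℝ) : ℂ :=
  R (ψ y) * tp L c (N * ψ y)

theorem bN_contDiff {h ψ : ℝ → ℝ} (H : Dif h ψ) {R : ℝ → ℂ} (hR : ContDiff ℝ ∞ R) (L : ℕ)
    (c : ℕ → ℂ) (N : ℝ) : ContDiff ℝ ∞ (bN ψ R L c N) :=
  (hR.comp H.sm').mul ((tp_contDiff L c).comp (contDiff_const.mul H.sm'))

theorem bN_supp {h ψ : ℝ → ℝ} (H : Dif h ψ) {R : ℝ → ℂ} (hc : HasCompactSupport R) (L : ℕ)
    (c : ℕ → ℂ) (N : ℝ) : HasCompactSupport (bN ψ R L c N) := by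
  have h1 : HasCompactSupport fun y => R (ψ y) := hc.comp_homeomorph H.homeo.symm
  exact h1.mul_right

theorem bN_fourier {h ψ : ℝ → ℝ} (H : Dif h ψ) {R : ℝ → ℂ} (hR : ContDiff ℝ ∞ R)
    (hc : HasCompactSupport R) (L : ℕ) (c : ℕ → ℂ) :
    ∃ C : ℝ, 0 ≤ C ∧ ∀ N : ℝ, 0 < N → ∀ ξ : ℝ, ξ ≤ 0 → ‖𝓕 (bN ψ R L c N) ξ‖ ≤ C / (ξ ^ 2 + N ^ 2) := by
  have hh1 : ContDiff ℝ ∞ (deriv h) := (contDiff_infty_iff_deriv.1 H.sm).2
  have hG : ContDiff ℝ ∞ fun x => R x * ((deriv h x : ℝ) : ℂ) :=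
    hR.mul (Complex.ofRealCLM.contDiff.comp hh1)
  have hGc : HasCompactSupport fun x => R x * ((deriv h x : ℝ) : ℂ) := hc.mul_right
  obtain ⟨C0, hC0, hb⟩ := nonstat hG hGc H.sm H.pos
  refine ⟨C0 * ∑ k ∈ Finset.range L, ‖c k‖, by positivity, fun N hN ξ hξ => ?_⟩
  have e1 : 𝓕 (bN ψ R L c N) ξ = ∑ k ∈ Finset.range L, c k *
      ∫ x, (R x * ((deriv h x : ℝ) : ℂ)) * Complex.exp (I * (((k + 1) * N * x + (-(2 * π * ξ)) * h x : ℝ) : ℂ)) := by
    rw [Real.fourier_eq', H.integral_comp]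
    have e2 : ∀ x : ℝ, ((deriv h x : ℝ) : ℂ) * (Complex.exp ((↑(-2 * π * inner ℝ (h x) ξ) : ℂ) * I) • bN ψ R L c N (h x))
        = ∑ k ∈ Finset.range L, c k * ((R x * ((deriv h x : ℝ) : ℂ)) *
          Complex.exp (I * (((k + 1) * N * x + (-(2 * π * ξ)) * h x : ℝ) : ℂ))) := by
      intro x
      have hi : (inner ℝ (h x) ξ : ℝ) = h x * ξ := by simp [mul_comm]
      rw [hi, smul_eq_mul]
      unfold bN tp
      rw [H.left, Finset.mul_sum, Finset.mul_sum, Finset.mul_sum]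
      refine Finset.sum_congr rfl fun k _ => ?_
      have e3 : Complex.exp (I * (((k + 1) * N * x + (-(2 * π * ξ)) * h x : ℝ) : ℂ))
          = Complex.exp ((↑(-2 * π * (h x * ξ)) : ℂ) * I) * Complex.exp (I * (((k + 1 : ℝ) * (N * x) : ℝ) : ℂ)) := by
        rw [← Complex.exp_add]
        congr 1
        push_cast
        ring
      rw [e3]
      ring
    simp_rw [e2]
    rw [integral_finsetSum]
    · refine Finset.sum_congr rfl fun k _ => ?_
      rw [integral_const_mul]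
    · intro k _
      refine Integrable.const_mul ?_ _
      have hcont : Continuous fun x => (R x * ((deriv h x : ℝ) : ℂ)) *
          Complex.exp (I * (((k + 1) * N * x + (-(2 * π * ξ)) * h x : ℝ) : ℂ)) := by
        have := H.sm.continuous
        have := hG.continuous
        fun_prop
      exact hcont.integrable_of_hasCompactSupport hGc.mul_right
  rw [e1]
  refine (norm_sum_le _ _).trans ?_
  have e4 : C0 * (∑ k ∈ Finset.range L, ‖c k‖) / (ξ ^ 2 + N ^ 2)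
      = ∑ k ∈ Finset.range L, ‖c k‖ * (C0 / (ξ ^ 2 + N ^ 2)) := by
    rw [← Finset.sum_mul]; ring
  rw [e4]
  refine Finset.sum_le_sum fun k _ => ?_
  rw [norm_mul]
  refine mul_le_mul_of_nonneg_left ?_ (norm_nonneg _)
  have hp := Real.pi_pos
  have hp3 := Real.pi_gt_three
  have hk : (0:ℝ) < (k + 1) * N := by positivity
  have hx : 0 ≤ -(2 * π * ξ) := by nlinarith
  refine (hb ((k + 1) * N) (-(2 * π * ξ)) hk hx).trans ?_
  refine div_le_div_of_nonneg_left hC0 (by positivity) ?_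
  have h1 : N ≤ (k + 1) * N := by nlinarith [(Nat.cast_nonneg k : (0:ℝ) ≤ k)]
  have h2 : -ξ ≤ -(2 * π * ξ) := by nlinarith
  calc ξ ^ 2 + N ^ 2 ≤ (N + -ξ) ^ 2 := by nlinarith
    _ ≤ ((k + 1) * N + -(2 * π * ξ)) ^ 2 := by
        apply pow_le_pow_left₀ (by linarith)
        linarith

theorem integral_pk {y : ℝ} (hy : 0 < y) (x : ℝ) :
    ∫ t : ℝ, y / (π * ((t - x) ^ 2 + y ^ 2)) = 1 := by
  have := pk_fourier hy x 0
  simp only [Complex.ofReal_zero, zero_mul, mul_zero, Complex.exp_zero, mul_one, abs_zero,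
    neg_zero] at this
  rw [integral_complex_ofReal] at this
  exact_mod_cast this

theorem norm_E_le_of_bound {m : ℝ → ℂ} {C N : ℝ} (hN : 0 < N)
    (h : ∀ ξ, ‖m ξ‖ ≤ C / (ξ ^ 2 + N ^ 2)) (x : ℝ) : ‖E m x‖ ≤ C * π / N := by
  rw [E_def]
  have hi : Integrable fun t : ℝ => C * π / N * (N / (π * ((t - 0) ^ 2 + N ^ 2))) :=
    (integrable_pk hN 0).const_mul _
  refine (norm_integral_le_of_norm_le hi (Eventually.of_forall fun ξ => ?_)).trans (le_of_eq ?_)
  · rw [norm_mul, norm_exp_real', one_mul]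
    refine (h ξ).trans (le_of_eq ?_)
    have hp := Real.pi_pos
    rw [sub_zero]
    field_simp
  · rw [integral_const_mul, integral_pk hN, mul_one]

theorem bN_cutN {h ψ : ℝ → ℝ} (H : Dif h ψ) {R : ℝ → ℂ} (hR : ContDiff ℝ ∞ R)
    (hc : HasCompactSupport R) (L : ℕ) (c : ℕ → ℂ) :
    ∃ C : ℝ, 0 ≤ C ∧ ∀ N : ℝ, 0 < N → ∀ x, ‖E (cutN (𝓕 (bN ψ R L c N))) x‖ ≤ C / N := by
  obtain ⟨C, hC, hb⟩ := bN_fourier H hR hc L c
  have hp := Real.pi_pos
  refine ⟨C * π, by positivity, fun N hN x => ?_⟩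
  refine norm_E_le_of_bound hN (fun ξ => ?_) x
  unfold cutN
  by_cases h : ξ ∈ Set.Iic (0:ℝ)
  · rw [Set.indicator_of_mem h]
    exact hb N hN ξ h
  · rw [Set.indicator_of_notMem h, norm_zero]
    positivity

/-- conjugation and the Fourier transform -/
theorem fourier_conj (f : ℝ → ℂ) (ξ : ℝ) :
    𝓕 (fun x => (starRingEnd ℂ) (f x)) ξ = (starRingEnd ℂ) (𝓕 f (-ξ)) := by
  rw [Real.fourier_eq', Real.fourier_eq', ← integral_conj]
  refine integral_congr_ae (Eventually.of_forall fun x => ?_)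
  simp only [smul_eq_mul, map_mul, ← Complex.exp_conj, Complex.conj_ofReal, Complex.conj_I]
  congr 2
  simp

theorem aN_cutP {R : ℝ → ℂ} (hR : ContDiff ℝ ∞ R)
    (hc : HasCompactSupport R) (L : ℕ) (c : ℕ → ℂ) :
    ∃ C : ℝ, 0 ≤ C ∧ ∀ N : ℝ, 0 < N → ∀ x,
      ‖E (cutP (𝓕 (fun x => R x * (starRingEnd ℂ) (tp L c (N * x))))) x‖ ≤ C / N := by
  have hR' : ContDiff ℝ ∞ fun x => (starRingEnd ℂ) (R x) := Complex.conjCLE.contDiff.comp hR
  have hc' : HasCompactSupport fun x => (starRingEnd ℂ) (R x) := hc.comp_left (map_zero _)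
  obtain ⟨C, hC, hb⟩ := bN_fourier Dif.id hR' hc' L c
  have hp := Real.pi_pos
  refine ⟨C * π, by positivity, fun N hN x => ?_⟩
  refine norm_E_le_of_bound hN (fun ξ => ?_) x
  unfold cutP
  by_cases h : ξ ∈ Set.Ioi (0:ℝ)
  · rw [Set.indicator_of_mem h]
    have e : (fun x => R x * (starRingEnd ℂ) (tp L c (N * x)))
        = fun x => (starRingEnd ℂ) (bN (fun x => x) (fun x => (starRingEnd ℂ) (R x)) L c N x) := by
      funext x
      simp [bN]
    rw [e, fourier_conj, RCLike.norm_conj]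
    have := hb N hN (-ξ) (by have : 0 < ξ := h; linarith)
    rwa [neg_sq] at this
  · rw [Set.indicator_of_notMem h, norm_zero]
    positivity

end Pool.Agent.W756.ML
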