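import Pool.Agent.W756.ML6

/-! The circle map and uniform approximation by one-sided trigonometric polynomials. -/

set_option autoImplicit false

open MeasureTheory Filter Topology Complex
open scoped FourierTransform Real ENNReal ContDiff

namespace Pool.Agent.W756.ML

/-- displacement of the lift of the disc automorphism `z ↦ (z - p) / (1 - p z)` -/
noncomputable def tau (p x : ℝ) : ℝ := 2 * Real.arctan (p * Real.sin x / (1 - p * Real.cos x))

/-- the lift -/
noncomputable def eta (p x : ℝ) : ℝ := x + tau p x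

/-- `D = 1 - 2 p cos x + p²` -/
noncomputable def Den (p x : ℝ) : ℝ := 1 - 2 * p * Real.cos x + p ^ 2

section

variable {p : ℝ}

theorem one_sub_pos (h0 : 0 < p) (h1 : p < 1) (x : ℝ) : 0 < 1 - p * Real.cos x := by
  have := Real.cos_le_one x
  nlinarith

theorem Den_ge (h0 : 0 < p) (x : ℝ) : (1 - p) ^ 2 ≤ Den p x := by
  unfold Den
  have := Real.cos_le_one x
  nlinarith

theorem Den_pos (h0 : 0 < p) (h1 : p < 1) (x : ℝ) : 0 < Den p x :=
  lt_of_lt_of_le (by have : 0 < 1 - p := by linarith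
                     positivity) (Den_ge h0 x)

theorem tau_contDiff (h0 : 0 < p) (h1 : p < 1) : ContDiff ℝ ∞ (tau p) := by
  unfold tau
  refine contDiff_const.mul (Real.contDiff_arctan.comp ?_)
  refine ContDiff.div (contDiff_const.mul Real.contDiff_sin)
    (contDiff_const.sub (contDiff_const.mul Real.contDiff_cos)) fun x => (one_sub_pos h0 h1 x).ne'

theorem tau_periodic (p x : ℝ) : tau p (x + 2 * π) = tau p x := by
  unfold tau
  rw [Real.sin_add_two_pi, Real.cos_add_two_pi]

theorem tau_abs_le (p x : ℝ) : |tau p x| ≤ π := by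
  unfold tau
  have h1 := Real.arctan_lt_pi_div_two (p * Real.sin x / (1 - p * Real.cos x))
  have h2 := Real.neg_pi_div_two_lt_arctan (p * Real.sin x / (1 - p * Real.cos x))
  rw [abs_le]
  constructor <;> linarith

theorem tau_hasDerivAt (h0 : 0 < p) (h1 : p < 1) (x : ℝ) :
    HasDerivAt (tau p) ((1 - p ^ 2) / Den p x - 1) x := by
  have hd := one_sub_pos h0 h1 x
  have hD := Den_pos h0 h1 x
  have hs : HasDerivAt (fun x => p * Real.sin x) (p * Real.cos x) x := (Real.hasDerivAt_sin x).const_mul p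
  have hc : HasDerivAt (fun x => 1 - p * Real.cos x) (p * Real.sin x) x := by
    simpa using ((Real.hasDerivAt_cos x).const_mul p).const_sub 1
  have hq := hs.fun_div hc hd.ne'
  have ha := (hq.arctan).const_mul 2
  refine ha.congr_deriv ?_
  have e : 1 + (p * Real.sin x / (1 - p * Real.cos x)) ^ 2 = Den p x / (1 - p * Real.cos x) ^ 2 := by
    unfold Den
    field_simp
    nlinarith [Real.sin_sq_add_cos_sq x]
  rw [e]
  have hsc := Real.sin_sq_add_cos_sq x
  have hs2 : Real.sin x ^ 2 = 1 - Real.cos x ^ 2 := by linarith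
  field_simp
  unfold Den
  ring_nf
  rw [hs2]
  ring

theorem eta_hasDerivAt (h0 : 0 < p) (h1 : p < 1) (x : ℝ) :
    HasDerivAt (eta p) ((1 - p ^ 2) / Den p x) x := by
  have := (hasDerivAt_id x).add (tau_hasDerivAt h0 h1 x)
  refine this.congr_deriv ?_
  ring

theorem exp_two_arctan (u : ℝ) : Complex.exp (I * ((2 * Real.arctan u : ℝ) : ℂ)) * (1 - I * u) = 1 + I * u := by
  have h1 : Complex.exp (I * ((Real.arctan u : ℝ) : ℂ)) = (1 + I * u) / (Real.sqrt (1 + u ^ 2) : ℝ) := by
    rw [mul_comm I, Complex.exp_mul_I, ← Complex.ofReal_cos, ← Complex.ofReal_sin, Real.cos_arctan,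
      Real.sin_arctan]
    push_cast
    ring
  have hpos : (0:ℝ) < 1 + u ^ 2 := by positivity
  have h2 : Complex.exp (I * ((2 * Real.arctan u : ℝ) : ℂ)) = (1 + I * u) ^ 2 / ((1 + u ^ 2 : ℝ) : ℂ) := by
    have : (I * ((2 * Real.arctan u : ℝ) : ℂ)) = I * ((Real.arctan u : ℝ) : ℂ) + I * ((Real.arctan u : ℝ) : ℂ) := by
      push_cast; ring
    rw [this, Complex.exp_add, h1, div_mul_div_comm, ← Complex.ofReal_mul,
      Real.mul_self_sqrt hpos.le]
    ring
  rw [h2]
  have hne : ((1 + u ^ 2 : ℝ) : ℂ) ≠ 0 := by exact_mod_cast hpos.ne'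
  rw [div_mul_eq_mul_div, div_eq_iff hne]
  push_cast
  have hI : I ^ 2 = -1 := Complex.I_sq
  linear_combination (-(1 + I * u) * u ^ 2) * hI

theorem exp_eta (h0 : 0 < p) (h1 : p < 1) (x : ℝ) :
    Complex.exp (I * (eta p x : ℂ)) * (1 - p * Complex.exp (I * x)) = Complex.exp (I * x) - p := by
  have hd := one_sub_pos h0 h1 x
  set u := p * Real.sin x / (1 - p * Real.cos x) with hu
  have h2 := exp_two_arctan u
  have hdc : ((1 - p * Real.cos x : ℝ) : ℂ) ≠ 0 := by exact_mod_cast hd.ne'
  have hE : Complex.exp (I * x) = Real.cos x + Real.sin x * I := by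
    rw [mul_comm I, Complex.exp_mul_I, Complex.ofReal_cos, Complex.ofReal_sin]
  have huc : (u : ℂ) * ((1 - p * Real.cos x : ℝ) : ℂ) = p * Real.sin x := by
    rw [hu, ← Complex.ofReal_mul, div_mul_cancel₀ _ hd.ne', Complex.ofReal_mul]
  have e1 : Complex.exp (I * (eta p x : ℂ)) = Complex.exp (I * x) * Complex.exp (I * ((2 * Real.arctan u : ℝ) : ℂ)) := by
    have hη : eta p x = x + 2 * Real.arctan u := by
      rw [hu]; rfl
    rw [← Complex.exp_add, hη]
    congr 1
    push_cast
    ring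
  -- multiply by the real denominator
  have e2 : Complex.exp (I * ((2 * Real.arctan u : ℝ) : ℂ)) * (1 - p * Real.cos x - I * (p * Real.sin x))
      = 1 - p * Real.cos x + I * (p * Real.sin x) := by
    have h3 : (Complex.exp (I * ((2 * Real.arctan u : ℝ) : ℂ)) * (1 - I * u)) * ((1 - p * Real.cos x : ℝ) : ℂ)
        = (1 + I * u) * ((1 - p * Real.cos x : ℝ) : ℂ) := by rw [h2]
    generalize Complex.exp (I * ((2 * Real.arctan u : ℝ) : ℂ)) = Ex at h3 ⊢
    push_cast at h3 huc ⊢
    linear_combination h3 + (I * Ex + I) * huc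
  have hcs : (Real.cos x : ℂ) ^ 2 + (Real.sin x : ℂ) ^ 2 = 1 := by
    rw [← Complex.ofReal_pow, ← Complex.ofReal_pow, ← Complex.ofReal_add, Real.cos_sq_add_sin_sq,
      Complex.ofReal_one]
  rw [e1, hE]
  have hI : I ^ 2 = -1 := Complex.I_sq
  have e3 : Complex.exp (I * ((2 * Real.arctan u : ℝ) : ℂ)) * (1 - p * (Real.cos x + Real.sin x * I))
      = 1 - p * Real.cos x + I * (p * Real.sin x) := by
    rw [← e2]; ring
  linear_combination (Real.cos x + Real.sin x * I) * e3 - p * hcs + (p * (Real.sin x : ℂ) ^ 2) * hI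

theorem norm_one_sub (p x : ℝ) :
    ‖(1 - p * Complex.exp (-(I * x)) : ℂ)‖ ^ 2 = Den p x := by
  have hE : Complex.exp (-(I * x)) = Real.cos x - Real.sin x * I := by
    rw [show -(I * (x:ℂ)) = ((-x : ℝ) : ℂ) * I by push_cast; ring, Complex.exp_mul_I,
      ← Complex.ofReal_cos, ← Complex.ofReal_sin, Real.cos_neg, Real.sin_neg]
    push_cast; ring
  rw [hE, ← Complex.normSq_eq_norm_sq, Complex.normSq_apply]
  simp only [Complex.sub_re, Complex.one_re, Complex.mul_re, Complex.ofReal_re, Complex.ofReal_im,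
    Complex.sub_im, Complex.one_im, Complex.mul_im, Complex.I_re, Complex.I_im, mul_zero, mul_one,
    zero_mul, sub_zero, add_zero, zero_sub]
  unfold Den
  nlinarith [Real.sin_sq_add_cos_sq x]

end

end Pool.Agent.W756.ML
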