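import Pool.Agent.W756.ML7

/-! Uniform approximation by one-sided trigonometric polynomials. -/

set_option autoImplicit false

open MeasureTheory Filter Topology Complex
open scoped FourierTransform Real ENNReal ContDiff

namespace Pool.Agent.W756.ML

/-- `e^{ix}` -/
noncomputable def zz (x : ℝ) : ℂ := Complex.exp (I * x)

theorem zz_norm (x : ℝ) : ‖zz x‖ = 1 := by
  unfold zz; rw [mul_comm]; exact Complex.norm_exp_ofReal_mul_I x

theorem zz_pow (x : ℝ) (k : ℕ) : zz x ^ k = zz (k * x) := by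
  unfold zz
  rw [← Complex.exp_nat_mul]
  congr 1
  push_cast; ring

theorem tp_eq (L : ℕ) (c : ℕ → ℂ) (y : ℝ) : tp L c y = ∑ k ∈ Finset.range L, c k * zz y ^ (k + 1) := by
  unfold tp
  refine Finset.sum_congr rfl fun k _ => ?_
  rw [zz_pow]
  unfold zz
  push_cast
  rfl

section

variable (p : ℝ)

/-- uniform approximation by `tp (η x)` -/
def Yc (g : ℝ → ℂ) : Prop :=
  ∀ δ : ℝ, 0 < δ → ∃ (L : ℕ) (c : ℕ → ℂ), ∀ x : ℝ, ‖g x - tp L c (eta p x)‖ ≤ δ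

/-- uniform approximation by `tp (η x) - conj (tp x)` -/
def Ap (g : ℝ → ℂ) : Prop :=
  ∀ δ : ℝ, 0 < δ → ∃ (L1 : ℕ) (c1 : ℕ → ℂ) (L2 : ℕ) (c2 : ℕ → ℂ), ∀ x : ℝ,
    ‖g x - (tp L1 c1 (eta p x) - (starRingEnd ℂ) (tp L2 c2 x))‖ ≤ δ

variable {p}

/-- padding of the coefficient sequence -/
theorem tp_pad {L L' : ℕ} (h : L ≤ L') (c : ℕ → ℂ) (y : ℝ) :
    tp L' (fun k => if k < L then c k else 0) y = tp L c y := by
  unfold tp
  rw [← Finset.sum_subset (Finset.range_subset_range.2 h)]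
  · refine Finset.sum_congr rfl fun k hk => ?_
    show (if k < L then c k else 0) * _ = _
    rw [if_pos (Finset.mem_range.1 hk)]
  · intro k _ hk
    show (if k < L then c k else 0) * _ = _
    rw [if_neg (by simpa using hk), zero_mul]

theorem tp_add (L L' : ℕ) (c c' : ℕ → ℂ) : ∃ (M : ℕ) (d : ℕ → ℂ), ∀ y, tp M d y = tp L c y + tp L' c' y := by
  refine ⟨max L L', fun k => (if k < L then c k else 0) + (if k < L' then c' k else 0), fun y => ?_⟩
  rw [← tp_pad (le_max_left L L') c y, ← tp_pad (le_max_right L L') c' y]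
  unfold tp
  rw [← Finset.sum_add_distrib]
  refine Finset.sum_congr rfl fun k _ => ?_
  ring

theorem tp_smul (a : ℂ) (L : ℕ) (c : ℕ → ℂ) (y : ℝ) : tp L (fun k => a * c k) y = a * tp L c y := by
  unfold tp
  rw [Finset.mul_sum]
  refine Finset.sum_congr rfl fun k _ => ?_
  ring

theorem tp_shift (L : ℕ) (c : ℕ → ℂ) (y : ℝ) :
    tp (L + 1) (fun k => if k = 0 then 0 else c (k - 1)) y = zz y * tp L c y := by
  rw [tp_eq, tp_eq, Finset.sum_range_succ', Finset.mul_sum]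
  simp only [if_true, zero_mul, add_zero]
  refine Finset.sum_congr rfl fun k _ => ?_
  rw [if_neg (Nat.succ_ne_zero k), Nat.add_sub_cancel, pow_succ]
  ring

theorem Yc.add {g h : ℝ → ℂ} (hg : Yc p g) (hh : Yc p h) : Yc p (fun x => g x + h x) := by
  intro δ hδ
  obtain ⟨L, c, h1⟩ := hg (δ / 2) (by linarith)
  obtain ⟨L', c', h2⟩ := hh (δ / 2) (by linarith)
  obtain ⟨M, d, hd⟩ := tp_add L L' c c'
  refine ⟨M, d, fun x => ?_⟩
  rw [hd]
  calc ‖g x + h x - (tp L c (eta p x) + tp L' c' (eta p x))‖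
      = ‖(g x - tp L c (eta p x)) + (h x - tp L' c' (eta p x))‖ := by congr 1; ring
    _ ≤ _ := (norm_add_le _ _).trans (by linarith [h1 x, h2 x])

theorem Yc.smul (a : ℂ) {g : ℝ → ℂ} (hg : Yc p g) : Yc p (fun x => a * g x) := by
  intro δ hδ
  obtain ⟨L, c, h1⟩ := hg (δ / (‖a‖ + 1)) (by positivity)
  refine ⟨L, fun k => a * c k, fun x => ?_⟩
  rw [tp_smul, ← mul_sub, norm_mul]
  calc ‖a‖ * ‖g x - tp L c (eta p x)‖ ≤ (‖a‖ + 1) * (δ / (‖a‖ + 1)) := by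
        gcongr
        · linarith
        · exact h1 x
    _ = δ := by field_simp

theorem Yc.lim {g : ℝ → ℂ} (h : ∀ δ : ℝ, 0 < δ → ∃ g' : ℝ → ℂ, Yc p g' ∧ ∀ x, ‖g x - g' x‖ ≤ δ) :
    Yc p g := by
  intro δ hδ
  obtain ⟨g', h1, h2⟩ := h (δ / 2) (by linarith)
  obtain ⟨L, c, h3⟩ := h1 (δ / 2) (by linarith)
  refine ⟨L, c, fun x => ?_⟩
  calc ‖g x - tp L c (eta p x)‖ = ‖(g x - g' x) + (g' x - tp L c (eta p x))‖ := by congr 1; ring
    _ ≤ _ := (norm_add_le _ _).trans (by linarith [h2 x, h3 x])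

theorem Yc.mul_zeta {g : ℝ → ℂ} (hg : Yc p g) : Yc p (fun x => zz (eta p x) * g x) := by
  intro δ hδ
  obtain ⟨L, c, h1⟩ := hg δ hδ
  refine ⟨L + 1, fun k => if k = 0 then 0 else c (k - 1), fun x => ?_⟩
  rw [tp_shift, ← mul_sub, norm_mul, zz_norm, one_mul]
  exact h1 x

theorem Yc.mul_zeta_pow {g : ℝ → ℂ} (hg : Yc p g) (k : ℕ) : Yc p (fun x => zz (eta p x) ^ k * g x) := by
  induction k with
  | zero => simpa using hg
  | succ k ih =>
    have := ih.mul_zeta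
    refine Eq.mp (congrArg (Yc p) (funext fun x => ?_)) this
    rw [pow_succ]; ring

theorem Yc.zero : Yc p (fun _ => 0) := fun δ hδ => ⟨0, fun _ => 0, fun x => by simp [tp, hδ.le]⟩

theorem Yc.sum {ι : Type*} (s : Finset ι) {g : ι → ℝ → ℂ} (hg : ∀ i ∈ s, Yc p (g i)) :
    Yc p (fun x => ∑ i ∈ s, g i x) := by
  classical
  induction s using Finset.induction_on with
  | empty => simpa using Yc.zero
  | insert a s ha ih =>
    have h1 := (hg a (Finset.mem_insert_self a s)).add (ih fun i hi => hg i (Finset.mem_insert_of_mem hi))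
    refine Eq.mp (congrArg (Yc p) (funext fun x => ?_)) h1
    rw [Finset.sum_insert ha]

theorem Yc.bounded {g : ℝ → ℂ} (hg : Yc p g) : ∃ B : ℝ, 0 < B ∧ ∀ x, ‖g x‖ ≤ B := by
  obtain ⟨L, c, h⟩ := hg 1 one_pos
  refine ⟨1 + ∑ k ∈ Finset.range L, ‖c k‖, by positivity, fun x => ?_⟩
  have h1 := h x
  have h2 := tp_norm_le L c (eta p x)
  calc ‖g x‖ = ‖(g x - tp L c (eta p x)) + tp L c (eta p x)‖ := by congr 1; ring
    _ ≤ _ := (norm_add_le _ _).trans (by linarith)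

/-- `z (1 + p ζ) = ζ + p` -/
theorem zz_rel (h0 : 0 < p) (h1 : p < 1) (x : ℝ) :
    zz x * (1 + p * zz (eta p x)) = zz (eta p x) + p := by
  have h := exp_eta h0 h1 x
  unfold zz
  linear_combination -h

/-- truncation of the geometric series -/
theorem zz_trunc (h0 : 0 < p) (h1 : p < 1) (M : ℕ) (x : ℝ) :
    ‖zz x - (p + (1 - p ^ 2) * ∑ n ∈ Finset.range M, (-p) ^ n * zz (eta p x) ^ (n + 1))‖ ≤ 2 * p ^ M := by
  set ζ := zz (eta p x) with hζ
  have hζ1 : ‖ζ‖ = 1 := zz_norm _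
  have hne : (1 + p * ζ : ℂ) ≠ 0 := by
    intro h
    have h2 : ‖(p * ζ : ℂ)‖ = 1 := by
      rw [show (p * ζ : ℂ) = -1 by linear_combination h]; simp
    rw [norm_mul, hζ1, mul_one, Complex.norm_real, Real.norm_of_nonneg h0.le] at h2
    linarith
  have hrel := zz_rel h0 h1 x
  rw [← hζ] at hrel
  have hgeo : (∑ n ∈ Finset.range M, (-p * ζ : ℂ) ^ n) * (1 - (-p * ζ)) = 1 - (-p * ζ) ^ M :=
    geom_sum_mul_neg _ _
  have hsum : ∑ n ∈ Finset.range M, (-p : ℂ) ^ n * ζ ^ (n + 1) = ζ * ∑ n ∈ Finset.range M, (-p * ζ : ℂ) ^ n := by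
    rw [Finset.mul_sum]
    refine Finset.sum_congr rfl fun n _ => ?_
    rw [mul_pow]; ring
  rw [hsum]
  have key : (zz x - (p + (1 - p ^ 2) * (ζ * ∑ n ∈ Finset.range M, (-p * ζ : ℂ) ^ n))) * (1 + p * ζ)
      = (1 - p ^ 2) * ζ * (-p * ζ) ^ M := by
    linear_combination hrel - (1 - p ^ 2) * ζ * hgeo
  have hlow : 1 - p ≤ ‖(1 + p * ζ : ℂ)‖ := by
    have := norm_sub_norm_le (1 : ℂ) (-(p * ζ))
    rw [sub_neg_eq_add, norm_neg, norm_one, norm_mul, hζ1, mul_one, Complex.norm_real,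
      Real.norm_of_nonneg h0.le] at this
    exact this
  have hn := congrArg norm key
  rw [norm_mul, norm_mul, norm_mul, norm_pow, norm_mul, norm_neg, hζ1, mul_one, mul_one,
    Complex.norm_real, Real.norm_of_nonneg h0.le] at hn
  have h2 : ‖(1 - (p:ℂ) ^ 2)‖ = 1 - p ^ 2 := by
    rw [show (1 - (p:ℂ) ^ 2) = ((1 - p ^ 2 : ℝ) : ℂ) by push_cast; ring, Complex.norm_real,
      Real.norm_of_nonneg (by nlinarith)]
  rw [h2] at hn
  have h3 : 0 < 1 - p := by linarith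
  have hp : 0 ≤ p ^ M := by positivity
  set X := ‖zz x - (p + (1 - p ^ 2) * (ζ * ∑ n ∈ Finset.range M, (-p * ζ : ℂ) ^ n))‖ with hX
  have hX0 : 0 ≤ X := norm_nonneg _
  have h4 : X * (1 - p) ≤ (1 - p ^ 2) * p ^ M := by
    rw [← hn]; gcongr
  have h5 : (1 - p ^ 2) * p ^ M = ((1 + p) * p ^ M) * (1 - p) := by ring
  rw [h5] at h4
  have h6 := le_of_mul_le_mul_right h4 h3
  nlinarith

theorem Yc.mul_zz (h0 : 0 < p) (h1 : p < 1) {g : ℝ → ℂ} (hg : Yc p g) : Yc p (fun x => zz x * g x) := by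
  obtain ⟨B, hB, hb⟩ := hg.bounded
  refine Yc.lim fun δ hδ => ?_
  obtain ⟨M, hM⟩ := exists_pow_lt_of_lt_one (show 0 < δ / (2 * B) by positivity) h1
  refine ⟨fun x => (p + (1 - p ^ 2) * ∑ n ∈ Finset.range M, (-p) ^ n * zz (eta p x) ^ (n + 1)) * g x, ?_, ?_⟩
  · have a1 : Yc p (fun x => (p : ℂ) * g x) := hg.smul p
    have a2 : Yc p (fun x => ∑ n ∈ Finset.range M, ((1 - p ^ 2) * (-p) ^ n : ℂ) * (zz (eta p x) ^ (n + 1) * g x)) :=
      Yc.sum _ fun n _ => (hg.mul_zeta_pow (n + 1)).smul _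
    refine Eq.mp (congrArg (Yc p) (funext fun x => ?_)) (a1.add a2)
    rw [add_mul, Finset.mul_sum, Finset.sum_mul]
    congr 1
    refine Finset.sum_congr rfl fun n _ => ?_
    ring
  · intro x
    rw [← sub_mul, norm_mul]
    calc _ ≤ (2 * p ^ M) * B := mul_le_mul (zz_trunc h0 h1 M x) (hb x) (norm_nonneg _) (by positivity)
      _ ≤ (2 * (δ / (2 * B))) * B := by gcongr
      _ = δ := by field_simp

theorem Yc.zz_sub (h0 : 0 < p) (h1 : p < 1) : Yc p (fun x => zz x - p) := by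
  refine Yc.lim fun δ hδ => ?_
  obtain ⟨M, hM⟩ := exists_pow_lt_of_lt_one (show 0 < δ / 2 by positivity) h1
  refine ⟨fun x => (1 - p ^ 2) * ∑ n ∈ Finset.range M, (-p) ^ n * zz (eta p x) ^ (n + 1), ?_, ?_⟩
  · have e1 : Yc p (fun x => zz (eta p x)) := fun δ hδ => ⟨1, fun _ => 1, fun x => by
      rw [tp_eq]; simp [hδ.le]⟩
    have a2 : Yc p (fun x => ∑ n ∈ Finset.range M, ((1 - p ^ 2) * (-p) ^ n : ℂ) * (zz (eta p x) ^ n * zz (eta p x))) :=
      Yc.sum _ fun n _ => (e1.mul_zeta_pow n).smul _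
    refine Eq.mp (congrArg (Yc p) (funext fun x => ?_)) a2
    rw [Finset.mul_sum]
    refine Finset.sum_congr rfl fun n _ => ?_
    ring
  · intro x
    have := zz_trunc h0 h1 M x
    calc _ = ‖zz x - (p + (1 - p ^ 2) * ∑ n ∈ Finset.range M, (-p) ^ n * zz (eta p x) ^ (n + 1))‖ := by
          congr 1; ring
      _ ≤ 2 * p ^ M := this
      _ ≤ δ := by linarith

theorem Yc.zz_pow_sub (h0 : 0 < p) (h1 : p < 1) (k : ℕ) : Yc p (fun x => zz x ^ k - p ^ k) := by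
  induction k with
  | zero => simpa using Yc.zero
  | succ k ih =>
    refine Eq.mp (congrArg (Yc p) (funext fun x => ?_))
      ((ih.mul_zz h0 h1).add ((Yc.zz_sub h0 h1).smul ((p : ℂ) ^ k)))
    ring

theorem Yc.ap {g : ℝ → ℂ} (hg : Yc p g) : Ap p g := by
  intro δ hδ
  obtain ⟨L, c, h⟩ := hg δ hδ
  refine ⟨L, c, 0, fun _ => 0, fun x => ?_⟩
  simpa [tp] using h x

theorem Ap.add {g h : ℝ → ℂ} (hg : Ap p g) (hh : Ap p h) : Ap p (fun x => g x + h x) := by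
  intro δ hδ
  obtain ⟨L1, c1, L2, c2, h1⟩ := hg (δ / 2) (by linarith)
  obtain ⟨L1', c1', L2', c2', h2⟩ := hh (δ / 2) (by linarith)
  obtain ⟨M1, d1, hd1⟩ := tp_add L1 L1' c1 c1'
  obtain ⟨M2, d2, hd2⟩ := tp_add L2 L2' c2 c2'
  refine ⟨M1, d1, M2, d2, fun x => ?_⟩
  rw [hd1, hd2, map_add]
  calc _ = ‖(g x - (tp L1 c1 (eta p x) - (starRingEnd ℂ) (tp L2 c2 x)))
        + (h x - (tp L1' c1' (eta p x) - (starRingEnd ℂ) (tp L2' c2' x)))‖ := by congr 1; ring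
    _ ≤ _ := (norm_add_le _ _).trans (by linarith [h1 x, h2 x])

theorem Ap.smul (a : ℂ) {g : ℝ → ℂ} (hg : Ap p g) : Ap p (fun x => a * g x) := by
  intro δ hδ
  obtain ⟨L1, c1, L2, c2, h1⟩ := hg (δ / (‖a‖ + 1)) (by positivity)
  refine ⟨L1, fun k => a * c1 k, L2, fun k => (starRingEnd ℂ) a * c2 k, fun x => ?_⟩
  rw [tp_smul, tp_smul, map_mul, Complex.conj_conj]
  calc _ = ‖a * (g x - (tp L1 c1 (eta p x) - (starRingEnd ℂ) (tp L2 c2 x)))‖ := by congr 1; ring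
    _ = ‖a‖ * ‖g x - (tp L1 c1 (eta p x) - (starRingEnd ℂ) (tp L2 c2 x))‖ := norm_mul _ _
    _ ≤ (‖a‖ + 1) * (δ / (‖a‖ + 1)) := by
        gcongr
        · linarith
        · exact h1 x
    _ = δ := by field_simp

theorem Ap.lim {g : ℝ → ℂ} (h : ∀ δ : ℝ, 0 < δ → ∃ g' : ℝ → ℂ, Ap p g' ∧ ∀ x, ‖g x - g' x‖ ≤ δ) :
    Ap p g := by
  intro δ hδ
  obtain ⟨g', h1, h2⟩ := h (δ / 2) (by linarith)
  obtain ⟨L1, c1, L2, c2, h3⟩ := h1 (δ / 2) (by linarith)
  refine ⟨L1, c1, L2, c2, fun x => ?_⟩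
  calc _ = ‖(g x - g' x) + (g' x - (tp L1 c1 (eta p x) - (starRingEnd ℂ) (tp L2 c2 x)))‖ := by
        congr 1; ring
    _ ≤ _ := (norm_add_le _ _).trans (by linarith [h2 x, h3 x])

theorem Ap.zz_neg (k : ℕ) : Ap p (fun x => (starRingEnd ℂ) (zz x ^ (k + 1))) := by
  intro δ hδ
  refine ⟨0, fun _ => 0, k + 1, fun j => if j = k then -1 else 0, fun x => ?_⟩
  have e1 : tp 0 (fun _ => 0) (eta p x) = 0 := by simp [tp]
  have e2 : tp (k + 1) (fun j => if j = k then -1 else 0) x = -zz x ^ (k + 1) := by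
    rw [tp_eq, Finset.sum_eq_single k]
    · rw [if_pos rfl]; ring
    · intro j _ hj
      rw [if_neg hj, zero_mul]
    · intro h; simp at h
  rw [e1, e2]
  simp [hδ.le]

end

end Pool.Agent.W756.ML
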