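import Pool.Agent.W756.ML8

/-! The one-step functions. -/

set_option autoImplicit false

open MeasureTheory Filter Topology Complex
open scoped FourierTransform Real ENNReal ContDiff

namespace Pool.Agent.W756.ML

/-- `κ = 1 / (1 - p e^{-ix})` -/
noncomputable def kap (p x : ℝ) : ℂ := (1 - p * (starRingEnd ℂ) (zz x))⁻¹

/-- the functional `ℓ` -/
noncomputable def ell (p : ℝ) (g : ℝ → ℂ) : ℂ := (2 * π : ℂ)⁻¹ * ∫ x in (0:ℝ)..(2 * π), g x * kap p x

theorem zz_continuous : Continuous zz := by unfold zz; fun_prop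

theorem conj_zz (x : ℝ) : (starRingEnd ℂ) (zz x) = Complex.exp (-(I * x)) := by
  unfold zz
  rw [← Complex.exp_conj]
  congr 1
  simp

section

variable {p : ℝ}

theorem kap_ne (h0 : 0 < p) (h1 : p < 1) (x : ℝ) : (1 - p * (starRingEnd ℂ) (zz x)) ≠ 0 := by
  intro h
  have h2 : ‖(p * (starRingEnd ℂ) (zz x) : ℂ)‖ = 1 := by
    rw [show (p * (starRingEnd ℂ) (zz x) : ℂ) = 1 by linear_combination -h]; simp
  rw [norm_mul, RCLike.norm_conj, zz_norm, mul_one, Complex.norm_real, Real.norm_of_nonneg h0.le] at h2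
  linarith

theorem kap_continuous (h0 : 0 < p) (h1 : p < 1) : Continuous (kap p) := by
  unfold kap
  refine Continuous.inv₀ ?_ (kap_ne h0 h1)
  exact continuous_const.sub (continuous_const.mul (Complex.continuous_conj.comp zz_continuous))

theorem kap_norm_le (h0 : 0 < p) (h1 : p < 1) (x : ℝ) : ‖kap p x‖ ≤ 1 / (1 - p) := by
  unfold kap
  have hlow : 1 - p ≤ ‖(1 - p * (starRingEnd ℂ) (zz x) : ℂ)‖ := by
    have := norm_sub_norm_le (1 : ℂ) (p * (starRingEnd ℂ) (zz x))
    rw [norm_one, norm_mul, RCLike.norm_conj, zz_norm, mul_one, Complex.norm_real,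
      Real.norm_of_nonneg h0.le] at this
    exact this
  rw [norm_inv, one_div]
  have : 0 < 1 - p := by linarith
  gcongr

theorem ell_add (h0 : 0 < p) (h1 : p < 1) {g h : ℝ → ℂ} (hg : Continuous g) (hh : Continuous h) :
    ell p (fun x => g x + h x) = ell p g + ell p h := by
  unfold ell
  have hk := kap_continuous h0 h1
  have i1 : IntervalIntegrable (fun x => g x * kap p x) volume 0 (2 * π) :=
    (hg.mul hk).intervalIntegrable _ _
  have i2 : IntervalIntegrable (fun x => h x * kap p x) volume 0 (2 * π) :=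
    (hh.mul hk).intervalIntegrable _ _
  rw [← mul_add, ← intervalIntegral.integral_add i1 i2]
  congr 1
  refine intervalIntegral.integral_congr fun x _ => ?_
  simp only; ring

theorem ell_smul (a : ℂ) (g : ℝ → ℂ) : ell p (fun x => a * g x) = a * ell p g := by
  unfold ell
  have e : ∀ x, a * g x * kap p x = a * (g x * kap p x) := fun x => mul_assoc _ _ _
  simp_rw [e]
  rw [intervalIntegral.integral_const_mul]
  ring

theorem ell_norm_le (h0 : 0 < p) (h1 : p < 1) {g : ℝ → ℂ} {δ : ℝ} (hb : ∀ x, ‖g x‖ ≤ δ) :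
    ‖ell p g‖ ≤ δ / (1 - p) := by
  unfold ell
  have h1p : 0 < 1 - p := by linarith
  have hδ : 0 ≤ δ := (norm_nonneg _).trans (hb 0)
  have h2 := intervalIntegral.norm_integral_le_of_norm_le_const (a := 0) (b := 2 * π)
    (f := fun x => g x * kap p x) (C := δ * (1 / (1 - p))) (fun x _ => by
      rw [norm_mul]
      exact mul_le_mul (hb x) (kap_norm_le h0 h1 x) (norm_nonneg _) hδ)
  rw [norm_mul, norm_inv]
  have h3 : ‖(2 * π : ℂ)‖ = 2 * π := by
    rw [norm_mul, Complex.norm_real, Real.norm_of_nonneg Real.pi_pos.le]; simp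
  rw [h3]
  rw [sub_zero, abs_of_pos Real.two_pi_pos] at h2
  have hpi := Real.two_pi_pos
  calc (2 * π)⁻¹ * ‖∫ x in (0:ℝ)..(2 * π), g x * kap p x‖ ≤ (2 * π)⁻¹ * (δ * (1 / (1 - p)) * (2 * π)) := by
        gcongr
    _ = δ / (1 - p) := by field_simp

/-- `e^{inx}` -/
noncomputable def en (n : ℤ) (x : ℝ) : ℂ := Complex.exp (I * (n * x))

theorem en_continuous (n : ℤ) : Continuous (en n) := by unfold en; fun_prop

theorem en_norm (n : ℤ) (x : ℝ) : ‖en n x‖ = 1 := by
  unfold en
  rw [show (I * (n * x) : ℂ) = (((n : ℝ) * x : ℝ) : ℂ) * I by push_cast; ring]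
  exact Complex.norm_exp_ofReal_mul_I _

theorem integral_en (n : ℤ) : ∫ x in (0:ℝ)..(2 * π), en n x = if n = 0 then (2 * π : ℂ) else 0 := by
  split_ifs with h
  · subst h
    simp [en]
  · have hc : (I * n : ℂ) ≠ 0 := mul_ne_zero Complex.I_ne_zero (by exact_mod_cast h)
    have h1 := integral_exp_mul_complex (a := 0) (b := 2 * π) hc
    have e1 : ∀ x : ℝ, en n x = Complex.exp (I * n * x) := fun x => by unfold en; rw [mul_assoc]
    simp_rw [e1]
    rw [h1]
    have e2 : Complex.exp (I * n * ((2 * π : ℝ) : ℂ)) = 1 := by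
      rw [show (I * n * ((2 * π : ℝ) : ℂ)) = n * (2 * π * I) by push_cast; ring]
      exact Complex.exp_int_mul_two_pi_mul_I n
    rw [e2]
    simp

theorem ell_rec (h0 : 0 < p) (h1 : p < 1) (n : ℤ) :
    ell p (en n) = p * ell p (en (n - 1)) + if n = 0 then 1 else 0 := by
  have hk := kap_continuous h0 h1
  have e1 : ∀ x, en n x * kap p x = p * (en (n - 1) x * kap p x) + en n x := by
    intro x
    have hne := kap_ne h0 h1 x
    have e2 : en (n - 1) x = en n x * (starRingEnd ℂ) (zz x) := by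
      rw [conj_zz]
      unfold en
      rw [← Complex.exp_add]
      congr 1
      push_cast; ring
    rw [e2]
    unfold kap
    field_simp
    ring
  unfold ell
  simp_rw [e1]
  rw [intervalIntegral.integral_add, intervalIntegral.integral_const_mul, integral_en]
  · have : (2 * π : ℂ) ≠ 0 := by exact_mod_cast Real.two_pi_pos.ne'
    split_ifs with h
    · field_simp
    · ring
  · exact (continuous_const.mul ((en_continuous _).mul hk)).intervalIntegrable _ _
  · exact (en_continuous _).intervalIntegrable _ _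

theorem ell_neg (h0 : 0 < p) (h1 : p < 1) (k : ℕ) : ell p (en (-(k + 1 : ℕ))) = 0 := by
  have hrec : ∀ (j k : ℕ), ell p (en (-(k + 1 : ℕ))) = p ^ j * ell p (en (-(k + j + 1 : ℕ))) := by
    intro j
    induction j with
    | zero => intro k; simp
    | succ j ih =>
      intro k
      rw [ih k, ell_rec h0 h1 (-(k + j + 1 : ℕ)), if_neg (by push_cast; omega), add_zero, pow_succ]
      have : (-((k + j + 1 : ℕ) : ℤ) - 1) = -((k + (j + 1) + 1 : ℕ) : ℤ) := by push_cast; ring
      rw [this]; ring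
  have hb : ∀ j : ℕ, ‖ell p (en (-(k + 1 : ℕ)))‖ ≤ p ^ j * (1 / (1 - p)) := by
    intro j
    rw [hrec j k, norm_mul, norm_pow, Complex.norm_real, Real.norm_of_nonneg h0.le]
    gcongr
    exact ell_norm_le h0 h1 fun x => (en_norm _ x).le
  have hlim : Tendsto (fun j : ℕ => p ^ j * (1 / (1 - p))) atTop (𝓝 0) := by
    have := (tendsto_pow_atTop_nhds_zero_of_lt_one h0.le h1).mul_const (1 / (1 - p))
    rwa [zero_mul] at this
  have := ge_of_tendsto hlim (Eventually.of_forall hb)
  exact norm_le_zero_iff.1 this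

theorem ell_pos (h0 : 0 < p) (h1 : p < 1) (k : ℕ) : ell p (en k) = p ^ k := by
  induction k with
  | zero =>
    rw [ell_rec h0 h1]
    have := ell_neg h0 h1 0
    simp only [Nat.cast_zero, zero_sub, if_true, pow_zero]
    have e : (-1 : ℤ) = -((0 + 1 : ℕ) : ℤ) := by norm_num
    rw [e, this]; ring
  | succ k ih =>
    rw [ell_rec h0 h1, if_neg (by push_cast; omega), add_zero]
    have e : (((k + 1 : ℕ) : ℤ) - 1) = (k : ℤ) := by push_cast; ring
    rw [e, ih, pow_succ]; ring

instance fact2pi : Fact (0 < 2 * π) := ⟨Real.two_pi_pos⟩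

/-- the good class -/
def Pd (p : ℝ) (g : C(AddCircle (2 * π), ℂ)) : Prop :=
  Ap p (fun x : ℝ => g (x : AddCircle (2 * π)) - ell p (fun y : ℝ => g (y : AddCircle (2 * π))))

theorem cont_coe (g : C(AddCircle (2 * π), ℂ)) : Continuous fun x : ℝ => g (x : AddCircle (2 * π)) :=
  g.continuous.comp (AddCircle.continuous_mk' _)

theorem fourier_en (n : ℤ) (x : ℝ) : fourier n (x : AddCircle (2 * π)) = en n x := by
  rw [fourier_coe_apply]
  unfold en
  congr 1
  have : (π : ℂ) ≠ 0 := by exact_mod_cast Real.pi_ne_zero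
  push_cast
  field_simp

theorem Pd_fourier (h0 : 0 < p) (h1 : p < 1) (n : ℤ) : Pd p (fourier n) := by
  unfold Pd
  simp_rw [fourier_en]
  rcases lt_or_ge n 0 with hn | hn
  · obtain ⟨k, rfl⟩ : ∃ k : ℕ, n = -(k + 1 : ℕ) := ⟨(-n - 1).toNat, by push_cast; omega⟩
    rw [ell_neg h0 h1]
    refine Eq.mp (congrArg (Ap p) (funext fun x => ?_)) (Ap.zz_neg k)
    rw [sub_zero, map_pow, conj_zz, ← Complex.exp_nat_mul]
    unfold en
    congr 1
    push_cast; ring
  · obtain ⟨k, rfl⟩ : ∃ k : ℕ, n = k := ⟨n.toNat, by omega⟩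
    rw [ell_pos h0 h1]
    refine Eq.mp (congrArg (Ap p) (funext fun x => ?_)) (Yc.zz_pow_sub h0 h1 k).ap
    rw [zz_pow]
    unfold zz en
    push_cast
    rfl

theorem Pd_span (h0 : 0 < p) (h1 : p < 1) (q : C(AddCircle (2 * π), ℂ))
    (hq : q ∈ Submodule.span ℂ (Set.range (@fourier (2 * π)))) : Pd p q := by
  induction hq using Submodule.span_induction with
  | mem x hx =>
    obtain ⟨n, rfl⟩ := hx
    exact Pd_fourier h0 h1 n
  | zero =>
    unfold Pd
    have : ell p (fun y : ℝ => (0 : C(AddCircle (2 * π), ℂ)) (y : AddCircle (2 * π))) = 0 := by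
      unfold ell; simp
    rw [this]
    simpa using Yc.zero.ap
  | add x y _ _ hx hy =>
    unfold Pd at *
    refine Eq.mp (congrArg (Ap p) (funext fun t => ?_)) (hx.add hy)
    have := ell_add h0 h1 (cont_coe x) (cont_coe y)
    simp only [ContinuousMap.add_apply]
    rw [this]; ring
  | smul a x _ hx =>
    unfold Pd at *
    refine Eq.mp (congrArg (Ap p) (funext fun t => ?_)) (hx.smul a)
    simp only [ContinuousMap.smul_apply, smul_eq_mul]
    rw [ell_smul]; ring

theorem Pd_all (h0 : 0 < p) (h1 : p < 1) (g : C(AddCircle (2 * π), ℂ)) : Pd p g := by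
  have hmem : g ∈ (Submodule.span ℂ (Set.range (@fourier (2 * π)))).topologicalClosure := by
    rw [span_fourier_closure_eq_top]; trivial
  have h1p : 0 < 1 - p := by linarith
  unfold Pd
  refine Ap.lim fun δ hδ => ?_
  set δ' := δ / (1 + 1 / (1 - p)) with hδ'
  have hδ'0 : 0 < δ' := by positivity
  have hcl : g ∈ closure (Submodule.span ℂ (Set.range (@fourier (2 * π))) : Set C(AddCircle (2 * π), ℂ)) := hmem
  obtain ⟨q, hq, hd⟩ := Metric.mem_closure_iff.1 hcl δ' hδ'0
  have hd' : ∀ x : ℝ, ‖g (x : AddCircle (2 * π)) - q (x : AddCircle (2 * π))‖ ≤ δ' := by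
    intro x
    have h2 : ‖(g - q) (x : AddCircle (2 * π))‖ ≤ ‖g - q‖ := (g - q).norm_coe_le_norm _
    rw [dist_eq_norm] at hd
    exact h2.trans hd.le
  refine ⟨_, Pd_span h0 h1 q hq, fun x => ?_⟩
  have e1 : ell p (fun y : ℝ => g (y : AddCircle (2 * π))) - ell p (fun y : ℝ => q (y : AddCircle (2 * π)))
      = ell p (fun y : ℝ => g (y : AddCircle (2 * π)) - q (y : AddCircle (2 * π))) := by
    have h2 := ell_add h0 h1 (g := fun y : ℝ => g (y : AddCircle (2 * π)))
      (h := fun y : ℝ => (-1 : ℂ) * q (y : AddCircle (2 * π))) (cont_coe g)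
      (continuous_const.mul (cont_coe q))
    rw [ell_smul] at h2
    have h3 : (fun y : ℝ => g (y : AddCircle (2 * π)) - q (y : AddCircle (2 * π)))
        = fun y : ℝ => g (y : AddCircle (2 * π)) + (-1 : ℂ) * q (y : AddCircle (2 * π)) := by
      funext y; ring
    rw [h3, h2]; ring
  have h4 := ell_norm_le h0 h1 hd'
  calc _ = ‖(g (x : AddCircle (2 * π)) - q (x : AddCircle (2 * π)))
        - (ell p (fun y : ℝ => g (y : AddCircle (2 * π))) - ell p (fun y : ℝ => q (y : AddCircle (2 * π))))‖ := by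
        congr 1; ring
    _ ≤ δ' + δ' / (1 - p) := by
        refine (norm_sub_le _ _).trans (add_le_add (hd' x) ?_)
        rw [e1]; exact h4
    _ = δ := by rw [hδ']; field_simp

/-- a continuous periodic function as a function on the circle -/
noncomputable def mkC (f : ℝ → ℂ) (hf : Function.Periodic f (2 * π)) (hc : Continuous f) :
    C(AddCircle (2 * π), ℂ) := ⟨hf.lift, continuous_coinduced_dom.2 hc⟩

theorem ap_of_periodic (h0 : 0 < p) (h1 : p < 1) {f : ℝ → ℂ} (hf : Function.Periodic f (2 * π))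
    (hc : Continuous f) : Ap p (fun x => f x - ell p f) := by
  have := Pd_all h0 h1 (mkC f hf hc)
  exact this

end

/-- the basic numbers and the one-step approximation -/
theorem one_step : ∃ p p1 p2 a : ℝ, 0 < p ∧ p < 1 ∧ p1 < p2 ∧ p2 < p ∧ 0 < a ∧ a < 1 ∧
    ∀ ε : ℝ, 0 < ε → ∃ (L1 : ℕ) (c1 : ℕ → ℂ) (L2 : ℕ) (c2 : ℕ → ℂ), ∀ x : ℝ,
      ‖1 + tp L1 c1 (eta p x) - (starRingEnd ℂ) (tp L2 c2 x)‖ ≤ a ∧
      (p1 ≤ Real.cos x → ‖1 + tp L1 c1 (eta p x) - (starRingEnd ℂ) (tp L2 c2 x)‖ ≤ ε) := by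
  set ρ : ℝ := 1 / 1000 with hρ
  set p0 := Real.cos ρ with hp0
  have hpi3 := Real.pi_gt_three
  have hpi4 := Real.pi_le_four
  have hp0lt : p0 < 1 := by
    have := Real.cos_lt_cos_of_nonneg_of_le_pi (x := 0) (y := ρ) le_rfl (by rw [hρ]; linarith) (by rw [hρ]; norm_num)
    rwa [Real.cos_zero] at this
  have hp0pos : 0 < p0 := Real.cos_pos_of_mem_Ioo ⟨by rw [hρ]; linarith, by rw [hρ]; linarith⟩
  set p1 := (3 * p0 + 1) / 4 with hp1
  set p2 := (p0 + 1) / 2 with hp2
  set p := (p0 + 3) / 4 with hp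
  have k01 : p0 < p1 := by rw [hp1]; linarith
  have k12 : p1 < p2 := by rw [hp1, hp2]; linarith
  have k2 : p2 < p := by rw [hp2, hp]; linarith
  have kp1 : p < 1 := by rw [hp]; linarith
  have kp0 : 0 < p := by rw [hp]; linarith
  -- the cut-off
  set s : ℝ → ℝ := fun u => min 1 (max 0 ((p1 - u) / (p1 - p0))) with hs
  have hsc : Continuous s := by
    simp only [hs]
    exact continuous_const.min (continuous_const.max ((continuous_const.sub continuous_id).div_const _))
  have hs0 : ∀ u, 0 ≤ s u := fun u => le_min zero_le_one (le_max_left _ _)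
  have hs1 : ∀ u, s u ≤ 1 := fun u => min_le_left _ _
  have hsl : ∀ u, u ≤ p0 → s u = 1 := fun u hu => by
    simp only [hs]
    have : 1 ≤ (p1 - u) / (p1 - p0) := by
      rw [le_div_iff₀ (by linarith)]; linarith
    rw [max_eq_right (by linarith), min_eq_left this]
  have hsr : ∀ u, p1 ≤ u → s u = 0 := fun u hu => by
    simp only [hs]
    have : (p1 - u) / (p1 - p0) ≤ 0 := div_nonpos_of_nonpos_of_nonneg (by linarith) (by linarith)
    rw [max_eq_left this, min_eq_right zero_le_one]
  set q : ℝ → ℂ := fun x => 1 - p * (starRingEnd ℂ) (zz x) with hq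
  have hqc : Continuous q := by
    simp only [hq]
    exact continuous_const.sub (continuous_const.mul (Complex.continuous_conj.comp zz_continuous))
  have hqne : ∀ x, q x ≠ 0 := kap_ne kp0 kp1
  have hqpos : ∀ x, 0 < ‖q x‖ := fun x => norm_pos_iff.2 (hqne x)
  have hqn : ∀ x, ‖q x‖ ^ 2 = Den p x := fun x => by
    simp only [hq]
    rw [conj_zz]
    exact norm_one_sub p x
  set F : ℝ → ℝ := fun x => s (Real.cos x) / ‖q x‖ with hF
  have hFc : Continuous F := by
    simp only [hF]
    exact (hsc.comp Real.continuous_cos).div hqc.norm fun x => (hqpos x).ne'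
  have hF0 : ∀ x, 0 ≤ F x := fun x => div_nonneg (hs0 _) (norm_nonneg _)
  set A := ∫ x in (0:ℝ)..(2 * π), F x with hA
  have hAlow : 7 < A := by
    have h1 : ∫ x in ρ..π, x⁻¹ ≤ ∫ x in ρ..π, F x := by
      have hρπ : ρ ≤ π := by rw [hρ]; linarith
      refine intervalIntegral.integral_mono_on hρπ ?_ (hFc.intervalIntegrable _ _) ?_
      · refine ContinuousOn.intervalIntegrable ?_
        rw [Set.uIcc_of_le hρπ]
        refine continuousOn_inv₀.mono fun x hx => ?_
        have : (0:ℝ) < ρ := by rw [hρ]; norm_num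
        simp only [Set.mem_compl_iff, Set.mem_singleton_iff]
        exact (lt_of_lt_of_le this hx.1).ne'
      · intro x hx
        have hρ0 : (0:ℝ) < ρ := by rw [hρ]; norm_num
        have hx0 : 0 < x := lt_of_lt_of_le hρ0 hx.1
        have hcos : Real.cos x ≤ p0 := Real.cos_le_cos_of_nonneg_of_le_pi hρ0.le hx.2 hx.1
        have h2 : ‖q x‖ ≤ x := by
          refine abs_le_of_sq_le_sq' ?_ hx0.le |>.2
          rw [hqn]
          unfold Den
          have h3 := Real.one_sub_sq_div_two_le_cos (x := x)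
          have h4 : 1 - p ≤ 2 * (1 - Real.cos x) := by
            have : p0 < p := by linarith
            linarith
          have h5 : 0 < 1 - p := by linarith
          nlinarith
        simp only [hF]
        rw [hsl _ hcos, inv_eq_one_div]
        exact div_le_div_of_nonneg_left zero_le_one (hqpos x) h2
    have h2 : ∫ x in ρ..π, F x ≤ A := by
      rw [hA]
      refine intervalIntegral.integral_mono_interval (by rw [hρ]; norm_num) (by rw [hρ]; linarith)
        (by linarith) (Eventually.of_forall hF0) (hFc.intervalIntegrable _ _)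
    rw [integral_inv_of_pos (by rw [hρ]; norm_num) Real.pi_pos] at h1
    have h3 : (7:ℝ) < Real.log (π / ρ) := by
      rw [Real.lt_log_iff_exp_lt (by rw [hρ]; positivity)]
      have e1 : Real.exp 7 = Real.exp 1 ^ 7 := by rw [← Real.exp_nat_mul]; norm_num
      rw [e1]
      have h4 : Real.exp 1 ^ 7 < 2.7182818286 ^ 7 :=
        pow_lt_pow_left₀ Real.exp_one_lt_d9 (Real.exp_pos _).le (by norm_num)
      have h5 : π / ρ = 1000 * π := by rw [hρ]; ring
      rw [h5]
      have h6 : (2.7182818286 : ℝ) ^ 7 < 3000 := by norm_num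
      linarith
    linarith
  have hA0 : 0 < A := by linarith
  have hAlow' : 2 * π < A := by
    have := Real.pi_lt_d2
    linarith
  set c := 2 * π / A with hc
  have hcpos : 0 < c := div_pos Real.two_pi_pos hA0
  have hc1 : c < 1 := by rw [hc, div_lt_one hA0]; exact hAlow'
  set W : ℝ → ℂ := fun x => c * (s (Real.cos x) / ‖q x‖ : ℝ) * q x with hW
  have hWc : Continuous W := by
    simp only [hW]
    exact (continuous_const.mul (Complex.continuous_ofReal.comp hFc)).mul hqc
  have hzzper : ∀ x, zz (x + 2 * π) = zz x := fun x => by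
    unfold zz
    rw [show (I * ((x + 2 * π : ℝ) : ℂ)) = I * x + 2 * π * I by push_cast; ring, Complex.exp_add,
      Complex.exp_two_pi_mul_I, mul_one]
  have hWper : Function.Periodic W (2 * π) := fun x => by
    simp only [hW, hq, hzzper, Real.cos_add_two_pi]
  have hWell : ell p W = 1 := by
    unfold ell
    have e1 : ∀ x, W x * kap p x = ((c * F x : ℝ) : ℂ) := fun x => by
      have hne := hqne x
      simp only [hW, kap, hF]
      rw [mul_assoc]
      have : q x * (1 - p * (starRingEnd ℂ) (zz x))⁻¹ = 1 := mul_inv_cancel₀ hne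
      rw [this, mul_one]
      push_cast
      ring
    simp_rw [e1]
    rw [intervalIntegral.integral_ofReal, intervalIntegral.integral_const_mul, ← hA, hc,
      div_mul_cancel₀ _ hA0.ne']
    push_cast
    have : (2 * π : ℂ) ≠ 0 := by exact_mod_cast Real.two_pi_pos.ne'
    field_simp
  have hWn : ∀ x, ‖W x‖ = c * s (Real.cos x) := fun x => by
    simp only [hW]
    rw [norm_mul, norm_mul, Complex.norm_real, Complex.norm_real, Real.norm_of_nonneg hcpos.le,
      Real.norm_of_nonneg (hF0 x), mul_assoc, div_mul_cancel₀ _ (hqpos x).ne']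
  have hAp := ap_of_periodic kp0 kp1 hWper hWc
  rw [hWell] at hAp
  refine ⟨p, p1, p2, (1 + c) / 2, kp0, kp1, k12, k2, by linarith, by linarith, fun ε hε => ?_⟩
  obtain ⟨L1, c1, L2, c2, h⟩ := hAp (min ε ((1 - c) / 2)) (lt_min hε (by linarith))
  refine ⟨L1, c1, L2, c2, fun x => ?_⟩
  set V := 1 + tp L1 c1 (eta p x) - (starRingEnd ℂ) (tp L2 c2 x) with hV
  have h2 : ‖W x - V‖ ≤ min ε ((1 - c) / 2) := by
    have := h x
    have e : W x - V = W x - 1 - (tp L1 c1 (eta p x) - (starRingEnd ℂ) (tp L2 c2 x)) := by rw [hV]; ring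
    rw [e]; exact this
  have h3 : ‖V‖ ≤ ‖W x‖ + ‖W x - V‖ := by
    calc ‖V‖ = ‖W x - (W x - V)‖ := by congr 1; ring
      _ ≤ _ := norm_sub_le _ _
  constructor
  · have h4 : ‖W x‖ ≤ c := by
      rw [hWn]
      have := hs1 (Real.cos x)
      nlinarith
    have h5 := h2.trans (min_le_right _ _)
    linarith
  · intro hcos
    have h4 : ‖W x‖ = 0 := by rw [hWn, hsr _ hcos, mul_zero]
    have h5 := h2.trans (min_le_left _ _)
    linarith

end Pool.Agent.W756.ML
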